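import Pool.Agent.Lib.MP_ad5d82_an.h24.WDefs

set_option autoImplicit false

namespace Pool.MP_ad5d82_an.Wl

open Real Set MeasureTheory
open scoped ContDiff

/-! ### W1 derivatives, monotonicity, growth -/

private theorem W1_hasDerivAt_F {ρ ε : ℝ} {F : ℝ → ℝ} (h : Wall ρ ε F) (t : ℝ) :
    HasDerivAt F (deriv F t) t :=
  ((h.smooth.differentiable (by simp)) t).hasDerivAt

private theorem W1_hasDerivAt_F' {ρ ε : ℝ} {F : ℝ → ℝ} (h : Wall ρ ε F) (t : ℝ) :
    HasDerivAt (deriv F) (deriv (deriv F) t) t := by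
  have h1 : ContDiff ℝ ∞ (deriv F) := (contDiff_infty_iff_deriv.1 h.smooth).2
  exact ((h1.differentiable (by simp)) t).hasDerivAt

theorem hasDerivAt_s {ρ ε : ℝ} {F : ℝ → ℝ} (h : Wall ρ ε F) (r : ℝ) :
    HasDerivAt (fun r => F (r ^ 2)) (-uu F r) r := by
  have h1 : HasDerivAt (fun r : ℝ => r ^ 2) (2 * r) r := by
    simpa using hasDerivAt_pow 2 r
  have h2 := (W1_hasDerivAt_F h (r ^ 2)).comp r h1
  refine h2.congr_deriv ?_
  unfold uu
  ring

theorem hasDerivAt_u {ρ ε : ℝ} {F : ℝ → ℝ} (h : Wall ρ ε F) {r : ℝ} (hr : 0 < r) :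
    HasDerivAt (uu F) (yy F r * qq F r - uu F r / r) r := by
  have h1 : HasDerivAt (fun r : ℝ => r ^ 2) (2 * r) r := by
    simpa using hasDerivAt_pow 2 r
  have h2 : HasDerivAt (fun r : ℝ => deriv F (r ^ 2)) (deriv (deriv F) (r ^ 2) * (2 * r)) r :=
    HasDerivAt.comp (h₂ := deriv F) (h := fun r : ℝ => r ^ 2) r (W1_hasDerivAt_F' h (r ^ 2)) h1
  have h3 : HasDerivAt (fun r : ℝ => 2 * r) 2 r := by
    simpa using (hasDerivAt_id r).const_mul (2 : ℝ)
  have h4 := (h3.mul h2).neg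
  refine h4.congr_deriv ?_
  have h5 := h.ode (r ^ 2) (by positivity)
  have h6 : uu F r / r = -(2 * deriv F (r ^ 2)) := by
    unfold uu
    field_simp
  rw [h6]
  unfold yy qq
  nlinarith

theorem W1_hasDerivAt_y {ρ ε : ℝ} {F : ℝ → ℝ} (h : Wall ρ ε F) (r : ℝ) :
    HasDerivAt (yy F) (-(yy F r * uu F r)) r := by
  refine (hasDerivAt_s h r).exp.congr_deriv ?_
  unfold yy
  ring

theorem hasDerivAt_q {ρ ε : ℝ} {F : ℝ → ℝ} (h : Wall ρ ε F) (r : ℝ) :
    HasDerivAt (qq F) (yy F r * uu F r) r := by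
  have h1 := (W1_hasDerivAt_y h r).const_sub 1
  refine h1.congr_deriv ?_
  ring

theorem hasDerivAt_X {ρ ε : ℝ} {F : ℝ → ℝ} (h : Wall ρ ε F) {r : ℝ} (hr : 0 < r) :
    HasDerivAt (XX F) (qq F r ^ 2 + uu F r ^ 2) r := by
  have h1 := (hasDerivAt_q h r).pow 2
  have h2 := (hasDerivAt_u h hr).pow 2
  have h3 := (hasDerivAt_id r).mul (h1.sub h2)
  refine h3.congr_deriv ?_
  have h4 : r * (uu F r / r) = uu F r := by field_simp
  simp only [id, Pi.sub_apply, Pi.pow_apply]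
  push_cast
  have h5 : ∀ z : ℝ, r * z = uu F r → 1 * (qq F r ^ 2 - uu F r ^ 2) +
      r * (2 * qq F r ^ (2 - 1) * (yy F r * uu F r) -
        2 * uu F r ^ (2 - 1) * (yy F r * qq F r - z)) = qq F r ^ 2 + uu F r ^ 2 := by
    intro z hz
    have : r * (2 * uu F r * z) = 2 * uu F r * uu F r := by rw [← hz]; ring
    norm_num
    linarith
  exact h5 _ h4

theorem W1_continuous_s {ρ ε : ℝ} {F : ℝ → ℝ} (h : Wall ρ ε F) : Continuous fun r => F (r ^ 2) :=
  continuous_iff_continuousAt.2 fun r => (hasDerivAt_s h r).continuousAt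

theorem W1_continuous_y {ρ ε : ℝ} {F : ℝ → ℝ} (h : Wall ρ ε F) : Continuous (yy F) :=
  continuous_iff_continuousAt.2 fun r => (W1_hasDerivAt_y h r).continuousAt

theorem W1_continuous_q {ρ ε : ℝ} {F : ℝ → ℝ} (h : Wall ρ ε F) : Continuous (qq F) :=
  continuous_iff_continuousAt.2 fun r => (hasDerivAt_q h r).continuousAt

theorem W1_continuous_u {ρ ε : ℝ} {F : ℝ → ℝ} (h : Wall ρ ε F) : Continuous (uu F) := by
  have h1 : Continuous (deriv F) :=
    continuous_iff_continuousAt.2 fun r => (W1_hasDerivAt_F' h r).continuousAt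
  unfold uu
  fun_prop

theorem W1_continuous_X {ρ ε : ℝ} {F : ℝ → ℝ} (h : Wall ρ ε F) : Continuous (XX F) := by
  have h1 := W1_continuous_q h
  have h2 := W1_continuous_u h
  unfold XX
  fun_prop

/-- `P t = 4 t F' t` -/
private theorem W1_hasDerivAt_P {ρ ε : ℝ} {F : ℝ → ℝ} (h : Wall ρ ε F) {t : ℝ} (ht : 0 ≤ t) :
    HasDerivAt (fun t => 4 * t * deriv F t) (exp (F t) * (exp (F t) - 1)) t := by
  have h3 : HasDerivAt (fun t : ℝ => 4 * t) 4 t := by
    simpa using (hasDerivAt_id t).const_mul (4 : ℝ)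
  refine (h3.mul (W1_hasDerivAt_F' h t)).congr_deriv ?_
  have := h.ode t ht
  linarith

private theorem W1_anti_of_neg {ρ ε : ℝ} {F : ℝ → ℝ} (h : Wall ρ ε F) {T : ℝ}
    (hn : ∀ t, 0 ≤ t → t < T → F t < 0) : AntitoneOn F (Icc 0 T) := by
  have hPc : Continuous fun t => 4 * t * deriv F t := by
    have h1 : Continuous (deriv F) :=
      continuous_iff_continuousAt.2 fun r => (W1_hasDerivAt_F' h r).continuousAt
    fun_prop
  have hP : AntitoneOn (fun t => 4 * t * deriv F t) (Icc 0 T) := by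
    refine antitoneOn_of_deriv_nonpos (convex_Icc 0 T) hPc.continuousOn ?_ ?_
    · intro t ht
      rw [interior_Icc] at ht
      exact (W1_hasDerivAt_P h ht.1.le).differentiableAt.differentiableWithinAt
    · intro t ht
      rw [interior_Icc] at ht
      rw [(W1_hasDerivAt_P h ht.1.le).deriv]
      have h1 : exp (F t) < 1 := by
        rw [exp_lt_one_iff]
        exact hn t ht.1.le ht.2
      have h2 := exp_pos (F t)
      nlinarith
  have hFc : Continuous F := h.smooth.continuous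
  refine antitoneOn_of_deriv_nonpos (convex_Icc 0 T) hFc.continuousOn ?_ ?_
  · intro t _
    exact (W1_hasDerivAt_F h t).differentiableAt.differentiableWithinAt
  · intro t ht
    rw [interior_Icc] at ht
    have h1 := hP (left_mem_Icc.2 (ht.1.le.trans ht.2.le)) ⟨ht.1.le, ht.2.le⟩ ht.1.le
    simp only [mul_zero, zero_mul] at h1
    have h2 : 0 < 4 * t := by linarith [ht.1]
    by_contra hcon
    push Not at hcon
    nlinarith

private theorem W1_neg {ρ ε : ℝ} {F : ℝ → ℝ} (h : Wall ρ ε F) {t : ℝ} (ht : 0 ≤ t) :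
    F t < 0 := by
  by_contra hcon
  push Not at hcon
  have hFc : Continuous F := h.smooth.continuous
  obtain ⟨Z, hZ⟩ : ∃ Z : Set ℝ, Z = {t | 0 ≤ t ∧ 0 ≤ F t} := ⟨_, rfl⟩
  have hZc : IsClosed Z := by
    rw [hZ]
    exact (isClosed_le continuous_const continuous_id).inter
      (isClosed_le continuous_const hFc)
  have hZne : Z.Nonempty := ⟨t, by rw [hZ]; exact ⟨ht, hcon⟩⟩
  have hZb : BddBelow Z := ⟨0, fun x hx => by rw [hZ] at hx; exact hx.1⟩
  have hmem := hZc.csInf_mem hZne hZb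
  obtain ⟨T, hT⟩ : ∃ T : ℝ, T = sInf Z := ⟨_, rfl⟩
  rw [← hT, hZ] at hmem
  have hn : ∀ t, 0 ≤ t → t < T → F t < 0 := by
    intro x hx hxT
    by_contra hc
    push Not at hc
    have : T ≤ x := by
      rw [hT]
      exact csInf_le hZb (by rw [hZ]; exact ⟨hx, hc⟩)
    linarith
  have ha := W1_anti_of_neg h hn (left_mem_Icc.2 hmem.1) (right_mem_Icc.2 hmem.1) hmem.1
  rw [h.F0] at ha
  have := hmem.2
  have := h.hε
  linarith

private theorem W1_P_anti {ρ ε : ℝ} {F : ℝ → ℝ} (h : Wall ρ ε F) :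
    StrictAntiOn (fun t => 4 * t * deriv F t) (Ici 0) := by
  have hPc : Continuous fun t => 4 * t * deriv F t := by
    have h1 : Continuous (deriv F) :=
      continuous_iff_continuousAt.2 fun r => (W1_hasDerivAt_F' h r).continuousAt
    fun_prop
  refine strictAntiOn_of_deriv_neg (convex_Ici 0) hPc.continuousOn ?_
  intro t ht
  rw [interior_Ici] at ht
  have ht0 : 0 < t := ht
  rw [(W1_hasDerivAt_P h ht0.le).deriv]
  have h1 : exp (F t) < 1 := by
    rw [exp_lt_one_iff]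
    exact W1_neg h ht0.le
  have h2 := exp_pos (F t)
  nlinarith

private theorem W1_F'_neg {ρ ε : ℝ} {F : ℝ → ℝ} (h : Wall ρ ε F) {t : ℝ} (ht : 0 < t) :
    deriv F t < 0 := by
  have h1 := W1_P_anti h (mem_Ici.2 (le_refl (0 : ℝ))) (show t ∈ Ici (0 : ℝ) from ht.le) ht
  simp only [mul_zero, zero_mul] at h1
  by_contra hcon
  push Not at hcon
  nlinarith

theorem u_pos {ρ ε : ℝ} {F : ℝ → ℝ} (h : Wall ρ ε F) {r : ℝ} (hr : 0 < r) : 0 < uu F r := by
  have h1 := W1_F'_neg h (show 0 < r ^ 2 by positivity)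
  unfold uu
  nlinarith

theorem W1_u_zero (F : ℝ → ℝ) : uu F 0 = 0 := by
  unfold uu
  simp

theorem W1_u_nonneg {ρ ε : ℝ} {F : ℝ → ℝ} (h : Wall ρ ε F) {r : ℝ} (hr : 0 ≤ r) : 0 ≤ uu F r := by
  rcases hr.eq_or_lt with h1 | h1
  · rw [← h1, W1_u_zero]
  · exact (u_pos h h1).le

theorem s_anti {ρ ε : ℝ} {F : ℝ → ℝ} (h : Wall ρ ε F) :
    StrictAntiOn (fun r => F (r ^ 2)) (Ici 0) := by
  refine strictAntiOn_of_deriv_neg (convex_Ici 0) (W1_continuous_s h).continuousOn ?_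
  intro r hr
  rw [interior_Ici] at hr
  rw [(hasDerivAt_s h r).deriv]
  have := u_pos h (show 0 < r from hr)
  linarith

theorem s_le {ρ ε : ℝ} {F : ℝ → ℝ} (h : Wall ρ ε F) {r : ℝ} (hr : 0 ≤ r) :
    F (r ^ 2) ≤ -ε := by
  have h1 := (s_anti h).antitoneOn (mem_Ici.2 (le_refl (0 : ℝ)))
    (show r ∈ Ici (0 : ℝ) from hr) hr
  simpa [h.F0] using h1

theorem W1_y_pos (F : ℝ → ℝ) (r : ℝ) : 0 < yy F r := exp_pos _

theorem W1_q_pos {ρ ε : ℝ} {F : ℝ → ℝ} (h : Wall ρ ε F) {r : ℝ} (hr : 0 ≤ r) : 0 < qq F r := by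
  have h1 := s_le h hr
  have h2 : exp (F (r ^ 2)) < 1 := by
    rw [exp_lt_one_iff]
    have := h.hε
    linarith
  unfold qq
  linarith

theorem W1_y_add_q (F : ℝ → ℝ) (r : ℝ) : yy F r + qq F r = 1 := by
  unfold yy qq
  ring

theorem W1_q_lt_one (F : ℝ → ℝ) (r : ℝ) : qq F r < 1 := by
  have := W1_y_pos F r
  have := W1_y_add_q F r
  linarith

theorem W1_y_lt_one {ρ ε : ℝ} {F : ℝ → ℝ} (h : Wall ρ ε F) {r : ℝ} (hr : 0 ≤ r) : yy F r < 1 := by
  have := W1_q_pos h hr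
  have := W1_y_add_q F r
  linarith

theorem W1_X_zero (F : ℝ → ℝ) : XX F 0 = 0 := by
  unfold XX
  simp

theorem W1_X_mono {ρ ε : ℝ} {F : ℝ → ℝ} (h : Wall ρ ε F) : StrictMonoOn (XX F) (Ici 0) := by
  refine strictMonoOn_of_deriv_pos (convex_Ici 0) (W1_continuous_X h).continuousOn ?_
  intro r hr
  rw [interior_Ici] at hr
  have hr0 : 0 < r := hr
  rw [(hasDerivAt_X h hr0).deriv]
  have := u_pos h hr0
  positivity

theorem W1_X_pos {ρ ε : ℝ} {F : ℝ → ℝ} (h : Wall ρ ε F) {r : ℝ} (hr : 0 < r) : 0 < XX F r := by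
  have h1 := W1_X_mono h (mem_Ici.2 (le_refl (0 : ℝ))) (show r ∈ Ici (0 : ℝ) from hr.le) hr
  rwa [W1_X_zero] at h1

theorem u_lt_q {ρ ε : ℝ} {F : ℝ → ℝ} (h : Wall ρ ε F) {r : ℝ} (hr : 0 ≤ r) :
    uu F r < qq F r := by
  rcases hr.eq_or_lt with h0 | h0
  · rw [← h0, W1_u_zero]
    exact W1_q_pos h le_rfl
  · have h1 := W1_X_pos h h0
    unfold XX at h1
    have h2 : 0 < qq F r ^ 2 - uu F r ^ 2 := by
      by_contra hcon
      push Not at hcon
      nlinarith
    have h3 := W1_q_pos h hr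
    have h4 := u_pos h h0
    nlinarith

theorem W1_hasDerivAt_ru {ρ ε : ℝ} {F : ℝ → ℝ} (h : Wall ρ ε F) {r : ℝ} (hr : 0 < r) :
    HasDerivAt (fun r => r * uu F r) (r * (yy F r * qq F r)) r := by
  refine ((hasDerivAt_id r).mul (hasDerivAt_u h hr)).congr_deriv ?_
  simp only [id]
  field_simp
  ring

theorem ru_mono {ρ ε : ℝ} {F : ℝ → ℝ} (h : Wall ρ ε F) :
    MonotoneOn (fun r => r * uu F r) (Ici 0) := by
  refine monotoneOn_of_deriv_nonneg (convex_Ici 0)
    (continuous_id.mul (W1_continuous_u h)).continuousOn ?_ ?_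
  · intro r hr
    rw [interior_Ici] at hr
    exact (W1_hasDerivAt_ru h (show 0 < r from hr)).differentiableAt.differentiableWithinAt
  · intro r hr
    rw [interior_Ici] at hr
    have hr0 : 0 < r := hr
    rw [(W1_hasDerivAt_ru h hr0).deriv]
    have := W1_y_pos F r
    have := W1_q_pos h hr0.le
    positivity

theorem W1_yq_le {F : ℝ → ℝ} (r : ℝ) : yy F r * qq F r ≤ 1 / 4 := by
  have h1 := W1_y_add_q F r
  have h2 : qq F r = 1 - yy F r := by linarith
  rw [h2]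
  nlinarith [sq_nonneg (yy F r - 1 / 2)]

theorem u_le {ρ ε : ℝ} {F : ℝ → ℝ} (h : Wall ρ ε F) {r : ℝ} (hr : 0 ≤ r) :
    uu F r ≤ r / 8 := by
  rcases hr.eq_or_lt with h0 | h0
  · rw [← h0, W1_u_zero]
    norm_num
  have hd : ∀ x : ℝ, 0 < x → HasDerivAt (fun r => r ^ 2 / 8 - r * uu F r)
      (x / 4 - x * (yy F x * qq F x)) x := by
    intro x hx
    have h1 : HasDerivAt (fun r : ℝ => r ^ 2 / 8) (x / 4) x := by
      have := (hasDerivAt_pow 2 x).div_const 8
      refine this.congr_deriv ?_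
      push_cast
      ring
    exact h1.sub (W1_hasDerivAt_ru h hx)
  have hc : Continuous fun r => r ^ 2 / 8 - r * uu F r := by
    have := W1_continuous_u h
    fun_prop
  have hm : MonotoneOn (fun r => r ^ 2 / 8 - r * uu F r) (Ici 0) := by
    refine monotoneOn_of_deriv_nonneg (convex_Ici 0) hc.continuousOn ?_ ?_
    · intro x hx
      rw [interior_Ici] at hx
      exact (hd x hx).differentiableAt.differentiableWithinAt
    · intro x hx
      rw [interior_Ici] at hx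
      have hx0 : 0 < x := hx
      rw [(hd x hx0).deriv]
      have := W1_yq_le (F := F) x
      nlinarith
  have h2 := hm (mem_Ici.2 (le_refl (0 : ℝ))) (show r ∈ Ici (0 : ℝ) from hr) hr
  simp only [zero_mul] at h2
  have h3 : r * uu F r ≤ r * (r / 8) := by nlinarith
  exact le_of_mul_le_mul_left h3 h0

theorem s_growth {ρ ε : ℝ} {F : ℝ → ℝ} (h : Wall ρ ε F) {r : ℝ} (hr : 0 ≤ r) :
    -F (r ^ 2) ≤ ε * exp r := by
  have hd : ∀ x : ℝ, HasDerivAt (fun r => -F (r ^ 2) * exp (-r))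
      ((uu F x + F (x ^ 2)) * exp (-x)) x := by
    intro x
    have h1 := (hasDerivAt_s h x).neg
    have h2 : HasDerivAt (fun r : ℝ => exp (-r)) (exp (-x) * -1) x :=
      (hasDerivAt_neg x).exp
    refine (h1.mul h2).congr_deriv ?_
    simp only [Pi.neg_apply]
    ring
  have hc : Continuous fun r => -F (r ^ 2) * exp (-r) :=
    continuous_iff_continuousAt.2 fun x => (hd x).continuousAt
  have hm : AntitoneOn (fun r => -F (r ^ 2) * exp (-r)) (Ici 0) := by
    refine antitoneOn_of_deriv_nonpos (convex_Ici 0) hc.continuousOn ?_ ?_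
    · intro x _
      exact (hd x).differentiableAt.differentiableWithinAt
    · intro x hx
      rw [interior_Ici] at hx
      have hx0 : 0 < x := hx
      rw [(hd x).deriv]
      have h3 := u_lt_q h hx0.le
      have h4 : qq F x ≤ -F (x ^ 2) := by
        have := add_one_le_exp (F (x ^ 2))
        unfold qq
        linarith
      have h5 := exp_pos (-x)
      nlinarith
  have h2 := hm (mem_Ici.2 (le_refl (0 : ℝ))) (show r ∈ Ici (0 : ℝ) from hr) hr
  simp only [ne_eq, OfNat.ofNat_ne_zero, not_false_eq_true, zero_pow, neg_zero, exp_zero,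
    mul_one, h.F0, neg_neg] at h2
  have h3 : -F (r ^ 2) = -F (r ^ 2) * exp (-r) * exp r := by
    rw [mul_assoc, ← exp_add, neg_add_cancel, exp_zero, mul_one]
  rw [h3]
  exact mul_le_mul_of_nonneg_right h2 (exp_pos r).le

theorem eps_ge {ρ ε : ℝ} {F : ℝ → ℝ} (h : Wall ρ ε F) : Real.log 2 * exp (-ρ) ≤ ε := by
  have hρ : 0 ≤ ρ := by linarith [h.hρ]
  have h1 := s_growth h hρ
  rw [h.Fρ, neg_neg] at h1
  calc Real.log 2 * exp (-ρ) ≤ ε * exp ρ * exp (-ρ) :=
        mul_le_mul_of_nonneg_right h1 (exp_pos _).le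
    _ = ε := by rw [mul_assoc, ← exp_add, add_neg_cancel, exp_zero, mul_one]

theorem W1_y_anti {ρ ε : ℝ} {F : ℝ → ℝ} (h : Wall ρ ε F) : StrictAntiOn (yy F) (Ici 0) := by
  intro a ha b hb hab
  exact exp_lt_exp.2 (s_anti h ha hb hab)

theorem W1_q_mono {ρ ε : ℝ} {F : ℝ → ℝ} (h : Wall ρ ε F) : StrictMonoOn (qq F) (Ici 0) := by
  intro a ha b hb hab
  have h1 := W1_y_anti h ha hb hab
  have h2 := W1_y_add_q F a
  have h3 := W1_y_add_q F b
  linarith

theorem W1_y_rho {ρ ε : ℝ} {F : ℝ → ℝ} (h : Wall ρ ε F) : yy F ρ = 1 / 2 := by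
  unfold yy
  rw [h.Fρ, exp_neg, exp_log (by norm_num)]
  norm_num

theorem y_ge_half {ρ ε : ℝ} {F : ℝ → ℝ} (h : Wall ρ ε F) {r : ℝ} (hr : 0 ≤ r) (hr' : r ≤ ρ) :
    1 / 2 ≤ yy F r := by
  rw [← W1_y_rho h]
  exact (W1_y_anti h).antitoneOn (show r ∈ Ici (0 : ℝ) from hr)
    (show ρ ∈ Ici (0 : ℝ) from hr.trans hr') hr'

theorem y_le_half {ρ ε : ℝ} {F : ℝ → ℝ} (h : Wall ρ ε F) {r : ℝ} (hr : ρ ≤ r) :
    yy F r ≤ 1 / 2 := by
  have hρ : 0 ≤ ρ := by linarith [h.hρ]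
  rw [← W1_y_rho h]
  exact (W1_y_anti h).antitoneOn (show ρ ∈ Ici (0 : ℝ) from hρ)
    (show r ∈ Ici (0 : ℝ) from hρ.trans hr) hr

end Pool.MP_ad5d82_an.Wl
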