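import Pool.Agent.Lib.MP_ad5d82_an.h24.WDefs
import Pool.Agent.Lib.MP_ad5d82_an.h24.W.W1

set_option autoImplicit false

namespace Pool.MP_ad5d82_an.Wl

open Real Set MeasureTheory
open scoped ContDiff

/-! ### W3 bounds for `1 - (u/q)²` -/

private theorem W3_nonneg {Z Z' : ℝ → ℝ} {b : ℝ} (hc : Continuous Z) (h0 : 0 ≤ Z 0)
    (hd : ∀ r, 0 < r → r < b → HasDerivAt Z (Z' r) r)
    (hs : ∀ r, 0 < r → r < b → Z r < 0 → 0 ≤ Z' r) {r : ℝ} (hr : 0 ≤ r) (hrb : r ≤ b) :
    0 ≤ Z r := by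
  by_contra hcon
  push Not at hcon
  obtain ⟨S, hS⟩ : ∃ S : Set ℝ, S = {t | (0 ≤ t ∧ t ≤ r) ∧ 0 ≤ Z t} := ⟨_, rfl⟩
  have hScl : IsClosed S := by
    rw [hS]
    exact ((isClosed_le continuous_const continuous_id).inter
      (isClosed_le continuous_id continuous_const)).inter (isClosed_le continuous_const hc)
  have hSne : S.Nonempty := ⟨0, by rw [hS]; exact ⟨⟨le_rfl, hr⟩, h0⟩⟩
  have hSb : BddAbove S := ⟨r, fun x hx => by rw [hS] at hx; exact hx.1.2⟩
  have hmem := hScl.csSup_mem hSne hSb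
  obtain ⟨T, hT⟩ : ∃ T : ℝ, T = sSup S := ⟨_, rfl⟩
  rw [← hT, hS] at hmem
  obtain ⟨⟨hT0, hTr⟩, hZT⟩ := hmem
  have hn : ∀ t, T < t → t ≤ r → Z t < 0 := by
    intro t ht htr
    by_contra hc'
    push Not at hc'
    have : t ≤ T := by
      rw [hT]
      exact le_csSup hSb (by rw [hS]; exact ⟨⟨by linarith, htr⟩, hc'⟩)
    linarith
  have hm : MonotoneOn Z (Icc T r) := by
    refine monotoneOn_of_deriv_nonneg (convex_Icc T r) hc.continuousOn ?_ ?_
    · intro t ht
      rw [interior_Icc] at ht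
      exact (hd t (by linarith [ht.1]) (by linarith [ht.2])).differentiableAt.differentiableWithinAt
    · intro t ht
      rw [interior_Icc] at ht
      rw [(hd t (by linarith [ht.1]) (by linarith [ht.2])).deriv]
      exact hs t (by linarith [ht.1]) (by linarith [ht.2]) (hn t ht.1 ht.2.le)
  have := hm (left_mem_Icc.2 hTr) (right_mem_Icc.2 hTr) hTr
  linarith

theorem u_ge_q {ρ ε : ℝ} {F : ℝ → ℝ} (h : Wall ρ ε F) {r : ℝ} (hr : 0 < r) (hr' : r ≤ ρ) :
    r * qq F r ≤ (r + 4) * uu F r := by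
  have hcu := W1_continuous_u h
  have hcq := W1_continuous_q h
  have hd : ∀ x, 0 < x → x < ρ → HasDerivAt (fun r => (r + 4) * uu F r - r * qq F r)
      ((1 * uu F x + (x + 4) * (yy F x * qq F x - uu F x / x)) -
        (1 * qq F x + x * (yy F x * uu F x))) x := by
    intro x hx _
    exact (((hasDerivAt_id x).add_const 4).mul (hasDerivAt_u h hx)).sub
      ((hasDerivAt_id x).mul (hasDerivAt_q h x))
  have hmain := W3_nonneg (Z := fun r => (r + 4) * uu F r - r * qq F r) (b := ρ) (by fun_prop)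
    (by simp [W1_u_zero]) hd (by
      intro x hx hxρ hZ
      have hy := y_ge_half h hx.le hxρ.le
      have hq := W1_q_pos h hx.le
      have hu := u_pos h hx
      have hy0 := W1_y_pos F x
      have h1 : x * (uu F x / x) = uu F x := by field_simp
      obtain ⟨z, hz⟩ : ∃ z : ℝ, z = uu F x / x := ⟨_, rfl⟩
      rw [← hz] at h1 ⊢
      -- `(x+4) y q - 4 u / x - q - x y u ≥ 0`, times `x (x+4)`
      have h2 : (1 * uu F x + (x + 4) * (yy F x * qq F x - z)) -
          (1 * qq F x + x * (yy F x * uu F x)) =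
          (x + 4) * yy F x * qq F x - 4 * z - qq F x - x * yy F x * uu F x := by
        have : (x + 4) * z = uu F x + 4 * z := by rw [add_mul, h1]
        linear_combination (-1 : ℝ) * this
      rw [h2]
      have h3 : (x + 4) * uu F x < x * qq F x := by linarith
      -- `(x + 4) z < q`
      have h4 : (x + 4) * z < qq F x := by
        by_contra hc
        push Not at hc
        have : x * qq F x ≤ x * ((x + 4) * z) := mul_le_mul_of_nonneg_left hc hx.le
        have e : x * ((x + 4) * z) = (x + 4) * uu F x := by rw [← h1]; ring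
        linarith
      have h5 : 0 < x + 4 := by linarith
      have h6 : x * yy F x * ((x + 4) * uu F x) ≤ x * yy F x * (x * qq F x) :=
        mul_le_mul_of_nonneg_left h3.le (by positivity)
      have h7 : 0 ≤ (x + 4) * ((x + 4) * yy F x * qq F x - 4 * z - qq F x -
          x * yy F x * uu F x) := by
        have h8 : 0 ≤ qq F x * (yy F x * (8 * x + 16) - x - 8) := by
          refine mul_nonneg hq.le ?_
          nlinarith
        nlinarith
      exact nonneg_of_mul_nonneg_right h7 h5) hr.le hr'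
  have h9 : 0 ≤ (r + 4) * uu F r - r * qq F r := hmain
  linarith

theorem X_le_in {ρ ε : ℝ} {F : ℝ → ℝ} (h : Wall ρ ε F) {r : ℝ} (hr : 0 < r) (hr' : r ≤ ρ) :
    XX F r ≤ 8 * qq F r ^ 2 := by
  have h1 := u_ge_q h hr hr'
  have hq := W1_q_pos h hr.le
  have h2 : (r * qq F r) ^ 2 ≤ ((r + 4) * uu F r) ^ 2 :=
    pow_le_pow_left₀ (by positivity) h1 2
  have h3 : (r + 4) ^ 2 * XX F r ≤ (r + 4) ^ 2 * (8 * qq F r ^ 2) := by
    unfold XX
    have e1 : (r + 4) ^ 2 * (r * (qq F r ^ 2 - uu F r ^ 2)) =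
        r * ((r + 4) ^ 2 * qq F r ^ 2 - ((r + 4) * uu F r) ^ 2) := by ring
    rw [e1]
    have h4 : r * ((r + 4) ^ 2 * qq F r ^ 2 - ((r + 4) * uu F r) ^ 2) ≤
        r * ((r + 4) ^ 2 * qq F r ^ 2 - (r * qq F r) ^ 2) :=
      mul_le_mul_of_nonneg_left (by linarith) hr.le
    refine h4.trans ?_
    have hq2 : 0 ≤ qq F r ^ 2 := sq_nonneg _
    nlinarith [mul_nonneg hr.le hq2]
  exact le_of_mul_le_mul_left h3 (by positivity)

theorem X_le_out {ρ ε : ℝ} {F : ℝ → ℝ} (h : Wall ρ ε F) {r : ℝ} (hr : ρ ≤ r) :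
    XX F r ≤ (8 + 2 * (r - ρ)) * qq F r ^ 2 := by
  have hρ : 0 < ρ := by linarith [h.hρ]
  have hcX := W1_continuous_X h
  have hcq := W1_continuous_q h
  have hd : ∀ x, ρ < x → HasDerivAt (fun r => XX F r - (8 + 2 * (r - ρ)) * qq F r ^ 2)
      ((qq F x ^ 2 + uu F x ^ 2) - (2 * qq F x ^ 2 +
        (8 + 2 * (x - ρ)) * (2 * qq F x * (yy F x * uu F x)))) x := by
    intro x hx
    have h1 : HasDerivAt (fun r : ℝ => 8 + 2 * (r - ρ)) 2 x := by
      have := (((hasDerivAt_id x).sub_const ρ).const_mul 2).const_add 8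
      simpa using this
    have h2 : HasDerivAt (fun r => qq F r ^ 2) (2 * qq F x * (yy F x * uu F x)) x := by
      have := (hasDerivAt_q h x).pow 2
      refine this.congr_deriv ?_
      push_cast
      ring
    exact (hasDerivAt_X h (hρ.trans hx)).sub (h1.mul h2)
  have hm : AntitoneOn (fun r => XX F r - (8 + 2 * (r - ρ)) * qq F r ^ 2) (Ici ρ) := by
    refine antitoneOn_of_deriv_nonpos (convex_Ici ρ) (by fun_prop) ?_ ?_
    · intro x hx
      rw [interior_Ici] at hx
      exact (hd x hx).differentiableAt.differentiableWithinAt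
    · intro x hx
      rw [interior_Ici] at hx
      have hx' : ρ < x := hx
      rw [(hd x hx').deriv]
      have hx0 : 0 < x := hρ.trans hx'
      have h1 := u_lt_q h hx0.le
      have h2 := u_pos h hx0
      have h3 := W1_q_pos h hx0.le
      have h4 := W1_y_pos F x
      have h5 : 0 ≤ (8 + 2 * (x - ρ)) * (2 * qq F x * (yy F x * uu F x)) := by
        have : 0 ≤ x - ρ := by linarith
        positivity
      nlinarith
  have h1 := hm (mem_Ici.2 (le_refl ρ)) (mem_Ici.2 hr) hr
  have h2 := X_le_in h hρ le_rfl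
  simp only [sub_self, mul_zero, add_zero] at h1
  linarith

theorem X_nonneg {ρ ε : ℝ} {F : ℝ → ℝ} (h : Wall ρ ε F) {r : ℝ} (hr : 0 ≤ r) :
    0 ≤ XX F r := by
  rcases hr.eq_or_lt with h0 | h0
  · rw [← h0, W1_X_zero]
  · exact (W1_X_pos h h0).le

end Pool.MP_ad5d82_an.Wl
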