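import Pool.Agent.Lib.MP_ad5d82_an.h24.WDefs
import Pool.Agent.Lib.MP_ad5d82_an.h24.W.W3

set_option autoImplicit false

namespace Pool.MP_ad5d82_an.Wl

open Real Set MeasureTheory
open scoped ContDiff

/-! ### W4 inner decay -/

private theorem W4_hasDerivAt_exp (a : ℝ) (x : ℝ) :
    HasDerivAt (fun r : ℝ => exp (a * r)) (exp (a * x) * a) x := by
  have h1 : HasDerivAt (fun r : ℝ => a * r) a x := by
    simpa using (hasDerivAt_id x).const_mul a
  exact h1.exp

theorem q_decay {ρ ε : ℝ} {F : ℝ → ℝ} (h : Wall ρ ε F) {r r' : ℝ} (hr : 16 ≤ r) (hrr : r ≤ r')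
    (hr' : r' ≤ ρ) : qq F r ≤ qq F r' * exp (-0.4 * (r' - r)) := by
  have hcq := W1_continuous_q h
  have hd : ∀ x, HasDerivAt (fun r => qq F r * exp (-0.4 * r))
      (yy F x * uu F x * exp (-0.4 * x) + qq F x * (exp (-0.4 * x) * -0.4)) x := fun x =>
    (hasDerivAt_q h x).mul (W4_hasDerivAt_exp (-0.4) x)
  have hm : MonotoneOn (fun r => qq F r * exp (-0.4 * r)) (Icc 16 ρ) := by
    refine monotoneOn_of_deriv_nonneg (convex_Icc 16 ρ) (by fun_prop) ?_ ?_
    · intro x _
      exact (hd x).differentiableAt.differentiableWithinAt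
    · intro x hx
      rw [interior_Icc] at hx
      rw [(hd x).deriv]
      have hx0 : 0 < x := by linarith [hx.1]
      have h1 := u_ge_q h hx0 hx.2.le
      have h2 := W1_q_pos h hx0.le
      have h3 := y_ge_half h hx0.le hx.2.le
      have h4 := u_pos h hx0
      have h5 := exp_pos (-0.4 * x)
      -- `u ≥ 0.8 q`
      have h6 : 0.8 * qq F x ≤ uu F x := by
        have e1 : (x + 4) * (0.8 * qq F x) ≤ (x + 4) * uu F x := by
          refine le_trans ?_ h1
          nlinarith [hx.1]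
        exact le_of_mul_le_mul_left e1 (by linarith)
      have h7 : 0.4 * qq F x ≤ yy F x * uu F x := by nlinarith
      nlinarith
  have h1 := hm ⟨hr, hrr.trans hr'⟩ ⟨hr.trans hrr, hr'⟩ hrr
  simp only at h1
  have e1 : qq F r = qq F r * exp (-0.4 * r) * exp (0.4 * r) := by
    rw [mul_assoc, ← exp_add]
    norm_num
  have e2 : exp (-0.4 * (r' - r)) = exp (-0.4 * r') * exp (0.4 * r) := by
    rw [← exp_add]
    congr 1
    ring
  rw [e1, e2, ← mul_assoc]
  exact mul_le_mul_of_nonneg_right h1 (exp_pos _).le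

theorem s_decay {ρ ε : ℝ} {F : ℝ → ℝ} (h : Wall ρ ε F) {r : ℝ} (hr : 0 ≤ r) (hr' : r ≤ ρ) :
    -F (r ^ 2) ≤ exp (-0.4 * (ρ - max r 16)) := by
  have hρ := h.hρ
  have hm16 : max r 16 ≤ ρ := max_le hr' (by linarith)
  have h1 := q_decay h (le_max_right r 16) hm16 le_rfl
  have h2 : qq F r ≤ qq F (max r 16) :=
    (W1_q_mono h).monotoneOn (mem_Ici.2 hr) (mem_Ici.2 (hr.trans (le_max_left _ _)))
      (le_max_left _ _)
  have h3 : qq F ρ = 1 / 2 := by
    have := W1_y_add_q F ρ
    have := W1_y_rho h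
    linarith
  rw [h3] at h1
  have h4 := y_ge_half h hr hr'
  have h5 : -F (r ^ 2) ≤ 2 * qq F r := by
    have e1 := add_one_le_exp (-F (r ^ 2))
    have e2 : exp (-F (r ^ 2)) * yy F r = 1 := by
      unfold yy
      rw [← exp_add, neg_add_cancel, exp_zero]
    have e3 := W1_y_add_q F r
    have e4 := exp_pos (-F (r ^ 2))
    -- `exp(-s) ≤ 2` and `(exp(-s) - 1) y = q`
    have e5 : exp (-F (r ^ 2)) ≤ 2 := by nlinarith
    have e6 : (exp (-F (r ^ 2)) - 1) * yy F r = qq F r := by
      rw [sub_mul, e2]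
      linarith
    have e7 : 1 ≤ exp (-F (r ^ 2)) := by nlinarith [W1_q_pos h hr]
    nlinarith
  linarith

theorem q_lip {ρ ε : ℝ} {F : ℝ → ℝ} (h : Wall ρ ε F) {r r' : ℝ} (hr : 0 ≤ r) (hrr : r ≤ r') :
    qq F r' ≤ qq F r * exp (r' - r) := by
  have hcq := W1_continuous_q h
  have hd : ∀ x, HasDerivAt (fun r => qq F r * exp (-1 * r))
      (yy F x * uu F x * exp (-1 * x) + qq F x * (exp (-1 * x) * -1)) x := fun x =>
    (hasDerivAt_q h x).mul (W4_hasDerivAt_exp (-1) x)
  have hm : AntitoneOn (fun r => qq F r * exp (-1 * r)) (Ici 0) := by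
    refine antitoneOn_of_deriv_nonpos (convex_Ici 0) (by fun_prop) ?_ ?_
    · intro x _
      exact (hd x).differentiableAt.differentiableWithinAt
    · intro x hx
      rw [interior_Ici] at hx
      have hx0 : 0 < x := hx
      rw [(hd x).deriv]
      have h1 := u_lt_q h hx0.le
      have h2 := W1_q_pos h hx0.le
      have h3 := W1_y_lt_one h hx0.le
      have h4 := u_pos h hx0
      have h5 := exp_pos (-1 * x)
      have h6 : yy F x * uu F x ≤ qq F x := by nlinarith
      nlinarith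
  have h1 := hm (mem_Ici.2 hr) (mem_Ici.2 (hr.trans hrr)) hrr
  simp only at h1
  have e1 : qq F r' = qq F r' * exp (-1 * r') * exp r' := by
    rw [mul_assoc, ← exp_add]
    norm_num
  have e2 : exp (r' - r) = exp (-1 * r) * exp r' := by
    rw [← exp_add]
    congr 1
    ring
  rw [e1, e2, ← mul_assoc]
  exact mul_le_mul_of_nonneg_right h1 (exp_pos _).le

theorem y_lip {ρ ε : ℝ} {F : ℝ → ℝ} (h : Wall ρ ε F) {r r' : ℝ} (hr : 0 ≤ r) (hrr : r ≤ r') :
    yy F r * exp (-(r' - r)) ≤ yy F r' := by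
  have hcy := W1_continuous_y h
  have hd : ∀ x, HasDerivAt (fun r => yy F r * exp (1 * r))
      (-(yy F x * uu F x) * exp (1 * x) + yy F x * (exp (1 * x) * 1)) x := fun x =>
    (W1_hasDerivAt_y h x).mul (W4_hasDerivAt_exp 1 x)
  have hm : MonotoneOn (fun r => yy F r * exp (1 * r)) (Ici 0) := by
    refine monotoneOn_of_deriv_nonneg (convex_Ici 0) (by fun_prop) ?_ ?_
    · intro x _
      exact (hd x).differentiableAt.differentiableWithinAt
    · intro x hx
      rw [interior_Ici] at hx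
      have hx0 : 0 < x := hx
      rw [(hd x).deriv]
      have h1 := u_lt_q h hx0.le
      have h2 := W1_q_lt_one F x
      have h3 := W1_y_pos F x
      have h5 := exp_pos (1 * x)
      have h6 : yy F x * uu F x ≤ yy F x := by nlinarith
      nlinarith
  have h1 := hm (mem_Ici.2 hr) (mem_Ici.2 (hr.trans hrr)) hrr
  simp only at h1
  have e1 : yy F r' = yy F r' * exp (1 * r') * exp (-r') := by
    rw [mul_assoc, ← exp_add]
    norm_num
  have e2 : exp (-(r' - r)) = exp (1 * r) * exp (-r') := by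
    rw [← exp_add]
    congr 1
    ring
  rw [e1, e2, ← mul_assoc]
  exact mul_le_mul_of_nonneg_right h1 (exp_pos _).le

end Pool.MP_ad5d82_an.Wl
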