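import Pool.Agent.Lib.MP_ad5d82_an.h24.WDefs
import Pool.Agent.Lib.MP_ad5d82_an.h24.W.W3
import Pool.Agent.Lib.MP_ad5d82_an.h24.W.W4

set_option autoImplicit false

namespace Pool.MP_ad5d82_an.Wl

open Real Set MeasureTheory
open scoped ContDiff

/-! ### W5 outer decay -/

private theorem W5_ru_ge {ρ ε : ℝ} {F : ℝ → ℝ} (h : Wall ρ ε F) {r : ℝ} (hr : ρ ≤ r) :
    0.45 * ρ ≤ r * uu F r := by
  have hρ := h.hρ
  have hρ0 : 0 < ρ := by linarith
  have h1 : ρ * uu F ρ ≤ r * uu F r :=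
    ru_mono h (mem_Ici.2 hρ0.le) (mem_Ici.2 (hρ0.le.trans hr)) hr
  have h2 := u_ge_q h hρ0 le_rfl
  have h3 : qq F ρ = 1 / 2 := by
    have := W1_y_add_q F ρ
    have := W1_y_rho h
    linarith
  rw [h3] at h2
  have h4 : 0.45 ≤ uu F ρ := by
    have e1 : (ρ + 4) * 0.45 ≤ (ρ + 4) * uu F ρ := by linarith
    exact le_of_mul_le_mul_left e1 (by linarith)
  nlinarith

theorem s_out {ρ ε : ℝ} {F : ℝ → ℝ} (h : Wall ρ ε F) {r : ℝ} (hr : ρ ≤ r) :
    F (r ^ 2) ≤ -Real.log 2 - 0.45 * ρ * Real.log (r / ρ) := by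
  have hρ := h.hρ
  have hρ0 : 0 < ρ := by linarith
  have hd : ∀ x, 0 < x → HasDerivAt (fun r => F (r ^ 2) + 0.45 * ρ * Real.log r)
      (-uu F x + 0.45 * ρ * x⁻¹) x := fun x hx =>
    (hasDerivAt_s h x).add ((Real.hasDerivAt_log hx.ne').const_mul _)
  have hm : AntitoneOn (fun r => F (r ^ 2) + 0.45 * ρ * Real.log r) (Ici ρ) := by
    refine antitoneOn_of_deriv_nonpos (convex_Ici ρ) ?_ ?_ ?_
    · intro x hx
      exact (hd x (lt_of_lt_of_le hρ0 hx)).continuousAt.continuousWithinAt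
    · intro x hx
      rw [interior_Ici] at hx
      exact (hd x (hρ0.trans hx)).differentiableAt.differentiableWithinAt
    · intro x hx
      rw [interior_Ici] at hx
      have hx' : ρ < x := hx
      have hx0 : 0 < x := hρ0.trans hx'
      rw [(hd x hx0).deriv]
      have h1 := W5_ru_ge h hx'.le
      have h2 : 0.45 * ρ * x⁻¹ ≤ uu F x := by
        rw [← div_eq_mul_inv, div_le_iff₀ hx0]
        linarith
      linarith
  have h1 := hm (mem_Ici.2 (le_refl ρ)) (mem_Ici.2 hr) hr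
  simp only [h.Fρ] at h1
  rw [Real.log_div (by linarith) (by linarith)]
  linarith

private theorem W5_y_le {ρ ε : ℝ} {F : ℝ → ℝ} (h : Wall ρ ε F) {r : ℝ} (hr : ρ ≤ r) {a : ℝ}
    (ha : a ≤ 0.45 * ρ * Real.log (r / ρ)) : yy F r ≤ 1 / 2 * exp (-a) := by
  have h1 := s_out h hr
  have h2 : yy F r ≤ exp (-Real.log 2 + -a) := exp_le_exp.2 (by linarith)
  refine h2.trans (le_of_eq ?_)
  rw [exp_add, exp_neg, exp_log (by norm_num)]
  norm_num

theorem y_out_exp {ρ ε : ℝ} {F : ℝ → ℝ} (h : Wall ρ ε F) {r : ℝ} (hr : ρ ≤ r) (hr' : r ≤ 2 * ρ) :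
    yy F r ≤ 1 / 2 * exp (-0.3 * (r - ρ)) := by
  have hρ := h.hρ
  have hρ0 : 0 < ρ := by linarith
  have h1 : -0.3 * (r - ρ) = -(0.3 * (r - ρ)) := by ring
  rw [h1]
  refine W5_y_le h hr ?_
  have hx0 : 0 ≤ (r - ρ) / ρ := div_nonneg (by linarith) hρ0.le
  have h2 := Real.le_log_one_add_of_nonneg hx0
  have h3 : 1 + (r - ρ) / ρ = r / ρ := by
    field_simp
    ring
  rw [h3] at h2
  have hx1 : (r - ρ) / ρ ≤ 1 := by
    rw [div_le_one hρ0]
    linarith
  obtain ⟨x, hx⟩ : ∃ x : ℝ, x = (r - ρ) / ρ := ⟨_, rfl⟩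
  rw [← hx] at h2 hx0 hx1
  have h4 : 2 / 3 * x ≤ 2 * x / (x + 2) := by
    rw [le_div_iff₀ (by linarith)]
    nlinarith
  have h5 : r - ρ = x * ρ := by
    rw [hx]
    field_simp
  rw [h5]
  nlinarith

theorem y_out_pow {ρ ε : ℝ} {F : ℝ → ℝ} (h : Wall ρ ε F) {r : ℝ} (hr : ρ ≤ r) :
    yy F r ≤ 1 / 2 * ((1 + (r - ρ) / 40) ^ 18)⁻¹ := by
  have hρ := h.hρ
  have hρ0 : 0 < ρ := by linarith
  have hx0 : 0 ≤ (r - ρ) / ρ := div_nonneg (by linarith) hρ0.le
  have h1 := one_add_mul_self_le_rpow_one_add (s := (r - ρ) / ρ) (by linarith) (p := ρ / 40)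
    (by linarith)
  have h2 : 1 + ρ / 40 * ((r - ρ) / ρ) = 1 + (r - ρ) / 40 := by
    field_simp
  have h3 : 1 + (r - ρ) / ρ = r / ρ := by
    field_simp
    ring
  rw [h2, h3] at h1
  have hw : 0 < 1 + (r - ρ) / 40 := by
    have : 0 ≤ (r - ρ) / 40 := by linarith
    linarith
  have hrp : 0 < r / ρ := by
    have : 0 < r := by linarith
    positivity
  have h4 := Real.log_le_log hw h1
  rw [Real.log_rpow hrp] at h4
  have h5 : ((1 + (r - ρ) / 40) ^ 18)⁻¹ = exp (-(18 * Real.log (1 + (r - ρ) / 40))) := by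
    rw [exp_neg, ← Real.exp_log (pow_pos hw 18), Real.log_pow]
    norm_num
  rw [h5]
  exact W5_y_le h hr (by linarith)

theorem ru_le {ρ ε : ℝ} {F : ℝ → ℝ} (h : Wall ρ ε F) {r : ℝ} (hr : 0 ≤ r) :
    r * uu F r ≤ 3 * ρ := by
  have hρ := h.hρ
  have hρ0 : 0 < ρ := by linarith
  have hin : ∀ x, 0 ≤ x → x ≤ ρ → x * uu F x ≤ ρ := by
    intro x hx hxρ
    have h1 := u_lt_q h hx
    have h2 := W1_q_lt_one F x
    have h3 := W1_u_nonneg h hx
    nlinarith
  rcases le_total r ρ with hrρ | hrρ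
  · have := hin r hr hrρ
    linarith
  have hcu := W1_continuous_u h
  have hw : ∀ x, ρ ≤ x → 1 ≤ 1 + (x - ρ) / 40 := fun x hx => by
    have : 0 ≤ (x - ρ) / 40 := by linarith
    linarith
  have hd : ∀ x, ρ ≤ x → HasDerivAt
      (fun r => r * uu F r + 1.75 * ρ * ((1 + (r - ρ) / 40) ^ 16)⁻¹)
      (x * (yy F x * qq F x) + 1.75 * ρ * (-(16 * (1 + (x - ρ) / 40) ^ 15 * (1 / 40)) /
        ((1 + (x - ρ) / 40) ^ 16) ^ 2)) x := by
    intro x hx
    have hx0 : 0 < x := lt_of_lt_of_le hρ0 hx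
    have h1 : HasDerivAt (fun r : ℝ => 1 + (r - ρ) / 40) (1 / 40) x := by
      have := (((hasDerivAt_id x).sub_const ρ).div_const 40).const_add 1
      simpa using this
    have h2 : HasDerivAt (fun r : ℝ => (1 + (r - ρ) / 40) ^ 16)
        (16 * (1 + (x - ρ) / 40) ^ 15 * (1 / 40)) x := by
      have := h1.pow 16
      refine this.congr_deriv ?_
      push_cast
      ring
    have h3 := h2.inv (ne_of_gt (pow_pos (by linarith [hw x hx]) 16))
    exact (W1_hasDerivAt_ru h hx0).add (h3.const_mul _)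
  have hm : AntitoneOn (fun r => r * uu F r + 1.75 * ρ * ((1 + (r - ρ) / 40) ^ 16)⁻¹)
      (Ici ρ) := by
    refine antitoneOn_of_deriv_nonpos (convex_Ici ρ) ?_ ?_ ?_
    · intro x hx
      exact (hd x hx).continuousAt.continuousWithinAt
    · intro x hx
      rw [interior_Ici] at hx
      exact (hd x (le_of_lt hx)).differentiableAt.differentiableWithinAt
    · intro x hx
      rw [interior_Ici] at hx
      have hx' : ρ < x := hx
      rw [(hd x hx'.le).deriv]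
      have hx0 : 0 < x := hρ0.trans hx'
      have h1 := y_out_pow h hx'.le
      have h2 := W1_q_lt_one F x
      have h3 := W1_q_pos h hx0.le
      have h4 := W1_y_pos F x
      have h5 := hw x hx'.le
      obtain ⟨W, hW⟩ : ∃ W : ℝ, W = 1 + (x - ρ) / 40 := ⟨_, rfl⟩
      rw [← hW] at h1 h5 ⊢
      have hW0 : 0 < W := by linarith
      have hxW : x ≤ (ρ + 40) * W := by
        have : x = ρ + 40 * (W - 1) := by rw [hW]; ring
        nlinarith
      have h6 : x * (yy F x * qq F x) ≤ (ρ + 40) * W * (1 / 2 * (W ^ 18)⁻¹) := by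
        have e1 : yy F x * qq F x ≤ 1 / 2 * (W ^ 18)⁻¹ := by nlinarith
        exact mul_le_mul hxW e1 (by positivity) (by positivity)
      have h7 : 1.75 * ρ * (-(16 * W ^ 15 * (1 / 40)) / (W ^ 16) ^ 2) =
          -(0.7 * ρ * (W * (W ^ 18)⁻¹)) := by
        field_simp
        ring
      rw [h7]
      have h8 : 0 ≤ W * (W ^ 18)⁻¹ := by positivity
      nlinarith
  have h1 := hm (mem_Ici.2 (le_refl ρ)) (mem_Ici.2 hrρ) hrρ
  simp only [sub_self, zero_div, add_zero, one_pow, inv_one, mul_one] at h1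
  have h2 := hin ρ hρ0.le le_rfl
  have h3 : 0 ≤ 1.75 * ρ * ((1 + (r - ρ) / 40) ^ 16)⁻¹ := by
    have := hw r hrρ
    positivity
  linarith

end Pool.MP_ad5d82_an.Wl
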