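import Pool.Agent.Lib.MP_ad5d82_an.h24.WDefs

set_option autoImplicit false

namespace Pool.MP_ad5d82_an.Wl

open Real Set MeasureTheory
open scoped ContDiff

/-! ### W6a the integral formula for `k_μ` -/

private theorem W6a_base (k : ℕ) :
    IntervalIntegrable (fun t : ℝ => t ^ k * (-Real.log (1 - t))) volume 0 1 ∧
    ∫ t in (0 : ℝ)..1, t ^ k * (-Real.log (1 - t)) = ((harmonic (k + 1) : ℚ) : ℝ) / (k + 1) := by
  obtain ⟨A, hA⟩ : ∃ A : ℝ → ℝ, A = fun t => ((∑ j ∈ Finset.range (k + 1), t ^ j) *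
    ((1 - t) * Real.log (1 - t)) + ∑ i ∈ Finset.range (k + 1), t ^ (i + 1) / ((i : ℝ) + 1)) /
      ((k : ℝ) + 1) := ⟨_, rfl⟩
  have hA' : A = fun t => ((1 - t ^ (k + 1)) * Real.log (1 - t) +
      ∑ i ∈ Finset.range (k + 1), t ^ (i + 1) / ((i : ℝ) + 1)) / ((k : ℝ) + 1) := by
    rw [hA]
    funext t
    have h1 : (∑ j ∈ Finset.range (k + 1), t ^ j) * (1 - t) = 1 - t ^ (k + 1) := by
      have := geom_sum_mul t (k + 1)
      linarith
    rw [← mul_assoc, h1]
  have hAc : Continuous A := by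
    rw [hA]
    have h1 : Continuous fun t : ℝ => (1 - t) * Real.log (1 - t) :=
      Real.continuous_mul_log.comp (continuous_const.sub continuous_id)
    fun_prop
  have hAd : ∀ t ∈ Ioo (0 : ℝ) 1, HasDerivAt A (t ^ k * (-Real.log (1 - t))) t := by
    intro t ht
    have ht1 : 0 < 1 - t := by linarith [ht.2]
    have h1 : HasDerivAt (fun t : ℝ => 1 - t) (-1) t := by
      simpa using (hasDerivAt_id t).const_sub 1
    have h2 : HasDerivAt (fun t : ℝ => Real.log (1 - t)) (-1 / (1 - t)) t := h1.log ht1.ne'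
    have h3 : HasDerivAt (fun t : ℝ => 1 - t ^ (k + 1)) (-(((k + 1 : ℕ) : ℝ) * t ^ k)) t := by
      have := (hasDerivAt_pow (k + 1) t).const_sub 1
      simpa using this
    have h4 : HasDerivAt (fun t : ℝ => ∑ i ∈ Finset.range (k + 1), t ^ (i + 1) / ((i : ℝ) + 1))
        (∑ i ∈ Finset.range (k + 1), t ^ i) t := by
      refine HasDerivAt.fun_sum fun i _ => ?_
      have := (hasDerivAt_pow (i + 1) t).div_const ((i : ℝ) + 1)
      refine this.congr_deriv ?_
      have hi : ((i : ℝ) + 1) ≠ 0 := by positivity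
      push_cast
      field_simp
    rw [hA']
    refine (((h3.mul h2).add h4).div_const ((k : ℝ) + 1)).congr_deriv ?_
    have h5 : (∑ j ∈ Finset.range (k + 1), t ^ j) = (1 - t ^ (k + 1)) / (1 - t) := by
      rw [eq_div_iff ht1.ne']
      have := geom_sum_mul t (k + 1)
      linarith
    rw [h5]
    have hk : ((k : ℝ) + 1) ≠ 0 := by positivity
    push_cast
    field_simp
    ring
  have hpos : ∀ t ∈ Ioo (0 : ℝ) 1, 0 ≤ t ^ k * (-Real.log (1 - t)) := by
    intro t ht
    have h1 : Real.log (1 - t) ≤ 0 := Real.log_nonpos (by linarith [ht.2]) (by linarith [ht.1])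
    have := ht.1
    have h2 : 0 ≤ -Real.log (1 - t) := by linarith
    positivity
  have hint : IntervalIntegrable (fun t : ℝ => t ^ k * (-Real.log (1 - t))) volume 0 1 := by
    rw [intervalIntegrable_iff_integrableOn_Ioc_of_le zero_le_one]
    exact intervalIntegral.integrableOn_deriv_of_nonneg hAc.continuousOn hAd hpos
  refine ⟨hint, ?_⟩
  rw [intervalIntegral.integral_eq_sub_of_hasDerivAt_of_le zero_le_one hAc.continuousOn hAd hint]
  have h0 : A 0 = 0 := by
    rw [hA]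
    simp
  have h1 : A 1 = ((harmonic (k + 1) : ℚ) : ℝ) / (k + 1) := by
    rw [hA]
    simp only [sub_self, zero_mul, mul_zero, zero_add, one_pow]
    congr 1
    unfold harmonic
    push_cast
    refine Finset.sum_congr rfl fun i _ => ?_
    rw [one_div]
  rw [h0, h1, sub_zero]

private theorem W6a_base' (k : ℕ) :
    IntervalIntegrable (fun t : ℝ => t ^ k * (-t - Real.log (1 - t))) volume 0 1 ∧
    ∫ t in (0 : ℝ)..1, t ^ k * (-t - Real.log (1 - t)) =
      ((harmonic (k + 1) : ℚ) : ℝ) / (k + 1) - 1 / (k + 2) := by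
  obtain ⟨h1, h2⟩ := W6a_base k
  have h3 : IntervalIntegrable (fun t : ℝ => t ^ (k + 1)) volume 0 1 :=
    (continuous_pow (k + 1)).intervalIntegrable _ _
  have e : (fun t : ℝ => t ^ k * (-t - Real.log (1 - t))) =
      fun t => t ^ k * (-Real.log (1 - t)) - t ^ (k + 1) := by
    funext t
    ring
  rw [e]
  refine ⟨h1.sub h3, ?_⟩
  rw [intervalIntegral.integral_sub h1 h3, h2, integral_pow]
  simp only [one_pow, ne_eq, Nat.add_eq_zero_iff, one_ne_zero, and_false, not_false_eq_true,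
    zero_pow, sub_zero]
  push_cast
  congr 2
  ring

private theorem W6a_main (μ : ℕ) (hμ : 1 ≤ μ) :
    IntervalIntegrable (fun t : ℝ => μ * (1 - μ + μ * t) * t ^ (2 * μ - 2) *
      (2 * (-t - Real.log (1 - t)) / t)) volume 0 1 ∧
    ∫ t in (0 : ℝ)..1, μ * (1 - μ + μ * t) * t ^ (2 * μ - 2) *
      (2 * (-t - Real.log (1 - t)) / t) = kmu μ := by
  rcases Nat.lt_or_ge μ 2 with h | h
  · -- `μ = 1`
    obtain rfl : μ = 1 := by omega
    obtain ⟨h1, h2⟩ := W6a_base' 0
    have e : EqOn (fun t : ℝ => 2 * (t ^ 0 * (-t - Real.log (1 - t))))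
        (fun t : ℝ => ((1 : ℕ) : ℝ) * (1 - ((1 : ℕ) : ℝ) + ((1 : ℕ) : ℝ) * t) *
          t ^ (2 * 1 - 2) * (2 * (-t - Real.log (1 - t)) / t)) (uIoc 0 1) := by
      intro t ht
      rw [uIoc_of_le zero_le_one] at ht
      have ht0 : t ≠ 0 := ht.1.ne'
      simp only [Nat.cast_one, pow_zero, Nat.sub_self, one_mul, mul_one, sub_self,
        zero_add]
      field_simp
    constructor
    · exact (h1.const_mul 2).congr e
    · rw [← intervalIntegral.integral_congr_ae (Filter.Eventually.of_forall fun x hx => e hx),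
        intervalIntegral.integral_const_mul, h2]
      unfold kmu
      simp [harmonic]
      norm_num
  · obtain ⟨l, rfl⟩ : ∃ l, μ = l + 2 := ⟨μ - 2, by omega⟩
    obtain ⟨h1, h2⟩ := W6a_base' (2 * l + 1)
    obtain ⟨h3, h4⟩ := W6a_base' (2 * l + 2)
    have e : EqOn (fun t : ℝ => 2 * ((l : ℝ) + 2) * (-((l : ℝ) + 1)) *
        (t ^ (2 * l + 1) * (-t - Real.log (1 - t))) +
        2 * ((l : ℝ) + 2) * ((l : ℝ) + 2) * (t ^ (2 * l + 2) * (-t - Real.log (1 - t))))
        (fun t : ℝ => ((l + 2 : ℕ) : ℝ) * (1 - ((l + 2 : ℕ) : ℝ) + ((l + 2 : ℕ) : ℝ) * t) *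
          t ^ (2 * (l + 2) - 2) * (2 * (-t - Real.log (1 - t)) / t)) (uIoc 0 1) := by
      intro t ht
      rw [uIoc_of_le zero_le_one] at ht
      have ht0 : t ≠ 0 := ht.1.ne'
      have e1 : 2 * (l + 2) - 2 = 2 * l + 2 := by omega
      simp only [e1]
      have e2 : t ^ (2 * l + 2) = t ^ (2 * l + 1) * t := pow_succ _ _
      rw [e2]
      push_cast
      field_simp
      ring
    constructor
    · exact ((h1.const_mul _).add (h3.const_mul _)).congr e
    · rw [← intervalIntegral.integral_congr_ae (Filter.Eventually.of_forall fun x hx => e hx),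
        intervalIntegral.integral_add
        (h1.const_mul _) (h3.const_mul _), intervalIntegral.integral_const_mul,
        intervalIntegral.integral_const_mul, h2, h4]
      unfold kmu
      have e1 : 2 * (l + 2) - 1 = 2 * l + 3 := by omega
      rw [e1, harmonic_succ (2 * l + 2)]
      have e3 : 2 * l + 1 + 1 = 2 * l + 2 := by omega
      have e4 : 2 * l + 2 + 1 = 2 * l + 3 := by omega
      rw [e3]
      obtain ⟨Hh, hHh⟩ : ∃ Hh : ℝ, Hh = ((harmonic (2 * l + 2) : ℚ) : ℝ) := ⟨_, rfl⟩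
      push_cast
      rw [← hHh]
      have p1 : (2 * (l : ℝ) + 1 + 1) ≠ 0 := by positivity
      have p2 : (2 * (l : ℝ) + 1 + 2) ≠ 0 := by positivity
      have p3 : (2 * (l : ℝ) + 2 + 1) ≠ 0 := by positivity
      have p4 : (2 * (l : ℝ) + 2 + 2) ≠ 0 := by positivity
      have p5 : (2 * (l : ℝ) + 3) ≠ 0 := by positivity
      have q1 : (2 * (l : ℝ) + 1 + 1) = 2 * (l + 1) := by ring
      have q2 : (2 * (l : ℝ) + 1 + 2) = 2 * l + 3 := by ring
      have q3 : (2 * (l : ℝ) + 2 + 1) = 2 * l + 3 := by ring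
      have q4 : (2 * (l : ℝ) + 2 + 2) = 2 * (l + 2) := by ring
      rw [q1, q2, q3, q4]
      have r1 : ((l : ℝ) + 1) ≠ 0 := by positivity
      have r2 : ((l : ℝ) + 2) ≠ 0 := by positivity
      field_simp
      ring

theorem integrable_kmu (μ : ℕ) (hμ : 1 ≤ μ) :
    IntervalIntegrable (fun t : ℝ => μ * (1 - μ + μ * t) * t ^ (2 * μ - 2) *
      (2 * (-t - Real.log (1 - t)) / t)) volume 0 1 := (W6a_main μ hμ).1

theorem integral_kmu (μ : ℕ) (hμ : 1 ≤ μ) :
    ∫ t in (0 : ℝ)..1, μ * (1 - μ + μ * t) * t ^ (2 * μ - 2) *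
      (2 * (-t - Real.log (1 - t)) / t) = kmu μ := (W6a_main μ hμ).2

end Pool.MP_ad5d82_an.Wl
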