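import Pool.Agent.Lib.MP_ad5d82_an.h24.WDefs
import Pool.Agent.Lib.MP_ad5d82_an.h24.W.W5
import Pool.Agent.Lib.MP_ad5d82_an.h24.W.W6a

set_option autoImplicit false

namespace Pool.MP_ad5d82_an.Wl

open Real Set MeasureTheory
open scoped ContDiff

/-! ### W6 the limit constant -/

/-- `|J'| ≤ Φ'` implies `|J b - J a| ≤ Φ b - Φ a` -/
private theorem W6_cmp {J J' Φ Φ' : ℝ → ℝ} {a b : ℝ} (hab : a ≤ b)
    (hJ : ∀ r ∈ Icc a b, HasDerivAt J (J' r) r) (hΦ : ∀ r ∈ Icc a b, HasDerivAt Φ (Φ' r) r)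
    (hle : ∀ r ∈ Icc a b, |J' r| ≤ Φ' r) : |J b - J a| ≤ Φ b - Φ a := by
  have h1 : MonotoneOn (fun r => Φ r - J r) (Icc a b) := by
    refine monotoneOn_of_deriv_nonneg (convex_Icc a b) ?_ ?_ ?_
    · intro r hr
      exact ((hΦ r hr).sub (hJ r hr)).continuousAt.continuousWithinAt
    · intro r hr
      exact ((hΦ r (interior_subset hr)).sub
        (hJ r (interior_subset hr))).differentiableAt.differentiableWithinAt
    · intro r hr
      have hr' := interior_subset hr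
      have : deriv (fun r => Φ r - J r) r = Φ' r - J' r := ((hΦ r hr').sub (hJ r hr')).deriv
      rw [this]
      have := le_abs_self (J' r)
      have := hle r hr'
      linarith
  have h2 : MonotoneOn (fun r => Φ r + J r) (Icc a b) := by
    refine monotoneOn_of_deriv_nonneg (convex_Icc a b) ?_ ?_ ?_
    · intro r hr
      exact ((hΦ r hr).add (hJ r hr)).continuousAt.continuousWithinAt
    · intro r hr
      exact ((hΦ r (interior_subset hr)).add
        (hJ r (interior_subset hr))).differentiableAt.differentiableWithinAt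
    · intro r hr
      have hr' := interior_subset hr
      have : deriv (fun r => Φ r + J r) r = Φ' r + J' r := ((hΦ r hr').add (hJ r hr')).deriv
      rw [this]
      have := neg_abs_le (J' r)
      have := hle r hr'
      linarith
  have e1 := h1 (left_mem_Icc.2 hab) (right_mem_Icc.2 hab) hab
  have e2 := h2 (left_mem_Icc.2 hab) (right_mem_Icc.2 hab) hab
  simp only at e1 e2
  rw [abs_le]
  constructor <;> linarith

/-- `X - Y(q)` with `Y(q) = 2 (-q - log (1 - q))` -/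
private noncomputable def W6_D (F : ℝ → ℝ) (r : ℝ) : ℝ := XX F r - 2 * (-qq F r - F (r ^ 2))

private theorem W6_hasDerivAt_D {ρ ε : ℝ} {F : ℝ → ℝ} (h : Wall ρ ε F) {r : ℝ} (hr : 0 < r) :
    HasDerivAt (W6_D F) ((qq F r - uu F r) ^ 2) r := by
  have h1 := (hasDerivAt_X h hr).sub
    ((((hasDerivAt_q h r).neg).sub (hasDerivAt_s h r)).const_mul (2 : ℝ))
  refine h1.congr_deriv ?_
  have h2 := W1_y_add_q F r
  have h3 : yy F r = 1 - qq F r := by linarith
  rw [h3]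
  ring

private theorem W6_continuous_D {ρ ε : ℝ} {F : ℝ → ℝ} (h : Wall ρ ε F) :
    Continuous (W6_D F) := by
  have h1 := W1_continuous_X h
  have h2 := W1_continuous_q h
  have h3 := W1_continuous_s h
  exact h1.sub (continuous_const.mul (h2.neg.sub h3))

private theorem W6_exp_sq {ρ : ℝ} (hρ : 100 ≤ ρ) : exp (-0.4 * (ρ - 16)) ≤ 1 / ρ ^ 2 := by
  have h0 : 0 < ρ := by linarith
  obtain ⟨z, hz⟩ : ∃ z : ℝ, z = 0.2 * (ρ - 16) := ⟨_, rfl⟩
  have hz0 : 0 ≤ z := by rw [hz]; linarith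
  have h1 := Real.quadratic_le_exp_of_nonneg hz0
  have h2 : ρ ≤ exp z := by
    have hz1 : 0.168 * ρ ≤ z := by rw [hz]; linarith
    have : ρ ≤ z ^ 2 / 2 := by
      have e1 : (0.168 * ρ) ^ 2 ≤ z ^ 2 := pow_le_pow_left₀ (by positivity) hz1 2
      nlinarith
    linarith
  have h3 : exp (-0.4 * (ρ - 16)) = 1 / (exp z) ^ 2 := by
    rw [← exp_nat_mul, one_div, ← exp_neg]
    congr 1
    rw [hz]
    push_cast
    ring
  rw [h3]
  exact one_div_le_one_div_of_le (by positivity) (pow_le_pow_left₀ h0.le h2 2)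

private theorem W6_D_ge {ρ ε : ℝ} {F : ℝ → ℝ} (h : Wall ρ ε F) {r : ℝ} (hr : 0 ≤ r) :
    -(2 / ρ ^ 2) ≤ W6_D F r := by
  have hm : MonotoneOn (W6_D F) (Ici 0) := by
    refine monotoneOn_of_deriv_nonneg (convex_Ici 0) (W6_continuous_D h).continuousOn ?_ ?_
    · intro x hx
      rw [interior_Ici] at hx
      exact (W6_hasDerivAt_D h hx).differentiableAt.differentiableWithinAt
    · intro x hx
      rw [interior_Ici] at hx
      rw [(W6_hasDerivAt_D h hx).deriv]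
      exact sq_nonneg _
  have h1 := hm (mem_Ici.2 (le_refl (0 : ℝ))) (mem_Ici.2 hr) hr
  have h2 : W6_D F 0 = 2 * qq F 0 - 2 * ε := by
    unfold W6_D
    rw [W1_X_zero]
    simp only [ne_eq, OfNat.ofNat_ne_zero, not_false_eq_true, zero_pow, h.F0]
    ring
  have h3 := W1_q_pos h le_rfl
  have hρ := h.hρ
  have h4 := s_decay h (le_refl (0 : ℝ)) (by linarith)
  simp only [ne_eq, OfNat.ofNat_ne_zero, not_false_eq_true, zero_pow, h.F0, neg_neg] at h4
  have h5 : max (0 : ℝ) 16 = 16 := by norm_num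
  rw [h5] at h4
  have h6 := W6_exp_sq hρ
  have h7 : 2 / ρ ^ 2 = 2 * (1 / ρ ^ 2) := by ring
  rw [h7]
  linarith

private theorem W6_D_le_in {ρ ε : ℝ} {F : ℝ → ℝ} (h : Wall ρ ε F) {r : ℝ} (hr : 0.92 * ρ ≤ r)
    (hr' : r ≤ ρ) : W6_D F r ≤ 10 / ρ ^ 2 := by
  have hρ := h.hρ
  have hρ0 : 0 < ρ := by linarith
  have hqρ : qq F ρ = 1 / 2 := by
    have := W1_y_add_q F ρ
    have := W1_y_rho h
    linarith
  -- `D 16`
  have hq16 : qq F 16 ≤ 1 / 2 * (1 / ρ ^ 2) := by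
    have h1 := q_decay h (le_refl (16 : ℝ)) (by linarith : (16 : ℝ) ≤ ρ) le_rfl
    rw [hqρ] at h1
    have h2 := W6_exp_sq hρ
    linarith
  have hD16 : W6_D F 16 ≤ 16 * qq F 16 ^ 2 := by
    have hd : ∀ x, 0 < x → HasDerivAt (fun r => W6_D F r - qq F 16 ^ 2 * r)
        ((qq F x - uu F x) ^ 2 - qq F 16 ^ 2) x := by
      intro x hx
      have := (W6_hasDerivAt_D h hx).sub ((hasDerivAt_id x).const_mul (qq F 16 ^ 2))
      refine this.congr_deriv ?_
      ring
    have hcD := W6_continuous_D h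
    have hm : AntitoneOn (fun r => W6_D F r - qq F 16 ^ 2 * r) (Icc 0 16) := by
      refine antitoneOn_of_deriv_nonpos (convex_Icc _ _) (by fun_prop) ?_ ?_
      · intro x hx
        rw [interior_Icc] at hx
        exact (hd x hx.1).differentiableAt.differentiableWithinAt
      · intro x hx
        rw [interior_Icc] at hx
        rw [(hd x hx.1).deriv]
        have e1 := u_lt_q h hx.1.le
        have e2 := W1_u_nonneg h hx.1.le
        have e3 : qq F x ≤ qq F 16 :=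
          (W1_q_mono h).monotoneOn (mem_Ici.2 hx.1.le) (mem_Ici.2 (by norm_num)) hx.2.le
        have e4 : (qq F x - uu F x) ^ 2 ≤ qq F 16 ^ 2 :=
          pow_le_pow_left₀ (by linarith) (by linarith) 2
        linarith
    have h1 := hm (left_mem_Icc.2 (by norm_num : (0 : ℝ) ≤ 16))
      (right_mem_Icc.2 (by norm_num : (0 : ℝ) ≤ 16)) (by norm_num)
    simp only [mul_zero, sub_zero] at h1
    have h2 : W6_D F 0 ≤ 0 := by
      unfold W6_D
      rw [W1_X_zero]
      simp only [ne_eq, OfNat.ofNat_ne_zero, not_false_eq_true, zero_pow]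
      have := add_one_le_exp (F 0)
      have e : qq F 0 = 1 - exp (F 0) := by
        unfold qq
        simp
      rw [e]
      linarith
    linarith
  -- growth on `[16, ρ]`
  have hdA : ∀ x, 16 < x → HasDerivAt (fun r => 25 * (qq F r ^ 2 * ((r + 4) ^ 2)⁻¹))
      (25 * (2 * qq F x * (yy F x * uu F x) * ((x + 4) ^ 2)⁻¹ +
        qq F x ^ 2 * (-(2 * (x + 4)) / ((x + 4) ^ 2) ^ 2))) x := by
    intro x hx
    have h1 : HasDerivAt (fun r : ℝ => (r + 4) ^ 2) (2 * (x + 4)) x := by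
      have := ((hasDerivAt_id x).add_const 4).pow 2
      refine this.congr_deriv ?_
      simp only [id]
      push_cast
      ring
    have h2 := h1.inv (by positivity)
    have h3 : HasDerivAt (fun r => qq F r ^ 2) (2 * qq F x * (yy F x * uu F x)) x := by
      have := (hasDerivAt_q h x).pow 2
      refine this.congr_deriv ?_
      push_cast
      ring
    exact (h3.mul h2).const_mul 25
  have hm : AntitoneOn (fun r => W6_D F r - 25 * (qq F r ^ 2 * ((r + 4) ^ 2)⁻¹)) (Icc 16 ρ) := by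
    refine antitoneOn_of_deriv_nonpos (convex_Icc _ _) ?_ ?_ ?_
    · have hcD := W6_continuous_D h
      have hcq := W1_continuous_q h
      refine hcD.continuousOn.sub (continuousOn_const.mul ((hcq.pow 2).continuousOn.mul ?_))
      refine ContinuousOn.inv₀ (((continuous_id.add continuous_const).pow 2).continuousOn) ?_
      intro x hx
      have := hx.1
      positivity
    · intro x hx
      rw [interior_Icc] at hx
      exact ((W6_hasDerivAt_D h (by linarith [hx.1])).sub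
        (hdA x hx.1)).differentiableAt.differentiableWithinAt
    · intro x hx
      rw [interior_Icc] at hx
      have hx0 : 0 < x := by linarith [hx.1]
      have : deriv (fun r => W6_D F r - 25 * (qq F r ^ 2 * ((r + 4) ^ 2)⁻¹)) x =
          (qq F x - uu F x) ^ 2 - (25 * (2 * qq F x * (yy F x * uu F x) * ((x + 4) ^ 2)⁻¹ +
        qq F x ^ 2 * (-(2 * (x + 4)) / ((x + 4) ^ 2) ^ 2))) :=
        ((W6_hasDerivAt_D h hx0).sub (hdA x hx.1)).deriv
      rw [this]
      have e1 := u_ge_q h hx0 hx.2.le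
      have e2 := W1_q_pos h hx0.le
      have e3 := y_ge_half h hx0.le hx.2.le
      have e4 := u_pos h hx0
      have e5 := u_lt_q h hx0.le
      obtain ⟨w, hw⟩ : ∃ w : ℝ, w = (x + 4)⁻¹ := ⟨_, rfl⟩
      have hw0 : 0 < w := by rw [hw]; positivity
      have hw1 : (x + 4) * w = 1 := by rw [hw]; field_simp
      have hw2 : w ≤ 1 / 20 := by
        rw [hw, inv_eq_one_div]
        exact one_div_le_one_div_of_le (by norm_num) (by linarith [hx.1])
      have e6 : ((x + 4) ^ 2)⁻¹ = w ^ 2 := by rw [hw, inv_pow]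
      have e7 : -(2 * (x + 4)) / ((x + 4) ^ 2) ^ 2 = -(2 * w ^ 3) := by
        rw [hw]
        field_simp
      rw [e6, e7]
      -- `q - u ≤ 4 w q`, `u ≥ 0.8 q`
      have e8 : qq F x - uu F x ≤ 4 * w * qq F x := by
        have : (x + 4) * (qq F x - uu F x) ≤ (x + 4) * (4 * w * qq F x) := by
          have e : (x + 4) * (4 * w * qq F x) = 4 * ((x + 4) * w) * qq F x := by ring
          rw [e, hw1]
          linarith
        exact le_of_mul_le_mul_left this (by linarith)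
      have e9 : (qq F x - uu F x) ^ 2 ≤ (4 * w * qq F x) ^ 2 :=
        pow_le_pow_left₀ (by linarith) e8 2
      have e10 : 0.8 * qq F x ≤ uu F x := by
        nlinarith only [e8, mul_le_mul_of_nonneg_right hw2 e2.le]
      have e11 : 0.4 * qq F x ≤ yy F x * uu F x := by
        nlinarith only [e10, mul_le_mul_of_nonneg_right e3 e4.le]
      have e12 : 0.8 * qq F x ^ 2 ≤ 2 * qq F x * (yy F x * uu F x) := by
        nlinarith only [mul_le_mul_of_nonneg_left e11 e2.le]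
      have e13 : 0 ≤ qq F x ^ 2 * w ^ 2 := by positivity
      have e14 : qq F x ^ 2 * w ^ 3 ≤ 1 / 20 * (qq F x ^ 2 * w ^ 2) := by
        have : qq F x ^ 2 * w ^ 3 = w * (qq F x ^ 2 * w ^ 2) := by ring
        rw [this]
        exact mul_le_mul_of_nonneg_right hw2 e13
      have e15 : 0.8 * qq F x ^ 2 * w ^ 2 ≤ 2 * qq F x * (yy F x * uu F x) * w ^ 2 :=
        mul_le_mul_of_nonneg_right e12 (by positivity)
      nlinarith only [e9, e13, e14, e15]
  have h1 := hm ⟨le_rfl, by linarith⟩ ⟨by linarith, hr'⟩ (by linarith : (16 : ℝ) ≤ r)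
  simp only at h1
  have h2 : 0 ≤ 25 * (qq F 16 ^ 2 * (((16 : ℝ) + 4) ^ 2)⁻¹) := by positivity
  have h3 : 25 * (qq F r ^ 2 * ((r + 4) ^ 2)⁻¹) ≤ 8 / ρ ^ 2 := by
    have e1 : qq F r ≤ 1 / 2 := by
      rw [← hqρ]
      exact (W1_q_mono h).monotoneOn (mem_Ici.2 (by linarith)) (mem_Ici.2 (by linarith)) hr'
    have e2 := W1_q_pos h (by linarith : (0 : ℝ) ≤ r)
    have e3 : qq F r ^ 2 ≤ 1 / 4 := by nlinarith only [e1, e2]
    have e4 : ((r + 4) ^ 2)⁻¹ ≤ ((0.92 * ρ) ^ 2)⁻¹ := by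
      refine inv_anti₀ (by positivity) (pow_le_pow_left₀ (by positivity) (by linarith) 2)
    have e5 : qq F r ^ 2 * ((r + 4) ^ 2)⁻¹ ≤ 1 / 4 * ((0.92 * ρ) ^ 2)⁻¹ :=
      mul_le_mul e3 e4 (by positivity) (by norm_num)
    have e6 : 25 * (1 / 4 * ((0.92 * ρ) ^ 2)⁻¹) ≤ 8 / ρ ^ 2 := by
      have e7 : 0 < (ρ ^ 2)⁻¹ := by positivity
      have e8 : ((0.92 : ℝ) ^ 2)⁻¹ ≤ 1.2 := by norm_num
      have e9 : ((0.92 : ℝ) ^ 2)⁻¹ * (ρ ^ 2)⁻¹ ≤ 1.2 * (ρ ^ 2)⁻¹ :=
        mul_le_mul_of_nonneg_right e8 e7.le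
      have e10 : ((0.92 * ρ) ^ 2)⁻¹ = ((0.92 : ℝ) ^ 2)⁻¹ * (ρ ^ 2)⁻¹ := by
        rw [mul_pow, mul_inv]
      have e11 : 8 / ρ ^ 2 = 8 * (ρ ^ 2)⁻¹ := by rw [div_eq_mul_inv]
      rw [e10, e11]
      linarith
    linarith
  have h4 : 16 * qq F 16 ^ 2 ≤ 1 / ρ ^ 2 := by
    have e0 := W1_q_pos h (by norm_num : (0 : ℝ) ≤ 16)
    have e1 : 1 / ρ ^ 2 ≤ 1 / 4 := by
      refine one_div_le_one_div_of_le (by norm_num) ?_
      nlinarith only [hρ]
    have e2 : 0 < 1 / ρ ^ 2 := by positivity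
    obtain ⟨w, hw⟩ : ∃ w : ℝ, w = 1 / ρ ^ 2 := ⟨_, rfl⟩
    rw [← hw] at hq16 e1 e2 ⊢
    nlinarith only [hq16, e0, e1, e2]
  have h5 : 10 / ρ ^ 2 = 1 / ρ ^ 2 + 8 / ρ ^ 2 + 1 / ρ ^ 2 := by ring
  have h6 : 0 < 1 / ρ ^ 2 := by positivity
  linarith

private theorem W6_one_sub {ρ ε : ℝ} {F : ℝ → ℝ} (h : Wall ρ ε F) {r : ℝ} (hr : ρ ≤ r) :
    qq F r - uu F r ≤ (8 + 2 * (r - ρ)) / ρ * qq F r := by
  have hρ := h.hρ
  have hρ0 : 0 < ρ := by linarith
  have hr0 : 0 < r := by linarith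
  have h1 := X_le_out h hr
  have h2 := W1_q_pos h hr0.le
  have h3 := W1_u_nonneg h hr0.le
  have h4 := u_lt_q h hr0.le
  -- `ρ (q - u) q ≤ r (q - u) (q + u) = X`
  have h5 : ρ * (qq F r - uu F r) * qq F r ≤ XX F r := by
    unfold XX
    have e : r * (qq F r ^ 2 - uu F r ^ 2) = r * (qq F r - uu F r) * (qq F r + uu F r) := by ring
    rw [e]
    have e1 : ρ * (qq F r - uu F r) ≤ r * (qq F r - uu F r) :=
      mul_le_mul_of_nonneg_right hr (by linarith)
    exact mul_le_mul e1 (by linarith) h2.le (mul_nonneg hr0.le (by linarith))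
  have h6 : (ρ * (qq F r - uu F r)) * qq F r ≤ ((8 + 2 * (r - ρ)) * qq F r) * qq F r := by
    nlinarith
  have h7 := le_of_mul_le_mul_right h6 h2
  rw [div_mul_eq_mul_div, le_div_iff₀ hρ0]
  linarith

private theorem W6_D_le_out {ρ ε : ℝ} {F : ℝ → ℝ} (h : Wall ρ ε F) {r : ℝ} (hr : ρ ≤ r) :
    W6_D F r ≤ (10 + (r - ρ) * (8 + 2 * (r - ρ)) ^ 2) / ρ ^ 2 := by
  have hρ := h.hρ
  have hρ0 : 0 < ρ := by linarith
  have hd : ∀ x, ρ ≤ x → HasDerivAt
      (fun r => W6_D F r - (10 + (r - ρ) * (8 + 2 * (r - ρ)) ^ 2) / ρ ^ 2)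
      ((qq F x - uu F x) ^ 2 - ((8 + 2 * (x - ρ)) ^ 2 + (x - ρ) *
        (4 * (8 + 2 * (x - ρ)))) / ρ ^ 2) x := by
    intro x hx
    have h1 : HasDerivAt (fun r : ℝ => 8 + 2 * (r - ρ)) 2 x := by
      have := (((hasDerivAt_id x).sub_const ρ).const_mul 2).const_add 8
      simpa using this
    have h2 : HasDerivAt (fun r : ℝ => (8 + 2 * (r - ρ)) ^ 2) (4 * (8 + 2 * (x - ρ))) x := by
      have := h1.pow 2
      refine this.congr_deriv ?_
      push_cast
      ring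
    have h3 : HasDerivAt (fun r : ℝ => r - ρ) 1 x := (hasDerivAt_id x).sub_const ρ
    have h4 := ((h3.mul h2).const_add 10).div_const (ρ ^ 2)
    refine ((W6_hasDerivAt_D h (hρ0.trans_le hx)).sub h4).congr_deriv ?_
    ring
  have hm : AntitoneOn (fun r => W6_D F r - (10 + (r - ρ) * (8 + 2 * (r - ρ)) ^ 2) / ρ ^ 2)
      (Ici ρ) := by
    refine antitoneOn_of_deriv_nonpos (convex_Ici ρ) ?_ ?_ ?_
    · intro x hx
      exact (hd x hx).continuousAt.continuousWithinAt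
    · intro x hx
      rw [interior_Ici] at hx
      exact (hd x (le_of_lt hx)).differentiableAt.differentiableWithinAt
    · intro x hx
      rw [interior_Ici] at hx
      have hx' : ρ < x := hx
      rw [(hd x hx'.le).deriv]
      have h1 := W6_one_sub h hx'.le
      have h2 := W1_q_lt_one F x
      have h3 := W1_q_pos h (hρ0.trans hx').le
      have h4 := u_lt_q h (hρ0.trans hx').le
      have h5 : 0 ≤ 8 + 2 * (x - ρ) := by linarith
      have h6 : qq F x - uu F x ≤ (8 + 2 * (x - ρ)) / ρ := by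
        have : 0 ≤ (8 + 2 * (x - ρ)) / ρ := by positivity
        nlinarith
      have h7 : (qq F x - uu F x) ^ 2 ≤ ((8 + 2 * (x - ρ)) / ρ) ^ 2 :=
        pow_le_pow_left₀ (by linarith) h6 2
      rw [div_pow] at h7
      have h8 : (8 + 2 * (x - ρ)) ^ 2 / ρ ^ 2 ≤ ((8 + 2 * (x - ρ)) ^ 2 + (x - ρ) *
        (4 * (8 + 2 * (x - ρ)))) / ρ ^ 2 := by
        refine div_le_div_of_nonneg_right ?_ (by positivity)
        have : 0 ≤ (x - ρ) * (4 * (8 + 2 * (x - ρ))) :=
          mul_nonneg (by linarith) (by linarith)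
        linarith
      linarith
  have h1 := hm (mem_Ici.2 (le_refl ρ)) (mem_Ici.2 hr) hr
  simp only [sub_self, zero_mul, add_zero] at h1
  have h2 := W6_D_le_in h (by linarith : 0.92 * ρ ≤ ρ) le_rfl
  linarith

private noncomputable def W6_g (μ : ℕ) (t : ℝ) : ℝ :=
  μ * (1 - μ + μ * t) * t ^ (2 * μ - 2) * (2 * (-t - Real.log (1 - t)) / t)

private noncomputable def W6_Y (μ : ℕ) (t : ℝ) : ℝ := ∫ τ in (0 : ℝ)..t, W6_g μ τ

private theorem W6_hasDerivAt_Y {μ : ℕ} (hμ : 1 ≤ μ) {t : ℝ} (ht : t ∈ Ioo (0 : ℝ) 1) :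
    HasDerivAt (W6_Y μ) (W6_g μ t) t := by
  have hc : ContinuousOn (W6_g μ) (Ioo 0 1) := by
    intro x hx
    have hx1 : 1 - x ≠ 0 := by linarith [hx.2]
    have hx0 : x ≠ 0 := hx.1.ne'
    have h1 : ContinuousAt (fun t : ℝ => Real.log (1 - t)) x :=
      ContinuousAt.log (by fun_prop) hx1
    have h2 : ContinuousAt (W6_g μ) x := by
      unfold W6_g
      refine ContinuousAt.mul (by fun_prop) ?_
      refine ContinuousAt.div ?_ continuousAt_id hx0
      exact continuousAt_const.mul (continuousAt_id.neg.sub h1)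
    exact h2.continuousWithinAt
  refine intervalIntegral.integral_hasDerivAt_right ?_ ?_ ?_
  · refine (integrable_kmu μ hμ).mono_set ?_
    rw [uIcc_of_le ht.1.le, uIcc_of_le zero_le_one]
    exact Icc_subset_Icc le_rfl ht.2.le
  · exact hc.stronglyMeasurableAtFilter isOpen_Ioo t ht
  · exact hc.continuousAt (isOpen_Ioo.mem_nhds ht)

private theorem W6_continuousOn_Y {μ : ℕ} (hμ : 1 ≤ μ) : ContinuousOn (W6_Y μ) (Icc 0 1) := by
  have h := intervalIntegral.continuousOn_primitive_interval' (integrable_kmu μ hμ)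
    (left_mem_uIcc)
  rw [uIcc_of_le zero_le_one] at h
  exact h

private theorem W6_hasDerivAt_J {ρ ε : ℝ} {F : ℝ → ℝ} (h : Wall ρ ε F) {μ : ℕ} (hμ : 1 ≤ μ)
    {r : ℝ} (hr : 0 < r) :
    HasDerivAt (fun r => (∫ t in (0.92 * ρ)..r, NP μ F t) - W6_Y μ (qq F r))
      (μ * yy F r * (1 - μ + μ * qq F r) * qq F r ^ (2 * μ - 2) *
        (W6_D F r + 2 * (-qq F r - F (r ^ 2)) * ((qq F r - uu F r) / qq F r))) r := by
  have hq0 := W1_q_pos h hr.le
  have hq1 := W1_q_lt_one F r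
  have hNPc : Continuous (NP μ F) := by
    have h1 := W1_continuous_y h
    have h2 := W1_continuous_q h
    have h3 := W1_continuous_X h
    unfold NP
    fun_prop
  have h1 : HasDerivAt (fun r => ∫ t in (0.92 * ρ)..r, NP μ F t) (NP μ F r) r :=
    intervalIntegral.integral_hasDerivAt_right (hNPc.intervalIntegrable _ _)
      (hNPc.stronglyMeasurableAtFilter _ _) hNPc.continuousAt
  have h2 : HasDerivAt (fun r => W6_Y μ (qq F r)) (W6_g μ (qq F r) * (yy F r * uu F r)) r :=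
    (W6_hasDerivAt_Y hμ ⟨hq0, hq1⟩).comp r (hasDerivAt_q h r)
  refine (h1.sub h2).congr_deriv ?_
  have h3 : Real.log (1 - qq F r) = F (r ^ 2) := by
    unfold qq
    rw [sub_sub_cancel, Real.log_exp]
  have h4 : yy F r = 1 - qq F r := by
    have := W1_y_add_q F r
    linarith
  have h5 : NP μ F r = μ * yy F r * (1 - μ + μ * qq F r) * qq F r ^ (2 * μ - 2) * XX F r := by
    unfold NP
    rw [h4]
    ring
  rw [h5]
  unfold W6_g W6_D
  rw [h3]
  field_simp
  ring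

private theorem W6_abs_le {ρ ε : ℝ} {F : ℝ → ℝ} (h : Wall ρ ε F) {μ : ℕ} (hμ : 1 ≤ μ)
    {r A B : ℝ} (hr : 0 ≤ r) (hA : yy F r * |W6_D F r| ≤ A)
    (hB : yy F r * (2 * (-qq F r - F (r ^ 2)) * ((qq F r - uu F r) / qq F r)) ≤ B) :
    |μ * yy F r * (1 - μ + μ * qq F r) * qq F r ^ (2 * μ - 2) *
        (W6_D F r + 2 * (-qq F r - F (r ^ 2)) * ((qq F r - uu F r) / qq F r))| ≤
      (μ : ℝ) ^ 2 * (A + B) := by
  have hμ' : (1 : ℝ) ≤ μ := by exact_mod_cast hμ
  have hq0 := W1_q_pos h hr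
  have hq1 := W1_q_lt_one F r
  have hy0 := W1_y_pos F r
  have hu := u_lt_q h hr
  have hY : 0 ≤ 2 * (-qq F r - F (r ^ 2)) := by
    have := add_one_le_exp (F (r ^ 2))
    unfold qq
    linarith
  have hT : 0 ≤ 2 * (-qq F r - F (r ^ 2)) * ((qq F r - uu F r) / qq F r) :=
    mul_nonneg hY (div_nonneg (by linarith) hq0.le)
  have h1 : |(1 : ℝ) - μ + μ * qq F r| ≤ μ := by
    rw [abs_le]
    constructor
    · have : 0 ≤ (μ : ℝ) * qq F r := by positivity
      linarith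
    · nlinarith
  have h2 : qq F r ^ (2 * μ - 2) ≤ 1 := pow_le_one₀ hq0.le hq1.le
  have h3 : 0 ≤ qq F r ^ (2 * μ - 2) := by positivity
  rw [abs_mul, abs_mul, abs_mul, abs_mul, abs_of_nonneg (by positivity : (0 : ℝ) ≤ μ),
    abs_of_pos hy0, abs_of_nonneg h3]
  have h4 : |W6_D F r + 2 * (-qq F r - F (r ^ 2)) * ((qq F r - uu F r) / qq F r)| ≤
      |W6_D F r| + 2 * (-qq F r - F (r ^ 2)) * ((qq F r - uu F r) / qq F r) := by
    refine (abs_add_le _ _).trans ?_
    rw [abs_of_nonneg hT]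
  obtain ⟨Q, hQ⟩ : ∃ Q : ℝ, Q = |W6_D F r + 2 * (-qq F r - F (r ^ 2)) *
    ((qq F r - uu F r) / qq F r)| := ⟨_, rfl⟩
  rw [← hQ] at h4 ⊢
  have hQ0 : 0 ≤ Q := by rw [hQ]; exact abs_nonneg _
  have h5 : yy F r * Q ≤ A + B := by
    have := mul_le_mul_of_nonneg_left h4 hy0.le
    linarith
  have h6 : 0 ≤ yy F r * Q := by positivity
  have h7 : (μ : ℝ) * |(1 : ℝ) - μ + μ * qq F r| ≤ (μ : ℝ) ^ 2 := by nlinarith
  have h8 : (μ : ℝ) * |(1 : ℝ) - μ + μ * qq F r| * qq F r ^ (2 * μ - 2) ≤ (μ : ℝ) ^ 2 := by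
    have : 0 ≤ (μ : ℝ) * |(1 : ℝ) - μ + μ * qq F r| := by positivity
    calc (μ : ℝ) * |(1 : ℝ) - μ + μ * qq F r| * qq F r ^ (2 * μ - 2) ≤
        (μ : ℝ) * |(1 : ℝ) - μ + μ * qq F r| * 1 := mul_le_mul_of_nonneg_left h2 this
      _ ≤ (μ : ℝ) ^ 2 := by linarith
  calc (μ : ℝ) * yy F r * |(1 : ℝ) - μ + μ * qq F r| * qq F r ^ (2 * μ - 2) * Q =
      ((μ : ℝ) * |(1 : ℝ) - μ + μ * qq F r| * qq F r ^ (2 * μ - 2)) * (yy F r * Q) := by ring
    _ ≤ (μ : ℝ) ^ 2 * (A + B) := mul_le_mul h8 h5 h6 (by positivity)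

private theorem W6_in {ρ ε : ℝ} {F : ℝ → ℝ} (h : Wall ρ ε F) {μ : ℕ} (hμ : 1 ≤ μ) :
    |((∫ t in (0.92 * ρ)..ρ, NP μ F t) - W6_Y μ (qq F ρ)) -
      ((∫ t in (0.92 * ρ)..(0.92 * ρ), NP μ F t) - W6_Y μ (qq F (0.92 * ρ)))| ≤
      8 * (μ : ℝ) ^ 2 / ρ := by
  have hρ := h.hρ
  have hρ0 : 0 < ρ := by linarith
  have hqρ : qq F ρ = 1 / 2 := by
    have := W1_y_add_q F ρ
    have := W1_y_rho h
    linarith
  have key := W6_cmp (a := 0.92 * ρ) (b := ρ)
    (J := fun r => (∫ t in (0.92 * ρ)..r, NP μ F t) - W6_Y μ (qq F r))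
    (Φ := fun r => (μ : ℝ) ^ 2 * (10 / ρ ^ 2 * r + 25 / ρ * qq F r ^ 2))
    (Φ' := fun r => (μ : ℝ) ^ 2 * (10 / ρ ^ 2 + 25 / ρ * (2 * qq F r * (yy F r * uu F r))))
    (by linarith)
    (fun r hr => W6_hasDerivAt_J h hμ (by linarith [hr.1])) ?_ ?_
  · refine key.trans ?_
    rw [hqρ]
    have h1 : (0 : ℝ) ≤ (μ : ℝ) ^ 2 := by positivity
    have h2 : 0 ≤ 25 / ρ * qq F (0.92 * ρ) ^ 2 := by positivity
    have h3 : 10 / ρ ^ 2 * ρ + 25 / ρ * (1 / 2) ^ 2 - (10 / ρ ^ 2 * (0.92 * ρ) +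
        25 / ρ * qq F (0.92 * ρ) ^ 2) ≤ 8 / ρ := by
      have e1 : 10 / ρ ^ 2 * ρ - 10 / ρ ^ 2 * (0.92 * ρ) = 0.8 / ρ := by
        field_simp
        norm_num
      have e2 : 25 / ρ * (1 / 2) ^ 2 = 6.25 / ρ := by
        field_simp
        norm_num
      have e3 : (8 : ℝ) / ρ = 0.8 / ρ + 6.25 / ρ + 0.95 / ρ := by
        field_simp
        norm_num
      have e4 : 0 < 0.95 / ρ := by positivity
      linarith
    calc (μ : ℝ) ^ 2 * (10 / ρ ^ 2 * ρ + 25 / ρ * (1 / 2) ^ 2) -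
        (μ : ℝ) ^ 2 * (10 / ρ ^ 2 * (0.92 * ρ) + 25 / ρ * qq F (0.92 * ρ) ^ 2) =
        (μ : ℝ) ^ 2 * (10 / ρ ^ 2 * ρ + 25 / ρ * (1 / 2) ^ 2 - (10 / ρ ^ 2 * (0.92 * ρ) +
        25 / ρ * qq F (0.92 * ρ) ^ 2)) := by ring
      _ ≤ (μ : ℝ) ^ 2 * (8 / ρ) := mul_le_mul_of_nonneg_left h3 h1
      _ = 8 * (μ : ℝ) ^ 2 / ρ := by ring
  · intro r hr
    have h3 : HasDerivAt (fun r => qq F r ^ 2) (2 * qq F r * (yy F r * uu F r)) r := by
      have := (hasDerivAt_q h r).pow 2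
      refine this.congr_deriv ?_
      push_cast
      ring
    have h4 := (((hasDerivAt_id r).const_mul (10 / ρ ^ 2)).add
      (h3.const_mul (25 / ρ))).const_mul ((μ : ℝ) ^ 2)
    refine h4.congr_deriv ?_
    ring
  · intro r hr
    have hr0 : 0 < r := by linarith [hr.1]
    have hr16 : 16 ≤ r := by linarith [hr.1]
    have hy1 := W1_y_lt_one h hr0.le
    have hy0 := W1_y_pos F r
    have e1 := u_ge_q h hr0 hr.2
    have e2 := W1_q_pos h hr0.le
    have e3 := y_ge_half h hr0.le hr.2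
    have e4 := u_pos h hr0
    have e5 := u_lt_q h hr0.le
    have hq2 : qq F r ≤ 1 / 2 := by
      have := W1_y_add_q F r
      linarith
    refine W6_abs_le h hμ hr0.le ?_ ?_
    · have h1 := W6_D_ge h hr0.le
      have h2 := W6_D_le_in h hr.1 hr.2
      have h3 : |W6_D F r| ≤ 10 / ρ ^ 2 := by
        rw [abs_le]
        refine ⟨?_, h2⟩
        have : 2 / ρ ^ 2 ≤ 10 / ρ ^ 2 := by gcongr; norm_num
        linarith
      calc yy F r * |W6_D F r| ≤ 1 * |W6_D F r| :=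
            mul_le_mul_of_nonneg_right hy1.le (abs_nonneg _)
        _ ≤ 10 / ρ ^ 2 := by linarith
    · -- `Y ≤ 4 q²`
      have hY : 2 * (-qq F r - F (r ^ 2)) ≤ 4 * qq F r ^ 2 := by
        have h1 := Real.one_sub_inv_le_log_of_pos hy0
        have h2 : Real.log (yy F r) = F (r ^ 2) := Real.log_exp _
        rw [h2] at h1
        have h4 : yy F r = 1 - qq F r := by
          have := W1_y_add_q F r
          linarith
        have h5 : (yy F r)⁻¹ ≤ 1 + qq F r + 2 * qq F r ^ 2 := by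
          rw [inv_le_iff_one_le_mul₀ hy0, h4]
          nlinarith [mul_nonneg (sq_nonneg (qq F r)) (by linarith : (0 : ℝ) ≤ 1 - 2 * qq F r)]
        linarith
      have hp : (qq F r - uu F r) / qq F r ≤ 5 / ρ := by
        rw [div_le_iff₀ e2, div_mul_eq_mul_div, le_div_iff₀ hρ0]
        have : (r + 4) * (qq F r - uu F r) ≤ 4 * qq F r := by linarith
        have h6 : 0.92 * ρ * (qq F r - uu F r) ≤ (r + 4) * (qq F r - uu F r) :=
          mul_le_mul_of_nonneg_right (by linarith [hr.1]) (by linarith)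
        nlinarith
      have hp0 : 0 ≤ (qq F r - uu F r) / qq F r := div_nonneg (by linarith) e2.le
      have h7 : 2 * (-qq F r - F (r ^ 2)) * ((qq F r - uu F r) / qq F r) ≤
          4 * qq F r ^ 2 * (5 / ρ) := mul_le_mul hY hp hp0 (by positivity)
      have e10 : 0.8 * qq F r ≤ uu F r := by nlinarith
      have e11 : 0.4 * qq F r ≤ yy F r * uu F r := by nlinarith
      have e12 : 0.8 * qq F r ^ 2 ≤ 2 * qq F r * (yy F r * uu F r) := by nlinarith
      have h8 : 0 ≤ 4 * qq F r ^ 2 * (5 / ρ) := by positivity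
      calc yy F r * (2 * (-qq F r - F (r ^ 2)) * ((qq F r - uu F r) / qq F r)) ≤
          yy F r * (4 * qq F r ^ 2 * (5 / ρ)) := mul_le_mul_of_nonneg_left h7 hy0.le
        _ ≤ 1 * (4 * qq F r ^ 2 * (5 / ρ)) := mul_le_mul_of_nonneg_right hy1.le h8
        _ = 25 / ρ * (0.8 * qq F r ^ 2) := by ring
        _ ≤ 25 / ρ * (2 * qq F r * (yy F r * uu F r)) :=
          mul_le_mul_of_nonneg_left e12 (by positivity)

private theorem W6_out {ρ ε : ℝ} {F : ℝ → ℝ} (h : Wall ρ ε F) {μ : ℕ} (hμ : 1 ≤ μ) {R : ℝ}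
    (hR : ρ ≤ R) (hR' : R ≤ 2 * ρ) :
    |((∫ t in (0.92 * ρ)..R, NP μ F t) - W6_Y μ (qq F R)) -
      ((∫ t in (0.92 * ρ)..ρ, NP μ F t) - W6_Y μ (qq F ρ))| ≤
      3210 * (μ : ℝ) ^ 2 / ρ := by
  have hρ := h.hρ
  have hρ0 : 0 < ρ := by linarith
  have key := W6_cmp (a := ρ) (b := R)
    (J := fun r => (∫ t in (0.92 * ρ)..r, NP μ F t) - W6_Y μ (qq F r))
    (Φ := fun r => -(3210 * (μ : ℝ) ^ 2 / ρ * exp (-0.1 * (r - ρ))))
    (Φ' := fun r => (μ : ℝ) ^ 2 * (161 / ρ * exp (-0.1 * (r - ρ)) +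
      160 / ρ * exp (-0.1 * (r - ρ)))) hR
    (fun r hr => W6_hasDerivAt_J h hμ (by linarith [hr.1])) ?_ ?_
  · refine key.trans ?_
    rw [sub_self, mul_zero, exp_zero]
    have : 0 < exp (-0.1 * (R - ρ)) := exp_pos _
    have h2 : 0 ≤ 3210 * (μ : ℝ) ^ 2 / ρ * exp (-0.1 * (R - ρ)) := by positivity
    linarith
  · intro r hr
    have h1 : HasDerivAt (fun r : ℝ => exp (-0.1 * (r - ρ)))
        (exp (-0.1 * (r - ρ)) * (-0.1)) r := by
      have := (((hasDerivAt_id r).sub_const ρ).const_mul (-0.1)).exp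
      simpa using this
    have h2 := (h1.const_mul (3210 * (μ : ℝ) ^ 2 / ρ)).neg
    refine h2.congr_deriv ?_
    ring
  · intro r hr
    have hr0 : 0 < r := by linarith [hr.1]
    have hy1 := W1_y_lt_one h hr0.le
    have hy0 := W1_y_pos F r
    have e2 := W1_q_pos h hr0.le
    have hq1 := W1_q_lt_one F r
    have e4 := u_pos h hr0
    have e5 := u_lt_q h hr0.le
    have hy := y_out_exp h hr.1 (hr.2.trans hR')
    obtain ⟨x, hx⟩ : ∃ x : ℝ, x = r - ρ := ⟨_, rfl⟩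
    have hx0 : 0 ≤ x := by rw [hx]; linarith [hr.1]
    obtain ⟨z, hz⟩ : ∃ z : ℝ, z = exp (0.05 * x) := ⟨_, rfl⟩
    have hz1 : 1 + 0.05 * x ≤ z := by
      rw [hz]
      have := add_one_le_exp (0.05 * x)
      linarith
    have hz0 : 0 < z := by linarith
    have hz1' : 1 ≤ z := by linarith
    have hx20 : x ≤ 20 * z := by linarith
    have hx40 : 8 + 2 * x ≤ 40 * z := by linarith
    have hE : ∀ n : ℕ, exp (-(0.05 * n) * x) = (z ^ n)⁻¹ := by
      intro n
      rw [hz, ← exp_nat_mul, ← exp_neg]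
      congr 1
      ring
    have hE2 : exp (-0.1 * x) = (z ^ 2)⁻¹ := by
      rw [← hE 2]
      congr 1
      norm_num
    have hE3 : exp (-0.15 * x) = (z ^ 3)⁻¹ := by
      rw [← hE 3]
      congr 1
      norm_num
    have hE6 : exp (-0.3 * x) = (z ^ 6)⁻¹ := by
      rw [← hE 6]
      congr 1
      norm_num
    rw [← hx] at hy
    rw [← hx]
    refine W6_abs_le h hμ hr0.le ?_ ?_
    · have h1 := W6_D_ge h hr0.le
      have h2 := W6_D_le_out h hr.1
      rw [← hx] at h2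
      have h3 : 10 + x * (8 + 2 * x) ^ 2 ≤ 32010 * z ^ 3 := by
        have a1 : (8 + 2 * x) ^ 2 ≤ (40 * z) ^ 2 := pow_le_pow_left₀ (by linarith) hx40 2
        have a2 : x * (8 + 2 * x) ^ 2 ≤ (20 * z) * (40 * z) ^ 2 :=
          mul_le_mul hx20 a1 (by positivity) (by positivity)
        have a3 : 1 ≤ z ^ 3 := one_le_pow₀ hz1'
        nlinarith
      have h4 : |W6_D F r| ≤ 32010 * z ^ 3 / ρ ^ 2 := by
        rw [abs_le]
        constructor
        · have a3 : 1 ≤ z ^ 3 := one_le_pow₀ hz1'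
          have : 2 / ρ ^ 2 ≤ 32010 * z ^ 3 / ρ ^ 2 := by
            refine div_le_div_of_nonneg_right ?_ (by positivity)
            linarith
          linarith
        · refine h2.trans (div_le_div_of_nonneg_right h3 (by positivity))
      rw [hE6] at hy
      calc yy F r * |W6_D F r| ≤ (1 / 2 * (z ^ 6)⁻¹) * (32010 * z ^ 3 / ρ ^ 2) :=
            mul_le_mul hy h4 (abs_nonneg _) (by positivity)
        _ = 16005 / ρ * (z ^ 3)⁻¹ * (1 / ρ) := by
            field_simp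
            norm_num
        _ ≤ 16005 / ρ * (z ^ 2)⁻¹ * (1 / 100) := by
            have b1 : (z ^ 3)⁻¹ ≤ (z ^ 2)⁻¹ :=
              inv_anti₀ (by positivity) (pow_le_pow_right₀ hz1' (by norm_num))
            have b2 : 1 / ρ ≤ 1 / 100 := one_div_le_one_div_of_le (by norm_num) hρ
            exact mul_le_mul (mul_le_mul_of_nonneg_left b1 (by positivity)) b2 (by positivity)
              (by positivity)
        _ ≤ 161 / ρ * exp (-0.1 * x) := by
            rw [hE2]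
            have : 0 < 1 / ρ * (z ^ 2)⁻¹ := by positivity
            have c1 : 16005 / ρ * (z ^ 2)⁻¹ * (1 / 100) = 160.05 * (1 / ρ * (z ^ 2)⁻¹) := by ring
            have c2 : 161 / ρ * (z ^ 2)⁻¹ = 161 * (1 / ρ * (z ^ 2)⁻¹) := by ring
            rw [c1, c2]
            linarith
    · have hp : (qq F r - uu F r) / qq F r ≤ (8 + 2 * x) / ρ := by
        rw [div_le_iff₀ e2, hx]
        exact W6_one_sub h hr.1
      have hp0 : 0 ≤ (qq F r - uu F r) / qq F r := div_nonneg (by linarith) e2.le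
      have hp' : (qq F r - uu F r) / qq F r ≤ 40 * z / ρ :=
        hp.trans (div_le_div_of_nonneg_right hx40 hρ0.le)
      -- `y Y ≤ 4 e^{-0.15 x}`
      have hyY : yy F r * (2 * (-qq F r - F (r ^ 2))) ≤ 4 * (z ^ 3)⁻¹ := by
        obtain ⟨σ, hσ⟩ : ∃ σ : ℝ, σ = -F (r ^ 2) := ⟨_, rfl⟩
        have hyσ : yy F r = exp (-σ) := by
          rw [hσ, neg_neg]
          rfl
        have h1 : exp (-σ) ≤ exp (-0.3 * x) := by
          rw [← hyσ]
          have := exp_pos (-0.3 * x)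
          linarith
        have h2 := exp_le_exp.1 h1
        have h3 : exp (-σ) = exp (-(σ / 2)) * exp (-(σ / 2)) := by
          rw [← exp_add]
          congr 1
          ring
        have h4 : σ / 2 * exp (-(σ / 2)) ≤ 1 := by
          have h5 : σ / 2 ≤ exp (σ / 2) := by
            have := add_one_le_exp (σ / 2)
            linarith
          have h6 : exp (σ / 2) * exp (-(σ / 2)) = 1 := by
            rw [← exp_add]
            simp
          have := mul_le_mul_of_nonneg_right h5 (exp_pos (-(σ / 2))).le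
          linarith
        have h7 : exp (-(σ / 2)) ≤ (z ^ 3)⁻¹ := by
          rw [← hE3]
          refine exp_le_exp.2 ?_
          linarith
        have h8 : yy F r * σ ≤ 2 * exp (-(σ / 2)) := by
          rw [hyσ, h3]
          have := mul_le_mul_of_nonneg_right h4 (exp_pos (-(σ / 2))).le
          linarith
        have h9 : yy F r * (2 * (-qq F r - F (r ^ 2))) ≤ 2 * (yy F r * σ) := by
          rw [hσ]
          have : 0 ≤ yy F r * qq F r := by positivity
          linarith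
        linarith
      calc yy F r * (2 * (-qq F r - F (r ^ 2)) * ((qq F r - uu F r) / qq F r)) =
          yy F r * (2 * (-qq F r - F (r ^ 2))) * ((qq F r - uu F r) / qq F r) := by ring
        _ ≤ 4 * (z ^ 3)⁻¹ * (40 * z / ρ) := mul_le_mul hyY hp' hp0 (by positivity)
        _ = 160 / ρ * exp (-0.1 * x) := by
            rw [hE2]
            field_simp
            norm_num

theorem kappa_tendsto (μ : ℕ) (hμ : 1 ≤ μ) (δ : ℝ) (hδ : 0 < δ) :
    ∃ ρ₀ : ℝ, ∀ ρ ε F, Wall ρ ε F → ρ₀ ≤ ρ →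
      |(∫ r in Ioo (0.92 * ρ) (ρ + 20 * Real.log ρ), NP μ F r) - kmu μ| ≤ δ := by
  have hc := W6_continuousOn_Y hμ
  have hY0 : W6_Y μ 0 = 0 := by
    unfold W6_Y
    simp
  have hY1 : W6_Y μ 1 = kmu μ := integral_kmu μ hμ
  obtain ⟨η0, hη0, h0⟩ := Metric.continuousWithinAt_iff.1
    (hc 0 (left_mem_Icc.2 zero_le_one)) (δ / 3) (by positivity)
  obtain ⟨η1, hη1, h1⟩ := Metric.continuousWithinAt_iff.1
    (hc 1 (right_mem_Icc.2 zero_le_one)) (δ / 3) (by positivity)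
  rw [hY0] at h0
  rw [hY1] at h1
  refine ⟨max (max 1600 (3 * (3218 * (μ : ℝ) ^ 2) / δ)) (max (17 / η0) (2 / η1)), ?_⟩
  intro ρ ε F h hρ'
  have hρ1 : 1600 ≤ ρ := (le_max_left _ _).trans ((le_max_left _ _).trans hρ')
  have hρ2 : 3 * (3218 * (μ : ℝ) ^ 2) / δ ≤ ρ :=
    (le_max_right _ _).trans ((le_max_left _ _).trans hρ')
  have hρ3 : 17 / η0 ≤ ρ := (le_max_left _ _).trans ((le_max_right _ _).trans hρ')
  have hρ4 : 2 / η1 ≤ ρ := (le_max_right _ _).trans ((le_max_right _ _).trans hρ')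
  have hρ0 : 0 < ρ := by linarith
  have hlog0 : 0 ≤ Real.log ρ := Real.log_nonneg (by linarith)
  have hlog : 20 * Real.log ρ ≤ ρ := by
    have a1 : Real.log ρ = 2 * Real.log (Real.sqrt ρ) := by
      rw [Real.log_sqrt hρ0.le]
      ring
    have a2 : 0 < Real.sqrt ρ := Real.sqrt_pos.2 hρ0
    have a3 := Real.log_le_sub_one_of_pos a2
    have a4 : Real.sqrt ρ * Real.sqrt ρ = ρ := Real.mul_self_sqrt hρ0.le
    have a5 : 40 ≤ Real.sqrt ρ := by
      apply Real.le_sqrt_of_sq_le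
      linarith
    nlinarith
  obtain ⟨R, hR⟩ : ∃ R : ℝ, R = ρ + 20 * Real.log ρ := ⟨_, rfl⟩
  have hR1 : ρ ≤ R := by rw [hR]; linarith
  have hR2 : R ≤ 2 * ρ := by rw [hR]; linarith
  rw [← hR]
  have hint : ∫ r in Ioo (0.92 * ρ) R, NP μ F r = ∫ r in (0.92 * ρ)..R, NP μ F r := by
    rw [intervalIntegral.integral_of_le (by linarith), integral_Ioc_eq_integral_Ioo]
  rw [hint]
  have hin := W6_in h hμ
  have hout := W6_out h hμ hR1 hR2
  rw [intervalIntegral.integral_same] at hin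
  -- `q (0.92 ρ)`
  have hqa : qq F (0.92 * ρ) < η0 := by
    have hqρ : qq F ρ = 1 / 2 := by
      have := W1_y_add_q F ρ
      have := W1_y_rho h
      linarith
    have b1 := q_decay h (r := 0.92 * ρ) (r' := ρ) (by linarith) (by linarith) le_rfl
    rw [hqρ] at b1
    have b2 : exp (-0.4 * (ρ - 0.92 * ρ)) ≤ 32 / ρ := by
      have b3 : exp (-0.4 * (ρ - 0.92 * ρ)) = (exp (0.032 * ρ))⁻¹ := by
        rw [← exp_neg]
        congr 1
        ring
      have b4 := add_one_le_exp (0.032 * ρ)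
      rw [b3, inv_le_iff_one_le_mul₀ (exp_pos _), div_mul_eq_mul_div, le_div_iff₀ hρ0]
      linarith
    have b5 : 16 / ρ < η0 := by
      rw [div_le_iff₀ hη0] at hρ3
      rw [div_lt_iff₀ hρ0]
      linarith
    have b6 : 1 / 2 * (32 / ρ) = 16 / ρ := by ring
    linarith
  have hqa0 := W1_q_pos h (by linarith : (0 : ℝ) ≤ 0.92 * ρ)
  have hqa1 := W1_q_lt_one F (0.92 * ρ)
  have c0 := h0 (x := qq F (0.92 * ρ)) ⟨hqa0.le, hqa1.le⟩ (by
    rw [Real.dist_eq, sub_zero, abs_of_pos hqa0]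
    exact hqa)
  rw [Real.dist_eq, sub_zero] at c0
  have hqb : 1 - qq F R < η1 := by
    have b1 := y_out_exp h hR1 hR2
    have b2 : exp (-0.3 * (R - ρ)) ≤ 1 / ρ := by
      rw [hR]
      have b3 : -0.3 * (ρ + 20 * Real.log ρ - ρ) ≤ -Real.log ρ := by linarith
      calc exp (-0.3 * (ρ + 20 * Real.log ρ - ρ)) ≤ exp (-Real.log ρ) := exp_le_exp.2 b3
        _ = 1 / ρ := by rw [exp_neg, exp_log hρ0, one_div]
    have b5 : 1 / ρ < η1 := by
      rw [div_le_iff₀ hη1] at hρ4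
      rw [div_lt_iff₀ hρ0]
      linarith
    have b6 := W1_y_add_q F R
    have b7 : 0 < 1 / ρ := by positivity
    linarith
  have hqb0 := W1_q_pos h (by linarith : (0 : ℝ) ≤ R)
  have hqb1 := W1_q_lt_one F R
  have c1 := h1 (x := qq F R) ⟨hqb0.le, hqb1.le⟩ (by
    rw [Real.dist_eq, abs_sub_comm, abs_of_pos (by linarith)]
    exact hqb)
  rw [Real.dist_eq] at c1
  have d1 : 8 * (μ : ℝ) ^ 2 / ρ + 3210 * (μ : ℝ) ^ 2 / ρ ≤ δ / 3 := by
    rw [← add_div, div_le_iff₀ hρ0]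
    rw [div_le_iff₀ hδ] at hρ2
    linarith
  rw [abs_le] at hin hout ⊢
  rw [abs_lt] at c0 c1
  constructor <;> linarith [hin.1, hin.2, hout.1, hout.2, c0.1, c0.2, c1.1, c1.2]

end Pool.MP_ad5d82_an.Wl
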