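import Pool.Agent.Lib.MP_ad5d82_an.h24.WDefs
import Pool.Agent.Lib.MP_ad5d82_an.h24.W.W1

set_option autoImplicit false

namespace Pool.MP_ad5d82_an.Wl

open Real Set MeasureTheory
open scoped ContDiff

/-! ### W7 ground state representation -/

theorem W7_contDiff_s {ρ ε : ℝ} {F : ℝ → ℝ} (h : Wall ρ ε F) :
    ContDiff ℝ ∞ fun r => F (r ^ 2) :=
  h.smooth.comp (contDiff_id.pow 2)

theorem W7_contDiff_y {ρ ε : ℝ} {F : ℝ → ℝ} (h : Wall ρ ε F) : ContDiff ℝ ∞ (yy F) :=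
  (W7_contDiff_s h).exp

theorem W7_contDiff_q {ρ ε : ℝ} {F : ℝ → ℝ} (h : Wall ρ ε F) : ContDiff ℝ ∞ (qq F) :=
  contDiff_const.sub (W7_contDiff_s h).exp

theorem W7_contDiff_u {ρ ε : ℝ} {F : ℝ → ℝ} (h : Wall ρ ε F) : ContDiff ℝ ∞ (uu F) := by
  have h1 : ContDiff ℝ ∞ (deriv F) := (contDiff_infty_iff_deriv.1 h.smooth).2
  have h2 : ContDiff ℝ ∞ fun r : ℝ => deriv F (r ^ 2) := h1.comp (contDiff_id.pow 2)
  exact ((contDiff_const.mul contDiff_id).mul h2).neg

/-- `q` is positive everywhere -/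
theorem W7_q_pos {ρ ε : ℝ} {F : ℝ → ℝ} (h : Wall ρ ε F) (r : ℝ) : 0 < qq F r := by
  have h1 := W1_q_pos h (abs_nonneg r)
  unfold qq at h1 ⊢
  rwa [sq_abs] at h1

theorem ground_state {ρ ε : ℝ} {F : ℝ → ℝ} (h : Wall ρ ε F) (μ : ℕ) (hμ : 1 ≤ μ) (f : ℝ → ℝ)
    (hf : ContDiff ℝ 1 f) (hc : HasCompactSupport f) (h0 : ∀ r, r ≤ 0.92 * ρ → f r = 0) :
    ∃ φ : ℝ → ℝ, ContDiff ℝ 1 φ ∧ HasCompactSupport φ ∧ (∀ r, r ≤ 0.92 * ρ → φ r = 0) ∧
      (∀ r, 0 ≤ r → f r = qq F r ^ μ * φ r) ∧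
      ∫ r in Ioi (0 : ℝ), (deriv f r ^ 2 + VV μ F r * f r ^ 2) * r =
        (∫ r in Ioi (0 : ℝ), qq F r ^ (2 * μ) * deriv φ r ^ 2 * r)
          - ∫ r in Ioi (0 : ℝ), NP μ F r * φ r ^ 2 := by
  obtain ⟨m, rfl⟩ : ∃ m, μ = m + 1 := ⟨μ - 1, by omega⟩
  have hρ := h.hρ
  have hq := W7_q_pos h
  have hqs : ContDiff ℝ 1 (qq F) := (W7_contDiff_q h).of_le (by simp)
  have hys : ContDiff ℝ 1 (yy F) := (W7_contDiff_y h).of_le (by simp)
  have hus : ContDiff ℝ 1 (uu F) := (W7_contDiff_u h).of_le (by simp)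
  obtain ⟨φ, hφ⟩ : ∃ φ : ℝ → ℝ, φ = fun r => f r / qq F r ^ (m + 1) := ⟨_, rfl⟩
  have hφs : ContDiff ℝ 1 φ := by
    rw [hφ]
    exact hf.div (hqs.pow _) fun r => (pow_pos (hq r) _).ne'
  have hφc : HasCompactSupport φ := by
    rw [hφ]
    refine hc.mono' ?_
    intro r hr
    apply subset_tsupport
    rw [Function.mem_support] at hr ⊢
    intro hf0
    exact hr (by simp [hf0])
  have hφ0 : ∀ r, r ≤ 0.92 * ρ → φ r = 0 := by
    intro r hr
    rw [hφ]
    simp [h0 r hr]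
  have hfφ : ∀ r, f r = qq F r ^ (m + 1) * φ r := by
    intro r
    rw [hφ]
    have := (pow_pos (hq r) (m + 1)).ne'
    simp only
    field_simp
  refine ⟨φ, hφs, hφc, hφ0, fun r _ => hfφ r, ?_⟩
  -- derivative of `f`
  have hφd : ∀ r, HasDerivAt φ (deriv φ r) r := fun r =>
    ((hφs.differentiable (by simp)) r).hasDerivAt
  have hfd : ∀ r, deriv f r = ((m + 1 : ℕ) : ℝ) * qq F r ^ m * (yy F r * uu F r) * φ r +
      qq F r ^ (m + 1) * deriv φ r := by
    intro r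
    have h1 : f = fun r => qq F r ^ (m + 1) * φ r := funext hfφ
    have h2 := ((hasDerivAt_q h r).pow (m + 1)).mul (hφd r)
    have h3 : HasDerivAt f (((m + 1 : ℕ) : ℝ) * qq F r ^ (m + 1 - 1) * (yy F r * uu F r) * φ r +
        qq F r ^ (m + 1) * deriv φ r) r := by
      rw [h1]
      exact h2
    rw [h3.deriv, Nat.add_sub_cancel]
  -- the exact term
  obtain ⟨G, hG⟩ : ∃ G : ℝ → ℝ, G = fun r => ((m + 1 : ℕ) : ℝ) * qq F r ^ (2 * m + 1) * yy F r *
    (r * uu F r) * φ r ^ 2 := ⟨_, rfl⟩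
  have hGs : ContDiff ℝ 1 G := by
    rw [hG]
    exact (((contDiff_const.mul (hqs.pow _)).mul hys).mul (contDiff_id.mul hus)).mul (hφs.pow 2)
  have hGc : HasCompactSupport G := by
    refine hφc.mono' ?_
    intro r hr
    apply subset_tsupport
    rw [Function.mem_support] at hr ⊢
    intro hf0
    exact hr (by rw [hG]; simp [hf0])
  have hG0 : G 0 = 0 := by
    rw [hG]
    simp
  have hGd : ∀ r, 0 < r → deriv G r = (((m + 1 : ℕ) : ℝ) * ((2 * m + 1 : ℕ) : ℝ) *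
      qq F r ^ (2 * m) * (yy F r * uu F r) * yy F r * (r * uu F r) +
      ((m + 1 : ℕ) : ℝ) * qq F r ^ (2 * m + 1) * (-(yy F r * uu F r)) * (r * uu F r) +
      ((m + 1 : ℕ) : ℝ) * qq F r ^ (2 * m + 1) * yy F r * (r * (yy F r * qq F r))) * φ r ^ 2 +
      ((m + 1 : ℕ) : ℝ) * qq F r ^ (2 * m + 1) * yy F r * (r * uu F r) *
        (2 * φ r * deriv φ r) := by
    intro r hr
    have h1 := (((((hasDerivAt_q h r).pow (2 * m + 1)).const_mul ((m + 1 : ℕ) : ℝ)).mul
      (W1_hasDerivAt_y h r)).mul (W1_hasDerivAt_ru h hr)).mul ((hφd r).pow 2)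
    refine (Eq.trans ?_ h1.deriv).trans ?_
    · rw [hG]
      rfl
    simp only [Pi.mul_apply, Pi.pow_apply, Nat.add_sub_cancel]
    push_cast
    ring
  -- pointwise identity
  have hpt : ∀ r, 0 < r → (deriv f r ^ 2 + VV (m + 1) F r * f r ^ 2) * r =
      qq F r ^ (2 * (m + 1)) * deriv φ r ^ 2 * r - NP (m + 1) F r * φ r ^ 2 + deriv G r := by
    intro r hr
    rw [hGd r hr, hfd r, hfφ r]
    unfold VV NP XX
    have e1 : 2 * (m + 1) - 2 = 2 * m := by omega
    rw [e1]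
    have e2 := W1_y_add_q F r
    have e3 : yy F r = 1 - qq F r := by linarith
    have e4 : qq F r ^ (2 * (m + 1)) = qq F r ^ (2 * m) * qq F r ^ 2 := by
      rw [← pow_add]
      congr 1
    have e5 : qq F r ^ (2 * m + 1) = qq F r ^ (2 * m) * qq F r := pow_succ _ _
    have e6 : qq F r ^ (2 * m) = (qq F r ^ m) ^ 2 := by
      rw [← pow_mul, mul_comm]
    have e7 : qq F r ^ (m + 1) = qq F r ^ m * qq F r := pow_succ _ _
    rw [e4, e5, e6, e7]
    obtain ⟨Q, hQ⟩ : ∃ Q : ℝ, Q = qq F r ^ m := ⟨_, rfl⟩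
    rw [← hQ, e3]
    push_cast
    ring
  -- integrability
  have hfs : Continuous (deriv f) := hf.continuous_deriv (by simp)
  have hφs' : Continuous (deriv φ) := hφs.continuous_deriv (by simp)
  have hqc := hqs.continuous
  have hyc := hys.continuous
  have huc := hus.continuous
  have hφcont := hφs.continuous
  have hBi : Integrable (fun r => qq F r ^ (2 * (m + 1)) * deriv φ r ^ 2 * r) := by
    refine Continuous.integrable_of_hasCompactSupport (by fun_prop) ?_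
    refine hφc.deriv.mono' ?_
    intro r hr
    apply subset_tsupport
    rw [Function.mem_support] at hr ⊢
    intro hf0
    exact hr (by simp [hf0])
  have hNPc : Continuous (NP (m + 1) F) := by
    unfold NP XX
    fun_prop
  have hCi : Integrable (fun r => NP (m + 1) F r * φ r ^ 2) := by
    refine Continuous.integrable_of_hasCompactSupport (by fun_prop) ?_
    refine hφc.mono' ?_
    intro r hr
    apply subset_tsupport
    rw [Function.mem_support] at hr ⊢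
    intro hf0
    exact hr (by simp [hf0])
  have hGi : Integrable (deriv G) :=
    (hGs.continuous_deriv (by simp)).integrable_of_hasCompactSupport hGc.deriv
  have hGint : ∫ r in Ioi (0 : ℝ), deriv G r = 0 := by
    rw [hGc.integral_Ioi_deriv_eq hGs 0, hG0, neg_zero]
  have h1 : ∫ r in Ioi (0 : ℝ), (deriv f r ^ 2 + VV (m + 1) F r * f r ^ 2) * r =
      ∫ r in Ioi (0 : ℝ), ((qq F r ^ (2 * (m + 1)) * deriv φ r ^ 2 * r -
        NP (m + 1) F r * φ r ^ 2) + deriv G r) :=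
    setIntegral_congr_fun measurableSet_Ioi fun r hr => hpt r hr
  have hsub : IntegrableOn (fun r => qq F r ^ (2 * (m + 1)) * deriv φ r ^ 2 * r -
      NP (m + 1) F r * φ r ^ 2) (Ioi 0) := hBi.integrableOn.sub hCi.integrableOn
  rw [h1, integral_add hsub hGi.integrableOn, hGint, add_zero,
    integral_sub hBi.integrableOn hCi.integrableOn]

end Pool.MP_ad5d82_an.Wl
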