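import Pool.Agent.Lib.MP_ad5d82_an.h24.WDefs
import Pool.Agent.Lib.MP_ad5d82_an.h24.W.W5
import Pool.Agent.Lib.MP_ad5d82_an.h24.W.W7

set_option autoImplicit false

namespace Pool.MP_ad5d82_an.Wl

open Real Set MeasureTheory
open scoped ContDiff

/-! ### W8a general lemmas for W8 and W10 -/

/-- Cauchy-Schwarz with a weight -/
theorem w8_cs {a b : ℝ} (hab : a ≤ b) {g w : ℝ → ℝ} (hg : Continuous g)
    (hw : ContinuousOn w (Icc a b)) (hpos : ∀ t ∈ Icc a b, 0 < w t) :
    (∫ t in a..b, g t) ^ 2 ≤ (∫ t in a..b, g t ^ 2 * w t) * ∫ t in a..b, (w t)⁻¹ := by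
  have hu : uIcc a b = Icc a b := uIcc_of_le hab
  have h1 : IntervalIntegrable g volume a b := hg.intervalIntegrable a b
  have h2 : IntervalIntegrable (fun t => g t ^ 2 * w t) volume a b := by
    apply ContinuousOn.intervalIntegrable
    rw [hu]
    exact ((hg.pow 2).continuousOn).mul hw
  have h3 : IntervalIntegrable (fun t => (w t)⁻¹) volume a b := by
    apply ContinuousOn.intervalIntegrable
    rw [hu]
    exact hw.inv₀ fun t ht => (hpos t ht).ne'
  have key : ∀ x : ℝ, 0 ≤ (∫ t in a..b, g t ^ 2 * w t) * (x * x) + (2 * ∫ t in a..b, g t) * x +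
      ∫ t in a..b, (w t)⁻¹ := by
    intro x
    have e : (∫ t in a..b, g t ^ 2 * w t) * (x * x) + (2 * ∫ t in a..b, g t) * x +
        ∫ t in a..b, (w t)⁻¹ =
        ∫ t in a..b, ((x * x) * (g t ^ 2 * w t) + (2 * x) * g t + (w t)⁻¹) := by
      rw [intervalIntegral.integral_add ((h2.const_mul _).add (h1.const_mul _)) h3,
        intervalIntegral.integral_add (h2.const_mul _) (h1.const_mul _),
        intervalIntegral.integral_const_mul, intervalIntegral.integral_const_mul]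
      ring
    rw [e]
    apply intervalIntegral.integral_nonneg hab
    intro t ht
    have hw0 := hpos t ht
    have e2 : (x * x) * (g t ^ 2 * w t) + (2 * x) * g t + (w t)⁻¹ =
        (x * g t * w t + 1) ^ 2 * (w t)⁻¹ := by
      field_simp
      ring
    rw [e2]
    positivity
  have := discrim_le_zero key
  rw [discrim] at this
  nlinarith

/-- reduction of integrals to a bounded interval -/
theorem w8_red {a R : ℝ} (ha : 0 ≤ a) (haR : a ≤ R) {G : ℝ → ℝ} (h1 : ∀ r, r ≤ a → G r = 0)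
    (h2 : ∀ r, R < r → G r = 0) : ∫ r in Ioi (0 : ℝ), G r = ∫ r in a..R, G r := by
  rw [intervalIntegral.integral_of_le haR]
  refine (setIntegral_eq_of_subset_of_forall_sdiff_eq_zero measurableSet_Ioi
    (fun x hx => lt_of_le_of_lt ha hx.1) ?_)
  intro x hx
  by_cases hxa : x ≤ a
  · exact h1 x hxa
  · refine h2 x ?_
    by_contra hxR
    exact hx.2 ⟨not_le.mp hxa, not_lt.mp hxR⟩

theorem w8_deriv_zero {φ : ℝ → ℝ} (hφ : ContDiff ℝ 1 φ) {a : ℝ} (h0 : ∀ r, r ≤ a → φ r = 0) :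
    ∀ r, r ≤ a → deriv φ r = 0 := by
  intro r hr
  have hd : HasDerivAt φ (deriv φ r) r := (hφ.differentiable one_ne_zero r).hasDerivAt
  have h1 : HasDerivWithinAt φ (deriv φ r) (Iic r) r := hd.hasDerivWithinAt
  have h2 : HasDerivWithinAt φ 0 (Iic r) r :=
    (hasDerivWithinAt_const r (Iic r) (0 : ℝ)).congr (fun x hx => h0 x (le_trans hx hr)) (h0 r hr)
  exact (uniqueDiffWithinAt_Iic r).eq_deriv _ h1 h2

theorem w8_support {φ : ℝ → ℝ} (hc : HasCompactSupport φ) :
    ∃ R : ℝ, ∀ r, R < r → φ r = 0 ∧ deriv φ r = 0 := by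
  obtain ⟨R, hR⟩ := hc.isCompact.isBounded.subset_closedBall 0
  refine ⟨R, fun r hr => ?_⟩
  have hn : r ∉ tsupport φ := by
    intro hmem
    have := hR hmem
    rw [mem_closedBall_zero_iff, Real.norm_eq_abs] at this
    exact absurd (le_trans (le_abs_self r) this) (not_le.mpr hr)
  refine ⟨image_eq_zero_of_notMem_tsupport hn, ?_⟩
  by_contra h
  exact hn (support_deriv_subset (Function.mem_support.mpr h))

/-! basic facts on `q` -/

theorem w8_q_pos {ρ ε : ℝ} {F : ℝ → ℝ} (h : Wall ρ ε F) {r : ℝ} (hr : 0 ≤ r) : 0 < qq F r := by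
  have h1 := s_le h hr
  have h2 := h.hε
  have h3 : exp (F (r ^ 2)) < 1 := by
    rw [← Real.exp_zero]
    exact exp_lt_exp.mpr (by linarith)
  rw [qq]; linarith

theorem w8_q_lt {F : ℝ → ℝ} (r : ℝ) : qq F r < 1 := by
  rw [qq]; have := exp_pos (F (r ^ 2)); linarith

theorem w8_y_pos {F : ℝ → ℝ} (r : ℝ) : 0 < yy F r := exp_pos _

theorem w8_q_eq {F : ℝ → ℝ} (r : ℝ) : qq F r = 1 - yy F r := rfl

theorem w8_q_mono {ρ ε : ℝ} {F : ℝ → ℝ} (h : Wall ρ ε F) {r t : ℝ} (hr : 0 ≤ r) (hrt : r ≤ t) :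
    qq F r ≤ qq F t := by
  have h1 := (s_anti h).antitoneOn hr (show t ∈ Ici (0 : ℝ) from le_trans hr hrt) hrt
  have h2 : exp (F (t ^ 2)) ≤ exp (F (r ^ 2)) := exp_le_exp.mpr h1
  rw [qq, qq]; linarith

theorem w8_q_rho {ρ ε : ℝ} {F : ℝ → ℝ} (h : Wall ρ ε F) : qq F ρ = 1 / 2 := by
  rw [qq, h.Fρ, exp_neg, exp_log (by norm_num)]
  norm_num

theorem w8_cont_q {ρ ε : ℝ} {F : ℝ → ℝ} (h : Wall ρ ε F) : Continuous (qq F) := by
  unfold qq
  have := h.smooth.continuous
  fun_prop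

theorem w8_cont_y {ρ ε : ℝ} {F : ℝ → ℝ} (h : Wall ρ ε F) : Continuous (yy F) := by
  unfold yy
  have := h.smooth.continuous
  fun_prop

theorem w8_cont_u {ρ ε : ℝ} {F : ℝ → ℝ} (h : Wall ρ ε F) : Continuous (uu F) := by
  unfold uu
  have := h.smooth.continuous_deriv (by norm_num)
  fun_prop

theorem w8_cont_NP {ρ ε : ℝ} {F : ℝ → ℝ} (h : Wall ρ ε F) (μ : ℕ) : Continuous (NP μ F) := by
  unfold NP XX
  have h1 := w8_cont_q h
  have h2 := w8_cont_y h
  have h3 := w8_cont_u h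
  fun_prop

/-- `q` is bounded below near the wall -/
theorem w8_q_ge {ρ ε : ℝ} {F : ℝ → ℝ} (h : Wall ρ ε F) {r : ℝ} (hr : ρ - 1 ≤ r) :
    1 / 6 ≤ qq F r := by
  have hρ := h.hρ
  have h1 := q_lip h (r := ρ - 1) (r' := ρ) (by linarith) (by linarith)
  rw [w8_q_rho h] at h1
  have h2 : ρ - (ρ - 1) = 1 := by ring
  rw [h2] at h1
  have h3 := exp_one_lt_d9
  have h4 := w8_q_mono h (r := ρ - 1) (t := r) (by linarith) hr
  have h5 := w8_q_pos h (r := ρ - 1) (by linarith)
  nlinarith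

/-- inner growth of `q` up to `ρ + 1` -/
theorem w8_q_inner {ρ ε : ℝ} {F : ℝ → ℝ} (h : Wall ρ ε F) {r t : ℝ} (hr : 16 ≤ r) (hrt : r ≤ t)
    (ht : t ≤ ρ + 1) : qq F r ≤ exp 0.4 * (qq F t * exp (-0.4 * (t - r))) := by
  have hρ := h.hρ
  have hqt := w8_q_pos h (r := t) (by linarith)
  have hqr := w8_q_pos h (r := r) (by linarith)
  have h04 : (1 : ℝ) ≤ exp 0.4 := Real.one_le_exp (by norm_num)
  rcases le_total t ρ with h1 | h1
  · have h2 := q_decay h hr hrt h1
    have h3 : 0 ≤ qq F t * exp (-0.4 * (t - r)) := by positivity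
    nlinarith
  · rcases le_total r ρ with h2 | h2
    · have h3 := q_decay h hr h2 le_rfl
      have h4 := w8_q_mono h (r := ρ) (t := t) (by linarith) h1
      calc qq F r ≤ qq F ρ * exp (-0.4 * (ρ - r)) := h3
        _ ≤ qq F t * exp (-0.4 * (ρ - r)) := mul_le_mul_of_nonneg_right h4 (exp_pos _).le
        _ ≤ qq F t * (exp 0.4 * exp (-0.4 * (t - r))) := by
            refine mul_le_mul_of_nonneg_left ?_ hqt.le
            rw [← exp_add]
            apply exp_le_exp.mpr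
            linarith
        _ = exp 0.4 * (qq F t * exp (-0.4 * (t - r))) := by ring
    · have h4 := w8_q_mono h (r := r) (t := t) (by linarith) hrt
      calc qq F r ≤ qq F t := h4
        _ = qq F t * 1 := (mul_one _).symm
        _ ≤ qq F t * (exp 0.4 * exp (-0.4 * (t - r))) := by
            refine mul_le_mul_of_nonneg_left ?_ hqt.le
            rw [← exp_add]
            apply Real.one_le_exp
            linarith
        _ = exp 0.4 * (qq F t * exp (-0.4 * (t - r))) := by ring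

/-- exponential smallness of `q` inside -/
theorem w8_q_exp {ρ ε : ℝ} {F : ℝ → ℝ} (h : Wall ρ ε F) {r : ℝ} (hr : 16 ≤ r)
    : qq F r ≤ exp (0.4 * (r - ρ)) := by
  rcases le_total r ρ with h2 | h2
  · have h3 := q_decay h hr h2 le_rfl
    rw [w8_q_rho h] at h3
    have e : -0.4 * (ρ - r) = 0.4 * (r - ρ) := by ring
    rw [e] at h3
    have := exp_pos (0.4 * (r - ρ))
    linarith
  · have := w8_q_lt (F := F) r
    have h3 : 1 ≤ exp (0.4 * (r - ρ)) := Real.one_le_exp (by nlinarith)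
    linarith

/-- upper bound for `NP` -/
theorem w8_NP_le {ρ ε : ℝ} {F : ℝ → ℝ} (h : Wall ρ ε F) {μ : ℕ} (hμ : 1 ≤ μ) {r : ℝ} (hr : 0 < r) :
    NP μ F r ≤ μ * yy F r * qq F r * (8 + 2 * max (r - ρ) 0) * qq F r ^ (2 * μ) := by
  have hq := w8_q_pos h hr.le
  have hy := w8_y_pos (F := F) r
  have hX0 := X_nonneg h hr.le
  have hX : XX F r ≤ (8 + 2 * max (r - ρ) 0) * qq F r ^ 2 := by
    rcases le_total r ρ with h1 | h1
    · rw [max_eq_right (by linarith)]
      simpa using X_le_in h hr h1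
    · rw [max_eq_left (by linarith)]
      exact X_le_out h h1
  have hμR : (1 : ℝ) ≤ μ := by exact_mod_cast hμ
  have h1 : 1 - μ * yy F r ≤ qq F r := by
    rw [w8_q_eq]; nlinarith
  have e : 2 * μ = (2 * μ - 2) + 2 := by omega
  rw [NP]
  calc μ * yy F r * (1 - μ * yy F r) * qq F r ^ (2 * μ - 2) * XX F r
      ≤ μ * yy F r * qq F r * qq F r ^ (2 * μ - 2) * XX F r := by
        refine mul_le_mul_of_nonneg_right (mul_le_mul_of_nonneg_right
          (mul_le_mul_of_nonneg_left h1 (by positivity)) (by positivity)) hX0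
    _ ≤ μ * yy F r * qq F r * qq F r ^ (2 * μ - 2) * ((8 + 2 * max (r - ρ) 0) * qq F r ^ 2) :=
        mul_le_mul_of_nonneg_left hX (by positivity)
    _ = μ * yy F r * qq F r * (8 + 2 * max (r - ρ) 0) * (qq F r ^ (2 * μ - 2) * qq F r ^ 2) := by
        ring
    _ = μ * yy F r * qq F r * (8 + 2 * max (r - ρ) 0) * qq F r ^ (2 * μ) := by
        rw [← pow_add, ← e]

theorem w8_y_le {ρ ε : ℝ} {F : ℝ → ℝ} (h : Wall ρ ε F) {r : ℝ} (hr : 0 ≤ r) : yy F r ≤ 1 := by
  have := w8_q_pos h hr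
  rw [w8_q_eq] at this
  linarith

/-- `y u ≥ q / 16` up to `ρ + 1` -/
theorem w8_yu {ρ ε : ℝ} {F : ℝ → ℝ} (h : Wall ρ ε F) {r : ℝ} (hr : 0.92 * ρ ≤ r)
    (hr' : r ≤ ρ + 1) : qq F r / 16 ≤ yy F r * uu F r := by
  have hρ := h.hρ
  have hr0 : 0 < r := by linarith
  have hq := w8_q_pos h hr0.le
  have hu := u_pos h hr0
  have hq1 := w8_q_lt (F := F) r
  rcases le_total r ρ with h1 | h1
  · have h2 := y_ge_half h hr0.le h1
    have h3 := u_ge_q h hr0 h1
    have h4 : qq F r / 8 ≤ uu F r := by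
      by_contra hcon
      rw [not_le] at hcon
      have h5 : (r + 4) * uu F r < (r + 4) * (qq F r / 8) :=
        mul_lt_mul_of_pos_left hcon (by linarith)
      nlinarith
    nlinarith
  · have h2 : 1 / 6 ≤ yy F r := by
      have h3 := y_lip h (r := ρ) (r' := r) (by linarith) h1
      have h4 := y_ge_half h (r := ρ) (by linarith) le_rfl
      have h5 : exp (-1) ≤ exp (-(r - ρ)) := exp_le_exp.mpr (by linarith)
      have h6 : (1 : ℝ) / 3 ≤ exp (-1) := by
        rw [exp_neg, one_div]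
        have := exp_one_lt_d9
        exact inv_anti₀ (exp_pos 1) (by linarith)
      nlinarith
    have h3 : 0.4 ≤ uu F r := by
      have h4 := ru_mono h (show ρ ∈ Ici (0 : ℝ) from by show (0:ℝ) ≤ ρ; linarith)
        (show r ∈ Ici (0 : ℝ) from hr0.le) h1
      have h5 := u_ge_q h (r := ρ) (by linarith) le_rfl
      rw [w8_q_rho h] at h5
      simp only at h4
      have h6 : 0.48 * ρ ≤ ρ * uu F ρ := by
        have : 0.48 ≤ uu F ρ := by
          by_contra hcon
          rw [not_le] at hcon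
          have : (ρ + 4) * uu F ρ < (ρ + 4) * 0.48 := mul_lt_mul_of_pos_left hcon (by linarith)
          nlinarith
        nlinarith
      by_contra hcon
      rw [not_le] at hcon
      have : r * uu F r < r * 0.4 := mul_lt_mul_of_pos_left hcon hr0
      nlinarith
    nlinarith

section main
variable {ρ ε : ℝ} {F : ℝ → ℝ} {μ : ℕ} {φ : ℝ → ℝ} {r₁ R : ℝ}

/-- the energy density -/
noncomputable def w8_P (μ : ℕ) (F φ : ℝ → ℝ) (r : ℝ) : ℝ := qq F r ^ (2 * μ) * deriv φ r ^ 2 * r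

theorem w8_P_cont (h : Wall ρ ε F) (hφ : ContDiff ℝ 1 φ) : Continuous (w8_P μ F φ) := by
  unfold w8_P
  have h1 := w8_cont_q h
  have h2 := hφ.continuous_deriv le_rfl
  fun_prop

theorem w8_P_nonneg (h : Wall ρ ε F) {r : ℝ} (hr : 0 ≤ r) : 0 ≤ w8_P μ F φ r := by
  have := w8_q_pos h hr
  unfold w8_P
  positivity

theorem w8_P_mono (h : Wall ρ ε F) (hφ : ContDiff ℝ 1 φ) {s t : ℝ} (hs : 0.92 * ρ ≤ s)
    (hst : s ≤ t) (ht : t ≤ R) :
    ∫ r in s..t, w8_P μ F φ r ≤ ∫ r in (0.92 * ρ)..R, w8_P μ F φ r := by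
  have hρ := h.hρ
  refine intervalIntegral.integral_mono_interval hs hst ht ?_
    ((w8_P_cont h hφ).intervalIntegrable _ _)
  rw [Filter.EventuallyLE, ae_restrict_iff' measurableSet_Ioc]
  refine Filter.Eventually.of_forall fun r hr => ?_
  have : 0 ≤ r := by have := hr.1; linarith
  exact w8_P_nonneg h this

theorem w8_ftc (hφ : ContDiff ℝ 1 φ) (s t : ℝ) : ∫ r in s..t, deriv φ r = φ t - φ s :=
  intervalIntegral.integral_eq_sub_of_hasDerivAt
    (fun x _ => (hφ.differentiable one_ne_zero x).hasDerivAt)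
    ((hφ.continuous_deriv le_rfl).intervalIntegrable _ _)

theorem w8_wgt_int (h : Wall ρ ε F) (hφ : ContDiff ℝ 1 φ) {s t : ℝ} (hs : 0 < s) (hst : s ≤ t) :
    IntervalIntegrable (fun r => wgt ρ r * (qq F r ^ (2 * μ) * φ r ^ 2 * r)) volume s t := by
  apply ContinuousOn.intervalIntegrable
  rw [uIcc_of_le hst]
  have hcq := w8_cont_q h
  have hcφ := hφ.continuous
  refine ContinuousOn.mul ?_ (by fun_prop)
  unfold wgt
  refine ContinuousOn.inf continuousOn_const ?_
  refine ContinuousOn.pow (continuousOn_const.div continuousOn_id ?_) 4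
  intro r hr
  have := hr.1
  simp only [id]
  linarith

end main

end Pool.MP_ad5d82_an.Wl
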