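import Pool.Agent.Lib.MP_ad5d82_an.h24.WDefs
import Pool.Agent.Lib.MP_ad5d82_an.h24.W.W5
import Pool.Agent.Lib.MP_ad5d82_an.h24.W.W6
import Pool.Agent.Lib.MP_ad5d82_an.h24.W.W7
import Pool.Agent.Lib.MP_ad5d82_an.h24.W.W8a

set_option autoImplicit false

namespace Pool.MP_ad5d82_an.Wl

open Real Set MeasureTheory
open scoped ContDiff

/-! ### W10 high modes -/

section aux
variable {ρ ε : ℝ} {F : ℝ → ℝ} {μ : ℕ} {φ : ℝ → ℝ} {r₂ R : ℝ}

theorem w10_sq_aux (x b : ℝ) : x ^ 2 ≤ 2 * b ^ 2 + 2 * (b - x) ^ 2 := by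
  nlinarith only [sq_nonneg (2 * b - x)]

/-- Hardy type inequality inside, for functions vanishing at `ρ` -/
theorem w10_hardy (h : Wall ρ ε F) (hμ : 1 ≤ μ) (hφ : ContDiff ℝ 1 φ) (h1 : φ ρ = 0) :
    ∫ r in (0.92 * ρ)..ρ, qq F r ^ (2 * μ) * φ r ^ 2 * r ≤
      256 * ∫ r in (0.92 * ρ)..ρ, w8_P μ F φ r := by
  have hρ := h.hρ
  have hab : 0.92 * ρ ≤ ρ := by linarith only [hρ]
  have hcq := w8_cont_q h
  have hcy := w8_cont_y h
  have hcu := w8_cont_u h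
  have hcφ := hφ.continuous
  have hcφ' := hφ.continuous_deriv le_rfl
  set G' : ℝ → ℝ := fun r => (2 * μ : ℕ) * qq F r ^ (2 * μ - 1) * (yy F r * uu F r) *
    (φ r ^ 2 * r) + qq F r ^ (2 * μ) * (2 * φ r * deriv φ r * r + φ r ^ 2) with hG'
  have hderiv : ∀ r ∈ uIcc (0.92 * ρ) ρ,
      HasDerivAt (fun r => qq F r ^ (2 * μ) * (φ r ^ 2 * r)) (G' r) r := by
    intro r _
    have h2 := (hasDerivAt_q h r).pow (2 * μ)
    have h3 := (hφ.differentiable one_ne_zero r).hasDerivAt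
    have h4 := (h3.pow 2).mul (hasDerivAt_id r)
    refine HasDerivAt.congr_deriv (f := fun r => qq F r ^ (2 * μ) * (φ r ^ 2 * r))
      (h2.mul h4) ?_
    simp only [hG', id, Pi.pow_apply]
    ring
  have hG'c : Continuous G' := by
    rw [hG']
    fun_prop
  have hint := intervalIntegral.integral_eq_sub_of_hasDerivAt hderiv (hG'c.intervalIntegrable _ _)
  rw [h1] at hint
  simp only [ne_eq, OfNat.ofNat_ne_zero, not_false_eq_true, zero_pow, zero_mul, mul_zero,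
    zero_sub] at hint
  have hGa : 0 ≤ qq F (0.92 * ρ) ^ (2 * μ) * (φ (0.92 * ρ) ^ 2 * (0.92 * ρ)) := by
    have := w8_q_pos h (r := 0.92 * ρ) (by linarith only [hρ])
    have : 0 ≤ 0.92 * ρ := by linarith
    positivity
  have hb : ∀ r ∈ Icc (0.92 * ρ) ρ,
      (1 / 16) * (qq F r ^ (2 * μ) * φ r ^ 2 * r) - 16 * w8_P μ F φ r ≤ G' r := by
    intro r hr
    have hra := hr.1
    have hrb := hr.2
    have hr0 : 0 < r := by linarith only [hra, hρ]
    have hq := w8_q_pos h hr0.le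
    have hyu := w8_yu h hra (by linarith only [hrb])
    have hμR : (1 : ℝ) ≤ μ := by exact_mod_cast hμ
    have e : qq F r ^ (2 * μ) = qq F r ^ (2 * μ - 1) * qq F r := by
      rw [← pow_succ]; congr 1; omega
    have h2 : (1 / 8) * qq F r ^ (2 * μ) ≤
        (2 * μ : ℕ) * qq F r ^ (2 * μ - 1) * (yy F r * uu F r) := by
      have h3 : (2 : ℝ) ≤ ((2 * μ : ℕ) : ℝ) := by push_cast; linarith only [hμR]
      calc (1 / 8) * qq F r ^ (2 * μ) = 2 * qq F r ^ (2 * μ - 1) * (qq F r / 16) := by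
            rw [e]; ring
        _ ≤ (2 * μ : ℕ) * qq F r ^ (2 * μ - 1) * (yy F r * uu F r) :=
            mul_le_mul (mul_le_mul_of_nonneg_right h3 (by positivity)) hyu (by positivity)
              (by positivity)
    have h4 : (1 / 8) * qq F r ^ (2 * μ) * (φ r ^ 2 * r) ≤
        (2 * μ : ℕ) * qq F r ^ (2 * μ - 1) * (yy F r * uu F r) * (φ r ^ 2 * r) :=
      mul_le_mul_of_nonneg_right h2 (by positivity)
    have h5 : 0 ≤ qq F r ^ (2 * μ) * r * (φ r / 4 + 4 * deriv φ r) ^ 2 := by (clear * - hq hr0; positivity)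
    have h6 : 0 ≤ qq F r ^ (2 * μ) * φ r ^ 2 := by positivity
    simp only [hG', w8_P]
    nlinarith only [h4, h5, h6]
  have hcP := w8_P_cont (μ := μ) h hφ
  have hi : IntervalIntegrable (fun r => (1 / 16) * (qq F r ^ (2 * μ) * φ r ^ 2 * r) -
      16 * w8_P μ F φ r) volume (0.92 * ρ) ρ := by
    apply Continuous.intervalIntegrable
    fun_prop
  have h7 := intervalIntegral.integral_mono_on hab hi (hG'c.intervalIntegrable _ _) hb
  rw [hint, intervalIntegral.integral_sub, intervalIntegral.integral_const_mul,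
    intervalIntegral.integral_const_mul] at h7
  · linarith only [h7, hGa]
  · apply Continuous.intervalIntegrable
    fun_prop
  · apply Continuous.intervalIntegrable
    fun_prop

/-- Cauchy-Schwarz for the increments of `φ` -/
theorem w10_cs (h : Wall ρ ε F) (hφ : ContDiff ℝ 1 φ) {s t : ℝ} (hs : 0 < s) (hst : s ≤ t) :
    (φ t - φ s) ^ 2 ≤ (∫ r in s..t, w8_P μ F φ r) * ∫ r in s..t, (qq F r ^ (2 * μ) * r)⁻¹ := by
  have hcs := w8_cs hst (g := deriv φ) (w := fun t => qq F t ^ (2 * μ) * t)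
    (hφ.continuous_deriv le_rfl) ((((w8_cont_q h).pow (2 * μ)).mul continuous_id).continuousOn) (by
      intro t ht
      have ht0 : 0 < t := lt_of_lt_of_le hs ht.1
      have := w8_q_pos h ht0.le
      positivity)
  rw [w8_ftc hφ] at hcs
  have e1 : ∫ r in s..t, deriv φ r ^ 2 * (qq F r ^ (2 * μ) * r) =
      ∫ r in s..t, w8_P μ F φ r := by
    apply intervalIntegral.integral_congr
    intro t _
    simp only [w8_P]; ring
  rw [e1] at hcs
  exact hcs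

theorem w10_P_nonneg (h : Wall ρ ε F) {s t : ℝ} (hs : 0 ≤ s) (hst : s ≤ t) :
    0 ≤ ∫ r in s..t, w8_P μ F φ r :=
  intervalIntegral.integral_nonneg hst fun _ hr => w8_P_nonneg h (le_trans hs hr.1)

theorem w10_inv_int (h : Wall ρ ε F) {s t : ℝ} (hs : 0 < s) (hst : s ≤ t) :
    IntervalIntegrable (fun r => (qq F r ^ (2 * μ) * r)⁻¹) volume s t := by
  apply ContinuousOn.intervalIntegrable
  rw [uIcc_of_le hst]
  refine ContinuousOn.inv₀ ?_ ?_
  · exact (((w8_cont_q h).pow (2 * μ)).mul continuous_id).continuousOn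
  · intro r hr
    have ht0 : 0 < r := lt_of_lt_of_le hs hr.1
    have := w8_q_pos h ht0.le
    positivity

/-- increments outside -/
theorem w10_cs_out (h : Wall ρ ε F) (hφ : ContDiff ℝ 1 φ) {s t : ℝ} (hs : ρ ≤ s) (hst : s ≤ t) :
    (φ t - φ s) ^ 2 ≤ (∫ r in s..t, w8_P μ F φ r) * (4 ^ μ / ρ * (t - s)) := by
  have hρ := h.hρ
  have hs0 : 0 < s := by linarith
  refine (w10_cs (μ := μ) h hφ hs0 hst).trans
    (mul_le_mul_of_nonneg_left ?_ (w10_P_nonneg h hs0.le hst))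
  have hb : ∀ r ∈ Icc s t, (qq F r ^ (2 * μ) * r)⁻¹ ≤ 4 ^ μ / ρ := by
    intro r hr
    have hr1 := hr.1
    have hq : 1 / 2 ≤ qq F r := by
      rw [← w8_q_rho h]
      exact w8_q_mono h (by linarith) (by linarith)
    have hq2 : (1 / 4 : ℝ) ^ μ ≤ qq F r ^ (2 * μ) := by
      rw [pow_mul]
      refine pow_le_pow_left₀ (by norm_num) ?_ _
      nlinarith only [hq]
    have h3 : (1 / 4 : ℝ) ^ μ * ρ ≤ qq F r ^ (2 * μ) * r :=
      mul_le_mul hq2 (by linarith) (by linarith) (by positivity)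
    have h4 : (4 : ℝ) ^ μ / ρ = ((1 / 4 : ℝ) ^ μ * ρ)⁻¹ := by
      rw [mul_inv, one_div, inv_pow, inv_inv, div_eq_mul_inv]
    rw [h4]
    exact inv_anti₀ (by positivity) h3
  have h5 := intervalIntegral.integral_mono_on hst (w10_inv_int (μ := μ) h hs0 hst)
    (intervalIntegrable_const (c := 4 ^ μ / ρ)) hb
  rw [intervalIntegral.integral_const, smul_eq_mul] at h5
  linarith

/-- crude increments inside -/
theorem w10_cs_in (h : Wall ρ ε F) (hφ : ContDiff ℝ 1 φ) {s t : ℝ} (hs : 0 < s) (hst : s ≤ t) :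
    qq F s ^ (2 * μ) * (φ t - φ s) ^ 2 ≤ (∫ r in s..t, w8_P μ F φ r) * ((t - s) / s) := by
  have hqs := w8_q_pos h hs.le
  have h1 := w10_cs (μ := μ) h hφ hs hst
  have h2 : qq F s ^ (2 * μ) * ∫ r in s..t, (qq F r ^ (2 * μ) * r)⁻¹ ≤ (t - s) / s := by
    rw [← intervalIntegral.integral_const_mul]
    have hb : ∀ r ∈ Icc s t, qq F s ^ (2 * μ) * (qq F r ^ (2 * μ) * r)⁻¹ ≤ s⁻¹ := by
      intro r hr
      have hr1 := hr.1
      have hr0 : 0 < r := lt_of_lt_of_le hs hr1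
      have hqr := w8_q_pos h hr0.le
      have h3 : qq F s ^ (2 * μ) ≤ qq F r ^ (2 * μ) :=
        pow_le_pow_left₀ hqs.le (w8_q_mono h hs.le hr1) _
      calc qq F s ^ (2 * μ) * (qq F r ^ (2 * μ) * r)⁻¹
          ≤ qq F r ^ (2 * μ) * (qq F r ^ (2 * μ) * r)⁻¹ :=
            mul_le_mul_of_nonneg_right h3 (by positivity)
        _ = r⁻¹ := by field_simp
        _ ≤ s⁻¹ := inv_anti₀ hs hr1
    have h5 := intervalIntegral.integral_mono_on hst ((w10_inv_int (μ := μ) h hs hst).const_mul _)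
      (intervalIntegrable_const (c := s⁻¹)) hb
    rw [intervalIntegral.integral_const, smul_eq_mul] at h5
    rw [div_eq_mul_inv]
    exact h5
  calc qq F s ^ (2 * μ) * (φ t - φ s) ^ 2
      ≤ qq F s ^ (2 * μ) * ((∫ r in s..t, w8_P μ F φ r) * ∫ r in s..t, (qq F r ^ (2 * μ) * r)⁻¹) :=
        mul_le_mul_of_nonneg_left h1 (by positivity)
    _ = (∫ r in s..t, w8_P μ F φ r) * (qq F s ^ (2 * μ) * ∫ r in s..t, (qq F r ^ (2 * μ) * r)⁻¹) := by
        ring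
    _ ≤ _ := mul_le_mul_of_nonneg_left h2 (w10_P_nonneg h hs.le hst)

/-- bound for `|NP|` -/
theorem w10_absNP (h : Wall ρ ε F) (hμ : 1 ≤ μ) {r : ℝ} (hr : 0 < r) :
    |NP μ F r| ≤ μ ^ 2 * (yy F r * (8 + 2 * max (r - ρ) 0) * qq F r ^ (2 * μ)) := by
  have hq := w8_q_pos h hr.le
  have hy := w8_y_pos (F := F) r
  have hy1 := w8_y_le h hr.le
  have hX0 := X_nonneg h hr.le
  have hm0 : 0 ≤ max (r - ρ) 0 := le_max_right _ _
  have hX : XX F r ≤ (8 + 2 * max (r - ρ) 0) * qq F r ^ 2 := by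
    rcases le_total r ρ with h1 | h1
    · rw [max_eq_right (by linarith)]
      simpa using X_le_in h hr h1
    · rw [max_eq_left (by linarith)]
      exact X_le_out h h1
  have hμR : (1 : ℝ) ≤ μ := by exact_mod_cast hμ
  have h1 : |1 - μ * yy F r| ≤ μ := by
    rw [abs_le]
    constructor
    · nlinarith
    · nlinarith
  have e : 2 * μ = (2 * μ - 2) + 2 := by omega
  rw [NP, abs_mul, abs_mul, abs_mul, abs_of_nonneg hX0,
    abs_of_pos (show 0 < (μ : ℝ) * yy F r by positivity),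
    abs_of_pos (show 0 < qq F r ^ (2 * μ - 2) by positivity)]
  calc μ * yy F r * |1 - μ * yy F r| * qq F r ^ (2 * μ - 2) * XX F r
      ≤ μ * yy F r * μ * qq F r ^ (2 * μ - 2) * XX F r := by
        refine mul_le_mul_of_nonneg_right (mul_le_mul_of_nonneg_right
          (mul_le_mul_of_nonneg_left h1 (by positivity)) (by positivity)) hX0
    _ ≤ μ * yy F r * μ * qq F r ^ (2 * μ - 2) * ((8 + 2 * max (r - ρ) 0) * qq F r ^ 2) :=
        mul_le_mul_of_nonneg_left hX (by positivity)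
    _ = μ ^ 2 * (yy F r * (8 + 2 * max (r - ρ) 0) * (qq F r ^ (2 * μ - 2) * qq F r ^ 2)) := by
        ring
    _ = _ := by rw [← pow_add, ← e]

/-- inside: `|NP| ≤ 8 μ² q^{2μ}` -/
theorem w10_absNP_in (h : Wall ρ ε F) (hμ : 1 ≤ μ) {r : ℝ} (hr : 0 < r) (hr' : r ≤ ρ) :
    |NP μ F r| ≤ 8 * μ ^ 2 * qq F r ^ (2 * μ) := by
  have hq := w8_q_pos h hr.le
  have h1 := w10_absNP h hμ hr
  have hy1 := w8_y_le h hr.le
  have hy := w8_y_pos (F := F) r
  rw [max_eq_right (by linarith : r - ρ ≤ 0)] at h1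
  refine h1.trans ?_
  calc μ ^ 2 * (yy F r * (8 + 2 * 0) * qq F r ^ (2 * μ))
      ≤ μ ^ 2 * (1 * (8 + 2 * 0) * qq F r ^ (2 * μ)) := by
        refine mul_le_mul_of_nonneg_left (mul_le_mul_of_nonneg_right
          (mul_le_mul_of_nonneg_right hy1 (by norm_num)) (by positivity)) (by positivity)
    _ = _ := by ring

/-- outside: `|NP| ≤ 64000 μ² / (40 + r - ρ)²` -/
theorem w10_absNP_out (h : Wall ρ ε F) (hμ : 1 ≤ μ) {r : ℝ} (hr : ρ ≤ r) :
    |NP μ F r| ≤ 64000 * μ ^ 2 * ((40 + (r - ρ)) ^ 2)⁻¹ := by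
  have hρ := h.hρ
  have hr0 : 0 < r := by linarith
  have hq := w8_q_pos h hr0.le
  have hq1 := w8_q_lt (F := F) r
  have h1 := w10_absNP h hμ hr0
  have hy := w8_y_pos (F := F) r
  have hyp := y_out_pow h hr
  rw [max_eq_left (by linarith : 0 ≤ r - ρ)] at h1
  have hq2 : qq F r ^ (2 * μ) ≤ 1 := pow_le_one₀ hq.le hq1.le
  set x := r - ρ with hx
  have hx0 : 0 ≤ x := by rw [hx]; linarith
  have h2 : yy F r * (8 + 2 * x) ≤ 64000 * ((40 + x) ^ 2)⁻¹ := by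
    set S := 1 + x / 40 with hS
    have hS1 : 1 ≤ S := by rw [hS]; linarith [div_nonneg hx0 (by norm_num : (0:ℝ) ≤ 40)]
    have h8 : 8 + 2 * x ≤ 80 * S := by rw [hS]; linarith
    have e : 40 + x = 40 * S := by rw [hS]; ring
    calc yy F r * (8 + 2 * x) ≤ (1 / 2 * (S ^ 18)⁻¹) * (80 * S) :=
          mul_le_mul hyp h8 (by positivity) (by positivity)
      _ = 40 * (S ^ 17)⁻¹ := by
          field_simp
          ring
      _ ≤ 40 * (S ^ 2)⁻¹ := by
          refine mul_le_mul_of_nonneg_left ?_ (by norm_num)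
          exact inv_anti₀ (by positivity) (pow_le_pow_right₀ hS1 (by norm_num))
      _ = 64000 * ((40 + x) ^ 2)⁻¹ := by
          rw [e, mul_pow]
          field_simp
          ring
  refine h1.trans ?_
  calc μ ^ 2 * (yy F r * (8 + 2 * x) * qq F r ^ (2 * μ))
      ≤ μ ^ 2 * (64000 * ((40 + x) ^ 2)⁻¹ * 1) := by
        refine mul_le_mul_of_nonneg_left (mul_le_mul h2 hq2 (by positivity) (by positivity))
          (by positivity)
    _ = _ := by ring

theorem w10_int_inv (ρ r₂ : ℝ) (h : ρ ≤ r₂) :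
    IntervalIntegrable (fun r => ((40 + (r - ρ)) ^ 2)⁻¹) volume ρ r₂ ∧
    ∫ r in ρ..r₂, ((40 + (r - ρ)) ^ 2)⁻¹ ≤ 1 / 40 := by
  have hcontInv : ContinuousOn (fun r => ((40 + (r - ρ)) ^ 2)⁻¹) (uIcc ρ r₂) := by
    rw [uIcc_of_le h]
    refine ContinuousOn.inv₀
      (((continuous_const.add (continuous_id.sub continuous_const)).pow 2).continuousOn) ?_
    intro r hr
    have : 0 < 40 + (r - ρ) := by have := hr.1; linarith
    positivity
  refine ⟨hcontInv.intervalIntegrable, ?_⟩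
  have h7 : ∀ x ∈ uIcc ρ r₂, HasDerivAt (fun x => -(40 + (x - ρ))⁻¹)
      (((40 + (x - ρ)) ^ 2)⁻¹) x := by
    intro x hx
    rw [uIcc_of_le h] at hx
    have h40 : 0 < 40 + (x - ρ) := by have := hx.1; linarith
    have h2 : HasDerivAt (fun x : ℝ => 40 + (x - ρ)) 1 x :=
      ((hasDerivAt_id x).sub_const ρ).const_add 40
    have h3 := (h2.inv h40.ne').neg
    have e : -(-1 / (40 + (x - ρ)) ^ 2) = ((40 + (x - ρ)) ^ 2)⁻¹ := by
      rw [neg_div, neg_neg, one_div]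
    rw [e] at h3
    exact h3
  rw [intervalIntegral.integral_eq_sub_of_hasDerivAt h7 hcontInv.intervalIntegrable]
  have h8 : 0 < (40 + (r₂ - ρ))⁻¹ := by
    have : 0 < 40 + (r₂ - ρ) := by linarith
    positivity
  have h9 : (40 + (ρ - ρ))⁻¹ = (1 : ℝ) / 40 := by
    rw [sub_self, add_zero, one_div]
  rw [h9]
  linarith only [h8]

theorem w10_int_q (h : Wall ρ ε F) (hμ : 1 ≤ μ) :
    ∫ r in (0.92 * ρ)..ρ, qq F r ^ (2 * μ) ≤ 2.5 := by
  have hρ := h.hρ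
  have hb : ∀ r ∈ Icc (0.92 * ρ) ρ, qq F r ^ (2 * μ) ≤ exp (0.4 * (r - ρ)) := by
    intro r hr
    have hra := hr.1
    have hq := w8_q_pos h (r := r) (by linarith)
    have hq1 := w8_q_lt (F := F) r
    exact (pow_le_of_le_one hq.le hq1.le (by omega)).trans (w8_q_exp h (by linarith))
  have hcq := w8_cont_q h
  have h5 := intervalIntegral.integral_mono_on (μ := volume) (by linarith : 0.92 * ρ ≤ ρ)
    ((by fun_prop : Continuous fun r => qq F r ^ (2 * μ)).intervalIntegrable _ _)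
    ((by fun_prop : Continuous fun r => exp (0.4 * (r - ρ))).intervalIntegrable _ _) hb
  refine h5.trans ?_
  have h7 : ∀ x ∈ uIcc (0.92 * ρ) ρ, HasDerivAt (fun x => 2.5 * exp (0.4 * (x - ρ)))
      (exp (0.4 * (x - ρ))) x := by
    intro x _
    have h2 : HasDerivAt (fun x : ℝ => 0.4 * (x - ρ)) 0.4 x := by
      simpa using ((hasDerivAt_id x).sub_const ρ).const_mul (0.4 : ℝ)
    have h3 := (h2.exp).const_mul (2.5 : ℝ)
    have e : (2.5 : ℝ) * (exp (0.4 * (x - ρ)) * 0.4) = exp (0.4 * (x - ρ)) := by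
      ring
    rw [e] at h3
    exact h3
  rw [intervalIntegral.integral_eq_sub_of_hasDerivAt h7
    ((by fun_prop : Continuous fun x => exp (0.4 * (x - ρ))).intervalIntegrable _ _)]
  have h8 : 0.4 * (ρ - ρ) = 0 := by ring
  rw [h8, exp_zero]
  have := exp_pos (0.4 * (0.92 * ρ - ρ))
  linarith only [this]

theorem w10_absNP_cont (h : Wall ρ ε F) : Continuous fun r => |NP μ F r| := by
  have := w8_cont_NP h μ
  fun_prop

/-- total mass of `|NP|` -/
theorem w10_mass (h : Wall ρ ε F) (hμ : 1 ≤ μ) (hr₂ : ρ ≤ r₂) :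
    ∫ r in (0.92 * ρ)..r₂, |NP μ F r| ≤ 1700 * μ ^ 2 := by
  have hρ := h.hρ
  have hab : 0.92 * ρ ≤ ρ := by linarith
  have hc := w10_absNP_cont (μ := μ) h
  have hcq := w8_cont_q h
  rw [← intervalIntegral.integral_add_adjacent_intervals (hc.intervalIntegrable (0.92 * ρ) ρ)
    (hc.intervalIntegrable ρ r₂)]
  have h1 : ∫ r in (0.92 * ρ)..ρ, |NP μ F r| ≤ 8 * μ ^ 2 * 2.5 := by
    have h5 := intervalIntegral.integral_mono_on (μ := volume) hab
      (hc.intervalIntegrable (0.92 * ρ) ρ)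
      ((by fun_prop : Continuous fun r => 8 * (μ : ℝ) ^ 2 * qq F r ^ (2 * μ)).intervalIntegrable _ _)
      (fun r hr => w10_absNP_in h hμ (by have := hr.1; linarith) hr.2)
    rw [intervalIntegral.integral_const_mul] at h5
    exact h5.trans (mul_le_mul_of_nonneg_left (w10_int_q h hμ) (by positivity))
  have h2 : ∫ r in ρ..r₂, |NP μ F r| ≤ 64000 * μ ^ 2 * (1 / 40) := by
    obtain ⟨hi, hle⟩ := w10_int_inv ρ r₂ hr₂
    have h5 := intervalIntegral.integral_mono_on (μ := volume) hr₂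
      (hc.intervalIntegrable ρ r₂) (hi.const_mul (64000 * (μ : ℝ) ^ 2))
      (fun r hr => w10_absNP_out h hμ hr.1)
    rw [intervalIntegral.integral_const_mul] at h5
    exact h5.trans (mul_le_mul_of_nonneg_left hle (by positivity))
  have h3 : 0 ≤ (μ : ℝ) ^ 2 := by positivity
  linarith

/-- the error term -/
theorem w10_err (h : Wall ρ ε F) (hμ : 1 ≤ μ) (hφ : ContDiff ℝ 1 φ) (hr₂ : ρ ≤ r₂)
    (hlog : 1 ≤ r₂ - ρ) :
    ∫ r in (0.92 * ρ)..r₂, |NP μ F r| * (φ r - φ r₂) ^ 2 ≤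
      (∫ r in (0.92 * ρ)..r₂, w8_P μ F φ r) * (7000 * μ ^ 2 * 4 ^ μ * ((r₂ - ρ) / ρ)) := by
  have hρ := h.hρ
  have hρ0 : 0 < ρ := by linarith
  have hab : 0.92 * ρ ≤ ρ := by linarith
  have hc := w10_absNP_cont (μ := μ) h
  have hcq := w8_cont_q h
  have hcφ := hφ.continuous
  have hcP := w8_P_cont (μ := μ) h hφ
  set b := φ r₂ with hb
  set D1 := ∫ r in (0.92 * ρ)..r₂, w8_P μ F φ r with hD1
  set ℓ := (r₂ - ρ) / ρ with hℓ
  have hℓ0 : 1 / ρ ≤ ℓ := by rw [hℓ]; exact div_le_div_of_nonneg_right hlog hρ0.le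
  have hℓ1 : 0 < ℓ := lt_of_lt_of_le (by positivity) hℓ0
  have hD10 : 0 ≤ D1 := w10_P_nonneg h (by linarith) (by linarith)
  have hPin : ∫ r in (0.92 * ρ)..ρ, w8_P μ F φ r ≤ D1 :=
    w8_P_mono (R := r₂) h hφ le_rfl hab hr₂
  have h4μ : (1 : ℝ) ≤ 4 ^ μ := one_le_pow₀ (by norm_num)
  -- increments for `r ≥ ρ`
  have hinc : ∀ r ∈ Icc ρ r₂, (φ r - b) ^ 2 ≤ D1 * (4 ^ μ * ℓ) := by
    intro r hr
    have h1 := w10_cs_out (μ := μ) h hφ hr.1 hr.2
    have h2 : ∫ x in r..r₂, w8_P μ F φ x ≤ D1 :=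
      w8_P_mono (R := r₂) h hφ (by have := hr.1; linarith) hr.2 le_rfl
    have h3 : 4 ^ μ / ρ * (r₂ - r) ≤ 4 ^ μ * ℓ := by
      rw [hℓ, div_mul_eq_mul_div, mul_div_assoc]
      refine mul_le_mul_of_nonneg_left ?_ (by positivity)
      exact div_le_div_of_nonneg_right (by have := hr.1; linarith) hρ0.le
    have h4 : 0 ≤ 4 ^ μ / ρ * (r₂ - r) := by
      have : 0 ≤ r₂ - r := by have := hr.2; linarith
      positivity
    calc (φ r - b) ^ 2 = (b - φ r) ^ 2 := by ring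
      _ ≤ (∫ x in r..r₂, w8_P μ F φ x) * (4 ^ μ / ρ * (r₂ - r)) := h1
      _ ≤ D1 * (4 ^ μ * ℓ) := mul_le_mul h2 h3 h4 hD10
  have hcw : Continuous fun r => |NP μ F r| * (φ r - b) ^ 2 :=
    (w8_cont_NP h μ).abs.mul ((hφ.continuous.sub continuous_const).pow 2)
  rw [← intervalIntegral.integral_add_adjacent_intervals (hcw.intervalIntegrable (0.92 * ρ) ρ)
    (hcw.intervalIntegrable ρ r₂)]
  have h2 : ∫ r in ρ..r₂, |NP μ F r| * (φ r - b) ^ 2 ≤ D1 * (4 ^ μ * ℓ) * (1600 * μ ^ 2) := by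
    obtain ⟨hi, hle⟩ := w10_int_inv ρ r₂ hr₂
    have h5 := intervalIntegral.integral_mono_on (μ := volume) hr₂
      (hcw.intervalIntegrable ρ r₂) (hi.const_mul (64000 * (μ : ℝ) ^ 2 * (D1 * (4 ^ μ * ℓ))))
      (fun r hr => by
        have h6 := w10_absNP_out h hμ hr.1
        have h7 := hinc r hr
        calc |NP μ F r| * (φ r - b) ^ 2
            ≤ (64000 * μ ^ 2 * ((40 + (r - ρ)) ^ 2)⁻¹) * (D1 * (4 ^ μ * ℓ)) :=
              mul_le_mul h6 h7 (sq_nonneg _) (by positivity)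
          _ = _ := by ring)
    rw [intervalIntegral.integral_const_mul] at h5
    refine h5.trans ((mul_le_mul_of_nonneg_left hle (by positivity)).trans (le_of_eq ?_))
    ring
  -- inner part
  have hcg : Continuous fun r => φ r - φ ρ := by fun_prop
  have h1 : ∫ r in (0.92 * ρ)..ρ, |NP μ F r| * (φ r - b) ^ 2 ≤
      16 * μ ^ 2 * ((256 * D1) * (1 / (0.92 * ρ))) + 16 * μ ^ 2 * (2.5 * (D1 * (4 ^ μ * ℓ))) := by
    have hg : ContDiff ℝ 1 fun r => φ r - φ ρ := hφ.sub contDiff_const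
    have hhardy := w10_hardy (μ := μ) h hμ hg (by simp)
    have hPe : ∀ r, w8_P μ F (fun r => φ r - φ ρ) r = w8_P μ F φ r := by
      intro r
      simp only [w8_P]
      rw [deriv_sub_const]
    simp only [hPe] at hhardy
    have hcb : ∀ r ∈ Icc (0.92 * ρ) ρ, |NP μ F r| * (φ r - b) ^ 2 ≤
        16 * μ ^ 2 * (1 / (0.92 * ρ)) * (qq F r ^ (2 * μ) * (φ r - φ ρ) ^ 2 * r) +
        16 * μ ^ 2 * (φ ρ - b) ^ 2 * qq F r ^ (2 * μ) := by
      intro r hr
      have hra := hr.1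
      have hrb := hr.2
      have hr0 : 0 < r := by linarith
      have hq := w8_q_pos h hr0.le
      have h6 := w10_absNP_in h hμ hr0 hrb
      have h7 : (φ r - b) ^ 2 ≤ 2 * (φ r - φ ρ) ^ 2 + 2 * (φ ρ - b) ^ 2 := by
        nlinarith only [sq_nonneg ((φ r - φ ρ) - (φ ρ - b))]
      have h8 : 1 ≤ 1 / (0.92 * ρ) * r := by
        rw [one_div, inv_mul_eq_div, le_div_iff₀ (by linarith only [hρ])]
        linarith
      have h9 : qq F r ^ (2 * μ) * (φ r - φ ρ) ^ 2 ≤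
          (1 / (0.92 * ρ)) * (qq F r ^ (2 * μ) * (φ r - φ ρ) ^ 2 * r) := by
        have h10 : 0 ≤ qq F r ^ (2 * μ) * (φ r - φ ρ) ^ 2 := by positivity
        calc qq F r ^ (2 * μ) * (φ r - φ ρ) ^ 2 = qq F r ^ (2 * μ) * (φ r - φ ρ) ^ 2 * 1 :=
              (mul_one _).symm
          _ ≤ qq F r ^ (2 * μ) * (φ r - φ ρ) ^ 2 * (1 / (0.92 * ρ) * r) :=
              mul_le_mul_of_nonneg_left h8 h10
          _ = _ := by ring
      calc |NP μ F r| * (φ r - b) ^ 2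
          ≤ (8 * μ ^ 2 * qq F r ^ (2 * μ)) * (2 * (φ r - φ ρ) ^ 2 + 2 * (φ ρ - b) ^ 2) :=
            mul_le_mul h6 h7 (sq_nonneg _) (by positivity)
        _ = 16 * μ ^ 2 * (qq F r ^ (2 * μ) * (φ r - φ ρ) ^ 2) +
            16 * μ ^ 2 * (φ ρ - b) ^ 2 * qq F r ^ (2 * μ) := by ring
        _ ≤ 16 * μ ^ 2 * ((1 / (0.92 * ρ)) * (qq F r ^ (2 * μ) * (φ r - φ ρ) ^ 2 * r)) +
            16 * μ ^ 2 * (φ ρ - b) ^ 2 * qq F r ^ (2 * μ) := by
            have := mul_le_mul_of_nonneg_left h9 (show (0:ℝ) ≤ 16 * μ ^ 2 by positivity)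
            linarith only [this]
        _ = _ := by ring
    have hi1 : IntervalIntegrable (fun r => 16 * (μ : ℝ) ^ 2 * (1 / (0.92 * ρ)) *
        (qq F r ^ (2 * μ) * (φ r - φ ρ) ^ 2 * r)) volume (0.92 * ρ) ρ := by
      apply Continuous.intervalIntegrable
      fun_prop
    have hi2 : IntervalIntegrable (fun r => 16 * (μ : ℝ) ^ 2 * (φ ρ - b) ^ 2 *
        qq F r ^ (2 * μ)) volume (0.92 * ρ) ρ := by
      apply Continuous.intervalIntegrable
      fun_prop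
    have h5 := intervalIntegral.integral_mono_on (μ := volume) hab
      (hcw.intervalIntegrable (0.92 * ρ) ρ) (hi1.add hi2) hcb
    rw [intervalIntegral.integral_add hi1 hi2, intervalIntegral.integral_const_mul,
      intervalIntegral.integral_const_mul] at h5
    refine h5.trans (add_le_add ?_ ?_)
    · have h11 : ∫ r in (0.92 * ρ)..ρ, qq F r ^ (2 * μ) * (φ r - φ ρ) ^ 2 * r ≤ 256 * D1 :=
        hhardy.trans (by linarith only [hPin])
      calc 16 * μ ^ 2 * (1 / (0.92 * ρ)) *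
            ∫ r in (0.92 * ρ)..ρ, qq F r ^ (2 * μ) * (φ r - φ ρ) ^ 2 * r
          ≤ 16 * μ ^ 2 * (1 / (0.92 * ρ)) * (256 * D1) :=
            mul_le_mul_of_nonneg_left h11 (by positivity)
        _ = _ := by ring
    · have h12 := hinc ρ ⟨le_rfl, hr₂⟩
      have h13 := w10_int_q h hμ
      have h14 : 0 ≤ ∫ r in (0.92 * ρ)..ρ, qq F r ^ (2 * μ) :=
        intervalIntegral.integral_nonneg hab fun r hr => by
          have := w8_q_pos h (r := r) (by have := hr.1; linarith only [hρ, this])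
          positivity
      calc 16 * μ ^ 2 * (φ ρ - b) ^ 2 * ∫ r in (0.92 * ρ)..ρ, qq F r ^ (2 * μ)
          ≤ 16 * μ ^ 2 * (D1 * (4 ^ μ * ℓ)) * 2.5 :=
            mul_le_mul (mul_le_mul_of_nonneg_left h12 (by positivity)) h13 h14 (by positivity)
        _ = _ := by ring
  have h15 : (1 : ℝ) / (0.92 * ρ) ≤ 1.1 * (4 ^ μ * ℓ) := by
    have h16 : (1 : ℝ) / (0.92 * ρ) ≤ 1.1 * (1 / ρ) := by
      rw [one_div, one_div, mul_inv]
      have : 0 < ρ⁻¹ := by positivity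
      nlinarith only [this]
    have h17 : 1 / ρ ≤ 4 ^ μ * ℓ := by nlinarith only [h4μ, hℓ0, hℓ1]
    linarith only [h16, h17]
  have hM : 0 ≤ (μ : ℝ) ^ 2 := by positivity
  have hA : 0 ≤ D1 * (4 ^ μ * ℓ) := by positivity
  have h18 : 16 * (μ : ℝ) ^ 2 * ((256 * D1) * (1 / (0.92 * ρ))) ≤
      16 * μ ^ 2 * ((256 * D1) * (1.1 * (4 ^ μ * ℓ))) :=
    mul_le_mul_of_nonneg_left (mul_le_mul_of_nonneg_left h15 (by positivity)) (by positivity)
  have h19 : 0 ≤ (μ : ℝ) ^ 2 * (D1 * (4 ^ μ * ℓ)) := mul_nonneg hM hA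
  have h20 : (∫ r in (0.92 * ρ)..ρ, |NP μ F r| * (φ r - b) ^ 2) +
      (∫ r in ρ..r₂, |NP μ F r| * (φ r - b) ^ 2) ≤
      (16 * μ ^ 2 * ((256 * D1) * (1.1 * (4 ^ μ * ℓ))) + 16 * μ ^ 2 * (2.5 * (D1 * (4 ^ μ * ℓ)))) +
      D1 * (4 ^ μ * ℓ) * (1600 * μ ^ 2) := by linarith only [h1, h18, h2]
  refine h20.trans ?_
  have e : (16 * (μ : ℝ) ^ 2 * ((256 * D1) * (1.1 * (4 ^ μ * ℓ))) +
      16 * μ ^ 2 * (2.5 * (D1 * (4 ^ μ * ℓ)))) + D1 * (4 ^ μ * ℓ) * (1600 * μ ^ 2) =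
      6145.6 * (μ ^ 2 * (D1 * (4 ^ μ * ℓ))) := by ring
  rw [e]
  have e2 : D1 * (7000 * (μ : ℝ) ^ 2 * 4 ^ μ * ℓ) = 7000 * (μ ^ 2 * (D1 * (4 ^ μ * ℓ))) := by ring
  rw [e2]
  linarith only [h19]

/-- the `NP` integral inside `r₂` -/
theorem w10_NP_in (h : Wall ρ ε F) (hμ : 1 ≤ μ) (hφ : ContDiff ℝ 1 φ) (hr₂ : ρ ≤ r₂)
    (hlog : 1 ≤ r₂ - ρ) {η : ℝ} (hη : 0 < η) :
    ∫ r in (0.92 * ρ)..r₂, NP μ F r * φ r ^ 2 ≤
      φ r₂ ^ 2 * ((∫ r in (0.92 * ρ)..r₂, NP μ F r) + η * (1700 * μ ^ 2)) +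
      (1 + 1 / η) * ((∫ r in (0.92 * ρ)..r₂, w8_P μ F φ r) *
        (7000 * μ ^ 2 * 4 ^ μ * ((r₂ - ρ) / ρ))) := by
  have hρ := h.hρ
  have hab : 0.92 * ρ ≤ r₂ := by linarith
  have hcN := w8_cont_NP h μ
  have hc := w10_absNP_cont (μ := μ) h
  have hcφ := hφ.continuous
  set b := φ r₂ with hb
  have hpt : ∀ r ∈ Icc (0.92 * ρ) r₂, NP μ F r * φ r ^ 2 ≤
      b ^ 2 * NP μ F r + η * b ^ 2 * |NP μ F r| + (1 + 1 / η) * (|NP μ F r| * (φ r - b) ^ 2) := by
    intro r _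
    set w := φ r - b with hw
    have e : φ r = b + w := by rw [hw]; ring
    have h1 : |φ r ^ 2 - b ^ 2| ≤ η * b ^ 2 + (1 + 1 / η) * w ^ 2 := by
      have e2 : φ r ^ 2 - b ^ 2 = 2 * b * w + w ^ 2 := by rw [e]; ring
      rw [e2]
      have h2 : |2 * b * w| ≤ η * b ^ 2 + 1 / η * w ^ 2 := by
        have h3 : η * b ^ 2 + 1 / η * w ^ 2 = (η * b ^ 2 * η + w ^ 2) / η := by
          field_simp
        rw [h3, le_div_iff₀ hη]
        rcases abs_cases (2 * b * w) with ⟨h4, _⟩ | ⟨h4, _⟩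
        · rw [h4]; nlinarith only [sq_nonneg (η * b - w)]
        · rw [h4]; nlinarith only [sq_nonneg (η * b + w)]
      calc |2 * b * w + w ^ 2| ≤ |2 * b * w| + |w ^ 2| := abs_add_le _ _
        _ ≤ (η * b ^ 2 + 1 / η * w ^ 2) + w ^ 2 := by
            rw [abs_of_nonneg (sq_nonneg w)]; linarith
        _ = _ := by ring
    have h5 : NP μ F r * (φ r ^ 2 - b ^ 2) ≤ |NP μ F r| * (η * b ^ 2 + (1 + 1 / η) * w ^ 2) :=
      calc NP μ F r * (φ r ^ 2 - b ^ 2) ≤ |NP μ F r * (φ r ^ 2 - b ^ 2)| := le_abs_self _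
        _ = |NP μ F r| * |φ r ^ 2 - b ^ 2| := abs_mul _ _
        _ ≤ _ := mul_le_mul_of_nonneg_left h1 (abs_nonneg _)
    calc NP μ F r * φ r ^ 2 = b ^ 2 * NP μ F r + NP μ F r * (φ r ^ 2 - b ^ 2) := by ring
      _ ≤ b ^ 2 * NP μ F r + |NP μ F r| * (η * b ^ 2 + (1 + 1 / η) * w ^ 2) := by linarith only [h5]
      _ = _ := by ring
  have hi1 : IntervalIntegrable (fun r => b ^ 2 * NP μ F r) volume (0.92 * ρ) r₂ := by
    apply Continuous.intervalIntegrable; fun_prop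
  have hi2 : IntervalIntegrable (fun r => η * b ^ 2 * |NP μ F r|) volume (0.92 * ρ) r₂ := by
    apply Continuous.intervalIntegrable; fun_prop
  have hi3 : IntervalIntegrable (fun r => (1 + 1 / η) * (|NP μ F r| * (φ r - b) ^ 2)) volume
      (0.92 * ρ) r₂ := by
    apply Continuous.intervalIntegrable; fun_prop
  have h5 := intervalIntegral.integral_mono_on (μ := volume) hab
    ((by fun_prop : Continuous fun r => NP μ F r * φ r ^ 2).intervalIntegrable _ _)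
    ((hi1.add hi2).add hi3) hpt
  rw [intervalIntegral.integral_add (hi1.add hi2) hi3, intervalIntegral.integral_add hi1 hi2,
    intervalIntegral.integral_const_mul, intervalIntegral.integral_const_mul,
    intervalIntegral.integral_const_mul] at h5
  have h6 := w10_mass h hμ hr₂
  have h7 := w10_err h hμ hφ hr₂ hlog
  rw [← hb] at h7
  have h8 : η * b ^ 2 * ∫ r in (0.92 * ρ)..r₂, |NP μ F r| ≤ η * b ^ 2 * (1700 * μ ^ 2) :=
    mul_le_mul_of_nonneg_left h6 (by positivity)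
  have h9 : (1 + 1 / η) * (∫ r in (0.92 * ρ)..r₂, |NP μ F r| * (φ r - b) ^ 2) ≤
      (1 + 1 / η) * ((∫ r in (0.92 * ρ)..r₂, w8_P μ F φ r) *
        (7000 * μ ^ 2 * 4 ^ μ * ((r₂ - ρ) / ρ))) :=
    mul_le_mul_of_nonneg_left h7 (by positivity)
  calc _ ≤ _ := h5
    _ ≤ (b ^ 2 * (∫ r in (0.92 * ρ)..r₂, NP μ F r) + η * b ^ 2 * (1700 * μ ^ 2)) +
        (1 + 1 / η) * ((∫ r in (0.92 * ρ)..r₂, w8_P μ F φ r) *
        (7000 * μ ^ 2 * 4 ^ μ * ((r₂ - ρ) / ρ))) := by linarith only [h8, h9]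
    _ = _ := by ring

theorem w10_exp6 {ρ : ℝ} (hρ : 0 < ρ) : exp (-0.3 * (20 * Real.log ρ)) = (ρ ^ 6)⁻¹ := by
  have e : -0.3 * (20 * Real.log ρ) = -(((6 : ℕ) : ℝ) * Real.log ρ) := by
    push_cast; ring
  rw [e, exp_neg, exp_nat_mul, exp_log hρ]

/-- smallness of `y` beyond `r₂ = ρ + 20 log ρ` -/
theorem w10_y_far (h : Wall ρ ε F) (hlog0 : 0 ≤ Real.log ρ) (hlog : 20 * Real.log ρ ≤ ρ)
    {r : ℝ} (hr : ρ + 20 * Real.log ρ ≤ r) : yy F r ≤ 1 / 2 * (ρ ^ 6)⁻¹ := by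
  have hρ := h.hρ
  have h1 := y_out_exp h (r := ρ + 20 * Real.log ρ) (by linarith) (by linarith)
  have e : -0.3 * (ρ + 20 * Real.log ρ - ρ) = -0.3 * (20 * Real.log ρ) := by ring
  rw [e, w10_exp6 (by linarith)] at h1
  have h2 := w8_q_mono h (r := ρ + 20 * Real.log ρ) (t := r) (by linarith only [hlog0, hρ]) hr
  rw [w8_q_eq, w8_q_eq] at h2
  linarith only [h1, h2]

theorem w10_q_far (h : Wall ρ ε F) (hlog0 : 0 ≤ Real.log ρ) (hlog : 20 * Real.log ρ ≤ ρ)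
    {r : ℝ} (hr : ρ + 20 * Real.log ρ ≤ r) : 1 - 2 * μ / ρ ≤ qq F r ^ (2 * μ) := by
  have hρ := h.hρ
  have hρ0 : 0 < ρ := by linarith
  have h1 := w10_y_far h hlog0 hlog hr
  have h2 : (ρ ^ 6)⁻¹ ≤ ρ⁻¹ := by
    refine inv_anti₀ hρ0 ?_
    calc ρ = ρ ^ 1 := (pow_one ρ).symm
      _ ≤ ρ ^ 6 := pow_le_pow_right₀ (by linarith) (by norm_num)
  have h3 : 1 - 1 / ρ ≤ qq F r := by
    rw [w8_q_eq, one_div]
    have : 0 < ρ⁻¹ := by positivity
    linarith
  have h4 : (0 : ℝ) ≤ 1 - 1 / ρ := by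
    rw [sub_nonneg, div_le_one hρ0]; linarith
  have h5 : (1 - 1 / ρ) ^ (2 * μ) ≤ qq F r ^ (2 * μ) := pow_le_pow_left₀ h4 h3 _
  have h6 := one_add_mul_le_pow (a := -(1 / ρ)) (by linarith) (2 * μ)
  have e : 1 + (-(1 / ρ)) = 1 - 1 / ρ := by ring
  rw [e] at h6
  refine le_trans (le_of_eq ?_) (h6.trans h5)
  push_cast
  ring

/-- smallness of `NP` beyond `r₂` -/
theorem w10_NP_far (h : Wall ρ ε F) (hμ : 1 ≤ μ) (hlog0 : 0 ≤ Real.log ρ)
    (hlog : 20 * Real.log ρ ≤ ρ)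
    {r : ℝ} (hr : ρ + 20 * Real.log ρ ≤ r) : NP μ F r * r ≤ 128000 * μ / ρ := by
  have hρ := h.hρ
  have hρ0 : 0 < ρ := by linarith
  have hrρ : ρ ≤ r := by linarith
  have hr0 : 0 < r := by linarith
  have hq := w8_q_pos h hr0.le
  have hq1 := w8_q_lt (F := F) r
  have hy := w8_y_pos (F := F) r
  have hq2 : qq F r ^ (2 * μ) ≤ 1 := pow_le_one₀ hq.le hq1.le
  have h1 := w8_NP_le h hμ hr0
  rw [max_eq_left (by linarith : 0 ≤ r - ρ)] at h1
  have hμ0 : (0 : ℝ) ≤ μ := Nat.cast_nonneg _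
  have h2 : NP μ F r * r ≤ μ * (yy F r * (8 + 2 * (r - ρ)) * r) := by
    have hx0 : 0 ≤ 8 + 2 * (r - ρ) := by linarith
    calc NP μ F r * r ≤ (μ * yy F r * qq F r * (8 + 2 * (r - ρ)) * qq F r ^ (2 * μ)) * r :=
          mul_le_mul_of_nonneg_right h1 hr0.le
      _ ≤ (μ * yy F r * 1 * (8 + 2 * (r - ρ)) * 1) * r := by
          refine mul_le_mul_of_nonneg_right ?_ hr0.le
          refine mul_le_mul ?_ hq2 (by positivity) (by positivity)
          refine mul_le_mul_of_nonneg_right ?_ hx0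
          exact mul_le_mul_of_nonneg_left hq1.le (by positivity)
      _ = _ := by ring
  refine h2.trans ?_
  have h3 : yy F r * (8 + 2 * (r - ρ)) * r ≤ 128000 / ρ := by
    rcases le_total r (2 * ρ) with h4 | h4
    · have h5 := w10_y_far h hlog0 hlog hr
      calc yy F r * (8 + 2 * (r - ρ)) * r ≤ (1 / 2 * (ρ ^ 6)⁻¹) * (3 * ρ) * (2 * ρ) := by
            refine mul_le_mul (mul_le_mul h5 (by linarith) (by linarith) (by positivity)) h4
              hr0.le (by positivity)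
        _ = 3 * (ρ ^ 4)⁻¹ := by field_simp
        _ ≤ 3 * ρ⁻¹ := by
            refine mul_le_mul_of_nonneg_left (inv_anti₀ hρ0 ?_) (by norm_num)
            calc ρ = ρ ^ 1 := (pow_one ρ).symm
              _ ≤ ρ ^ 4 := pow_le_pow_right₀ (by linarith) (by norm_num)
        _ ≤ 128000 / ρ := by
            rw [div_eq_mul_inv]
            exact mul_le_mul_of_nonneg_right (by norm_num) (by positivity)
    · have hyp := y_out_pow h hrρ
      set x := r - ρ with hx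
      have hx0 : 0 ≤ x := by rw [hx]; linarith
      set S := 1 + x / 40 with hS
      have hS1 : 1 ≤ S := by rw [hS]; linarith [div_nonneg hx0 (by norm_num : (0:ℝ) ≤ 40)]
      have h8 : 8 + 2 * x ≤ 80 * S := by rw [hS]; linarith
      have h9 : r ≤ 80 * S := by rw [hS]; linarith
      have h10 : ρ / 40 ≤ S := by rw [hS]; linarith
      calc yy F r * (8 + 2 * x) * r ≤ (1 / 2 * (S ^ 18)⁻¹) * (80 * S) * (80 * S) := by
            refine mul_le_mul (mul_le_mul hyp h8 (by linarith) (by positivity)) h9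
              hr0.le (by positivity)
        _ = 3200 * (S ^ 16)⁻¹ := by field_simp; ring
        _ ≤ 3200 * S⁻¹ := by
            refine mul_le_mul_of_nonneg_left (inv_anti₀ (by linarith) ?_) (by norm_num)
            calc S = S ^ 1 := (pow_one S).symm
              _ ≤ S ^ 16 := pow_le_pow_right₀ hS1 (by norm_num)
        _ ≤ 3200 * (ρ / 40)⁻¹ :=
            mul_le_mul_of_nonneg_left (inv_anti₀ (by positivity) h10) (by norm_num)
        _ = 128000 / ρ := by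
            rw [inv_div]; ring
  calc μ * (yy F r * (8 + 2 * (r - ρ)) * r) ≤ μ * (128000 / ρ) :=
        mul_le_mul_of_nonneg_left h3 hμ0
    _ = _ := by ring

theorem w10_div_int (hφ : Continuous φ) {s t : ℝ} (hs : 0 < s) (hst : s ≤ t) :
    IntervalIntegrable (fun r => φ r ^ 2 / r) volume s t := by
  apply ContinuousOn.intervalIntegrable
  rw [uIcc_of_le hst]
  refine ContinuousOn.div ((hφ.pow 2).continuousOn) continuousOn_id ?_
  intro r hr
  exact (lt_of_lt_of_le hs hr.1).ne'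

/-- Hardy inequality on the outer region -/
theorem w10_hardy_out (hφ : ContDiff ℝ 1 φ) (hr₂ : 0 < r₂) (hR : r₂ ≤ R) (hφR : φ R = 0)
    (k k' : ℝ) :
    k' * φ r₂ ^ 2 + (k ^ 2 - k' ^ 2) * (∫ r in r₂..R, φ r ^ 2 / r) ≤
      ∫ r in r₂..R, (deriv φ r ^ 2 * r + k ^ 2 * (φ r ^ 2 / r)) := by
  have hcφ := hφ.continuous
  have hcφ' := hφ.continuous_deriv le_rfl
  have hd : ∀ r ∈ uIcc r₂ R, HasDerivAt (fun r => -k' * φ r ^ 2) (-2 * k' * (φ r * deriv φ r)) r := by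
    intro r _
    have h3 := ((hφ.differentiable one_ne_zero r).hasDerivAt.pow 2).const_mul (-k')
    refine HasDerivAt.congr_deriv (f := fun r => -k' * φ r ^ 2) h3 ?_
    push_cast
    ring
  have hc1 : Continuous fun r => -2 * k' * (φ r * deriv φ r) := by fun_prop
  have h1 := intervalIntegral.integral_eq_sub_of_hasDerivAt hd (hc1.intervalIntegrable _ _)
  rw [hφR] at h1
  have hi2 := w10_div_int hcφ hr₂ hR
  have hi3 : IntervalIntegrable (fun r => deriv φ r ^ 2 * r) volume r₂ R := by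
    apply Continuous.intervalIntegrable; fun_prop
  have h2 := intervalIntegral.integral_mono_on (μ := volume) hR
    ((hc1.intervalIntegrable r₂ R).add (hi2.const_mul (k ^ 2 - k' ^ 2)))
    (hi3.add (hi2.const_mul (k ^ 2))) (by
      intro r hr
      have hr0 : 0 < r := lt_of_lt_of_le hr₂ hr.1
      have h3 : 0 ≤ (r * deriv φ r + k' * φ r) ^ 2 / r := by positivity
      have h4 : (r * deriv φ r + k' * φ r) ^ 2 / r = deriv φ r ^ 2 * r +
          2 * k' * (φ r * deriv φ r) + k' ^ 2 * (φ r ^ 2 / r) := by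
        field_simp
        ring
      rw [h4] at h3
      linarith)
  rw [intervalIntegral.integral_add (hc1.intervalIntegrable r₂ R) (hi2.const_mul _),
    intervalIntegral.integral_const_mul (k ^ 2 - k' ^ 2), h1] at h2
  have e : k' * φ r₂ ^ 2 = -k' * 0 ^ 2 - -k' * φ r₂ ^ 2 := by ring
  rw [e]
  exact h2

end aux

/-- weighted mass inside `r₂` -/
theorem w10_T1_in {ρ ε : ℝ} {F : ℝ → ℝ} {μ : ℕ} {φ : ℝ → ℝ} {r₂ : ℝ}
    (h : Wall ρ ε F) (hφ : ContDiff ℝ 1 φ) (hr₂ : ρ ≤ r₂) (hr₂' : r₂ ≤ 2 * ρ) :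
    ∫ r in (0.92 * ρ)..r₂, wgt ρ r * (qq F r ^ (2 * μ) * φ r ^ 2 * r) ≤
      (8 * φ r₂ ^ 2 + 16 * ∫ r in (0.92 * ρ)..r₂, w8_P μ F φ r) * ρ ^ 2 := by
  have hρ := h.hρ
  have hρ0 : 0 < ρ := by linarith
  have hab : 0.92 * ρ ≤ r₂ := by linarith
  set b := φ r₂ with hb
  set D1 := ∫ r in (0.92 * ρ)..r₂, w8_P μ F φ r with hD1
  have hD10 : 0 ≤ D1 := w10_P_nonneg h (by linarith) hab
  have hbd : ∀ r ∈ Icc (0.92 * ρ) r₂, wgt ρ r * (qq F r ^ (2 * μ) * φ r ^ 2 * r) ≤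
      (2 * b ^ 2 + 4 * D1) * (2 * ρ) := by
    intro r hr
    have hra := hr.1
    have hrb := hr.2
    have hr0 : 0 < r := by linarith
    have hq := w8_q_pos h hr0.le
    have hq1 := w8_q_lt (F := F) r
    have hq2 : qq F r ^ (2 * μ) ≤ 1 := pow_le_one₀ hq.le hq1.le
    have hw : wgt ρ r ≤ 1 := min_le_left _ _
    have h1 := w10_cs_in (μ := μ) h hφ hr0 hrb
    rw [← hb] at h1
    have h2 : ∫ x in r..r₂, w8_P μ F φ x ≤ D1 := w8_P_mono (R := r₂) h hφ hra hrb le_rfl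
    have h3 : (r₂ - r) / r ≤ 2 := by
      rw [div_le_iff₀ hr0]; linarith only [hq, hq1, hra, hr₂', hρ]
    have h3' : 0 ≤ (r₂ - r) / r := div_nonneg (by linarith only [hrb]) hr0.le
    have h4 : qq F r ^ (2 * μ) * (b - φ r) ^ 2 ≤ D1 * 2 :=
      h1.trans (mul_le_mul h2 h3 h3' hD10)
    have h5 : qq F r ^ (2 * μ) * φ r ^ 2 ≤ 2 * b ^ 2 + 4 * D1 := by
      have h6 : φ r ^ 2 ≤ 2 * b ^ 2 + 2 * (b - φ r) ^ 2 := w10_sq_aux _ _
      have h7 : qq F r ^ (2 * μ) * φ r ^ 2 ≤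
          qq F r ^ (2 * μ) * (2 * b ^ 2 + 2 * (b - φ r) ^ 2) :=
        mul_le_mul_of_nonneg_left h6 (by positivity)
      have h8 : qq F r ^ (2 * μ) * (2 * b ^ 2) ≤ 1 * (2 * b ^ 2) :=
        mul_le_mul_of_nonneg_right hq2 (by positivity)
      linarith only [h4, h7, h8]
    calc wgt ρ r * (qq F r ^ (2 * μ) * φ r ^ 2 * r)
        ≤ 1 * (qq F r ^ (2 * μ) * φ r ^ 2 * r) :=
          mul_le_mul_of_nonneg_right hw (by positivity)
      _ = (qq F r ^ (2 * μ) * φ r ^ 2) * r := by ring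
      _ ≤ (2 * b ^ 2 + 4 * D1) * (2 * ρ) :=
          mul_le_mul h5 (by linarith only [hrb, hr₂']) hr0.le (by positivity)
  have h9 := intervalIntegral.integral_mono_on (μ := volume) hab
    (w8_wgt_int (μ := μ) h hφ (by linarith) hab)
    (intervalIntegrable_const (c := (2 * b ^ 2 + 4 * D1) * (2 * ρ))) hbd
  rw [intervalIntegral.integral_const, smul_eq_mul] at h9
  refine h9.trans ?_
  have h10 : 0 ≤ (2 * b ^ 2 + 4 * D1) * (2 * ρ) := by positivity
  calc (r₂ - 0.92 * ρ) * ((2 * b ^ 2 + 4 * D1) * (2 * ρ))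
      ≤ (2 * ρ) * ((2 * b ^ 2 + 4 * D1) * (2 * ρ)) :=
        mul_le_mul_of_nonneg_right (by linarith only [hr₂', hρ]) h10
    _ = _ := by ring

/-- weighted mass outside `r₂` -/
theorem w10_T1_out {ρ ε : ℝ} {F : ℝ → ℝ} {μ : ℕ} {φ : ℝ → ℝ} {r₂ R : ℝ}
    (h : Wall ρ ε F) (hφ : ContDiff ℝ 1 φ) (hr₂ : ρ ≤ r₂) (hR : r₂ ≤ R) :
    ∫ r in r₂..R, wgt ρ r * (qq F r ^ (2 * μ) * φ r ^ 2 * r) ≤
      ρ ^ 2 * ∫ r in r₂..R, φ r ^ 2 / r := by
  have hρ := h.hρ
  have hρ0 : 0 < ρ := by linarith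
  have hr₂0 : 0 < r₂ := by linarith
  rw [← intervalIntegral.integral_const_mul]
  refine intervalIntegral.integral_mono_on hR (w8_wgt_int (μ := μ) h hφ hr₂0 hR)
    ((w10_div_int hφ.continuous hr₂0 hR).const_mul _) ?_
  intro r hr
  have hra := hr.1
  have hr0 : 0 < r := by linarith
  have hq := w8_q_pos h hr0.le
  have hq1 := w8_q_lt (F := F) r
  have hq2 : qq F r ^ (2 * μ) ≤ 1 := pow_le_one₀ hq.le hq1.le
  have h1 : ρ / r ≤ 1 := by rw [div_le_one hr0]; linarith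
  have hw : wgt ρ r ≤ (ρ / r) ^ 2 := by
    refine (min_le_right _ _).trans ?_
    exact pow_le_pow_of_le_one (by positivity) h1 (by norm_num)
  calc wgt ρ r * (qq F r ^ (2 * μ) * φ r ^ 2 * r)
      ≤ (ρ / r) ^ 2 * (1 * φ r ^ 2 * r) := by
        refine mul_le_mul hw ?_ (by positivity) (by positivity)
        exact mul_le_mul_of_nonneg_right (mul_le_mul_of_nonneg_right hq2 (sq_nonneg _)) hr0.le
    _ = ρ ^ 2 * (φ r ^ 2 / r) := by field_simp

/-- inner mass -/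
theorem w10_T2 {ρ ε : ℝ} {F : ℝ → ℝ} {μ : ℕ} {φ : ℝ → ℝ}
    (h : Wall ρ ε F) (hμ : 1 ≤ μ) (hφ : ContDiff ℝ 1 φ)
    (hexp : exp (-0.016 * ρ) * ρ ^ 2 ≤ 1) :
    ∫ r in (0.92 * ρ)..(0.96 * ρ), qq F r ^ (2 * μ) * φ r ^ 2 * r ≤
      512 * (∫ r in (0.92 * ρ)..ρ, w8_P μ F φ r) + 2 * φ ρ ^ 2 := by
  have hρ := h.hρ
  have hρ0 : 0 < ρ := by linarith
  have hcq := w8_cont_q h
  have hcφ := hφ.continuous
  have hg : ContDiff ℝ 1 fun r => φ r - φ ρ := hφ.sub contDiff_const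
  have hhardy := w10_hardy (μ := μ) h hμ hg (by simp)
  have hPe : ∀ r, w8_P μ F (fun r => φ r - φ ρ) r = w8_P μ F φ r := by
    intro r
    simp only [w8_P]
    rw [deriv_sub_const]
  simp only [hPe] at hhardy
  have hc1 : Continuous fun r => 2 * (qq F r ^ (2 * μ) * (φ r - φ ρ) ^ 2 * r) := by fun_prop
  have hbd : ∀ r ∈ Icc (0.92 * ρ) (0.96 * ρ), qq F r ^ (2 * μ) * φ r ^ 2 * r ≤
      2 * (qq F r ^ (2 * μ) * (φ r - φ ρ) ^ 2 * r) + 2 * φ ρ ^ 2 * (exp (-0.016 * ρ) * ρ) := by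
    intro r hr
    have hra := hr.1
    have hrb := hr.2
    have hr0 : 0 < r := by linarith only [hra, hρ]
    have hq := w8_q_pos h hr0.le
    have hq1 := w8_q_lt (F := F) r
    have h1 : φ r ^ 2 ≤ 2 * (φ r - φ ρ) ^ 2 + 2 * φ ρ ^ 2 := by
      nlinarith only [sq_nonneg (φ r - 2 * φ ρ)]
    have h2 : qq F r ^ (2 * μ) * r ≤ exp (-0.016 * ρ) * ρ := by
      have h3 : qq F r ^ (2 * μ) ≤ exp (-0.016 * ρ) := by
        refine (pow_le_of_le_one hq.le hq1.le (by omega)).trans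
          ((w8_q_exp h (by linarith only [hq, hq1, hra, hρ])).trans (exp_le_exp.mpr (by linarith only [hrb])))
      exact mul_le_mul h3 (by linarith only [hq, hq1, hrb, hρ]) hr0.le (exp_pos _).le
    calc qq F r ^ (2 * μ) * φ r ^ 2 * r
        ≤ qq F r ^ (2 * μ) * (2 * (φ r - φ ρ) ^ 2 + 2 * φ ρ ^ 2) * r :=
          mul_le_mul_of_nonneg_right (mul_le_mul_of_nonneg_left h1 (by positivity)) hr0.le
      _ = 2 * (qq F r ^ (2 * μ) * (φ r - φ ρ) ^ 2 * r) + 2 * φ ρ ^ 2 * (qq F r ^ (2 * μ) * r) := by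
          ring
      _ ≤ _ := by
          have := mul_le_mul_of_nonneg_left h2 (show (0:ℝ) ≤ 2 * φ ρ ^ 2 by positivity)
          linarith only [this]
  have hi2 : IntervalIntegrable (fun _ : ℝ => 2 * φ ρ ^ 2 * (exp (-0.016 * ρ) * ρ)) volume
      (0.92 * ρ) (0.96 * ρ) := intervalIntegrable_const
  have h5 := intervalIntegral.integral_mono_on (μ := volume)
    (by linarith : 0.92 * ρ ≤ 0.96 * ρ)
    ((by fun_prop : Continuous fun r => qq F r ^ (2 * μ) * φ r ^ 2 * r).intervalIntegrable _ _)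
    ((hc1.intervalIntegrable _ _).add hi2) hbd
  rw [intervalIntegral.integral_add (hc1.intervalIntegrable _ _) hi2,
    intervalIntegral.integral_const_mul, intervalIntegral.integral_const, smul_eq_mul] at h5
  have h6 : ∫ r in (0.92 * ρ)..(0.96 * ρ), qq F r ^ (2 * μ) * (φ r - φ ρ) ^ 2 * r ≤
      ∫ r in (0.92 * ρ)..ρ, qq F r ^ (2 * μ) * (φ r - φ ρ) ^ 2 * r := by
    refine intervalIntegral.integral_mono_interval le_rfl (by linarith only [hρ]) (by linarith) ?_ ?_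
    · rw [Filter.EventuallyLE, ae_restrict_iff' measurableSet_Ioc]
      refine Filter.Eventually.of_forall fun r hr => ?_
      have hr0 : 0 ≤ r := by have := hr.1; linarith only [hρ, this]
      have hq := w8_q_pos h hr0
      simp only [Pi.zero_apply]
      positivity
    · apply Continuous.intervalIntegrable
      fun_prop
  have h7 : (0.96 * ρ - 0.92 * ρ) * (2 * φ ρ ^ 2 * (exp (-0.016 * ρ) * ρ)) ≤ 2 * φ ρ ^ 2 := by
    have e : (0.96 * ρ - 0.92 * ρ) * (2 * φ ρ ^ 2 * (exp (-0.016 * ρ) * ρ)) =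
        2 * φ ρ ^ 2 * (0.04 * (exp (-0.016 * ρ) * ρ ^ 2)) := by ring
    rw [e]
    have h8 : 0.04 * (exp (-0.016 * ρ) * ρ ^ 2) ≤ 1 := by
      have := exp_pos (-0.016 * ρ)
      linarith only [hexp]
    calc 2 * φ ρ ^ 2 * (0.04 * (exp (-0.016 * ρ) * ρ ^ 2)) ≤ 2 * φ ρ ^ 2 * 1 :=
          mul_le_mul_of_nonneg_left h8 (by positivity)
      _ = _ := mul_one _
  linarith only [h5, h6, h7, hhardy]

theorem kmu_nonneg (μ : ℕ) : 0 ≤ kmu μ := by
  unfold kmu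
  have h1 : (0 : ℚ) ≤ harmonic (2 * μ - 1) := by
    unfold harmonic
    exact Finset.sum_nonneg fun i _ => by positivity
  have h2 : (0 : ℝ) ≤ ((harmonic (2 * μ - 1) : ℚ) : ℝ) := by exact_mod_cast h1
  positivity

/-- all largeness conditions on `ρ` -/
theorem w10_large (A B s δ k : ℝ) (hs : 0 < s) (hδ : 0 < δ) :
    ∃ ρ₀ : ℝ, ∀ ρ : ℝ, ρ₀ ≤ ρ → 20 * Real.log ρ ≤ ρ ∧ 1 ≤ 20 * Real.log ρ ∧
      A * (20 * Real.log ρ / ρ) ≤ 1 / 2 ∧ B / ρ ≤ s ∧ B / ρ ≤ 1 / 2 ∧ B / ρ * k ≤ δ ∧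
      exp (-0.016 * ρ) * ρ ^ 2 ≤ 1 := by
  have hlog : Filter.Tendsto (fun ρ : ℝ => Real.log ρ / ρ) Filter.atTop (nhds 0) := by
    have h1 := Real.tendsto_pow_log_div_mul_add_atTop 1 0 1 one_ne_zero
    simpa using h1
  have hinv : Filter.Tendsto (fun ρ : ℝ => B / ρ) Filter.atTop (nhds 0) :=
    Filter.tendsto_id.const_div_atTop B
  have hexp : Filter.Tendsto (fun ρ : ℝ => exp (-0.016 * ρ) * ρ ^ 2) Filter.atTop (nhds 0) := by
    have h1 := Real.tendsto_pow_mul_exp_neg_atTop_nhds_zero 2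
    have h2 : Filter.Tendsto (fun ρ : ℝ => 0.016 * ρ) Filter.atTop Filter.atTop :=
      Filter.tendsto_id.const_mul_atTop (by norm_num)
    have h3 := (h1.comp h2).const_mul ((0.016 : ℝ) ^ 2)⁻¹
    rw [mul_zero] at h3
    refine h3.congr fun ρ => ?_
    simp only [Function.comp]
    rw [show -(0.016 * ρ) = -0.016 * ρ by ring]
    rw [mul_pow]
    field_simp
  have c1 : ∀ᶠ ρ : ℝ in Filter.atTop, 20 * (Real.log ρ / ρ) ≤ 1 := by
    have := (hlog.const_mul 20)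
    rw [mul_zero] at this
    exact (this.eventually_lt_const one_pos).mono fun _ h => h.le
  have c2 : ∀ᶠ ρ : ℝ in Filter.atTop, 1 ≤ Real.log ρ :=
    Real.tendsto_log_atTop.eventually_ge_atTop 1
  have c3 : ∀ᶠ ρ : ℝ in Filter.atTop, (A * 20) * (Real.log ρ / ρ) < 1 / 2 := by
    have := (hlog.const_mul (A * 20))
    rw [mul_zero] at this
    exact this.eventually_lt_const (by norm_num)
  have c4 : ∀ᶠ ρ : ℝ in Filter.atTop, B / ρ < s := hinv.eventually_lt_const hs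
  have c5 : ∀ᶠ ρ : ℝ in Filter.atTop, B / ρ < 1 / 2 := hinv.eventually_lt_const (by norm_num)
  have c6 : ∀ᶠ ρ : ℝ in Filter.atTop, B / ρ * k < δ := by
    have := hinv.mul_const k
    rw [zero_mul] at this
    exact this.eventually_lt_const hδ
  have c7 : ∀ᶠ ρ : ℝ in Filter.atTop, exp (-0.016 * ρ) * ρ ^ 2 < 1 :=
    hexp.eventually_lt_const one_pos
  have c8 : ∀ᶠ ρ : ℝ in Filter.atTop, 0 < ρ := Filter.eventually_gt_atTop 0
  have call := (((((((c1.and c2).and c3).and c4).and c5).and c6).and c7).and c8)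
  obtain ⟨ρ₀, hρ₀⟩ := Filter.eventually_atTop.mp call
  refine ⟨ρ₀, fun ρ hρ => ?_⟩
  obtain ⟨⟨⟨⟨⟨⟨⟨d1, d2⟩, d3⟩, d4⟩, d5⟩, d6⟩, d7⟩, d8⟩ := hρ₀ ρ hρ
  refine ⟨?_, by linarith, ?_, d4.le, d5.le, d6.le, d7.le⟩
  · rw [← mul_div_assoc, div_le_one d8] at d1
    exact d1
  · have e : A * (20 * Real.log ρ / ρ) = (A * 20) * (Real.log ρ / ρ) := by ring
    rw [e]; exact d3.le

theorem form_high (μ : ℕ) (hμ : 1 ≤ μ) (k : ℕ) (hk : kmu μ < k) :
    ∃ c > 0, ∃ ρ₀ : ℝ, ∀ ρ ε F, Wall ρ ε F → ρ₀ ≤ ρ → ∀ f : ℝ → ℝ, ContDiff ℝ 1 f →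
      HasCompactSupport f → (∀ r, r ≤ 0.92 * ρ → f r = 0) →
      c * (ρ ^ 2)⁻¹ * (∫ r in Ioi (0 : ℝ), wgt ρ r * f r ^ 2 * r)
        + c * (∫ r in Ioo 0 (0.96 * ρ), f r ^ 2 * r)
      ≤ (∫ r in Ioi (0 : ℝ), (deriv f r ^ 2 + VV μ F r * f r ^ 2) * r)
        + k ^ 2 * (∫ r in Ioi (0 : ℝ), f r ^ 2 / r) := by
  have hκ0 := kmu_nonneg μ
  set κ := kmu μ with hκ
  set g := (k : ℝ) - κ with hg
  have hg0 : 0 < g := by rw [hg]; linarith
  have hμR : (1 : ℝ) ≤ μ := by exact_mod_cast hμ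
  set δ := g / 16 with hδ
  have hδ0 : 0 < δ := by rw [hδ]; positivity
  set k' := (k : ℝ) - g / 4 with hk'
  have hk'k : k' ≤ k := by rw [hk']; linarith
  have hkk' : 0 < (k : ℝ) ^ 2 - k' ^ 2 := by
    have e : (k : ℝ) ^ 2 - k' ^ 2 = (g / 4) * (2 * κ + 7 / 4 * g) := by rw [hk', hg]; ring
    rw [e]; positivity
  set η := δ / (1700 * μ ^ 2) with hη
  have hη0 : 0 < η := by rw [hη]; positivity
  set s := ((k : ℝ) ^ 2 - k' ^ 2) / 4 with hs
  have hs0 : 0 < s := by rw [hs]; positivity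
  set A := (1 + 1 / η) * (7000 * μ ^ 2 * 4 ^ μ) with hA
  obtain ⟨ρ₁, hρ₁⟩ := w10_large A (128000 * μ) s δ k hs0 hδ0
  obtain ⟨ρ₂, hρ₂⟩ := kappa_tendsto μ hμ δ hδ0
  refine ⟨min (1 / 1064) (min (g / 32) s), by positivity, max ρ₁ ρ₂, ?_⟩
  intro ρ ε F h hρ₀ f hf hc h0
  have hρ := h.hρ
  have hρ0 : 0 < ρ := by linarith
  obtain ⟨L1, L2, L3, L4, L5, L6, L7⟩ := hρ₁ ρ ((le_max_left _ _).trans hρ₀)
  have hkap := hρ₂ ρ ε F h ((le_max_right _ _).trans hρ₀)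
  have hlog0 : 0 ≤ Real.log ρ := by linarith only [L2]
  obtain ⟨φ, hφ, hφc, hφ0, hfφ, hgs⟩ := ground_state h μ hμ f hf hc h0
  obtain ⟨R0, hR0⟩ := w8_support hφc
  obtain ⟨r₂, hr₂def⟩ : ∃ r₂, r₂ = ρ + 20 * Real.log ρ := ⟨_, rfl⟩
  have hr₂ : ρ ≤ r₂ := by rw [hr₂def]; linarith only [L2]
  have hr₂' : r₂ ≤ 2 * ρ := by rw [hr₂def]; linarith only [L1]
  have hr₂1 : 1 ≤ r₂ - ρ := by rw [hr₂def]; linarith only [L2]
  obtain ⟨R, hR, hRsupp, hφR⟩ : ∃ R, r₂ ≤ R ∧ (∀ r, R < r → φ r = 0 ∧ deriv φ r = 0) ∧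
      φ R = 0 :=
    ⟨max (R0 + 1) r₂, le_max_right _ _, fun r hr => hR0 r (by
      have := lt_of_le_of_lt (le_max_left (R0 + 1) r₂) hr
      linarith only [this]), (hR0 _ (by have := le_max_left (R0 + 1) r₂; linarith only [this])).1⟩
  have hφ'0 := w8_deriv_zero hφ hφ0
  have hcq := w8_cont_q h
  have hcφ := hφ.continuous
  have hcφ' := hφ.continuous_deriv le_rfl
  have hcP := w8_P_cont (μ := μ) h hφ
  have hcN := w8_cont_NP h μ
  have haR : 0.92 * ρ ≤ R := by linarith only [L2, hR, hr₂def, hρ]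
  have har₂ : 0.92 * ρ ≤ r₂ := by linarith only [L2, hr₂def, hρ]
  have ha0 : 0 ≤ 0.92 * ρ := by linarith only [hρ]
  have hr₂0 : 0 < r₂ := by linarith only [L2, hr₂def, hρ]
  set b := φ r₂ with hb
  set D1 := ∫ r in (0.92 * ρ)..r₂, w8_P μ F φ r with hD1
  set D2 := ∫ r in r₂..R, w8_P μ F φ r with hD2
  set I := ∫ r in r₂..R, φ r ^ 2 / r with hI
  have hD10 : 0 ≤ D1 := w10_P_nonneg h ha0 har₂
  have hI0 : 0 ≤ I := intervalIntegral.integral_nonneg hR fun r hr =>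
    div_nonneg (sq_nonneg _) (le_trans hr₂0.le hr.1)
  have hf2 : ∀ r, 0 ≤ r → f r ^ 2 = qq F r ^ (2 * μ) * φ r ^ 2 := by
    intro r hr
    rw [hfφ r hr, mul_pow, ← pow_mul, mul_comm μ 2]
  -- the four integrals
  have E1 : ∫ r in Ioi (0 : ℝ), qq F r ^ (2 * μ) * deriv φ r ^ 2 * r = D1 + D2 := by
    rw [hD1, hD2, intervalIntegral.integral_add_adjacent_intervals
      (hcP.intervalIntegrable _ _) (hcP.intervalIntegrable _ _)]
    refine w8_red (G := w8_P μ F φ) ha0 haR ?_ ?_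
    · intro r hr
      simp only [w8_P]
      rw [hφ'0 r hr]
      ring
    · intro r hr
      simp only [w8_P]
      rw [(hRsupp r hr).2]
      ring
  have hNPi : ∀ s t : ℝ, IntervalIntegrable (fun r => NP μ F r * φ r ^ 2) volume s t := by
    intro s t
    apply Continuous.intervalIntegrable
    fun_prop
  have E2 : ∫ r in Ioi (0 : ℝ), NP μ F r * φ r ^ 2 =
      (∫ r in (0.92 * ρ)..r₂, NP μ F r * φ r ^ 2) + ∫ r in r₂..R, NP μ F r * φ r ^ 2 := by
    rw [w8_red (G := fun r => NP μ F r * φ r ^ 2) ha0 haR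
      (fun r hr => by rw [hφ0 r hr]; ring)
      (fun r hr => by rw [(hRsupp r hr).1]; ring),
      ← intervalIntegral.integral_add_adjacent_intervals (hNPi _ r₂) (hNPi r₂ _)]
  have hKi : ∀ s t : ℝ, 0 < s → s ≤ t →
      IntervalIntegrable (fun r => qq F r ^ (2 * μ) * (φ r ^ 2 / r)) volume s t := by
    intro s t hs hst
    apply ContinuousOn.intervalIntegrable
    rw [uIcc_of_le hst]
    refine ContinuousOn.mul (by fun_prop) (ContinuousOn.div (by fun_prop) continuousOn_id ?_)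
    intro r hr
    exact (lt_of_lt_of_le hs hr.1).ne'
  have E3 : ∫ r in Ioi (0 : ℝ), f r ^ 2 / r =
      (∫ r in (0.92 * ρ)..r₂, qq F r ^ (2 * μ) * (φ r ^ 2 / r)) +
        ∫ r in r₂..R, qq F r ^ (2 * μ) * (φ r ^ 2 / r) := by
    have e1 : ∫ r in Ioi (0 : ℝ), f r ^ 2 / r =
        ∫ r in Ioi (0 : ℝ), qq F r ^ (2 * μ) * (φ r ^ 2 / r) := by
      apply setIntegral_congr_fun measurableSet_Ioi
      intro r hr
      have hr0 : (0 : ℝ) ≤ r := le_of_lt hr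
      simp only
      rw [hf2 r hr0]; ring
    rw [e1, w8_red (G := fun r => qq F r ^ (2 * μ) * (φ r ^ 2 / r)) ha0 haR
      (fun r hr => by rw [hφ0 r hr]; simp)
      (fun r hr => by rw [(hRsupp r hr).1]; simp),
      ← intervalIntegral.integral_add_adjacent_intervals
        (hKi _ _ (by linarith only [hρ]) har₂) (hKi _ _ hr₂0 hR)]
  -- (a) the inner `NP` integral
  have hNPint : ∫ r in (0.92 * ρ)..r₂, NP μ F r ≤ κ + δ := by
    have e : ∫ r in (0.92 * ρ)..r₂, NP μ F r =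
        ∫ r in Ioo (0.92 * ρ) (ρ + 20 * Real.log ρ), NP μ F r := by
      rw [intervalIntegral.integral_of_le har₂, integral_Ioc_eq_integral_Ioo, hr₂def]
    rw [e]
    have := (abs_le.mp hkap).2
    linarith only [this]
  have F1 : ∫ r in (0.92 * ρ)..r₂, NP μ F r * φ r ^ 2 ≤ b ^ 2 * (κ + 2 * δ) + D1 / 2 := by
    have h1 := w10_NP_in h hμ hφ hr₂ hr₂1 hη0
    rw [← hD1, ← hb] at h1
    have h2 : η * (1700 * (μ : ℝ) ^ 2) = δ := by
      rw [hη]; field_simp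
    rw [h2] at h1
    have h3 : (1 + 1 / η) * (D1 * (7000 * μ ^ 2 * 4 ^ μ * ((r₂ - ρ) / ρ))) ≤ D1 / 2 := by
      have e : (1 + 1 / η) * (D1 * (7000 * μ ^ 2 * 4 ^ μ * ((r₂ - ρ) / ρ))) =
          D1 * (A * (20 * Real.log ρ / ρ)) := by
        rw [hA, hr₂def]; ring
      rw [e]
      calc D1 * (A * (20 * Real.log ρ / ρ)) ≤ D1 * (1 / 2) := mul_le_mul_of_nonneg_left L3 hD10
        _ = D1 / 2 := by ring
    have h4 : b ^ 2 * ((∫ r in (0.92 * ρ)..r₂, NP μ F r) + δ) ≤ b ^ 2 * (κ + 2 * δ) :=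
      mul_le_mul_of_nonneg_left (by linarith only [hNPint]) (sq_nonneg _)
    linarith only [h1, h3, h4]
  -- (b) the outer `NP` integral
  have F2 : ∫ r in r₂..R, NP μ F r * φ r ^ 2 ≤ s * I := by
    rw [hI, ← intervalIntegral.integral_const_mul]
    refine intervalIntegral.integral_mono_on hR (hNPi _ _)
      ((w10_div_int hcφ hr₂0 hR).const_mul _) ?_
    intro r hr
    have hra := hr.1
    have hr0 : 0 < r := by linarith only [L2, hra, hr₂def, hρ]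
    have h1 := w10_NP_far h hμ hlog0 L1 (r := r) (by rw [← hr₂def]; exact hra)
    have h2 : NP μ F r * r ≤ s := h1.trans L4
    calc NP μ F r * φ r ^ 2 = (NP μ F r * r) * (φ r ^ 2 / r) := by field_simp
      _ ≤ s * (φ r ^ 2 / r) := mul_le_mul_of_nonneg_right h2 (by positivity)
  -- (c) the outer energy
  have hBρ0 : 0 ≤ 128000 * (μ : ℝ) / ρ := by positivity
  set K2 := ∫ r in r₂..R, qq F r ^ (2 * μ) * (φ r ^ 2 / r) with hK2
  have F3 : (k' - δ) * b ^ 2 + 2 * s * I ≤ D2 + k ^ 2 * K2 := by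
    have h1 := w10_hardy_out hφ hr₂0 hR hφR k k'
    rw [← hb, ← hI] at h1
    set J := ∫ r in r₂..R, (deriv φ r ^ 2 * r + (k : ℝ) ^ 2 * (φ r ^ 2 / r)) with hJ
    have hJ0 : 0 ≤ J := intervalIntegral.integral_nonneg hR fun r hr => by
      have hr0 : 0 < r := lt_of_lt_of_le hr₂0 hr.1
      (clear * - hr0; positivity)
    have hi3 : IntervalIntegrable (fun r => deriv φ r ^ 2 * r) volume r₂ R := by
      apply Continuous.intervalIntegrable; fun_prop
    have h2 : (1 - 128000 * μ / ρ) * J ≤ D2 + k ^ 2 * K2 := by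
      rw [hJ, hD2, hK2, ← intervalIntegral.integral_const_mul,
        ← intervalIntegral.integral_const_mul,
        ← intervalIntegral.integral_add (hcP.intervalIntegrable _ _) ((hKi _ _ hr₂0 hR).const_mul _)]
      refine intervalIntegral.integral_mono_on hR
        ((hi3.add ((w10_div_int hcφ hr₂0 hR).const_mul _)).const_mul _)
        ((hcP.intervalIntegrable _ _).add ((hKi _ _ hr₂0 hR).const_mul _)) ?_
      intro r hr
      have hra := hr.1
      have hr0 : 0 < r := by linarith only [L2, hra, hr₂def, hρ]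
      have h3 := w10_q_far (μ := μ) h hlog0 L1 (r := r) (by rw [← hr₂def]; exact hra)
      have h4 : 1 - 128000 * μ / ρ ≤ qq F r ^ (2 * μ) := by
        refine le_trans ?_ h3
        have : 2 * (μ : ℝ) / ρ ≤ 128000 * μ / ρ :=
          div_le_div_of_nonneg_right (by linarith only [hμR]) hρ0.le
        linarith only [this]
      calc (1 - 128000 * μ / ρ) * (deriv φ r ^ 2 * r + (k : ℝ) ^ 2 * (φ r ^ 2 / r))
          ≤ qq F r ^ (2 * μ) * (deriv φ r ^ 2 * r + (k : ℝ) ^ 2 * (φ r ^ 2 / r)) :=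
            mul_le_mul_of_nonneg_right h4 (by (clear * - hr0; positivity))
        _ = w8_P μ F φ r + (k : ℝ) ^ 2 * (qq F r ^ (2 * μ) * (φ r ^ 2 / r)) := by
            simp only [w8_P]; ring
    have h5 : (1 - 128000 * μ / ρ) * (k' * b ^ 2 + ((k : ℝ) ^ 2 - k' ^ 2) * I) ≤
        (1 - 128000 * μ / ρ) * J := mul_le_mul_of_nonneg_left h1 (by linarith only [L5])
    have h6 : (k' - δ) * b ^ 2 ≤ (1 - 128000 * μ / ρ) * k' * b ^ 2 := by
      refine mul_le_mul_of_nonneg_right ?_ (sq_nonneg _)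
      have h7 : 128000 * μ / ρ * k' ≤ 128000 * μ / ρ * k := mul_le_mul_of_nonneg_left hk'k hBρ0
      linarith only [L6, h7]
    have h8 : 2 * s * I ≤ (1 - 128000 * μ / ρ) * ((k : ℝ) ^ 2 - k' ^ 2) * I := by
      refine mul_le_mul_of_nonneg_right ?_ hI0
      have h9 : (1 / 2) * ((k : ℝ) ^ 2 - k' ^ 2) ≤
          (1 - 128000 * μ / ρ) * ((k : ℝ) ^ 2 - k' ^ 2) :=
        mul_le_mul_of_nonneg_right (by linarith only [L5]) hkk'.le
      rw [hs]
      linarith only [h9]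
    linarith only [h2, h5, h6, h8]
  -- (d) the target integrals
  have hK1 : 0 ≤ ∫ r in (0.92 * ρ)..r₂, qq F r ^ (2 * μ) * (φ r ^ 2 / r) :=
    intervalIntegral.integral_nonneg har₂ fun r hr => by
      have hr0 : 0 < r := by have := hr.1; linarith only [hρ, this]
      have := w8_q_pos h hr0.le
      (clear * - hr0 this; positivity)
  have T1 : (ρ ^ 2)⁻¹ * (∫ r in Ioi (0 : ℝ), wgt ρ r * f r ^ 2 * r) ≤
      8 * b ^ 2 + 16 * D1 + I := by
    have e1 : ∫ r in Ioi (0 : ℝ), wgt ρ r * f r ^ 2 * r =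
        ∫ r in Ioi (0 : ℝ), wgt ρ r * (qq F r ^ (2 * μ) * φ r ^ 2 * r) := by
      apply setIntegral_congr_fun measurableSet_Ioi
      intro r hr
      have hr0 : (0 : ℝ) ≤ r := le_of_lt hr
      simp only
      rw [hf2 r hr0]; ring
    rw [e1, w8_red (G := fun r => wgt ρ r * (qq F r ^ (2 * μ) * φ r ^ 2 * r)) ha0 haR
      (fun r hr => by rw [hφ0 r hr]; ring)
      (fun r hr => by rw [(hRsupp r hr).1]; ring),
      ← intervalIntegral.integral_add_adjacent_intervals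
        (w8_wgt_int h hφ (by linarith only [hρ]) har₂) (w8_wgt_int h hφ hr₂0 hR)]
    have h1 := w10_T1_in (μ := μ) h hφ hr₂ hr₂'
    have h2 := w10_T1_out (μ := μ) h hφ hr₂ hR
    rw [← hD1, ← hb] at h1
    rw [← hI] at h2
    calc (ρ ^ 2)⁻¹ * _ ≤ (ρ ^ 2)⁻¹ * ((8 * b ^ 2 + 16 * D1) * ρ ^ 2 + ρ ^ 2 * I) :=
          mul_le_mul_of_nonneg_left (add_le_add h1 h2) (by positivity)
      _ = 8 * b ^ 2 + 16 * D1 + I := by field_simp
  have T2 : ∫ r in Ioo 0 (0.96 * ρ), f r ^ 2 * r ≤ 516 * D1 + 4 * b ^ 2 := by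
    have e1 : ∫ r in Ioo 0 (0.96 * ρ), f r ^ 2 * r =
        ∫ r in (0.92 * ρ)..(0.96 * ρ), qq F r ^ (2 * μ) * φ r ^ 2 * r := by
      rw [intervalIntegral.integral_of_le (by linarith only [hρ]), integral_Ioc_eq_integral_Ioo,
        setIntegral_eq_of_subset_of_forall_sdiff_eq_zero measurableSet_Ioo
        (s := Ioo (0.92 * ρ) (0.96 * ρ)) (fun x hx => ⟨lt_of_le_of_lt ha0 hx.1, hx.2⟩)]
      · apply setIntegral_congr_fun measurableSet_Ioo
        intro r hr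
        have hr0 : (0 : ℝ) ≤ r := le_trans ha0 hr.1.le
        simp only
        rw [hf2 r hr0]
      · intro r hr
        have : r ≤ 0.92 * ρ := by
          by_contra hcon
          exact hr.2 ⟨not_le.mp hcon, hr.1.2⟩
        rw [h0 r this]
        ring
    rw [e1]
    have h1 := w10_T2 (μ := μ) h hμ hφ L7
    have h2 : ∫ r in (0.92 * ρ)..ρ, w8_P μ F φ r ≤ D1 :=
      w8_P_mono (R := r₂) h hφ le_rfl (by linarith only [hρ]) hr₂
    have h3 := w10_cs_out (μ := μ) h hφ (le_refl ρ) hr₂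
    rw [← hb] at h3
    have h4 : ∫ x in ρ..r₂, w8_P μ F φ x ≤ D1 :=
      w8_P_mono (R := r₂) h hφ (by linarith only [hρ]) hr₂ le_rfl
    have h5 : 4 ^ μ / ρ * (r₂ - ρ) ≤ 1 := by
      have e : 4 ^ μ / ρ * (r₂ - ρ) = 4 ^ μ * (20 * Real.log ρ / ρ) := by rw [hr₂def]; ring
      rw [e]
      have h6 : (4 : ℝ) ^ μ ≤ A := by
        rw [hA]
        have h7 : (1 : ℝ) ≤ 1 + 1 / η := by
          have : 0 < 1 / η := by positivity
          linarith only [this]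
        have h8 : (4 : ℝ) ^ μ ≤ 7000 * μ ^ 2 * 4 ^ μ := by
          have h9' : (1 : ℝ) ≤ (μ : ℝ) ^ 2 := one_le_pow₀ hμR
          have h9 : (1 : ℝ) ≤ 7000 * (μ : ℝ) ^ 2 := by linarith only [h9']
          calc (4 : ℝ) ^ μ = 1 * 4 ^ μ := (one_mul _).symm
            _ ≤ 7000 * μ ^ 2 * 4 ^ μ := mul_le_mul_of_nonneg_right h9 (by positivity)
        calc (4 : ℝ) ^ μ ≤ 7000 * μ ^ 2 * 4 ^ μ := h8
          _ = 1 * (7000 * μ ^ 2 * 4 ^ μ) := (one_mul _).symm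
          _ ≤ _ := mul_le_mul_of_nonneg_right h7 (by positivity)
      have h10 : 0 ≤ 20 * Real.log ρ / ρ := by positivity
      calc 4 ^ μ * (20 * Real.log ρ / ρ) ≤ A * (20 * Real.log ρ / ρ) :=
            mul_le_mul_of_nonneg_right h6 h10
        _ ≤ 1 := by linarith only [L3]
    have h6 : (b - φ ρ) ^ 2 ≤ D1 * 1 := by
      refine h3.trans (mul_le_mul h4 h5 ?_ hD10)
      have : 0 ≤ r₂ - ρ := by linarith only [L2, hr₂def]
      positivity
    have h7 : φ ρ ^ 2 ≤ 2 * b ^ 2 + 2 * (b - φ ρ) ^ 2 := w10_sq_aux _ _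
    linarith only [h1, h2, h6, h7]
  -- (e) conclusion
  rw [hgs, E1, E2, E3]
  set c := min (1 / 1064) (min (g / 32) s) with hcdef
  have hc1 : c ≤ 1 / 1064 := min_le_left _ _
  have hc2 : c ≤ g / 32 := (min_le_right _ _).trans (min_le_left _ _)
  have hc3 : c ≤ s := (min_le_right _ _).trans (min_le_right _ _)
  have hc0 : 0 < c := by rw [hcdef]; positivity
  have hlhs : c * (ρ ^ 2)⁻¹ * (∫ r in Ioi (0 : ℝ), wgt ρ r * f r ^ 2 * r)
        + c * (∫ r in Ioo 0 (0.96 * ρ), f r ^ 2 * r) ≤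
      c * (532 * D1) + c * (12 * b ^ 2) + c * I := by
    rw [mul_assoc]
    have := mul_le_mul_of_nonneg_left (add_le_add T1 T2) hc0.le
    linarith only [this]
  have g1 : c * (532 * D1) ≤ D1 / 2 := by
    have := mul_le_mul_of_nonneg_right hc1 hD10
    linarith only [this]
  have g2 : c * (12 * b ^ 2) ≤ 9 * g / 16 * b ^ 2 := by
    have e1 := mul_le_mul_of_nonneg_right hc2 (sq_nonneg b)
    have e2 := mul_nonneg hg0.le (sq_nonneg b)
    linarith only [e1, e2]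
  have g3 : c * I ≤ s * I := mul_le_mul_of_nonneg_right hc3 hI0
  have g4 : (k' - δ) * b ^ 2 - b ^ 2 * (κ + 2 * δ) = 9 * g / 16 * b ^ 2 := by
    rw [hk', hδ, hg]; ring
  have g5 : 0 ≤ (k : ℝ) ^ 2 * ∫ r in (0.92 * ρ)..r₂, qq F r ^ (2 * μ) * (φ r ^ 2 / r) := by
    (clear * - hK1; positivity)
  linarith only [F1, F2, F3, g1, g2, g3, g4, g5, hlhs]

end Pool.MP_ad5d82_an.Wl
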