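import Pool.Agent.Lib.MP_ad5d82_an.h24.WDefs
import Pool.Agent.Lib.MP_ad5d82_an.h24.W.W5
import Pool.Agent.Lib.MP_ad5d82_an.h24.W.W7
import Pool.Agent.Lib.MP_ad5d82_an.h24.W.W8a

set_option autoImplicit false

namespace Pool.MP_ad5d82_an.Wl

open Real Set MeasureTheory
open scoped ContDiff

/-! ### W8 constrained modes -/

section main
variable {ρ ε : ℝ} {F : ℝ → ℝ} {μ : ℕ} {φ : ℝ → ℝ} {r₁ R : ℝ}

private theorem w8_contOn (h : Wall ρ ε F) (k : ℕ) (s : Set ℝ) :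
    ContinuousOn (fun t => qq F t ^ k * t) s :=
  (((w8_cont_q h).pow k).mul continuous_id).continuousOn

private theorem w8_fin {a D M ρ I : ℝ} (ha : 0 ≤ a) (hD : 0 ≤ D) (hM : 0 ≤ M) (hρ : 0 < ρ)
    (hI : I ≤ 1 / 39) :
    (a * (D * (M * (2 / ρ))) * 5120000) * I ≤ D * (300000 * a * M / ρ) := by
  have e1 : 0 ≤ a * (D * (M * (2 / ρ))) * 5120000 := by positivity
  have e2 : 0 ≤ D * (a * M / ρ) := by positivity
  have e3 := mul_le_mul_of_nonneg_left hI e1
  have e4 : (a * (D * (M * (2 / ρ))) * 5120000) * (1 / 39) =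
      (D * (a * M / ρ)) * (2 * 5120000 / 39) := by ring
  have e5 : (D * (a * M / ρ)) * (2 * 5120000 / 39) ≤ (D * (a * M / ρ)) * 300000 :=
    mul_le_mul_of_nonneg_left (by norm_num) e2
  have e6 : (D * (a * M / ρ)) * 300000 = D * (300000 * a * M / ρ) := by ring
  rw [e4] at e3
  rw [e6] at e5
  exact e3.trans e5

private theorem w8_key {y m d S X : ℝ} (hm : 0 ≤ m) (hS1 : 1 ≤ S) (hyS : y ≤ (S ^ 18)⁻¹)
    (h8 : 8 + 2 * m ≤ 80 * S) (hrr : d ≤ 40 * S) (hrr0 : 0 ≤ d)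
    (hinv : (S ^ 2)⁻¹ ≤ 1600 * X) : y * (8 + 2 * m) * d ≤ 5120000 * X := by
  have hS0 : 0 < S := by linarith
  calc y * (8 + 2 * m) * d ≤ (S ^ 18)⁻¹ * (80 * S) * (40 * S) := by
        refine mul_le_mul (mul_le_mul hyS h8 (by positivity) (by positivity)) hrr hrr0
          (by positivity)
    _ = 3200 * (S ^ 16)⁻¹ := by
        field_simp
        ring
    _ ≤ 3200 * (S ^ 2)⁻¹ := by
        refine mul_le_mul_of_nonneg_left ?_ (by norm_num)
        exact inv_anti₀ (by positivity) (pow_le_pow_right₀ hS1 (by norm_num))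
    _ ≤ 3200 * (1600 * X) := mul_le_mul_of_nonneg_left hinv (by norm_num)
    _ = 5120000 * X := by ring

private theorem w8_inv {t S : ℝ} (h40 : 0 < 40 + t) (h10 : 40 + t ≤ 40 * S) :
    (S ^ 2)⁻¹ ≤ 1600 * ((40 + t) ^ 2)⁻¹ := by
  have h9 : (40 + t) ^ 2 ≤ 1600 * S ^ 2 := by
    calc (40 + t) ^ 2 ≤ (40 * S) ^ 2 := pow_le_pow_left₀ h40.le h10 2
      _ = 1600 * S ^ 2 := by ring
  have h11 : (1600 * S ^ 2)⁻¹ ≤ ((40 + t) ^ 2)⁻¹ := inv_anti₀ (by positivity) h9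
  rw [mul_inv] at h11
  have : (S ^ 2)⁻¹ = 1600 * (1600⁻¹ * (S ^ 2)⁻¹) := by ring
  rw [this]
  exact mul_le_mul_of_nonneg_left h11 (by norm_num)

private theorem w8_pt {np a y q m q2 D K d p : ℝ} (ha : 0 ≤ a) (hy : 0 ≤ y) (hm : 0 ≤ m)
    (hq1 : q ≤ 1) (hq20 : 0 ≤ q2) (hq2 : q2 ≤ 1) (hD : 0 ≤ D) (hK : 0 ≤ K) {X : ℝ}
    (hNP : np ≤ a * y * q * (8 + 2 * m) * q2) (hout : p ^ 2 ≤ D * (K * d)) (hd : 0 ≤ d)
    (hkey : y * (8 + 2 * m) * d ≤ 5120000 * X) :
    np * p ^ 2 ≤ (a * (D * K) * 5120000) * X := by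
  calc np * p ^ 2 ≤ (a * y * q * (8 + 2 * m) * q2) * p ^ 2 :=
        mul_le_mul_of_nonneg_right hNP (sq_nonneg _)
    _ ≤ (a * y * 1 * (8 + 2 * m) * 1) * (D * (K * d)) := by
        refine mul_le_mul ?_ hout (sq_nonneg _) (by positivity)
        refine mul_le_mul ?_ hq2 hq20 (by positivity)
        refine mul_le_mul_of_nonneg_right ?_ (by positivity)
        exact mul_le_mul_of_nonneg_left hq1 (by positivity)
    _ = (a * (D * K)) * (y * (8 + 2 * m) * d) := by ring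
    _ ≤ (a * (D * K)) * (5120000 * X) := mul_le_mul_of_nonneg_left hkey (by positivity)
    _ = _ := by ring

private theorem w8_int {ρ r₁ R : ℝ} (hr₁1 : ρ - 1 ≤ r₁) (hR : r₁ ≤ R) :
    ContinuousOn (fun r => ((40 + (r - ρ)) ^ 2)⁻¹) (uIcc r₁ R) ∧
    ∫ r in r₁..R, ((40 + (r - ρ)) ^ 2)⁻¹ ≤ 1 / 39 := by
  have hcontInv : ContinuousOn (fun r => ((40 + (r - ρ)) ^ 2)⁻¹) (uIcc r₁ R) := by
    rw [uIcc_of_le hR]
    refine ContinuousOn.inv₀
      (((continuous_const.add (continuous_id.sub continuous_const)).pow 2).continuousOn) ?_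
    intro r hr
    have : 0 < 40 + (r - ρ) := by have := hr.1; linarith
    positivity
  refine ⟨hcontInv, ?_⟩
  have h7 : ∀ x ∈ uIcc r₁ R, HasDerivAt (fun x => -(40 + (x - ρ))⁻¹)
      (((40 + (x - ρ)) ^ 2)⁻¹) x := by
    intro x hx
    rw [uIcc_of_le hR] at hx
    have h40 : 0 < 40 + (x - ρ) := by have := hx.1; linarith
    have h2 : HasDerivAt (fun x : ℝ => 40 + (x - ρ)) 1 x :=
      ((hasDerivAt_id x).sub_const ρ).const_add 40
    have h3 := (h2.inv h40.ne').neg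
    have e : -(-1 / (40 + (x - ρ)) ^ 2) = ((40 + (x - ρ)) ^ 2)⁻¹ := by
      rw [neg_div, neg_neg, one_div]
    rw [e] at h3
    exact h3
  rw [intervalIntegral.integral_eq_sub_of_hasDerivAt h7 hcontInv.intervalIntegrable]
  have h8 : 0 < (40 + (R - ρ))⁻¹ := by
    have : 0 < 40 + (R - ρ) := by linarith
    positivity
  have h9 : (40 + (r₁ - ρ))⁻¹ ≤ 1 / 39 := by
    rw [one_div]
    have h10 : (39 : ℝ) ≤ 40 + (r₁ - ρ) := by linarith
    exact inv_anti₀ (by norm_num) h10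
  linarith

/-- outer pointwise bound -/
theorem w8_outer (h : Wall ρ ε F) (hφ : ContDiff ℝ 1 φ) (hr₁ : r₁ ∈ Icc (ρ - 1) (ρ + 1))
    (h1 : φ r₁ = 0) {r : ℝ} (hr : r₁ ≤ r) (hrR : r ≤ R) :
    φ r ^ 2 ≤ (∫ r in (0.92 * ρ)..R, w8_P μ F φ r) * (6 ^ (2 * μ) * (2 / ρ) * (r - r₁)) := by
  have hρ := h.hρ
  have hr₁' := hr₁.1
  have hcs := w8_cs hr (g := deriv φ) (w := fun t => qq F t ^ (2 * μ) * t)
    (hφ.continuous_deriv le_rfl) (w8_contOn h (2 * μ) _) (by
      intro t ht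
      have ht0 : 0 < t := by have := ht.1; linarith
      have := w8_q_pos h ht0.le
      positivity)
  rw [w8_ftc hφ, h1, sub_zero] at hcs
  have e1 : ∫ t in r₁..r, deriv φ t ^ 2 * (qq F t ^ (2 * μ) * t) =
      ∫ t in r₁..r, w8_P μ F φ t := by
    apply intervalIntegral.integral_congr
    intro t _
    simp only [w8_P]; ring
  rw [e1] at hcs
  have hA := w8_P_mono (μ := μ) h hφ (s := r₁) (t := r) (R := R) (by linarith) hr hrR
  have hA0 : 0 ≤ ∫ t in r₁..r, w8_P μ F φ t :=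
    intervalIntegral.integral_nonneg hr fun t ht =>
      w8_P_nonneg h (by have := ht.1; linarith)
  have hM : ∫ t in r₁..r, (qq F t ^ (2 * μ) * t)⁻¹ ≤ 6 ^ (2 * μ) * (2 / ρ) * (r - r₁) := by
    have hb : ∀ t ∈ Icc r₁ r, (qq F t ^ (2 * μ) * t)⁻¹ ≤ 6 ^ (2 * μ) * (2 / ρ) := by
      intro t ht
      have ht1 := ht.1
      have hq := w8_q_ge h (r := t) (by linarith)
      have hq2 : (1 / 6 : ℝ) ^ (2 * μ) ≤ qq F t ^ (2 * μ) := pow_le_pow_left₀ (by norm_num) hq _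
      have h3 : (1 / 6 : ℝ) ^ (2 * μ) * (ρ / 2) ≤ qq F t ^ (2 * μ) * t :=
        mul_le_mul hq2 (by linarith) (by linarith) (by positivity)
      have h4 : (6 : ℝ) ^ (2 * μ) * (2 / ρ) = ((1 / 6 : ℝ) ^ (2 * μ) * (ρ / 2))⁻¹ := by
        rw [mul_inv, inv_div, one_div, inv_pow, inv_inv]
      rw [h4]
      exact inv_anti₀ (by positivity) h3
    have hi : IntervalIntegrable (fun t => (qq F t ^ (2 * μ) * t)⁻¹) volume r₁ r := by
      apply ContinuousOn.intervalIntegrable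
      rw [uIcc_of_le hr]
      refine ContinuousOn.inv₀ ?_ ?_
      · exact w8_contOn h (2 * μ) _
      · intro t ht
        have ht0 : 0 < t := by have := ht.1; linarith
        have := w8_q_pos h ht0.le
        positivity
    have h5 := intervalIntegral.integral_mono_on hr hi
      (intervalIntegrable_const (c := 6 ^ (2 * μ) * (2 / ρ))) hb
    rw [intervalIntegral.integral_const, smul_eq_mul] at h5
    linarith
  have hM0 : 0 ≤ 6 ^ (2 * μ) * (2 / ρ) * (r - r₁) := by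
    have : 0 ≤ r - r₁ := by linarith
    have : 0 < ρ := by linarith
    positivity
  calc φ r ^ 2 ≤ (∫ t in r₁..r, w8_P μ F φ t) * ∫ t in r₁..r, (qq F t ^ (2 * μ) * t)⁻¹ := hcs
    _ ≤ (∫ t in r₁..r, w8_P μ F φ t) * (6 ^ (2 * μ) * (2 / ρ) * (r - r₁)) :=
        mul_le_mul_of_nonneg_left hM hA0
    _ ≤ _ := mul_le_mul_of_nonneg_right hA hM0

theorem w8_exp_int (r t : ℝ) : ∫ x in r..t, exp (-0.4 * (x - r)) ≤ 2.5 := by
  have h1 : ∀ x ∈ uIcc r t, HasDerivAt (fun x => -2.5 * exp (-0.4 * (x - r)))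
      (exp (-0.4 * (x - r))) x := by
    intro x _
    have h2 : HasDerivAt (fun x : ℝ => -0.4 * (x - r)) (-0.4) x := by
      simpa using ((hasDerivAt_id x).sub_const r).const_mul (-0.4 : ℝ)
    have h3 := (h2.exp).const_mul (-2.5 : ℝ)
    have e : (-2.5 : ℝ) * (exp (-0.4 * (x - r)) * -0.4) = exp (-0.4 * (x - r)) := by
      ring
    rw [e] at h3
    exact h3
  rw [intervalIntegral.integral_eq_sub_of_hasDerivAt h1
    ((by fun_prop : Continuous fun x => exp (-0.4 * (x - r))).intervalIntegrable _ _)]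
  have h2 : (-0.4 : ℝ) * (r - r) = 0 := by ring
  rw [h2, exp_zero]
  have := exp_pos (-0.4 * (t - r))
  linarith

/-- inner pointwise bound -/
theorem w8_inner (h : Wall ρ ε F) (hμ : 1 ≤ μ) (hφ : ContDiff ℝ 1 φ)
    (hr₁ : r₁ ∈ Icc (ρ - 1) (ρ + 1))
    (h1 : φ r₁ = 0) {r : ℝ} (hr : 0.92 * ρ ≤ r) (hr' : r ≤ r₁) (hR : r₁ ≤ R) :
    qq F r ^ (2 * μ) * φ r ^ 2 ≤
      (∫ r in (0.92 * ρ)..R, w8_P μ F φ r) * (3 * exp 0.4 ^ (2 * μ) / ρ) := by
  have hρ := h.hρ
  have hr0 : 0 < r := by linarith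
  have hqr := w8_q_pos h hr0.le
  have hcs := w8_cs hr' (g := deriv φ) (w := fun t => qq F t ^ (2 * μ) * t)
    (hφ.continuous_deriv le_rfl) (w8_contOn h (2 * μ) _) (by
      intro t ht
      have ht0 : 0 < t := by have := ht.1; linarith
      have := w8_q_pos h ht0.le
      positivity)
  rw [w8_ftc hφ, h1, zero_sub, neg_sq] at hcs
  have e1 : ∫ t in r..r₁, deriv φ t ^ 2 * (qq F t ^ (2 * μ) * t) =
      ∫ t in r..r₁, w8_P μ F φ t := by
    apply intervalIntegral.integral_congr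
    intro t _
    simp only [w8_P]; ring
  rw [e1] at hcs
  have hA := w8_P_mono (μ := μ) h hφ (s := r) (t := r₁) (R := R) hr hr' hR
  have hA0 : 0 ≤ ∫ t in r..r₁, w8_P μ F φ t :=
    intervalIntegral.integral_nonneg hr' fun t ht =>
      w8_P_nonneg h (by have := ht.1; linarith)
  have hM : qq F r ^ (2 * μ) * ∫ t in r..r₁, (qq F t ^ (2 * μ) * t)⁻¹ ≤
      3 * exp 0.4 ^ (2 * μ) / ρ := by
    rw [← intervalIntegral.integral_const_mul]
    have hb : ∀ t ∈ Icc r r₁, qq F r ^ (2 * μ) * (qq F t ^ (2 * μ) * t)⁻¹ ≤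
        exp 0.4 ^ (2 * μ) * (0.92 * ρ)⁻¹ * exp (-0.4 * (t - r)) := by
      intro t ht
      have ht1 := ht.1
      have ht2 := ht.2
      have hr₁2 := hr₁.2
      have ht0 : 0 < t := by linarith
      have hqt := w8_q_pos h ht0.le
      have h2 := w8_q_inner h (r := r) (t := t) (by linarith) ht1 (by linarith)
      have h3 : qq F r ^ (2 * μ) ≤
          exp 0.4 ^ (2 * μ) * (qq F t ^ (2 * μ) * exp (-0.4 * (t - r)) ^ (2 * μ)) := by
        calc qq F r ^ (2 * μ) ≤ (exp 0.4 * (qq F t * exp (-0.4 * (t - r)))) ^ (2 * μ) :=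
              pow_le_pow_left₀ hqr.le h2 _
          _ = _ := by rw [mul_pow, mul_pow]
      have h4 : exp (-0.4 * (t - r)) ^ (2 * μ) ≤ exp (-0.4 * (t - r)) := by
        have h5 : exp (-0.4 * (t - r)) ≤ 1 := Real.exp_le_one_iff.mpr (by linarith)
        exact pow_le_of_le_one (exp_pos _).le h5 (by omega)
      have h6 : (qq F t ^ (2 * μ) * t)⁻¹ ≤ (qq F t ^ (2 * μ))⁻¹ * (0.92 * ρ)⁻¹ := by
        rw [← mul_inv]
        exact inv_anti₀ (by positivity) (mul_le_mul_of_nonneg_left (by linarith) (by positivity))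
      calc qq F r ^ (2 * μ) * (qq F t ^ (2 * μ) * t)⁻¹
          ≤ (exp 0.4 ^ (2 * μ) * (qq F t ^ (2 * μ) * exp (-0.4 * (t - r)))) *
            ((qq F t ^ (2 * μ))⁻¹ * (0.92 * ρ)⁻¹) := by
            refine mul_le_mul (h3.trans ?_) h6 (by positivity) (by positivity)
            exact mul_le_mul_of_nonneg_left (mul_le_mul_of_nonneg_left h4 (by positivity))
              (by positivity)
        _ = exp 0.4 ^ (2 * μ) * (0.92 * ρ)⁻¹ * exp (-0.4 * (t - r)) := by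
            have : qq F t ^ (2 * μ) ≠ 0 := by positivity
            field_simp
    have hi : IntervalIntegrable (fun t => qq F r ^ (2 * μ) * (qq F t ^ (2 * μ) * t)⁻¹)
        volume r r₁ := by
      apply ContinuousOn.intervalIntegrable
      rw [uIcc_of_le hr']
      refine continuousOn_const.mul (ContinuousOn.inv₀ ?_ ?_)
      · exact w8_contOn h (2 * μ) _
      · intro t ht
        have ht0 : 0 < t := by have := ht.1; linarith
        have := w8_q_pos h ht0.le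
        positivity
    have h5 := intervalIntegral.integral_mono_on hr' hi
      ((by fun_prop : Continuous fun t => exp 0.4 ^ (2 * μ) * (0.92 * ρ)⁻¹ *
        exp (-0.4 * (t - r))).intervalIntegrable _ _) hb
    rw [intervalIntegral.integral_const_mul (exp 0.4 ^ (2 * μ) * (0.92 * ρ)⁻¹)] at h5
    refine h5.trans ?_
    have h6 := w8_exp_int r r₁
    calc exp 0.4 ^ (2 * μ) * (0.92 * ρ)⁻¹ * ∫ x in r..r₁, exp (-0.4 * (x - r))
        ≤ exp 0.4 ^ (2 * μ) * (0.92 * ρ)⁻¹ * 2.5 :=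
          mul_le_mul_of_nonneg_left h6 (by positivity)
      _ ≤ 3 * exp 0.4 ^ (2 * μ) / ρ := by
          rw [div_eq_mul_inv, mul_inv]
          have h7 : 0 ≤ exp 0.4 ^ (2 * μ) * ρ⁻¹ := by positivity
          linarith
  calc qq F r ^ (2 * μ) * φ r ^ 2
      ≤ qq F r ^ (2 * μ) * ((∫ t in r..r₁, w8_P μ F φ t) *
          ∫ t in r..r₁, (qq F t ^ (2 * μ) * t)⁻¹) :=
        mul_le_mul_of_nonneg_left hcs (by positivity)
    _ = (∫ t in r..r₁, w8_P μ F φ t) * (qq F r ^ (2 * μ) *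
          ∫ t in r..r₁, (qq F t ^ (2 * μ) * t)⁻¹) := by ring
    _ ≤ (∫ t in r..r₁, w8_P μ F φ t) * (3 * exp 0.4 ^ (2 * μ) / ρ) :=
        mul_le_mul_of_nonneg_left hM hA0
    _ ≤ _ := mul_le_mul_of_nonneg_right hA (by positivity)

/-- inner part of the `NP` integral -/
theorem w8_NP_inner (h : Wall ρ ε F) (hμ : 1 ≤ μ) (hφ : ContDiff ℝ 1 φ)
    (hr₁ : r₁ ∈ Icc (ρ - 1) (ρ + 1)) (h1 : φ r₁ = 0) (hR : r₁ ≤ R) :
    ∫ r in (0.92 * ρ)..r₁, NP μ F r * φ r ^ 2 ≤
      (∫ r in (0.92 * ρ)..R, w8_P μ F φ r) * (120 * μ * exp 0.4 ^ (2 * μ) / ρ) := by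
  have hρ := h.hρ
  have hr₁1 := hr₁.1
  have hr₁2 := hr₁.2
  set D := ∫ r in (0.92 * ρ)..R, w8_P μ F φ r with hD
  have hD0 : 0 ≤ D := intervalIntegral.integral_nonneg (by linarith) fun t ht =>
      w8_P_nonneg h (by have := ht.1; linarith)
  have hab : 0.92 * ρ ≤ r₁ := by linarith
  have hb : ∀ r ∈ Icc (0.92 * ρ) r₁, NP μ F r * φ r ^ 2 ≤
      (10 * μ * (D * (3 * exp 0.4 ^ (2 * μ) / ρ))) * exp (0.4 * (r - ρ)) := by
    intro r hr
    have hra := hr.1
    have hrb := hr.2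
    have hr0 : 0 < r := by linarith
    have hq := w8_q_pos h hr0.le
    have hy := w8_y_pos (F := F) r
    have hy1 := w8_y_le h hr0.le
    have hin := w8_inner (R := R) h hμ hφ hr₁ h1 hra hrb hR
    rw [← hD] at hin
    have hqe := w8_q_exp h (r := r) (by linarith)
    have hmax : max (r - ρ) 0 ≤ 1 := max_le (by linarith) (by norm_num)
    have hmax0 : 0 ≤ max (r - ρ) 0 := le_max_right _ _
    have hNP := w8_NP_le h hμ hr0
    have hf0 : 0 ≤ qq F r ^ (2 * μ) * φ r ^ 2 := by positivity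
    calc NP μ F r * φ r ^ 2
        ≤ (μ * yy F r * qq F r * (8 + 2 * max (r - ρ) 0) * qq F r ^ (2 * μ)) * φ r ^ 2 :=
          mul_le_mul_of_nonneg_right hNP (sq_nonneg _)
      _ = (μ * yy F r * qq F r * (8 + 2 * max (r - ρ) 0)) * (qq F r ^ (2 * μ) * φ r ^ 2) := by
          ring
      _ ≤ (μ * 1 * exp (0.4 * (r - ρ)) * 10) * (D * (3 * exp 0.4 ^ (2 * μ) / ρ)) := by
          refine mul_le_mul ?_ hin hf0 (by positivity)
          refine mul_le_mul ?_ (by linarith) (by linarith) (by positivity)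
          refine mul_le_mul ?_ hqe hq.le (by positivity)
          exact mul_le_mul_of_nonneg_left hy1 (Nat.cast_nonneg _)
      _ = _ := by ring
  have hi1 : IntervalIntegrable (fun r => NP μ F r * φ r ^ 2) volume (0.92 * ρ) r₁ := by
    apply Continuous.intervalIntegrable
    have := w8_cont_NP h μ
    have := hφ.continuous
    fun_prop
  have h5 := intervalIntegral.integral_mono_on hab hi1
      ((by fun_prop : Continuous fun r => (10 * μ * (D * (3 * exp 0.4 ^ (2 * μ) / ρ))) *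
        exp (0.4 * (r - ρ))).intervalIntegrable _ _) hb
  refine h5.trans ?_
  rw [intervalIntegral.integral_const_mul]
  have h6 : ∫ r in (0.92 * ρ)..r₁, exp (0.4 * (r - ρ)) ≤ 4 := by
    have h7 : ∀ x ∈ uIcc (0.92 * ρ) r₁, HasDerivAt (fun x => 2.5 * exp (0.4 * (x - ρ)))
        (exp (0.4 * (x - ρ))) x := by
      intro x _
      have h2 : HasDerivAt (fun x : ℝ => 0.4 * (x - ρ)) 0.4 x := by
        simpa using ((hasDerivAt_id x).sub_const ρ).const_mul (0.4 : ℝ)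
      have h3 := (h2.exp).const_mul (2.5 : ℝ)
      have e : (2.5 : ℝ) * (exp (0.4 * (x - ρ)) * 0.4) = exp (0.4 * (x - ρ)) := by
        ring
      rw [e] at h3
      exact h3
    rw [intervalIntegral.integral_eq_sub_of_hasDerivAt h7
      ((by fun_prop : Continuous fun x => exp (0.4 * (x - ρ))).intervalIntegrable _ _)]
    have h8 : exp (0.4 * (r₁ - ρ)) ≤ 1.6 := by
      have h9 : exp (0.4 * (r₁ - ρ)) ≤ exp 0.4 := exp_le_exp.mpr (by linarith)
      have h10 : exp (0.4 : ℝ) ≤ 1.6 := by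
        have h11 : exp (0.4 : ℝ) ^ 5 = exp 1 ^ 2 := by
          rw [← exp_nat_mul, ← exp_nat_mul]; norm_num
        by_contra hcon
        rw [not_le] at hcon
        have h12 : (1.6 : ℝ) ^ 5 ≤ exp 0.4 ^ 5 := pow_le_pow_left₀ (by norm_num) hcon.le 5
        rw [h11] at h12
        have h13 := exp_one_lt_d9
        have h14 : exp 1 ^ 2 ≤ 2.7182818286 ^ 2 := pow_le_pow_left₀ (exp_pos 1).le h13.le 2
        norm_num at h12 h14
        linarith
      linarith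
    have h9 := exp_pos (0.4 * (0.92 * ρ - ρ))
    linarith
  calc (10 * μ * (D * (3 * exp 0.4 ^ (2 * μ) / ρ))) * ∫ r in (0.92 * ρ)..r₁, exp (0.4 * (r - ρ))
      ≤ (10 * μ * (D * (3 * exp 0.4 ^ (2 * μ) / ρ))) * 4 :=
        mul_le_mul_of_nonneg_left h6 (by positivity)
    _ = _ := by ring

/-- outer part of the `NP` integral -/
theorem w8_NP_outer (h : Wall ρ ε F) (hμ : 1 ≤ μ) (hφ : ContDiff ℝ 1 φ)
    (hr₁ : r₁ ∈ Icc (ρ - 1) (ρ + 1)) (h1 : φ r₁ = 0) (hR : r₁ ≤ R) :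
    ∫ r in r₁..R, NP μ F r * φ r ^ 2 ≤
      (∫ r in (0.92 * ρ)..R, w8_P μ F φ r) * (300000 * μ * 6 ^ (2 * μ) / ρ) := by
  have hρ := h.hρ
  have hr₁1 := hr₁.1
  have hr₁2 := hr₁.2
  set D := ∫ r in (0.92 * ρ)..R, w8_P μ F φ r with hD
  have hD0 : 0 ≤ D := intervalIntegral.integral_nonneg (by linarith) fun t ht =>
      w8_P_nonneg h (by have := ht.1; linarith)
  have hρ0 : 0 < ρ := by linarith
  have hK0 : 0 ≤ (6 : ℝ) ^ (2 * μ) * (2 / ρ) := by positivity
  have hb : ∀ r ∈ Icc r₁ R, NP μ F r * φ r ^ 2 ≤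
      (μ * (D * (6 ^ (2 * μ) * (2 / ρ))) * 5120000) * ((40 + (r - ρ)) ^ 2)⁻¹ := by
    intro r hr
    have hra := hr.1
    have hrb := hr.2
    have hr0 : 0 < r := by linarith
    have hq := w8_q_pos h hr0.le
    have hq1 := w8_q_lt (F := F) r
    have hy := w8_y_pos (F := F) r
    have hout := w8_outer (μ := μ) (R := R) h hφ hr₁ h1 hra hrb
    rw [← hD] at hout
    have hNP := w8_NP_le h hμ hr0
    set m := max (r - ρ) 0 with hm
    have hm0 : 0 ≤ m := le_max_right _ _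
    have hm1 : r - ρ ≤ m := le_max_left _ _
    set S := 1 + m / 40 with hS
    have hS1 : 1 ≤ S := by rw [hS]; linarith [div_nonneg hm0 (by norm_num : (0:ℝ) ≤ 40)]
    have hyS : yy F r ≤ (S ^ 18)⁻¹ := by
      rcases le_total r ρ with h2 | h2
      · have : m = 0 := by rw [hm]; exact max_eq_right (by linarith)
        rw [hS, this]
        simpa using w8_y_le h hr0.le
      · have : m = r - ρ := by rw [hm]; exact max_eq_left (by linarith)
        have h3 := y_out_pow h h2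
        rw [hS, this]
        have h4 : 0 ≤ ((1 + (r - ρ) / 40) ^ 18)⁻¹ := by
          have : 0 ≤ r - ρ := by linarith
          positivity
        linarith
    have h8 : 8 + 2 * m ≤ 80 * S := by rw [hS]; linarith
    have hrr : r - r₁ ≤ 40 * S := by rw [hS]; linarith
    have hrr0 : 0 ≤ r - r₁ := by linarith
    have hinv : (S ^ 2)⁻¹ ≤ 1600 * ((40 + (r - ρ)) ^ 2)⁻¹ := by
      have h40 : 0 < 40 + (r - ρ) := by linarith
      have h10 : 40 + (r - ρ) ≤ 40 * S := by rw [hS]; linarith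
      exact w8_inv h40 h10
    have hkey : yy F r * (8 + 2 * m) * (r - r₁) ≤ 5120000 * ((40 + (r - ρ)) ^ 2)⁻¹ :=
      w8_key hm0 hS1 hyS h8 hrr hrr0 hinv
    have hq2 : qq F r ^ (2 * μ) ≤ 1 := pow_le_one₀ hq.le hq1.le
    exact w8_pt (Nat.cast_nonneg μ) hy.le hm0 hq1.le (pow_nonneg hq.le _) hq2 hD0 hK0 hNP hout hrr0
      hkey
  have hi1 : IntervalIntegrable (fun r => NP μ F r * φ r ^ 2) volume r₁ R := by
    apply Continuous.intervalIntegrable
    have := w8_cont_NP h μ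
    have := hφ.continuous
    fun_prop
  obtain ⟨hcontInv, h6⟩ := w8_int hr₁1 hR
  have h5 := intervalIntegral.integral_mono_on hR hi1
      (hcontInv.intervalIntegrable.const_mul _) hb
  refine h5.trans ?_
  rw [intervalIntegral.integral_const_mul]
  exact w8_fin (Nat.cast_nonneg μ) hD0 (by positivity) hρ0 h6

/-- Hardy type inequality inside -/
theorem w8_hardy (h : Wall ρ ε F) (hμ : 1 ≤ μ) (hφ : ContDiff ℝ 1 φ)
    (h0 : φ (0.92 * ρ) = 0)
    (hr₁ : r₁ ∈ Icc (ρ - 1) (ρ + 1)) (h1 : φ r₁ = 0) (hR : r₁ ≤ R) :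
    ∫ r in (0.92 * ρ)..r₁, qq F r ^ (2 * μ) * φ r ^ 2 * r ≤
      256 * ∫ r in (0.92 * ρ)..R, w8_P μ F φ r := by
  have hρ := h.hρ
  have hr₁1 := hr₁.1
  have hr₁2 := hr₁.2
  have hab : 0.92 * ρ ≤ r₁ := by linarith
  have hcq := w8_cont_q h
  have hcy := w8_cont_y h
  have hcu := w8_cont_u h
  have hcφ := hφ.continuous
  have hcφ' := hφ.continuous_deriv le_rfl
  set G' : ℝ → ℝ := fun r => (2 * μ : ℕ) * qq F r ^ (2 * μ - 1) * (yy F r * uu F r) *
    (φ r ^ 2 * r) + qq F r ^ (2 * μ) * (2 * φ r * deriv φ r * r + φ r ^ 2) with hG'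
  have hderiv : ∀ r ∈ uIcc (0.92 * ρ) r₁,
      HasDerivAt (fun r => qq F r ^ (2 * μ) * (φ r ^ 2 * r)) (G' r) r := by
    intro r _
    have h2 := (hasDerivAt_q h r).pow (2 * μ)
    have h3 := (hφ.differentiable one_ne_zero r).hasDerivAt
    have h4 := (h3.pow 2).mul (hasDerivAt_id r)
    refine HasDerivAt.congr_deriv (f := fun r => qq F r ^ (2 * μ) * (φ r ^ 2 * r))
      (h2.mul h4) ?_
    simp only [hG', id, Pi.pow_apply]
    ring
  have hG'c : Continuous G' := by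
    rw [hG']
    fun_prop
  have hint := intervalIntegral.integral_eq_sub_of_hasDerivAt hderiv (hG'c.intervalIntegrable _ _)
  rw [h0, h1] at hint
  simp only [ne_eq, OfNat.ofNat_ne_zero, not_false_eq_true, zero_pow, zero_mul, mul_zero,
    sub_zero] at hint
  have hb : ∀ r ∈ Icc (0.92 * ρ) r₁,
      (1 / 16) * (qq F r ^ (2 * μ) * φ r ^ 2 * r) - 16 * w8_P μ F φ r ≤ G' r := by
    intro r hr
    have hra := hr.1
    have hrb := hr.2
    have hr0 : 0 < r := by linarith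
    have hq := w8_q_pos h hr0.le
    have hyu := w8_yu h hra (by linarith)
    have hμR : (1 : ℝ) ≤ μ := by exact_mod_cast hμ
    have e : qq F r ^ (2 * μ) = qq F r ^ (2 * μ - 1) * qq F r := by
      rw [← pow_succ]; congr 1; omega
    have h2 : (1 / 8) * qq F r ^ (2 * μ) ≤
        (2 * μ : ℕ) * qq F r ^ (2 * μ - 1) * (yy F r * uu F r) := by
      have h3 : (2 : ℝ) ≤ ((2 * μ : ℕ) : ℝ) := by push_cast; linarith
      calc (1 / 8) * qq F r ^ (2 * μ) = 2 * qq F r ^ (2 * μ - 1) * (qq F r / 16) := by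
            rw [e]; ring
        _ ≤ (2 * μ : ℕ) * qq F r ^ (2 * μ - 1) * (yy F r * uu F r) :=
            mul_le_mul (mul_le_mul_of_nonneg_right h3 (by positivity)) hyu (by positivity)
              (by positivity)
    have h4 : (1 / 8) * qq F r ^ (2 * μ) * (φ r ^ 2 * r) ≤
        (2 * μ : ℕ) * qq F r ^ (2 * μ - 1) * (yy F r * uu F r) * (φ r ^ 2 * r) :=
      mul_le_mul_of_nonneg_right h2 (by positivity)
    have h5 : 0 ≤ qq F r ^ (2 * μ) * r * (φ r / 4 + 4 * deriv φ r) ^ 2 := by positivity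
    have h6 : 0 ≤ qq F r ^ (2 * μ) * φ r ^ 2 := by positivity
    simp only [hG', w8_P]
    linarith
  have hi : IntervalIntegrable (fun r => (1 / 16) * (qq F r ^ (2 * μ) * φ r ^ 2 * r) -
      16 * w8_P μ F φ r) volume (0.92 * ρ) r₁ := by
    apply Continuous.intervalIntegrable
    have := w8_P_cont (μ := μ) h hφ
    fun_prop
  have h7 := intervalIntegral.integral_mono_on hab hi (hG'c.intervalIntegrable _ _) hb
  rw [hint, intervalIntegral.integral_sub, intervalIntegral.integral_const_mul,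
    intervalIntegral.integral_const_mul] at h7
  · have h8 := w8_P_mono (μ := μ) h hφ (s := 0.92 * ρ) (t := r₁) (R := R) le_rfl hab hR
    linarith
  · apply Continuous.intervalIntegrable
    fun_prop
  · apply Continuous.intervalIntegrable
    have := w8_P_cont (μ := μ) h hφ
    fun_prop

/-- outer weighted bound -/
theorem w8_far (h : Wall ρ ε F) (hφ : ContDiff ℝ 1 φ)
    (hr₁ : r₁ ∈ Icc (ρ - 1) (ρ + 1)) (h1 : φ r₁ = 0) (hR : r₁ ≤ R) :
    ∫ r in r₁..R, wgt ρ r * (qq F r ^ (2 * μ) * φ r ^ 2 * r) ≤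
      (∫ r in (0.92 * ρ)..R, w8_P μ F φ r) * (4 * 6 ^ (2 * μ) * ρ ^ 2) := by
  have hρ := h.hρ
  have hr₁1 := hr₁.1
  have hr₁2 := hr₁.2
  have hρ0 : 0 < ρ := by linarith
  have hr₁0 : 0 < r₁ := by linarith
  set D := ∫ r in (0.92 * ρ)..R, w8_P μ F φ r with hD
  have hD0 : 0 ≤ D := intervalIntegral.integral_nonneg (by linarith) fun t ht =>
      w8_P_nonneg h (by have := ht.1; linarith)
  have hb : ∀ r ∈ Icc r₁ R, wgt ρ r * (qq F r ^ (2 * μ) * φ r ^ 2 * r) ≤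
      (D * (6 ^ (2 * μ) * 2 * ρ ^ 3)) * (r ^ 2)⁻¹ := by
    intro r hr
    have hra := hr.1
    have hrb := hr.2
    have hr0 : 0 < r := by linarith
    have hq := w8_q_pos h hr0.le
    have hq1 := w8_q_lt (F := F) r
    have hq2 : qq F r ^ (2 * μ) ≤ 1 := pow_le_one₀ hq.le hq1.le
    have hout := w8_outer (μ := μ) (R := R) h hφ hr₁ h1 hra hrb
    rw [← hD] at hout
    have hw : wgt ρ r ≤ (ρ / r) ^ 4 := min_le_right _ _
    have hφ2 : φ r ^ 2 ≤ D * (6 ^ (2 * μ) * (2 / ρ) * r) := by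
      refine hout.trans (mul_le_mul_of_nonneg_left (mul_le_mul_of_nonneg_left (by linarith)
        (by positivity)) hD0)
    calc wgt ρ r * (qq F r ^ (2 * μ) * φ r ^ 2 * r)
        ≤ (ρ / r) ^ 4 * (1 * (D * (6 ^ (2 * μ) * (2 / ρ) * r)) * r) := by
          refine mul_le_mul hw ?_ (by positivity) (by positivity)
          refine mul_le_mul_of_nonneg_right ?_ hr0.le
          exact mul_le_mul hq2 hφ2 (sq_nonneg _) zero_le_one
      _ = (D * (6 ^ (2 * μ) * 2 * ρ ^ 3)) * (r ^ 2)⁻¹ := by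
          field_simp
  have hi1 := w8_wgt_int (μ := μ) h hφ hr₁0 hR
  have hcontInv : ContinuousOn (fun r : ℝ => (r ^ 2)⁻¹) (uIcc r₁ R) := by
    rw [uIcc_of_le hR]
    refine ContinuousOn.inv₀ (by fun_prop) ?_
    intro r hr
    have : 0 < r := by have := hr.1; linarith
    positivity
  have h5 := intervalIntegral.integral_mono_on hR hi1
      (hcontInv.intervalIntegrable.const_mul _) hb
  refine h5.trans ?_
  rw [intervalIntegral.integral_const_mul]
  have h6 : ∫ r in r₁..R, (r ^ 2)⁻¹ ≤ 2 / ρ := by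
    have h7 : ∀ x ∈ uIcc r₁ R, HasDerivAt (fun x => -(x)⁻¹) ((x ^ 2)⁻¹) x := by
      intro x hx
      rw [uIcc_of_le hR] at hx
      have hx0 : 0 < x := by have := hx.1; linarith
      have h3 := (hasDerivAt_inv hx0.ne').neg
      rw [neg_neg] at h3
      exact h3
    rw [intervalIntegral.integral_eq_sub_of_hasDerivAt h7 hcontInv.intervalIntegrable]
    have h8 : 0 < R⁻¹ := by
      have : 0 < R := by linarith
      positivity
    have h9 : r₁⁻¹ ≤ 2 / ρ := by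
      have : (ρ / 2)⁻¹ = 2 / ρ := by rw [inv_div]
      rw [← this]
      exact inv_anti₀ (by positivity) (by linarith)
    linarith
  calc (D * (6 ^ (2 * μ) * 2 * ρ ^ 3)) * ∫ r in r₁..R, (r ^ 2)⁻¹
      ≤ (D * (6 ^ (2 * μ) * 2 * ρ ^ 3)) * (2 / ρ) :=
        mul_le_mul_of_nonneg_left h6 (by positivity)
    _ = _ := by
        field_simp
        ring

end main

theorem form_constrained (μ : ℕ) (hμ : 1 ≤ μ) :
    ∃ c > 0, ∃ ρ₀ : ℝ, ∀ ρ ε F, Wall ρ ε F → ρ₀ ≤ ρ → ∀ f : ℝ → ℝ, ContDiff ℝ 1 f →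
      HasCompactSupport f → (∀ r, r ≤ 0.92 * ρ → f r = 0) →
      ∀ r₁ ∈ Icc (ρ - 1) (ρ + 1), f r₁ = 0 →
      c * (ρ ^ 2)⁻¹ * (∫ r in Ioi (0 : ℝ), wgt ρ r * f r ^ 2 * r)
        + c * (∫ r in Ioo 0 (0.96 * ρ), f r ^ 2 * r)
      ≤ ∫ r in Ioi (0 : ℝ), (deriv f r ^ 2 + VV μ F r * f r ^ 2) * r := by
  refine ⟨1 / (2 * (512 + 4 * 6 ^ (2 * μ))), by positivity,
    2 * (120 * μ * exp 0.4 ^ (2 * μ) + 300000 * μ * 6 ^ (2 * μ)), ?_⟩
  intro ρ ε F h hρ₀ f hf hc h0 r₁ hr₁ hfr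
  have hρ := h.hρ
  have hρ0 : 0 < ρ := by linarith
  obtain ⟨φ, hφ, hφc, hφ0, hfφ, hgs⟩ := ground_state h μ hμ f hf hc h0
  obtain ⟨R0, hR0⟩ := w8_support hφc
  have hr₁1 := hr₁.1
  have hr₁2 := hr₁.2
  obtain ⟨R, hR, hRsupp⟩ : ∃ R, r₁ ≤ R ∧ ∀ r, R < r → φ r = 0 ∧ deriv φ r = 0 :=
    ⟨max R0 r₁, le_max_right _ _, fun r hr => hR0 r (lt_of_le_of_lt (le_max_left _ _) hr)⟩
  have hφ1 : φ r₁ = 0 := by
    have h2 := hfφ r₁ (by linarith)
    rw [hfr] at h2
    have hq := w8_q_pos h (r := r₁) (by linarith)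
    rcases mul_eq_zero.mp h2.symm with h3 | h3
    · exact absurd h3 (by positivity)
    · exact h3
  have hφa : φ (0.92 * ρ) = 0 := hφ0 _ le_rfl
  have haR : 0.92 * ρ ≤ R := by linarith
  have har₁ : 0.92 * ρ ≤ r₁ := by linarith
  have ha0 : 0 ≤ 0.92 * ρ := by linarith
  have hφ'0 := w8_deriv_zero hφ hφ0
  have hcq := w8_cont_q h
  have hcφ := hφ.continuous
  set D := ∫ r in (0.92 * ρ)..R, w8_P μ F φ r with hD
  have hD0 : 0 ≤ D := intervalIntegral.integral_nonneg haR fun t ht =>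
      w8_P_nonneg h (by have := ht.1; linarith)
  have E1 : ∫ r in Ioi (0 : ℝ), qq F r ^ (2 * μ) * deriv φ r ^ 2 * r = D := by
    rw [hD]
    refine w8_red (G := w8_P μ F φ) ha0 haR ?_ ?_
    · intro r hr
      simp only [w8_P]
      rw [hφ'0 r hr]
      ring
    · intro r hr
      simp only [w8_P]
      rw [(hRsupp r hr).2]
      ring
  have hNPi : ∀ s t : ℝ, IntervalIntegrable (fun r => NP μ F r * φ r ^ 2) volume s t := by
    intro s t
    apply Continuous.intervalIntegrable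
    have := w8_cont_NP h μ
    fun_prop
  have E2 : ∫ r in Ioi (0 : ℝ), NP μ F r * φ r ^ 2 ≤ D / 2 := by
    rw [w8_red (G := fun r => NP μ F r * φ r ^ 2) ha0 haR
      (fun r hr => by rw [hφ0 r hr]; ring)
      (fun r hr => by rw [(hRsupp r hr).1]; ring),
      ← intervalIntegral.integral_add_adjacent_intervals (hNPi _ r₁) (hNPi r₁ _)]
    have h2 := w8_NP_inner (R := R) h hμ hφ hr₁ hφ1 hR
    have h3 := w8_NP_outer (R := R) h hμ hφ hr₁ hφ1 hR
    rw [← hD] at h2 h3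
    have h4 : (120 * μ * exp 0.4 ^ (2 * μ) / ρ) + (300000 * μ * 6 ^ (2 * μ) / ρ) ≤ 1 / 2 := by
      rw [← add_div, div_le_iff₀ hρ0]
      linarith
    calc _ ≤ D * (120 * μ * exp 0.4 ^ (2 * μ) / ρ) + D * (300000 * μ * 6 ^ (2 * μ) / ρ) :=
          add_le_add h2 h3
      _ = D * ((120 * μ * exp 0.4 ^ (2 * μ) / ρ) + (300000 * μ * 6 ^ (2 * μ) / ρ)) := by ring
      _ ≤ D * (1 / 2) := mul_le_mul_of_nonneg_left h4 hD0
      _ = D / 2 := by ring
  have hhardy := w8_hardy (R := R) h hμ hφ hφa hr₁ hφ1 hR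
  rw [← hD] at hhardy
  have hf2 : ∀ r, 0 ≤ r → f r ^ 2 = qq F r ^ (2 * μ) * φ r ^ 2 := by
    intro r hr
    rw [hfφ r hr, mul_pow, ← pow_mul, mul_comm μ 2]
  have E3 : ∫ r in Ioi (0 : ℝ), wgt ρ r * f r ^ 2 * r ≤ 256 * D + D * (4 * 6 ^ (2 * μ) * ρ ^ 2) := by
    have e1 : ∫ r in Ioi (0 : ℝ), wgt ρ r * f r ^ 2 * r =
        ∫ r in Ioi (0 : ℝ), wgt ρ r * (qq F r ^ (2 * μ) * φ r ^ 2 * r) := by
      apply setIntegral_congr_fun measurableSet_Ioi
      intro r hr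
      have hr0 : (0 : ℝ) ≤ r := le_of_lt hr
      simp only
      rw [hf2 r hr0]; ring
    rw [e1, w8_red (G := fun r => wgt ρ r * (qq F r ^ (2 * μ) * φ r ^ 2 * r)) ha0 haR
      (fun r hr => by rw [hφ0 r hr]; ring)
      (fun r hr => by rw [(hRsupp r hr).1]; ring),
      ← intervalIntegral.integral_add_adjacent_intervals
        (w8_wgt_int h hφ (by linarith) har₁) (w8_wgt_int h hφ (by linarith) hR)]
    have h3 := w8_far (μ := μ) (R := R) h hφ hr₁ hφ1 hR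
    rw [← hD] at h3
    refine add_le_add (le_trans ?_ hhardy) h3
    refine intervalIntegral.integral_mono_on har₁ (w8_wgt_int h hφ (by linarith) har₁) ?_ ?_
    · apply Continuous.intervalIntegrable
      fun_prop
    · intro r hr
      have hr0 : 0 ≤ r := by have := hr.1; linarith
      have hq := w8_q_pos h hr0
      have hw : wgt ρ r ≤ 1 := min_le_left _ _
      have h4 : 0 ≤ qq F r ^ (2 * μ) * φ r ^ 2 * r := by positivity
      calc wgt ρ r * (qq F r ^ (2 * μ) * φ r ^ 2 * r)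
          ≤ 1 * (qq F r ^ (2 * μ) * φ r ^ 2 * r) := mul_le_mul_of_nonneg_right hw h4
        _ = _ := one_mul _
  have E4 : ∫ r in Ioo 0 (0.96 * ρ), f r ^ 2 * r ≤ 256 * D := by
    refine le_trans ?_ hhardy
    have e1 : ∫ r in (0.92 * ρ)..r₁, qq F r ^ (2 * μ) * φ r ^ 2 * r =
        ∫ r in Ioc 0 r₁, f r ^ 2 * r := by
      rw [intervalIntegral.integral_of_le har₁]
      symm
      rw [setIntegral_eq_of_subset_of_forall_sdiff_eq_zero measurableSet_Ioc
        (s := Ioc (0.92 * ρ) r₁) (fun x hx => ⟨lt_of_le_of_lt ha0 hx.1, hx.2⟩)]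
      · apply setIntegral_congr_fun measurableSet_Ioc
        intro r hr
        have hr0 : (0 : ℝ) ≤ r := le_trans ha0 hr.1.le
        simp only
        rw [hf2 r hr0]
      · intro r hr
        have : r ≤ 0.92 * ρ := by
          by_contra hcon
          exact hr.2 ⟨not_le.mp hcon, hr.1.2⟩
        rw [h0 r this]
        ring
    rw [e1]
    have hfc := hf.continuous
    refine setIntegral_mono_set ?_ ?_ ?_
    · exact ((by fun_prop : Continuous fun r => f r ^ 2 * r).integrableOn_Icc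
        (a := 0) (b := r₁)).mono_set Ioc_subset_Icc_self
    · rw [Filter.EventuallyLE, ae_restrict_iff' measurableSet_Ioc]
      refine Filter.Eventually.of_forall fun r hr => ?_
      have : 0 ≤ r := hr.1.le
      simp only [Pi.zero_apply]
      positivity
    · refine Filter.Eventually.of_forall fun r hr => ?_
      exact ⟨hr.1, by have := hr.2; linarith⟩
  rw [hgs, E1]
  have hκ : (0 : ℝ) < 6 ^ (2 * μ) := by positivity
  have h5 : (ρ ^ 2)⁻¹ * (∫ r in Ioi (0 : ℝ), wgt ρ r * f r ^ 2 * r) ≤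
      (256 + 4 * 6 ^ (2 * μ)) * D := by
    have h6 : (ρ ^ 2)⁻¹ * (∫ r in Ioi (0 : ℝ), wgt ρ r * f r ^ 2 * r) ≤
        (ρ ^ 2)⁻¹ * (256 * D + D * (4 * 6 ^ (2 * μ) * ρ ^ 2)) :=
      mul_le_mul_of_nonneg_left E3 (by positivity)
    refine h6.trans ?_
    have h7 : (ρ ^ 2)⁻¹ * (256 * D + D * (4 * 6 ^ (2 * μ) * ρ ^ 2)) =
        256 * D * (ρ ^ 2)⁻¹ + 4 * 6 ^ (2 * μ) * D := by
      field_simp
    rw [h7]
    have h8 : (ρ ^ 2)⁻¹ ≤ 1 := by
      apply inv_le_one_of_one_le₀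
      nlinarith
    nlinarith
  have h9 : 1 / (2 * (512 + 4 * (6 : ℝ) ^ (2 * μ))) * ((256 + 4 * 6 ^ (2 * μ)) * D + 256 * D) =
      D / 2 := by
    field_simp
    ring
  have h10 : 1 / (2 * (512 + 4 * (6 : ℝ) ^ (2 * μ))) * (ρ ^ 2)⁻¹ *
        (∫ r in Ioi (0 : ℝ), wgt ρ r * f r ^ 2 * r)
        + 1 / (2 * (512 + 4 * (6 : ℝ) ^ (2 * μ))) * (∫ r in Ioo 0 (0.96 * ρ), f r ^ 2 * r) ≤
      1 / (2 * (512 + 4 * (6 : ℝ) ^ (2 * μ))) * ((256 + 4 * 6 ^ (2 * μ)) * D + 256 * D) := by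
    rw [mul_assoc, ← mul_add]
    exact mul_le_mul_of_nonneg_left (add_le_add h5 E4) (by positivity)
  rw [h9] at h10
  linarith

end Pool.MP_ad5d82_an.Wl
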