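import Pool.Agent.Lib.MP_ad5d82_an.h24.WDefs
import Pool.Agent.Lib.MP_ad5d82_an.h24.W.W8

set_option autoImplicit false

namespace Pool.MP_ad5d82_an.Wl

open Real Set MeasureTheory
open scoped ContDiff Topology

/-! ### W9 penalised form -/

private theorem W9_om_contDiff : ContDiff ℝ ∞ om := by
  have h : ContDiff ℝ ∞ (fun t : ℝ => 2 - 4 * t ^ 2) := by fun_prop
  exact Real.smoothTransition.contDiff.comp h

private theorem W9_om_zero {t : ℝ} (ht : 3 / 4 ≤ |t|) : om t = 0 := by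
  refine Real.smoothTransition.zero_of_nonpos ?_
  have : (3 / 4 : ℝ) ^ 2 ≤ t ^ 2 := by
    rw [← sq_abs t]
    exact pow_le_pow_left₀ (by norm_num) ht 2
  linarith

private theorem W9_om_one {t : ℝ} (ht : |t| ≤ 1 / 2) : om t = 1 := by
  refine Real.smoothTransition.one_of_one_le ?_
  have : t ^ 2 ≤ (1 / 2 : ℝ) ^ 2 := by
    rw [← sq_abs t]
    exact pow_le_pow_left₀ (abs_nonneg _) ht 2
  linarith

private theorem W9_om_nonneg (t : ℝ) : 0 ≤ om t := Real.smoothTransition.nonneg _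

private theorem W9_om_le_one (t : ℝ) : om t ≤ 1 := Real.smoothTransition.le_one _

private theorem W9_om_ev {t : ℝ} (ht : 3 / 4 < |t|) : om =ᶠ[𝓝 t] fun _ => 0 := by
  have h1 : {s : ℝ | 3 / 4 < |s|} ∈ 𝓝 t :=
    (isOpen_lt continuous_const continuous_abs).mem_nhds ht
  filter_upwards [h1] with s hs
  exact W9_om_zero (le_of_lt hs)

private theorem W9_dom_zero {t : ℝ} (ht : 3 / 4 < |t|) : deriv om t = 0 := by
  rw [(W9_om_ev ht).deriv_eq]
  simp

private theorem W9_ddom_zero {t : ℝ} (ht : 3 / 4 < |t|) : deriv (deriv om) t = 0 := by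
  have h1 : {s : ℝ | 3 / 4 < |s|} ∈ 𝓝 t :=
    (isOpen_lt continuous_const continuous_abs).mem_nhds ht
  have h2 : deriv om =ᶠ[𝓝 t] fun _ => 0 := by
    filter_upwards [h1] with s hs
    exact W9_dom_zero hs
  rw [h2.deriv_eq]
  simp

private theorem W9_bound {g : ℝ → ℝ} (hg : Continuous g) (h0 : ∀ t, 3 / 4 < |t| → g t = 0) :
    ∃ M, 0 ≤ M ∧ ∀ t, |g t| ≤ M := by
  obtain ⟨M, hM⟩ := (isCompact_Icc (a := (-1 : ℝ)) (b := 1)).exists_bound_of_continuousOn
    hg.continuousOn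
  refine ⟨max M 0, le_max_right _ _, fun t => ?_⟩
  by_cases ht : |t| ≤ 1
  · exact (hM t (abs_le.1 ht)).trans (le_max_left _ _)
  · rw [h0 t (by push Not at ht; linarith), abs_zero]
    exact le_max_right _ _

/-- functions supported in `|r - ρ| ≤ 1` -/
private theorem W9_loc {ρ : ℝ} (hρ : 100 ≤ ρ) {g : ℝ → ℝ} (hg : ∀ r, 1 ≤ |r - ρ| → g r = 0) :
    ∫ r in Ioi (0 : ℝ), g r = ∫ r in (ρ - 1)..(ρ + 1), g r := by
  rw [intervalIntegral.integral_of_le (by linarith)]
  refine setIntegral_eq_of_subset_of_forall_sdiff_eq_zero measurableSet_Ioi ?_ ?_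
  · intro r hr
    have := hr.1
    exact mem_Ioi.2 (by linarith)
  · intro r hr
    apply hg
    by_cases h : r ≤ ρ - 1
    · rw [abs_of_nonpos (by linarith)]
      linarith
    · push Not at h
      have : ρ + 1 < r := by
        by_contra h2
        push Not at h2
        exact hr.2 ⟨h, h2⟩
      rw [abs_of_nonneg (by linarith)]
      linarith

/-- compactly supported continuous functions are integrable on `(0, ∞)` -/
private theorem W9_int {g : ℝ → ℝ} (hg : Continuous g) (hc : HasCompactSupport g) :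
    IntegrableOn g (Ioi 0) :=
  (hg.integrable_of_hasCompactSupport hc).integrableOn

private theorem W9_VV_abs {ρ ε : ℝ} {F : ℝ → ℝ} (h : Wall ρ ε F) (μ : ℕ) {r : ℝ} (hr : 0 ≤ r) :
    |VV μ F r| ≤ μ * (μ + 2) := by
  have hy0 := W1_y_pos F r
  have hy1 := W1_y_lt_one h hr
  have hμ : (0 : ℝ) ≤ μ := by positivity
  unfold VV
  rw [abs_mul, abs_of_nonneg (by positivity : 0 ≤ μ * yy F r)]
  have h1 : |(μ + 1) * yy F r - 1| ≤ μ + 2 := by
    rw [abs_le]
    constructor
    · have : 0 ≤ (μ + 1) * yy F r := by positivity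
      linarith
    · have : (μ + 1) * yy F r ≤ (μ + 1) * 1 := mul_le_mul_of_nonneg_left hy1.le (by positivity)
      linarith
  exact mul_le_mul (by nlinarith) h1 (abs_nonneg _) hμ

private theorem W9_wgt_nonneg (ρ r : ℝ) : 0 ≤ wgt ρ r := by
  unfold wgt
  exact le_min zero_le_one (by positivity)

private theorem W9_wgt_le (ρ r : ℝ) : wgt ρ r ≤ 1 := min_le_left _ _

private theorem W9_wgt_meas (ρ : ℝ) : Measurable (wgt ρ) := by
  unfold wgt
  exact measurable_const.min ((measurable_const.div measurable_id).pow_const 4)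

private theorem W9_int_wgt {ρ : ℝ} {g : ℝ → ℝ} (hg : Continuous g) (hc : HasCompactSupport g) :
    IntegrableOn (fun r => wgt ρ r * g r ^ 2 * r) (Ioi 0) := by
  have h1 : IntegrableOn (fun r => g r ^ 2 * r) (Ioi 0) := by
    refine W9_int (by fun_prop) ?_
    refine HasCompactSupport.mul_right ?_
    simp_rw [pow_two]
    exact hc.mul_right
  refine h1.mono' ?_ ?_
  · refine Measurable.aestronglyMeasurable ?_
    exact ((W9_wgt_meas ρ).mul (hg.measurable.pow_const 2)).mul measurable_id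
  · filter_upwards [ae_restrict_mem measurableSet_Ioi] with r hr
    have hr' : 0 < r := hr
    have h2 := W9_wgt_nonneg ρ r
    have h3 := W9_wgt_le ρ r
    rw [Real.norm_eq_abs, abs_of_nonneg (by positivity)]
    have : 0 ≤ g r ^ 2 * r := by positivity
    calc wgt ρ r * g r ^ 2 * r = wgt ρ r * (g r ^ 2 * r) := by ring
      _ ≤ 1 * (g r ^ 2 * r) := mul_le_mul_of_nonneg_right h3 this
      _ = g r ^ 2 * r := one_mul _

private theorem W9_wgt_ge {ρ r : ℝ} (hρ : 0 < ρ) (hr : 0 < r) (hr' : r ≤ 2 * ρ) :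
    1 / 16 ≤ wgt ρ r := by
  unfold wgt
  refine le_min (by norm_num) ?_
  have h1 : 1 / 2 ≤ ρ / r := by
    rw [div_le_div_iff₀ (by norm_num) hr]
    linarith
  have h2 : (1 / 2 : ℝ) ^ 4 ≤ (ρ / r) ^ 4 := pow_le_pow_left₀ (by norm_num) h1 4
  norm_num at h2 ⊢
  exact h2

/-- a function orthogonal to the bump has a zero near `ρ` -/
private theorem W9_zero {ρ : ℝ} (hρ : 100 ≤ ρ) {g : ℝ → ℝ} (hg : Continuous g)
    (h0 : ∫ r in Ioi (0 : ℝ), om (r - ρ) * g r * r = 0) :
    ∃ r ∈ Icc (ρ - 1) (ρ + 1), g r = 0 := by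
  have hoc : Continuous om := W9_om_contDiff.continuous
  -- positivity statement
  have key : ∀ k : ℝ → ℝ, Continuous k → (∀ r ∈ Icc (ρ - 1) (ρ + 1), 0 < k r) →
      0 < ∫ r in Ioi (0 : ℝ), om (r - ρ) * k r * r := by
    intro k hk hpos
    rw [W9_loc hρ]
    · refine intervalIntegral.integral_pos (by linarith) (by fun_prop) ?_ ?_
      · intro r hr
        have h1 := hpos r ⟨hr.1.le, hr.2⟩
        have h2 := W9_om_nonneg (r - ρ)
        have h3 : 0 < r := by linarith [hr.1]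
        positivity
      · refine ⟨ρ, ⟨by linarith, by linarith⟩, ?_⟩
        have h1 := hpos ρ ⟨by linarith, by linarith⟩
        have h2 : om (ρ - ρ) = 1 := W9_om_one (by rw [sub_self, abs_zero]; norm_num)
        have h3 : 0 < ρ := by linarith
        rw [h2]
        positivity
    · intro r hr
      rw [W9_om_zero (by linarith)]
      ring
  by_contra hne
  push Not at hne
  have hconn : IsPreconnected (Icc (ρ - 1) (ρ + 1)) := isPreconnected_Icc
  by_cases hs : 0 < g ρ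
  · have hpos : ∀ r ∈ Icc (ρ - 1) (ρ + 1), 0 < g r := by
      intro r hr
      by_contra hle
      push Not at hle
      have := hconn.intermediate_value₂ (f := g) (g := fun _ => 0) (a := r) (b := ρ) hr
        ⟨by linarith, by linarith⟩ hg.continuousOn continuousOn_const hle hs.le
      obtain ⟨z, hz, hz'⟩ := this
      exact hne z hz hz'
    have := key g hg hpos
    linarith
  · have hneg : ∀ r ∈ Icc (ρ - 1) (ρ + 1), 0 < -g r := by
      intro r hr
      by_contra hle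
      push Not at hle hs
      have := hconn.intermediate_value₂ (f := g) (g := fun _ => 0) (a := ρ) (b := r)
        ⟨by linarith, by linarith⟩ hr hg.continuousOn continuousOn_const hs (by linarith)
      obtain ⟨z, hz, hz'⟩ := this
      exact hne z hz hz'
    have h1 := key (fun r => -g r) hg.neg hneg
    have h2 : ∫ r in Ioi (0 : ℝ), om (r - ρ) * (-g r) * r =
        -∫ r in Ioi (0 : ℝ), om (r - ρ) * g r * r := by
      rw [← integral_neg]
      congr 1
      funext r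
      ring
    rw [h2, h0, neg_zero] at h1
    exact lt_irrefl _ h1

private theorem W9_normsq {ρ : ℝ} (hρ : 100 ≤ ρ) :
    ρ ≤ ∫ r in Ioi (0 : ℝ), om (r - ρ) * om (r - ρ) * r := by
  have hoc : Continuous om := W9_om_contDiff.continuous
  rw [W9_loc hρ]
  · have hii : ∀ a b : ℝ, IntervalIntegrable (fun r => om (r - ρ) * om (r - ρ) * r) volume a b :=
      fun a b => Continuous.intervalIntegrable (by fun_prop) _ _
    have h1 : ∫ r in (ρ - 1 / 2)..(ρ + 1 / 2), r ≤
        ∫ r in (ρ - 1 / 2)..(ρ + 1 / 2), om (r - ρ) * om (r - ρ) * r := by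
      refine intervalIntegral.integral_mono_on (by linarith)
        (continuous_id.intervalIntegrable _ _) (hii _ _) ?_
      intro r hr
      have : om (r - ρ) = 1 := W9_om_one (by
        rw [abs_le]
        constructor
        · linarith [hr.1]
        · linarith [hr.2])
      rw [this]
      linarith
    have h2 : ∫ r in (ρ - 1 / 2)..(ρ + 1 / 2), r = ρ := by
      rw [integral_id]
      ring
    have h3 : ∫ r in (ρ - 1 / 2)..(ρ + 1 / 2), om (r - ρ) * om (r - ρ) * r ≤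
        ∫ r in (ρ - 1)..(ρ + 1), om (r - ρ) * om (r - ρ) * r := by
      refine intervalIntegral.integral_mono_interval (by linarith) (by linarith) (by linarith)
        ?_ (hii _ _)
      filter_upwards [ae_restrict_mem measurableSet_Ioc] with r hr
      have h4 := W9_om_nonneg (r - ρ)
      have h5 : 0 < r := by linarith [hr.1]
      show 0 ≤ om (r - ρ) * om (r - ρ) * r
      positivity
    linarith
  · intro r hr
    rw [W9_om_zero (by linarith)]
    ring

private theorem W9_normsq_le {ρ : ℝ} (hρ : 100 ≤ ρ) :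
    ∫ r in Ioi (0 : ℝ), om (r - ρ) * om (r - ρ) * r ≤ 4 * ρ := by
  have hoc : Continuous om := W9_om_contDiff.continuous
  rw [W9_loc hρ]
  · have h1 : ∫ r in (ρ - 1)..(ρ + 1), om (r - ρ) * om (r - ρ) * r ≤
        ∫ r in (ρ - 1)..(ρ + 1), 2 * ρ := by
      refine intervalIntegral.integral_mono_on (by linarith)
        (Continuous.intervalIntegrable (by fun_prop) _ _)
        (continuous_const.intervalIntegrable _ _) ?_
      intro r hr
      have h4 := W9_om_nonneg (r - ρ)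
      have h5 := W9_om_le_one (r - ρ)
      have h6 : 0 < r := by linarith [hr.1]
      have h7 : om (r - ρ) * om (r - ρ) ≤ 1 := mul_le_one₀ h5 h4 h5
      calc om (r - ρ) * om (r - ρ) * r ≤ 1 * r := mul_le_mul_of_nonneg_right h7 h6.le
        _ ≤ 2 * ρ := by linarith [hr.2]
    rw [intervalIntegral.integral_const] at h1
    refine h1.trans ?_
    rw [smul_eq_mul]
    linarith
  · intro r hr
    rw [W9_om_zero (by linarith)]
    ring

private theorem W9_cpt {ρ : ℝ} {R : ℝ → ℝ} (h0 : ∀ r, 1 ≤ |r - ρ| → R r = 0) :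
    HasCompactSupport R := by
  refine HasCompactSupport.intro (isCompact_Icc (a := ρ - 1) (b := ρ + 1)) ?_
  intro r hr
  apply h0
  by_contra hlt
  push Not at hlt
  rw [abs_lt] at hlt
  exact hr ⟨by linarith [hlt.1], by linarith [hlt.2]⟩

private theorem W9_expand {ρ ε : ℝ} {F : ℝ → ℝ} (h : Wall ρ ε F) (μ : ℕ) {M : ℝ} (hM0 : 0 ≤ M)
    (hM1 : ∀ t, |deriv om t| ≤ M) (hM2 : ∀ t, |deriv (deriv om) t| ≤ M) {g : ℝ → ℝ}
    (hg : ContDiff ℝ 1 g) (hc : HasCompactSupport g) (a lam : ℝ) (hlam : 0 < lam) :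
    (∫ r in Ioi (0 : ℝ), (deriv g r ^ 2 + VV μ F r * g r ^ 2) * r)
      - lam * (∫ r in (ρ - 1)..(ρ + 1), g r ^ 2)
      - a ^ 2 * (2 * ((3 * M + 2 * (μ * (μ + 2))) ^ 2 * ρ ^ 2 / lam + 2 * (μ * (μ + 2)) * ρ)) ≤
    ∫ r in Ioi (0 : ℝ), (deriv (fun r => g r + a * om (r - ρ)) r ^ 2 +
      VV μ F r * (g r + a * om (r - ρ)) ^ 2) * r := by
  have hρ := h.hρ
  have hρ0 : 0 < ρ := by linarith
  have hoc : Continuous om := W9_om_contDiff.continuous
  have ho1 : ContDiff ℝ ∞ (deriv om) := ((contDiff_infty_iff_deriv (𝕜 := ℝ)).1 W9_om_contDiff).2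
  have ho2 : ContDiff ℝ ∞ (deriv (deriv om)) := ((contDiff_infty_iff_deriv (𝕜 := ℝ)).1 ho1).2
  have hoc1 : Continuous (deriv om) := ho1.continuous
  have hoc2 : Continuous (deriv (deriv om)) := ho2.continuous
  have hgc : Continuous g := hg.continuous
  have hgd : Continuous (deriv g) := hg.continuous_deriv le_rfl
  have hVc : Continuous (VV μ F) := by
    have := W1_continuous_y h
    unfold VV
    fun_prop
  have hdo : ∀ r, HasDerivAt (fun r => om (r - ρ)) (deriv om (r - ρ)) r := by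
    intro r
    have h1 : HasDerivAt om (deriv om (r - ρ)) (r - ρ) :=
      (W9_om_contDiff.differentiable (by simp) _).hasDerivAt
    exact (h1.comp r ((hasDerivAt_id r).sub_const ρ)).congr_deriv (mul_one _)
  have hdo2 : ∀ r, HasDerivAt (fun r => deriv om (r - ρ)) (deriv (deriv om) (r - ρ)) r := by
    intro r
    have h1 : HasDerivAt (deriv om) (deriv (deriv om) (r - ρ)) (r - ρ) :=
      (ho1.differentiable (by simp) _).hasDerivAt
    exact (h1.comp r ((hasDerivAt_id r).sub_const ρ)).congr_deriv (mul_one _)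
  have hdg : ∀ r, HasDerivAt g (deriv g r) r := fun r =>
    (hg.differentiable one_ne_zero r).hasDerivAt
  obtain ⟨R, hR⟩ : ∃ R : ℝ → ℝ, R = fun r => (2 * a * (deriv g r * deriv om (r - ρ) +
    VV μ F r * g r * om (r - ρ)) + a ^ 2 * (deriv om (r - ρ) ^ 2 +
      VV μ F r * om (r - ρ) ^ 2)) * r := ⟨_, rfl⟩
  have hR0 : ∀ r, 1 ≤ |r - ρ| → R r = 0 := by
    intro r hr
    rw [hR]
    show (2 * a * (deriv g r * deriv om (r - ρ) + VV μ F r * g r * om (r - ρ)) +
      a ^ 2 * (deriv om (r - ρ) ^ 2 + VV μ F r * om (r - ρ) ^ 2)) * r = 0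
    rw [W9_om_zero (by linarith : 3 / 4 ≤ |r - ρ|), W9_dom_zero (by linarith : 3 / 4 < |r - ρ|)]
    ring
  have hRc : Continuous R := by
    rw [hR]
    fun_prop
  have hsplit : ∫ r in Ioi (0 : ℝ), (deriv (fun r => g r + a * om (r - ρ)) r ^ 2 +
      VV μ F r * (g r + a * om (r - ρ)) ^ 2) * r =
      (∫ r in Ioi (0 : ℝ), (deriv g r ^ 2 + VV μ F r * g r ^ 2) * r) +
        ∫ r in (ρ - 1)..(ρ + 1), R r := by
    rw [← W9_loc hρ hR0, ← integral_add]
    · congr 1
      funext r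
      have e : deriv (fun r => g r + a * om (r - ρ)) r = deriv g r + a * deriv om (r - ρ) :=
        ((hdg r).add ((hdo r).const_mul a)).deriv
      rw [e, hR]
      ring
    · refine W9_int (by fun_prop) ?_
      refine HasCompactSupport.mul_right ?_
      refine HasCompactSupport.add ?_ ?_
      · simp_rw [pow_two]
        exact hc.deriv.mul_right
      · refine HasCompactSupport.mul_left ?_
        simp_rw [pow_two]
        exact hc.mul_right
    · exact W9_int hRc (W9_cpt hR0)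
  rw [hsplit]
  -- integration by parts
  have hparts : ∫ r in (ρ - 1)..(ρ + 1), 2 * a * (deriv g r * (r * deriv om (r - ρ)) +
      g r * (deriv om (r - ρ) + r * deriv (deriv om) (r - ρ))) = 0 := by
    have h1 : ∀ r ∈ uIcc (ρ - 1) (ρ + 1), HasDerivAt
        (fun r => 2 * a * (g r * (r * deriv om (r - ρ))))
        (2 * a * (deriv g r * (r * deriv om (r - ρ)) +
      g r * (deriv om (r - ρ) + r * deriv (deriv om) (r - ρ)))) r := by
      intro r _
      have h2 : HasDerivAt (fun r => r * deriv om (r - ρ))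
          (1 * deriv om (r - ρ) + r * deriv (deriv om) (r - ρ)) r :=
        (hasDerivAt_id r).mul (hdo2 r)
      refine (((hdg r).mul h2).const_mul (2 * a)).congr_deriv ?_
      ring
    rw [intervalIntegral.integral_eq_sub_of_hasDerivAt h1
      (Continuous.intervalIntegrable (by fun_prop) _ _)]
    have e1 : ρ + 1 - ρ = 1 := by ring
    have e2 : ρ - 1 - ρ = -1 := by ring
    have e3 : deriv om 1 = 0 := W9_dom_zero (by norm_num)
    have e4 : deriv om (-1) = 0 := W9_dom_zero (by norm_num)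
    rw [e1, e2, e3, e4]
    ring
  have hmono : ∫ r in (ρ - 1)..(ρ + 1), (-lam * g r ^ 2 -
      a ^ 2 * ((3 * M + 2 * (μ * (μ + 2))) ^ 2 * ρ ^ 2 / lam + 2 * (μ * (μ + 2)) * ρ)) ≤
      ∫ r in (ρ - 1)..(ρ + 1), (R r - 2 * a * (deriv g r * (r * deriv om (r - ρ)) +
      g r * (deriv om (r - ρ) + r * deriv (deriv om) (r - ρ)))) := by
    refine intervalIntegral.integral_mono_on (by linarith)
      (Continuous.intervalIntegrable (by fun_prop) _ _)
      (Continuous.intervalIntegrable (by fun_prop) _ _) ?_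
    intro r hr
    have hr0 : 0 < r := by linarith [hr.1]
    have hr2 : r ≤ 2 * ρ := by linarith [hr.2]
    obtain ⟨K, hK⟩ : ∃ K : ℝ, K = μ * (μ + 2) := ⟨_, rfl⟩
    have hK0 : 0 ≤ K := by rw [hK]; positivity
    have hV := W9_VV_abs h μ hr0.le
    rw [← hK] at hV ⊢
    have ho := W9_om_nonneg (r - ρ)
    have ho' := W9_om_le_one (r - ρ)
    have hd1 := hM1 (r - ρ)
    have hd2 := hM2 (r - ρ)
    obtain ⟨W, hW⟩ : ∃ W : ℝ, W = -deriv om (r - ρ) - r * deriv (deriv om) (r - ρ) +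
      r * VV μ F r * om (r - ρ) := ⟨_, rfl⟩
    have e1 : R r - 2 * a * (deriv g r * (r * deriv om (r - ρ)) +
      g r * (deriv om (r - ρ) + r * deriv (deriv om) (r - ρ))) =
      2 * a * g r * W + a ^ 2 * (deriv om (r - ρ) ^ 2 + VV μ F r * om (r - ρ) ^ 2) * r := by
      rw [hR, hW]
      ring
    rw [e1]
    have hWle : |W| ≤ (3 * M + 2 * K) * ρ := by
      rw [hW]
      have f1 : |r * deriv (deriv om) (r - ρ)| ≤ 2 * ρ * M := by
        rw [abs_mul, abs_of_pos hr0]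
        exact mul_le_mul hr2 hd2 (abs_nonneg _) (by linarith)
      have f2 : |r * VV μ F r * om (r - ρ)| ≤ 2 * ρ * K := by
        rw [abs_mul, abs_mul, abs_of_pos hr0, abs_of_nonneg ho]
        calc r * |VV μ F r| * om (r - ρ) ≤ (2 * ρ * K) * 1 :=
              mul_le_mul (mul_le_mul hr2 hV (abs_nonneg _) (by linarith)) ho' ho (by positivity)
          _ = 2 * ρ * K := mul_one _
      have f3 : M ≤ M * ρ := by nlinarith
      have f4 : |-deriv om (r - ρ) - r * deriv (deriv om) (r - ρ) +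
          r * VV μ F r * om (r - ρ)| ≤ |deriv om (r - ρ)| + |r * deriv (deriv om) (r - ρ)| +
          |r * VV μ F r * om (r - ρ)| := by
        refine (abs_add_le _ _).trans ?_
        have := abs_sub (-deriv om (r - ρ)) (r * deriv (deriv om) (r - ρ))
        rw [abs_neg] at this
        linarith
      linarith
    have hW2 : W ^ 2 ≤ (3 * M + 2 * K) ^ 2 * ρ ^ 2 := by
      rw [← sq_abs W, ← mul_pow]
      exact pow_le_pow_left₀ (abs_nonneg _) hWle 2
    have e2 : -(lam * g r ^ 2) - a ^ 2 * (W ^ 2 / lam) ≤ 2 * a * g r * W := by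
      have f1 : 0 ≤ (lam * g r + a * W) ^ 2 / lam := by positivity
      have f2 : (lam * g r + a * W) ^ 2 / lam = lam * g r ^ 2 + 2 * a * g r * W +
          a ^ 2 * (W ^ 2 / lam) := by
        field_simp
        ring
      linarith
    have e3 : a ^ 2 * (W ^ 2 / lam) ≤ a ^ 2 * ((3 * M + 2 * K) ^ 2 * ρ ^ 2 / lam) :=
      mul_le_mul_of_nonneg_left (div_le_div_of_nonneg_right hW2 hlam.le) (sq_nonneg _)
    have e4 : -(a ^ 2 * (2 * K * ρ)) ≤
        a ^ 2 * (deriv om (r - ρ) ^ 2 + VV μ F r * om (r - ρ) ^ 2) * r := by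
      have f1 : -(2 * K * ρ) ≤ (deriv om (r - ρ) ^ 2 + VV μ F r * om (r - ρ) ^ 2) * r := by
        have g1 : -K ≤ VV μ F r * om (r - ρ) ^ 2 := by
          have g2 : |VV μ F r * om (r - ρ) ^ 2| ≤ K := by
            rw [abs_mul, abs_of_nonneg (sq_nonneg (om (r - ρ)))]
            calc |VV μ F r| * om (r - ρ) ^ 2 ≤ K * 1 :=
                  mul_le_mul hV (pow_le_one₀ ho ho') (by positivity) hK0
              _ = K := mul_one _
          exact (abs_le.1 g2).1
        have g3 : -K ≤ deriv om (r - ρ) ^ 2 + VV μ F r * om (r - ρ) ^ 2 := by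
          have := sq_nonneg (deriv om (r - ρ))
          linarith
        have g4 : -K * r ≤ (deriv om (r - ρ) ^ 2 + VV μ F r * om (r - ρ) ^ 2) * r :=
          mul_le_mul_of_nonneg_right g3 hr0.le
        have g5 : K * r ≤ K * (2 * ρ) := mul_le_mul_of_nonneg_left hr2 hK0
        linarith
      have f2 := mul_le_mul_of_nonneg_left f1 (sq_nonneg a)
      linarith
    linarith
  rw [intervalIntegral.integral_sub (hRc.intervalIntegrable _ _)
    (Continuous.intervalIntegrable (by fun_prop) _ _), hparts, sub_zero,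
    intervalIntegral.integral_sub (Continuous.intervalIntegrable (by fun_prop) _ _)
    (continuous_const.intervalIntegrable _ _), intervalIntegral.integral_const_mul,
    intervalIntegral.integral_const, smul_eq_mul] at hmono
  have e : ρ + 1 - (ρ - 1) = 2 := by ring
  rw [e] at hmono
  linarith

theorem form_penalty (μ : ℕ) (hμ : 1 ≤ μ) :
    ∃ c > 0, ∃ ρ₀ : ℝ, ∀ ρ ε F, Wall ρ ε F → ρ₀ ≤ ρ → ∀ f : ℝ → ℝ, ContDiff ℝ 1 f →
      HasCompactSupport f → (∀ r, r ≤ 0.92 * ρ → f r = 0) →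
      c * (ρ ^ 2)⁻¹ * (∫ r in Ioi (0 : ℝ), wgt ρ r * f r ^ 2 * r)
        + c * (∫ r in Ioo 0 (0.96 * ρ), f r ^ 2 * r)
      ≤ (∫ r in Ioi (0 : ℝ), (deriv f r ^ 2 + VV μ F r * f r ^ 2) * r)
        + ρ ^ 2 * (∫ r in Ioi (0 : ℝ), om (r - ρ) * f r * r) ^ 2 := by
  obtain ⟨c1, hc1, ρ1, H⟩ := form_constrained μ hμ
  have hoc : Continuous om := W9_om_contDiff.continuous
  have ho1 : ContDiff ℝ ∞ (deriv om) := ((contDiff_infty_iff_deriv (𝕜 := ℝ)).1 W9_om_contDiff).2
  have ho2 : ContDiff ℝ ∞ (deriv (deriv om)) := ((contDiff_infty_iff_deriv (𝕜 := ℝ)).1 ho1).2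
  obtain ⟨M1, hM10, hM1⟩ := W9_bound ho1.continuous (fun t ht => W9_dom_zero ht)
  obtain ⟨M2, hM20, hM2⟩ := W9_bound ho2.continuous (fun t ht => W9_ddom_zero ht)
  obtain ⟨M, hM⟩ : ∃ M : ℝ, M = max M1 M2 := ⟨_, rfl⟩
  have hM0 : 0 ≤ M := by rw [hM]; exact hM10.trans (le_max_left _ _)
  have hM1' : ∀ t, |deriv om t| ≤ M := fun t => (hM1 t).trans (by rw [hM]; exact le_max_left _ _)
  have hM2' : ∀ t, |deriv (deriv om) t| ≤ M := fun t =>
    (hM2 t).trans (by rw [hM]; exact le_max_right _ _)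
  obtain ⟨K, hK⟩ : ∃ K : ℝ, K = μ * (μ + 2) := ⟨_, rfl⟩
  have hK0 : 0 ≤ K := by rw [hK]; positivity
  obtain ⟨C2, hC2⟩ : ∃ C2 : ℝ, C2 = 2 * ((3 * M + 2 * K) ^ 2 * (64 / c1) + 2 * K) := ⟨_, rfl⟩
  have hC20 : 0 ≤ C2 := by rw [hC2]; positivity
  refine ⟨min (c1 / 4) 1, lt_min (by positivity) one_pos, max ρ1 (2 * C2), ?_⟩
  intro ρ ε F h hρ' f hf hcf h0
  have hρ1 : ρ1 ≤ ρ := (le_max_left _ _).trans hρ'
  have hρ2 : 2 * C2 ≤ ρ := (le_max_right _ _).trans hρ'
  have hρ := h.hρ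
  have hρ0 : 0 < ρ := by linarith
  obtain ⟨c, hcdef⟩ : ∃ c : ℝ, c = min (c1 / 4) 1 := ⟨_, rfl⟩
  rw [← hcdef]
  have hc0 : 0 < c := by rw [hcdef]; exact lt_min (by positivity) one_pos
  have hcc1 : c ≤ c1 / 4 := by rw [hcdef]; exact min_le_left _ _
  have hcone : c ≤ 1 := by rw [hcdef]; exact min_le_right _ _
  have hVc : Continuous (VV μ F) := by
    have := W1_continuous_y h
    unfold VV
    fun_prop
  have hfc : Continuous f := hf.continuous
  -- the coefficient
  obtain ⟨L, hL⟩ : ∃ L : ℝ, L = ∫ r in Ioi (0 : ℝ), om (r - ρ) * f r * r := ⟨_, rfl⟩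
  obtain ⟨N, hN⟩ : ∃ N : ℝ, N = ∫ r in Ioi (0 : ℝ), om (r - ρ) * om (r - ρ) * r := ⟨_, rfl⟩
  have hN1 : ρ ≤ N := by rw [hN]; exact W9_normsq hρ
  have hN2 : N ≤ 4 * ρ := by rw [hN]; exact W9_normsq_le hρ
  have hN0 : 0 < N := by linarith
  obtain ⟨a, ha⟩ : ∃ a : ℝ, a = L / N := ⟨_, rfl⟩
  have haN : a * N = L := by rw [ha]; field_simp
  have ha2 : a ^ 2 * ρ ^ 2 ≤ L ^ 2 := by
    rw [← haN, mul_pow]
    exact mul_le_mul_of_nonneg_left (pow_le_pow_left₀ hρ0.le hN1 2) (sq_nonneg _)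
  obtain ⟨g, hg⟩ : ∃ g : ℝ → ℝ, g = fun r => f r - a * om (r - ρ) := ⟨_, rfl⟩
  have hgf : (fun r => g r + a * om (r - ρ)) = f := by
    funext r
    rw [hg]
    ring
  have hgf' : ∀ r, f r = g r + a * om (r - ρ) := fun r => by rw [hg]; ring
  have hom1 : ContDiff ℝ 1 (fun r => om (r - ρ)) := by
    have : ContDiff ℝ 1 om := W9_om_contDiff.of_le (by exact_mod_cast le_top)
    exact this.comp (by fun_prop)
  have hgC : ContDiff ℝ 1 g := by
    rw [hg]
    exact hf.sub (contDiff_const.mul hom1)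
  have homc : HasCompactSupport (fun r => om (r - ρ)) :=
    W9_cpt (fun r hr => W9_om_zero (by linarith))
  have hgc : HasCompactSupport g := by
    rw [hg]
    exact hcf.sub homc.mul_left
  have hgcont : Continuous g := hgC.continuous
  have hg0 : ∀ r, r ≤ 0.92 * ρ → g r = 0 := by
    intro r hr
    rw [hg]
    show f r - a * om (r - ρ) = 0
    rw [h0 r hr, W9_om_zero]
    · ring
    · rw [abs_of_nonpos (by linarith)]
      linarith
  have hLg : ∫ r in Ioi (0 : ℝ), om (r - ρ) * g r * r = 0 := by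
    have h1 : ∫ r in Ioi (0 : ℝ), om (r - ρ) * g r * r =
        ∫ r in Ioi (0 : ℝ), (om (r - ρ) * f r * r - a * (om (r - ρ) * om (r - ρ) * r)) := by
      congr 1
      funext r
      rw [hg]
      ring
    rw [h1, integral_sub, integral_const_mul, ← hL, ← hN, haN, sub_self]
    · exact W9_int (by fun_prop) (homc.mul_right.mul_right)
    · exact (W9_int (by fun_prop) (homc.mul_right.mul_right)).const_mul a
  obtain ⟨r1, hr1, hgr1⟩ := W9_zero hρ hgcont hLg
  have hH := H ρ ε F h hρ1 g hgC hgc hg0 r1 hr1 hgr1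
  have hE := W9_expand h μ hM0 hM1' hM2' hgC hgc a (c1 / (64 * ρ)) (by positivity)
  rw [hgf, ← hK] at hE
  simp_rw [← hgf'] at hE
  obtain ⟨Q0, hQ0⟩ : ∃ Q0 : ℝ, Q0 = ∫ r in Ioi (0 : ℝ), (deriv g r ^ 2 +
    VV μ F r * g r ^ 2) * r := ⟨_, rfl⟩
  obtain ⟨I0, hI0⟩ : ∃ I0 : ℝ, I0 = ∫ r in Ioi (0 : ℝ), wgt ρ r * g r ^ 2 * r := ⟨_, rfl⟩
  obtain ⟨I1, hI1⟩ : ∃ I1 : ℝ, I1 = ∫ r in Ioo 0 (0.96 * ρ), g r ^ 2 * r := ⟨_, rfl⟩
  rw [← hI0, ← hI1, ← hQ0] at hH
  rw [← hQ0] at hE
  have hI1' : 0 ≤ I1 := by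
    rw [hI1]
    refine setIntegral_nonneg measurableSet_Ioo ?_
    intro r hr
    have := hr.1
    positivity
  have hI0' : 0 ≤ I0 := by
    rw [hI0]
    refine setIntegral_nonneg measurableSet_Ioi ?_
    intro r hr
    have h1 : 0 < r := hr
    have h2 := W9_wgt_nonneg ρ r
    positivity
  -- the local integral
  have hJ : ∫ r in (ρ - 1)..(ρ + 1), g r ^ 2 ≤ 32 / ρ * I0 := by
    have h1 : ∫ r in (ρ - 1)..(ρ + 1), g r ^ 2 = ∫ r in Ioc (ρ - 1) (ρ + 1), g r ^ 2 :=
      intervalIntegral.integral_of_le (by linarith)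
    have h2 : ∫ r in Ioc (ρ - 1) (ρ + 1), g r ^ 2 ≤
        ∫ r in Ioc (ρ - 1) (ρ + 1), 32 / ρ * (wgt ρ r * g r ^ 2 * r) := by
      have hsub : Ioc (ρ - 1) (ρ + 1) ⊆ Ioi 0 := by
        intro r hr
        have := hr.1
        exact mem_Ioi.2 (by linarith)
      refine setIntegral_mono_on ?_ ?_ measurableSet_Ioc ?_
      · exact ((hgcont.pow 2).integrableOn_Icc).mono_set Ioc_subset_Icc_self
      · exact ((W9_int_wgt hgcont hgc).mono_set hsub).const_mul _
      · intro r hr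
        have hr0 : 0 < r := by linarith [hr.1]
        have hw := W9_wgt_ge hρ0 hr0 (by linarith [hr.2])
        have e1 : 1 ≤ 32 / ρ * (wgt ρ r * r) := by
          have e2 : ρ / 2 ≤ r := by linarith [hr.1]
          have e3 : 1 / 16 * (ρ / 2) ≤ wgt ρ r * r := mul_le_mul hw e2 (by positivity)
            (by linarith)
          have e4 := mul_le_mul_of_nonneg_left e3 (by positivity : (0 : ℝ) ≤ 32 / ρ)
          have e5 : 32 / ρ * (1 / 16 * (ρ / 2)) = 1 := by
            field_simp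
            norm_num
          linarith
        have e6 := mul_le_mul_of_nonneg_right e1 (sq_nonneg (g r))
        linarith
    have h3 : ∫ r in Ioc (ρ - 1) (ρ + 1), 32 / ρ * (wgt ρ r * g r ^ 2 * r) ≤
        ∫ r in Ioi (0 : ℝ), 32 / ρ * (wgt ρ r * g r ^ 2 * r) := by
      refine setIntegral_mono_set ((W9_int_wgt hgcont hgc).const_mul _) ?_ ?_
      · filter_upwards [ae_restrict_mem measurableSet_Ioi] with r hr
        have h1 : 0 < r := hr
        have h2 := W9_wgt_nonneg ρ r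
        show 0 ≤ 32 / ρ * (wgt ρ r * g r ^ 2 * r)
        positivity
      · refine LE.le.eventuallyLE ?_
        intro r hr
        have := hr.1
        exact mem_Ioi.2 (by linarith)
    have h4 : ∫ r in Ioi (0 : ℝ), 32 / ρ * (wgt ρ r * g r ^ 2 * r) = 32 / ρ * I0 := by
      rw [integral_const_mul, ← hI0]
    linarith
  -- `I ≤ 2 I0 + 8 ρ a²`
  have hI : ∫ r in Ioi (0 : ℝ), wgt ρ r * f r ^ 2 * r ≤ 2 * I0 + 8 * ρ * a ^ 2 := by
    have h1 : ∫ r in Ioi (0 : ℝ), wgt ρ r * f r ^ 2 * r ≤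
        ∫ r in Ioi (0 : ℝ), (2 * (wgt ρ r * g r ^ 2 * r) +
          2 * a ^ 2 * (om (r - ρ) * om (r - ρ) * r)) := by
      refine setIntegral_mono_on (W9_int_wgt hfc hcf) ?_ measurableSet_Ioi ?_
      · refine ((W9_int_wgt hgcont hgc).const_mul _).add ?_
        exact (W9_int (by fun_prop) (homc.mul_right.mul_right)).const_mul _
      · intro r hr
        have hr0 : 0 < r := hr
        have hw0 := W9_wgt_nonneg ρ r
        have hw1 := W9_wgt_le ρ r
        rw [hgf' r]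
        have e1 : (g r + a * om (r - ρ)) ^ 2 ≤ 2 * g r ^ 2 +
            2 * a ^ 2 * (om (r - ρ) * om (r - ρ)) := by
          have := sq_nonneg (g r - a * om (r - ρ))
          linarith
        have e2 : wgt ρ r * (g r + a * om (r - ρ)) ^ 2 * r ≤
            wgt ρ r * (2 * g r ^ 2 + 2 * a ^ 2 * (om (r - ρ) * om (r - ρ))) * r :=
          mul_le_mul_of_nonneg_right (mul_le_mul_of_nonneg_left e1 hw0) hr0.le
        have e3 : wgt ρ r * (2 * a ^ 2 * (om (r - ρ) * om (r - ρ)) * r) ≤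
            1 * (2 * a ^ 2 * (om (r - ρ) * om (r - ρ)) * r) := by
          refine mul_le_mul_of_nonneg_right hw1 ?_
          have := mul_self_nonneg (om (r - ρ))
          positivity
        linarith
    have hio : IntegrableOn (fun r => om (r - ρ) * om (r - ρ) * r) (Ioi 0) :=
      W9_int (by fun_prop) (homc.mul_right.mul_right)
    rw [integral_add ((W9_int_wgt hgcont hgc).const_mul _) (hio.const_mul _), integral_const_mul,
      integral_const_mul, ← hI0, ← hN] at h1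
    have h2 : 2 * a ^ 2 * N ≤ 2 * a ^ 2 * (4 * ρ) :=
      mul_le_mul_of_nonneg_left hN2 (by positivity)
    linarith
  have hI' : ∫ r in Ioo 0 (0.96 * ρ), f r ^ 2 * r = I1 := by
    rw [hI1]
    refine setIntegral_congr_fun measurableSet_Ioo ?_
    intro r hr
    show f r ^ 2 * r = g r ^ 2 * r
    rw [hgf' r, W9_om_zero (t := r - ρ)]
    · ring
    · have := hr.2
      rw [abs_of_nonpos (by linarith)]
      linarith
  rw [hI', ← hL]
  obtain ⟨Q, hQ⟩ : ∃ Q : ℝ, Q = ∫ r in Ioi (0 : ℝ), (deriv f r ^ 2 +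
    VV μ F r * f r ^ 2) * r := ⟨_, rfl⟩
  rw [← hQ] at hE ⊢
  obtain ⟨I, hIdef⟩ : ∃ I : ℝ, I = ∫ r in Ioi (0 : ℝ), wgt ρ r * f r ^ 2 * r := ⟨_, rfl⟩
  rw [← hIdef] at hI ⊢
  obtain ⟨J, hJdef⟩ : ∃ J : ℝ, J = ∫ r in (ρ - 1)..(ρ + 1), g r ^ 2 := ⟨_, rfl⟩
  rw [← hJdef] at hE hJ
  -- final computation
  have k1 : c1 / (64 * ρ) * J ≤ Q0 / 2 := by
    have e1 := mul_le_mul_of_nonneg_left hJ (by positivity : 0 ≤ c1 / (64 * ρ))
    have e2 : c1 / (64 * ρ) * (32 / ρ * I0) = (c1 * (ρ ^ 2)⁻¹ * I0) / 2 := by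
      field_simp
      ring
    have e3 : 0 ≤ c1 * I1 := by positivity
    rw [e2] at e1
    linarith
  have k2 : a ^ 2 * (2 * ((3 * M + 2 * K) ^ 2 * ρ ^ 2 / (c1 / (64 * ρ)) + 2 * K * ρ)) ≤
      C2 * ρ * L ^ 2 := by
    have e1 : (3 * M + 2 * K) ^ 2 * ρ ^ 2 / (c1 / (64 * ρ)) =
        (3 * M + 2 * K) ^ 2 * (64 / c1) * ρ ^ 3 := by
      field_simp
    have e2 : 2 * K * ρ ≤ 2 * K * ρ ^ 3 := by
      have : ρ ≤ ρ ^ 3 := by
        have := pow_le_pow_right₀ (by linarith : (1 : ℝ) ≤ ρ) (by norm_num : 1 ≤ 3)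
        simpa using this
      exact mul_le_mul_of_nonneg_left this (by positivity)
    calc a ^ 2 * (2 * ((3 * M + 2 * K) ^ 2 * ρ ^ 2 / (c1 / (64 * ρ)) + 2 * K * ρ)) ≤
        a ^ 2 * (C2 * ρ ^ 3) := by
          refine mul_le_mul_of_nonneg_left ?_ (sq_nonneg _)
          rw [e1, hC2]
          linarith
      _ = C2 * ρ * (a ^ 2 * ρ ^ 2) := by ring
      _ ≤ C2 * ρ * L ^ 2 := mul_le_mul_of_nonneg_left ha2 (by positivity)
  have k3 : C2 * ρ * L ^ 2 ≤ ρ ^ 2 * L ^ 2 / 2 := by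
    have : C2 * ρ ≤ ρ ^ 2 / 2 := by nlinarith only [mul_le_mul_of_nonneg_right hρ2 hρ0.le]
    have := mul_le_mul_of_nonneg_right this (sq_nonneg L)
    linarith
  have k4 : c * (ρ ^ 2)⁻¹ * I ≤ c * (ρ ^ 2)⁻¹ * (2 * I0 + 8 * ρ * a ^ 2) :=
    mul_le_mul_of_nonneg_left hI (by positivity)
  have k5 : c * (ρ ^ 2)⁻¹ * (8 * ρ * a ^ 2) ≤ L ^ 2 := by
    have e1 : c * (ρ ^ 2)⁻¹ * (8 * ρ * a ^ 2) ≤ 1 * (ρ ^ 2)⁻¹ * (8 * ρ * a ^ 2) := by
      refine mul_le_mul_of_nonneg_right (mul_le_mul_of_nonneg_right hcone (by positivity)) ?_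
      positivity
    have e2 : 1 * (ρ ^ 2)⁻¹ * (8 * ρ * a ^ 2) = 8 / ρ ^ 3 * (a ^ 2 * ρ ^ 2) := by
      field_simp
    have e3 : 8 / ρ ^ 3 * (a ^ 2 * ρ ^ 2) ≤ 1 * L ^ 2 := by
      refine mul_le_mul ?_ ha2 (by positivity) zero_le_one
      rw [div_le_one (by positivity)]
      have : (2 : ℝ) ^ 3 ≤ ρ ^ 3 := pow_le_pow_left₀ (by norm_num) (by linarith) 3
      linarith
    linarith
  have k6 : L ^ 2 ≤ ρ ^ 2 * L ^ 2 / 2 := by
    have : (2 : ℝ) ≤ ρ ^ 2 := by nlinarith only [hρ]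
    have := mul_le_mul_of_nonneg_right this (sq_nonneg L)
    linarith
  have k7 : c * (ρ ^ 2)⁻¹ * (2 * I0) + c * I1 ≤ Q0 / 2 := by
    have e1 : c * ((ρ ^ 2)⁻¹ * I0) ≤ c1 / 4 * ((ρ ^ 2)⁻¹ * I0) :=
      mul_le_mul_of_nonneg_right hcc1 (by positivity)
    have e2 : c * I1 ≤ c1 / 4 * I1 := mul_le_mul_of_nonneg_right hcc1 hI1'
    have e3 : 0 ≤ c1 * I1 := by positivity
    linarith
  linarith

end Pool.MP_ad5d82_an.Wl
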