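import Pool.Agent.Lib.MP_ad5d82_an.h24.WDefs

set_option autoImplicit false

namespace Pool.MP_ad5d82_an.Wl

open Real Set MeasureTheory
open scoped ContDiff

/-! ### W11a an almost optimal cut-off -/

private theorem W11a_deriv_bound : ∃ D : ℝ, 0 ≤ D ∧ ∀ x, |deriv Real.smoothTransition x| ≤ D := by
  have hs : ContDiff ℝ ∞ Real.smoothTransition := Real.smoothTransition.contDiff
  have hc : Continuous (deriv Real.smoothTransition) := hs.continuous_deriv (by simp)
  obtain ⟨D, hD⟩ := (isCompact_Icc (a := (0 : ℝ)) (b := 1)).exists_bound_of_continuousOn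
    hc.continuousOn
  have hD0 : 0 ≤ D := (norm_nonneg _).trans (hD 0 ⟨le_rfl, zero_le_one⟩)
  refine ⟨D, hD0, fun x => ?_⟩
  rcases lt_or_ge x 0 with hx | hx
  · have h1 : Real.smoothTransition =ᶠ[nhds x] fun _ => 0 := by
      filter_upwards [isOpen_Iio.mem_nhds (show x ∈ Iio (0 : ℝ) from hx)] with z hz
      exact Real.smoothTransition.zero_of_nonpos (le_of_lt hz)
    rw [h1.deriv_eq]
    simpa using hD0
  · rcases le_or_gt x 1 with hx1 | hx1
    · exact hD x ⟨hx, hx1⟩
    · have h1 : Real.smoothTransition =ᶠ[nhds x] fun _ => 1 := by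
        filter_upwards [isOpen_Ioi.mem_nhds (show x ∈ Ioi (1 : ℝ) from hx1)] with z hz
        exact Real.smoothTransition.one_of_one_le (le_of_lt hz)
      rw [h1.deriv_eq]
      simpa using hD0

/-- the integrated step -/
private theorem W11a_exists_m (N : ℝ) (hN : 0 < N) : ∃ m : ℝ → ℝ, ContDiff ℝ ∞ m ∧
    (∀ t, HasDerivAt m (Real.smoothTransition (N * t)) t) ∧ (∀ t ≤ 0, m t = 0) ∧
    (∀ t, 0 ≤ t → t - 1 / N ≤ m t) := by
  obtain ⟨m, hm⟩ : ∃ m : ℝ → ℝ, m = fun t => ∫ τ in (0 : ℝ)..t, Real.smoothTransition (N * τ) :=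
    ⟨_, rfl⟩
  have hSs : ContDiff ℝ ∞ fun t : ℝ => Real.smoothTransition (N * t) :=
    Real.smoothTransition.contDiff.comp (contDiff_const.mul contDiff_id)
  have hSc := hSs.continuous
  have hd : ∀ t, HasDerivAt m (Real.smoothTransition (N * t)) t := by
    intro t
    rw [hm]
    exact intervalIntegral.integral_hasDerivAt_right (hSc.intervalIntegrable _ _)
      (hSc.stronglyMeasurableAtFilter _ _) hSc.continuousAt
  have hms : ContDiff ℝ ∞ m := by
    rw [contDiff_infty_iff_deriv]
    refine ⟨fun t => (hd t).differentiableAt, ?_⟩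
    rw [show deriv m = fun t => Real.smoothTransition (N * t) from funext fun t => (hd t).deriv]
    exact hSs
  have hmc := hms.continuous
  have hm0 : ∀ t ≤ 0, m t = 0 := by
    intro t ht
    rw [hm]
    have h1 : ∀ τ ∈ uIcc (0 : ℝ) t, Real.smoothTransition (N * τ) = (fun _ : ℝ => (0 : ℝ)) τ := by
      intro τ hτ
      rw [uIcc_of_ge ht] at hτ
      exact Real.smoothTransition.zero_of_nonpos
        (mul_nonpos_of_nonneg_of_nonpos hN.le hτ.2)
    simp only
    rw [intervalIntegral.integral_congr h1]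
    simp
  have hmono : Monotone m := by
    refine monotone_of_deriv_nonneg (fun t => (hd t).differentiableAt) fun t => ?_
    rw [(hd t).deriv]
    exact Real.smoothTransition.nonneg _
  have hmn : ∀ t, 0 ≤ t → 0 ≤ m t := by
    intro t ht
    rw [← hm0 0 le_rfl]
    exact hmono ht
  refine ⟨m, hms, hd, hm0, ?_⟩
  intro t ht
  rcases le_total t (1 / N) with h | h
  · have := hmn t ht
    linarith
  · have hg : AntitoneOn (fun t => t - m t) (Ici (1 / N)) := by
      have hgd : ∀ x, HasDerivAt (fun t => t - m t) (1 - Real.smoothTransition (N * x)) x :=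
        fun x => (hasDerivAt_id x).sub (hd x)
      refine antitoneOn_of_deriv_nonpos (convex_Ici _) (by fun_prop) ?_ ?_
      · intro x _
        exact (hgd x).differentiableAt.differentiableWithinAt
      · intro x hx
        rw [interior_Ici] at hx
        rw [(hgd x).deriv]
        have hx' : 1 / N < x := hx
        have h1 : 1 ≤ N * x := by
          rw [div_lt_iff₀ hN] at hx'
          linarith
        rw [Real.smoothTransition.one_of_one_le h1]
        norm_num
    have h1 := hg (mem_Ici.2 (le_refl (1 / N))) (mem_Ici.2 h) h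
    simp only at h1
    have h2 := hmn (1 / N) (by positivity)
    linarith

/-- the cut-off with parameter `N` -/
private theorem W11a_cut (k : ℕ) (D : ℝ) (hD0 : 0 ≤ D)
    (hD : ∀ x, |deriv Real.smoothTransition x| ≤ D) (N : ℝ) (hN : 0 < N) :
    ∃ h : ℝ → ℝ, ContDiff ℝ ∞ h ∧ (∀ t ≤ 0, h t = 1) ∧ (∀ t, N ≤ t → h t = 0) ∧
      (∀ t, 0 ≤ h t ∧ h t ≤ 1) ∧
      (∀ t, 0 ≤ t → deriv h t ^ 2 + k ^ 2 * h t ^ 2 ≤
        (exp (2 * k * (1 / N)) * ((k + 2 * D * (1 / N)) ^ 2 + k ^ 2)) *
          exp (-(2 * k) * t)) := by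
  obtain ⟨m, hms, hmd, hm0, hmt⟩ := W11a_exists_m N hN
  have hmn : ∀ t, 0 ≤ m t := by
    intro t
    rcases le_total t 0 with h | h
    · rw [hm0 t h]
    · have hmono : Monotone m := by
        refine monotone_of_deriv_nonneg (fun t => (hmd t).differentiableAt) fun t => ?_
        rw [(hmd t).deriv]
        exact Real.smoothTransition.nonneg _
      have := hmono h
      rw [hm0 0 le_rfl] at this
      exact this
  have hcs : ContDiff ℝ ∞ fun t : ℝ => Real.smoothTransition (2 - 2 * (t / N)) := by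
    refine Real.smoothTransition.contDiff.comp ?_
    fun_prop
  refine ⟨fun t => exp (-(k * m t)) * Real.smoothTransition (2 - 2 * (t / N)), ?_, ?_, ?_, ?_, ?_⟩
  · exact ((contDiff_const.mul hms).neg.exp).mul hcs
  · intro t ht
    simp only
    rw [hm0 t ht, Real.smoothTransition.one_of_one_le]
    · simp
    · have : t / N ≤ 0 := div_nonpos_of_nonpos_of_nonneg ht hN.le
      linarith
  · intro t ht
    simp only
    rw [Real.smoothTransition.zero_of_nonpos, mul_zero]
    have : 1 ≤ t / N := by rwa [le_div_iff₀ hN, one_mul]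
    linarith
  · intro t
    have h1 := Real.smoothTransition.nonneg (2 - 2 * (t / N))
    have h2 := Real.smoothTransition.le_one (2 - 2 * (t / N))
    have h3 := exp_pos (-(k * m t))
    have h4 : exp (-(k * m t)) ≤ 1 := by
      rw [exp_le_one_iff]
      have := mul_nonneg (Nat.cast_nonneg k : (0 : ℝ) ≤ k) (hmn t)
      linarith
    constructor
    · positivity
    · nlinarith
  · intro t ht
    have hd1 : HasDerivAt (fun t : ℝ => 2 - 2 * (t / N)) (-(2 * (1 / N))) t :=
      (((hasDerivAt_id t).div_const N).const_mul 2).const_sub 2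
    have hd2 : HasDerivAt Real.smoothTransition (deriv Real.smoothTransition (2 - 2 * (t / N)))
        (2 - 2 * (t / N)) := by
      have hs : ContDiff ℝ ∞ Real.smoothTransition := Real.smoothTransition.contDiff
      exact ((hs.differentiable (by simp)) _).hasDerivAt
    have hd3 : HasDerivAt (fun t : ℝ => Real.smoothTransition (2 - 2 * (t / N)))
        (deriv Real.smoothTransition (2 - 2 * (t / N)) * -(2 * (1 / N))) t :=
      HasDerivAt.comp (h₂ := Real.smoothTransition) (h := fun t : ℝ => 2 - 2 * (t / N)) t hd2 hd1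
    have hd4 : HasDerivAt (fun t : ℝ => exp (-(k * m t)))
        (exp (-(k * m t)) * -(k * Real.smoothTransition (N * t))) t :=
      ((hmd t).const_mul (k : ℝ)).neg.exp
    have hd5 : deriv (fun t => exp (-(k * m t)) * Real.smoothTransition (2 - 2 * (t / N))) t =
        exp (-(k * m t)) * -(k * Real.smoothTransition (N * t)) *
          Real.smoothTransition (2 - 2 * (t / N)) + exp (-(k * m t)) *
          (deriv Real.smoothTransition (2 - 2 * (t / N)) * -(2 * (1 / N))) :=
      (hd4.mul hd3).deriv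
    rw [hd5]
    simp only
    obtain ⟨E, hE⟩ : ∃ E : ℝ, E = exp (-(k * m t)) := ⟨_, rfl⟩
    obtain ⟨c, hc⟩ : ∃ c : ℝ, c = Real.smoothTransition (2 - 2 * (t / N)) := ⟨_, rfl⟩
    obtain ⟨d, hd⟩ : ∃ d : ℝ, d = deriv Real.smoothTransition (2 - 2 * (t / N)) := ⟨_, rfl⟩
    obtain ⟨s, hs⟩ : ∃ s : ℝ, s = Real.smoothTransition (N * t) := ⟨_, rfl⟩
    rw [← hE, ← hc, ← hd, ← hs]
    have hc0 : 0 ≤ c := by rw [hc]; exact Real.smoothTransition.nonneg _
    have hc1 : c ≤ 1 := by rw [hc]; exact Real.smoothTransition.le_one _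
    have hs0 : 0 ≤ s := by rw [hs]; exact Real.smoothTransition.nonneg _
    have hs1 : s ≤ 1 := by rw [hs]; exact Real.smoothTransition.le_one _
    have hdD : |d| ≤ D := by rw [hd]; exact hD _
    have hk : (0 : ℝ) ≤ k := Nat.cast_nonneg k
    have hi : 0 < 1 / N := by positivity
    obtain ⟨i, hi'⟩ : ∃ i : ℝ, i = 1 / N := ⟨_, rfl⟩
    rw [← hi'] at hi ⊢
    -- the bound of the derivative
    have h1 : |(k : ℝ) * s * c + d * (2 * i)| ≤ k + 2 * D * i := by
      have e1 := abs_add_le ((k : ℝ) * s * c) (d * (2 * i))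
      have e2 : |(k : ℝ) * s * c| ≤ k := by
        rw [abs_of_nonneg (by positivity)]
        have : s * c ≤ 1 := by nlinarith
        nlinarith
      have e3 : |d * (2 * i)| ≤ 2 * D * i := by
        rw [abs_mul, abs_of_pos (by positivity : 0 < 2 * i)]
        nlinarith
      linarith
    have h2 : (E * -(k * s) * c + E * (d * -(2 * i))) ^ 2 ≤ E ^ 2 * (k + 2 * D * i) ^ 2 := by
      have e1 : (E * -(k * s) * c + E * (d * -(2 * i))) ^ 2 =
          E ^ 2 * ((k : ℝ) * s * c + d * (2 * i)) ^ 2 := by ring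
      rw [e1]
      refine mul_le_mul_of_nonneg_left ?_ (sq_nonneg _)
      rw [← sq_abs]
      exact pow_le_pow_left₀ (abs_nonneg _) h1 2
    have h3 : (k : ℝ) ^ 2 * (E * c) ^ 2 ≤ E ^ 2 * k ^ 2 := by
      have e1 : (k : ℝ) ^ 2 * (E * c) ^ 2 = E ^ 2 * k ^ 2 * c ^ 2 := by ring
      rw [e1]
      have e2 : c ^ 2 ≤ 1 := by nlinarith
      have e3 : 0 ≤ E ^ 2 * (k : ℝ) ^ 2 := by positivity
      nlinarith
    have h4 : E ^ 2 ≤ exp (2 * k * i) * exp (-(2 * k) * t) := by
      rw [hE, ← exp_nat_mul, ← exp_add]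
      refine exp_le_exp.2 ?_
      have := hmt t ht
      rw [← hi'] at this
      push_cast
      nlinarith
    calc (E * -(k * s) * c + E * (d * -(2 * i))) ^ 2 + (k : ℝ) ^ 2 * (E * c) ^ 2
        ≤ E ^ 2 * (k + 2 * D * i) ^ 2 + E ^ 2 * k ^ 2 := add_le_add h2 h3
      _ = E ^ 2 * ((k + 2 * D * i) ^ 2 + k ^ 2) := by ring
      _ ≤ (exp (2 * k * i) * exp (-(2 * k) * t)) * ((k + 2 * D * i) ^ 2 + k ^ 2) :=
          mul_le_mul_of_nonneg_right h4 (by positivity)
      _ = _ := by ring

theorem exists_cut (k : ℕ) (δ : ℝ) (hδ : 0 < δ) :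
    ∃ T > 0, ∃ h : ℝ → ℝ, ContDiff ℝ ∞ h ∧ (∀ t ≤ 0, h t = 1) ∧ (∀ t, T ≤ t → h t = 0) ∧
      (∀ t, 0 ≤ h t ∧ h t ≤ 1) ∧
      ∫ t in Ioi (0 : ℝ), (deriv h t ^ 2 + k ^ 2 * h t ^ 2) ≤ k + δ := by
  obtain ⟨D, hD0, hD⟩ := W11a_deriv_bound
  have hinv : Filter.Tendsto (fun N : ℝ => 1 / N) Filter.atTop (nhds 0) := by
    simpa using tendsto_inv_atTop_zero (𝕜 := ℝ)
  rcases Nat.eq_zero_or_pos k with hk | hk
  · -- `k = 0`
    subst hk
    have hlim : Filter.Tendsto (fun N : ℝ => 4 * D ^ 2 * (1 / N)) Filter.atTop (nhds 0) := by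
      simpa using hinv.const_mul (4 * D ^ 2)
    obtain ⟨N, hN1, hN2⟩ := ((hlim.eventually (gt_mem_nhds hδ)).and
      (Filter.eventually_gt_atTop 0)).exists
    obtain ⟨h, hs, h0, hT, hb, hE⟩ := W11a_cut 0 D hD0 hD N hN2
    refine ⟨N, hN2, h, hs, h0, hT, hb, ?_⟩
    have h1 : ∫ t in Ioi (0 : ℝ), (deriv h t ^ 2 + ((0 : ℕ) : ℝ) ^ 2 * h t ^ 2) ≤
        ∫ t in Ioi (0 : ℝ), (Ioc (0 : ℝ) N).indicator (fun _ => 4 * D ^ 2 * (1 / N) ^ 2) t := by
      refine integral_mono_of_nonneg (Filter.Eventually.of_forall fun t => by positivity) ?_ ?_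
      · refine Integrable.integrableOn ?_
        rw [integrable_indicator_iff measurableSet_Ioc]
        exact integrableOn_const (by simp)
      · refine (ae_restrict_iff' measurableSet_Ioi).2 (Filter.Eventually.of_forall fun t ht => ?_)
        have ht0 : 0 < t := ht
        rcases le_or_gt t N with htN | htN
        · rw [indicator_of_mem (show t ∈ Ioc (0 : ℝ) N from ⟨ht0, htN⟩)]
          have := hE t ht0.le
          simp only [Nat.cast_zero, mul_zero, zero_mul, exp_zero, neg_zero, zero_add, ne_eq,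
            OfNat.ofNat_ne_zero, not_false_eq_true, zero_pow, add_zero, one_mul, mul_one] at this ⊢
          refine this.trans (le_of_eq ?_)
          ring
        · rw [indicator_of_notMem (fun hc => absurd hc.2 (not_le.2 htN))]
          have h2 : h =ᶠ[nhds t] fun _ => 0 := by
            filter_upwards [isOpen_Ioi.mem_nhds (show t ∈ Ioi N from htN)] with z hz
            exact hT z (le_of_lt hz)
          have h3 : deriv h t = 0 := by
            rw [h2.deriv_eq]
            simp
          simp only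
          rw [h3, hT t htN.le]
          simp
    refine h1.trans ?_
    rw [setIntegral_indicator measurableSet_Ioc]
    have h3 : Ioi (0 : ℝ) ∩ Ioc 0 N = Ioc 0 N := by
      rw [inter_eq_right]
      exact fun x hx => hx.1
    rw [h3, setIntegral_const]
    simp only [Measure.real, Real.volume_Ioc, sub_zero, ENNReal.toReal_ofReal hN2.le, smul_eq_mul]
    have h4 : N * (4 * D ^ 2 * (1 / N) ^ 2) = 4 * D ^ 2 * (1 / N) := by
      field_simp
    rw [h4]
    push_cast
    linarith
  · -- `k ≥ 1`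
    have hk0 : (0 : ℝ) < k := by exact_mod_cast hk
    have hlim : Filter.Tendsto (fun N : ℝ => (exp (2 * k * (1 / N)) *
        ((k + 2 * D * (1 / N)) ^ 2 + k ^ 2)) / (2 * (k : ℝ))) Filter.atTop (nhds (k : ℝ)) := by
      have h1 : Filter.Tendsto (fun x : ℝ => (exp (2 * k * x) *
          ((k + 2 * D * x) ^ 2 + k ^ 2)) / (2 * (k : ℝ))) (nhds 0) (nhds (k : ℝ)) := by
        have h2 : Continuous fun x : ℝ => (exp (2 * k * x) *
          ((k + 2 * D * x) ^ 2 + k ^ 2)) / (2 * (k : ℝ)) := by fun_prop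
        have h3 := h2.tendsto 0
        have h4 : (exp (2 * k * (0 : ℝ)) * ((k + 2 * D * 0) ^ 2 + (k : ℝ) ^ 2)) / (2 * k) = k := by
          rw [mul_zero, exp_zero, mul_zero, add_zero, one_mul]
          field_simp
          ring
        rw [h4] at h3
        exact h3
      exact h1.comp hinv
    obtain ⟨N, hN1, hN2⟩ := ((hlim.eventually (gt_mem_nhds (by linarith : (k : ℝ) < k + δ))).and
      (Filter.eventually_gt_atTop 0)).exists
    obtain ⟨h, hs, h0, hT, hb, hE⟩ := W11a_cut k D hD0 hD N hN2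
    refine ⟨N, hN2, h, hs, h0, hT, hb, ?_⟩
    obtain ⟨c, hc⟩ : ∃ c : ℝ, c = exp (2 * k * (1 / N)) * ((k + 2 * D * (1 / N)) ^ 2 + k ^ 2) :=
      ⟨_, rfl⟩
    rw [← hc] at hN1 hE
    have h1 : ∫ t in Ioi (0 : ℝ), (deriv h t ^ 2 + (k : ℝ) ^ 2 * h t ^ 2) ≤
        ∫ t in Ioi (0 : ℝ), c * exp (-(2 * k) * t) := by
      refine integral_mono_of_nonneg (Filter.Eventually.of_forall fun t => by positivity) ?_ ?_
      · exact (integrableOn_exp_mul_Ioi (by linarith) 0).const_mul c
      · refine (ae_restrict_iff' measurableSet_Ioi).2 (Filter.Eventually.of_forall fun t ht => ?_)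
        exact hE t (le_of_lt ht)
    refine h1.trans ?_
    rw [integral_const_mul, integral_exp_mul_Ioi (by linarith) 0, mul_zero, exp_zero]
    have h2 : c * (-1 / -(2 * (k : ℝ))) = c / (2 * k) := by
      rw [neg_div_neg_eq]
      ring
    rw [h2]
    exact hN1.le

end Pool.MP_ad5d82_an.Wl
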