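import Pool.Agent.Lib.MP_ad5d82_an.h24.WDefs
import Pool.Agent.Lib.MP_ad5d82_an.h24.W.W1

set_option autoImplicit false

namespace Pool.MP_ad5d82_an.Wl

open Real Set MeasureTheory
open scoped ContDiff

/-! ### W12 derivative bounds of the wall -/

private theorem W12_abs_mul_le {a b A B : ℝ} (ha : |a| ≤ A) (hb : |b| ≤ B) : |a * b| ≤ A * B := by
  rw [abs_mul]
  exact mul_le_mul ha hb (abs_nonneg _) ((abs_nonneg _).trans ha)

theorem y_deriv_bounds : ∃ C : ℝ, ∀ ρ ε F, Wall ρ ε F → ∀ n ≤ 3, ∀ r : ℝ, 1 ≤ r →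
    |iteratedDeriv n (yy F) r| ≤ C := by
  refine ⟨20, ?_⟩
  intro ρ ε F h n hn r hr
  -- formulas
  obtain ⟨u1, hu1⟩ : ∃ u1 : ℝ → ℝ, u1 = fun x => yy F x * qq F x - uu F x / x := ⟨_, rfl⟩
  have e1 : iteratedDeriv 1 (yy F) = fun x => -(yy F x * uu F x) := by
    rw [iteratedDeriv_one]
    exact funext fun x => (W1_hasDerivAt_y h x).deriv
  have hd2 : ∀ x, 0 < x → HasDerivAt (fun x => -(yy F x * uu F x))
      (yy F x * uu F x * uu F x - yy F x * u1 x) x := by
    intro x hx
    refine ((W1_hasDerivAt_y h x).mul (hasDerivAt_u h hx)).neg.congr_deriv ?_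
    rw [hu1]
    ring
  have e2 : ∀ x, 0 < x → iteratedDeriv 2 (yy F) x =
      yy F x * uu F x * uu F x - yy F x * u1 x := by
    intro x hx
    rw [iteratedDeriv_succ, e1]
    exact (hd2 x hx).deriv
  have hdu1 : ∀ x, 0 < x → HasDerivAt u1
      ((-(yy F x * uu F x) * qq F x + yy F x * (yy F x * uu F x)) -
        (u1 x * x - uu F x * 1) / x ^ 2) x := by
    intro x hx
    have h1 := ((W1_hasDerivAt_y h x).mul (hasDerivAt_q h x)).sub
      ((hasDerivAt_u h hx).div (hasDerivAt_id x) hx.ne')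
    rw [hu1]
    exact h1
  have hd3 : ∀ x, 0 < x → HasDerivAt (fun x => yy F x * uu F x * uu F x - yy F x * u1 x)
      (((-(yy F x * uu F x) * uu F x + yy F x * u1 x) * uu F x +
        yy F x * uu F x * u1 x) - (-(yy F x * uu F x) * u1 x + yy F x *
        ((-(yy F x * uu F x) * qq F x + yy F x * (yy F x * uu F x)) -
        (u1 x * x - uu F x * 1) / x ^ 2))) x := by
    intro x hx
    have hu := hasDerivAt_u h hx
    have hu' : HasDerivAt (uu F) (u1 x) x := by
      rw [hu1]
      exact hu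
    exact (((W1_hasDerivAt_y h x).mul hu').mul hu').sub
      ((W1_hasDerivAt_y h x).mul (hdu1 x hx))
  have e3 : ∀ x, 0 < x → iteratedDeriv 3 (yy F) x =
      ((-(yy F x * uu F x) * uu F x + yy F x * u1 x) * uu F x +
        yy F x * uu F x * u1 x) - (-(yy F x * uu F x) * u1 x + yy F x *
        ((-(yy F x * uu F x) * qq F x + yy F x * (yy F x * uu F x)) -
        (u1 x * x - uu F x * 1) / x ^ 2)) := by
    intro x hx
    rw [iteratedDeriv_succ]
    have h1 : iteratedDeriv 2 (yy F) =ᶠ[nhds x]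
        fun x => yy F x * uu F x * uu F x - yy F x * u1 x := by
      filter_upwards [isOpen_Ioi.mem_nhds (show x ∈ Ioi (0 : ℝ) from hx)] with z hz
      exact e2 z hz
    rw [h1.deriv_eq]
    exact (hd3 x hx).deriv
  -- bounds
  have hr0 : 0 < r := by linarith
  have by' : |yy F r| ≤ 1 := by
    rw [abs_of_pos (W1_y_pos F r)]
    exact (W1_y_lt_one h hr0.le).le
  have bq : |qq F r| ≤ 1 := by
    rw [abs_of_pos (W1_q_pos h hr0.le)]
    exact (W1_q_lt_one F r).le
  have bu : |uu F r| ≤ 1 := by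
    rw [abs_of_nonneg (W1_u_nonneg h hr0.le)]
    have := u_lt_q h hr0.le
    have := W1_q_lt_one F r
    linarith
  have byu : |yy F r * uu F r| ≤ 1 := by simpa using W12_abs_mul_le by' bu
  have bur : |uu F r / r| ≤ 1 := by
    rw [abs_div, abs_of_pos hr0, div_le_one hr0]
    linarith
  have bu1 : |u1 r| ≤ 2 := by
    rw [hu1]
    have h1 : |yy F r * qq F r| ≤ 1 := by simpa using W12_abs_mul_le by' bq
    have h2 := abs_sub (yy F r * qq F r) (uu F r / r)
    simp only
    linarith
  have byuu : |yy F r * uu F r * uu F r| ≤ 1 := by simpa using W12_abs_mul_le byu bu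
  have byu1 : |yy F r * u1 r| ≤ 2 := by simpa using W12_abs_mul_le by' bu1
  have bfrac : |(u1 r * r - uu F r * 1) / r ^ 2| ≤ 3 := by
    rw [abs_div, abs_of_pos (by positivity : 0 < r ^ 2), div_le_iff₀ (by positivity)]
    have h1 : |u1 r * r| ≤ 2 * r := by
      rw [abs_mul, abs_of_pos hr0]
      exact mul_le_mul_of_nonneg_right bu1 hr0.le
    have h2 := abs_sub (u1 r * r) (uu F r * 1)
    have h3 : |uu F r * 1| ≤ 1 := by simpa using bu
    nlinarith
  interval_cases n
  · rw [iteratedDeriv_zero]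
    linarith
  · rw [e1]
    simp only [abs_neg]
    linarith
  · rw [e2 r hr0]
    have h2 := abs_sub (yy F r * uu F r * uu F r) (yy F r * u1 r)
    linarith
  · rw [e3 r hr0]
    have t1 : |-(yy F r * uu F r) * uu F r + yy F r * u1 r| ≤ 3 := by
      have h1 := abs_add_le (-(yy F r * uu F r) * uu F r) (yy F r * u1 r)
      have h2 : |-(yy F r * uu F r) * uu F r| ≤ 1 := by
        rw [neg_mul, abs_neg]
        exact byuu
      linarith
    have t2 : |(-(yy F r * uu F r) * uu F r + yy F r * u1 r) * uu F r| ≤ 3 := by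
      simpa using W12_abs_mul_le t1 bu
    have t3 : |yy F r * uu F r * u1 r| ≤ 2 := by simpa using W12_abs_mul_le byu bu1
    have t4 : |-(yy F r * uu F r) * u1 r| ≤ 2 := by
      rw [neg_mul, abs_neg]
      exact t3
    have t5 : |-(yy F r * uu F r) * qq F r| ≤ 1 := by
      rw [neg_mul, abs_neg]
      simpa using W12_abs_mul_le byu bq
    have t6 : |yy F r * (yy F r * uu F r)| ≤ 1 := by simpa using W12_abs_mul_le by' byu
    have t7 : |(-(yy F r * uu F r) * qq F r + yy F r * (yy F r * uu F r)) -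
        (u1 r * r - uu F r * 1) / r ^ 2| ≤ 5 := by
      have h1 := abs_sub (-(yy F r * uu F r) * qq F r + yy F r * (yy F r * uu F r))
        ((u1 r * r - uu F r * 1) / r ^ 2)
      have h2 := abs_add_le (-(yy F r * uu F r) * qq F r) (yy F r * (yy F r * uu F r))
      linarith
    have t8 := W12_abs_mul_le by' t7
    have s1 := abs_sub ((-(yy F r * uu F r) * uu F r + yy F r * u1 r) * uu F r +
      yy F r * uu F r * u1 r) (-(yy F r * uu F r) * u1 r + yy F r *
        ((-(yy F r * uu F r) * qq F r + yy F r * (yy F r * uu F r)) -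
        (u1 r * r - uu F r * 1) / r ^ 2))
    have s2 := abs_add_le ((-(yy F r * uu F r) * uu F r + yy F r * u1 r) * uu F r)
      (yy F r * uu F r * u1 r)
    have s3 := abs_add_le (-(yy F r * uu F r) * u1 r) (yy F r *
        ((-(yy F r * uu F r) * qq F r + yy F r * (yy F r * uu F r)) -
        (u1 r * r - uu F r * 1) / r ^ 2))
    linarith

end Pool.MP_ad5d82_an.Wl
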