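import Pool.Agent.Lib.MP_ad5d82_an.h24.WDefs
import Pool.Agent.Lib.MP_ad5d82_an.h24.W.W5
import Pool.Agent.Lib.MP_ad5d82_an.h24.W.W6
import Pool.Agent.Lib.MP_ad5d82_an.h24.W.W7
import Pool.Agent.Lib.MP_ad5d82_an.h24.W.W12
import Pool.Agent.Lib.MP_ad5d82_an.h24.W.W11a

set_option autoImplicit false

namespace Pool.MP_ad5d82_an.Wl

open Real Set MeasureTheory
open scoped ContDiff Topology

/-! ### W11 low modes: a negative direction -/

/-- smooth, with three derivatives bounded by `C` at `r` -/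
private def W11_BD (g : ℝ → ℝ) (C r : ℝ) : Prop :=
  ContDiffAt ℝ ∞ g r ∧ ∀ n ≤ 3, |iteratedDeriv n g r| ≤ C

private theorem W11_BD_nonneg {g : ℝ → ℝ} {C r : ℝ} (h : W11_BD g C r) : 0 ≤ C :=
  (abs_nonneg _).trans (h.2 0 (by norm_num))

private theorem W11_BD_mul {g₁ g₂ : ℝ → ℝ} {C₁ C₂ r : ℝ} (h₁ : W11_BD g₁ C₁ r)
    (h₂ : W11_BD g₂ C₂ r) : W11_BD (fun r => g₁ r * g₂ r) (8 * (C₁ * C₂)) r := by
  refine ⟨h₁.1.mul h₂.1, fun n hn => ?_⟩
  have hC₁ := W11_BD_nonneg h₁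
  have hC₂ := W11_BD_nonneg h₂
  have hle : ((n : ℕ) : WithTop ℕ∞) ≤ ∞ := by exact_mod_cast le_top
  have h := iteratedDeriv_fun_mul (n := n) (h₁.1.of_le hle) (h₂.1.of_le hle)
  rw [h]
  refine (Finset.abs_sum_le_sum_abs _ _).trans ?_
  have hterm : ∀ i ∈ Finset.range (n + 1), |(n.choose i : ℝ) * iteratedDeriv i g₁ r *
      iteratedDeriv (n - i) g₂ r| ≤ (n.choose i : ℝ) * (C₁ * C₂) := by
    intro i hi
    rw [Finset.mem_range] at hi
    rw [mul_assoc, abs_mul, abs_mul, abs_of_nonneg (by positivity : (0 : ℝ) ≤ n.choose i)]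
    refine mul_le_mul_of_nonneg_left ?_ (by positivity)
    exact mul_le_mul (h₁.2 i (by omega)) (h₂.2 (n - i) (by omega)) (abs_nonneg _) hC₁
  refine (Finset.sum_le_sum hterm).trans ?_
  rw [← Finset.sum_mul]
  have h2 : ∑ i ∈ Finset.range (n + 1), (n.choose i : ℝ) = 2 ^ n := by
    exact_mod_cast Nat.sum_range_choose n
  rw [h2]
  refine mul_le_mul_of_nonneg_right ?_ (mul_nonneg hC₁ hC₂)
  calc (2 : ℝ) ^ n ≤ 2 ^ 3 := pow_le_pow_right₀ (by norm_num) hn
    _ = 8 := by norm_num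

private theorem W11_BD_const (r : ℝ) : W11_BD (fun _ => (1 : ℝ)) 1 r := by
  refine ⟨contDiffAt_const, fun n _ => ?_⟩
  rw [iteratedDeriv_const]
  split <;> simp

private theorem W11_BD_pow {g : ℝ → ℝ} {C r : ℝ} (h : W11_BD g C r) (m : ℕ) :
    W11_BD (fun r => g r ^ m) ((8 * C) ^ m) r := by
  induction m with
  | zero => simpa using W11_BD_const r
  | succ m ih =>
    have := W11_BD_mul ih h
    have e : (fun r => g r ^ (m + 1)) = fun r => g r ^ m * g r := by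
      funext x
      rw [pow_succ]
    rw [e]
    have e2 : (8 * C) ^ (m + 1) = 8 * ((8 * C) ^ m * C) := by ring
    rw [e2]
    exact this

/-- smooth functions constant on both sides of `[0, T]` -/
private def W11_P (T : ℝ) (g : ℝ → ℝ) : Prop :=
  ContDiff ℝ ∞ g ∧ (∃ a, ∀ t, t < 0 → g t = a) ∧ ∃ b, ∀ t, T < t → g t = b

private theorem W11_P_bdd {T : ℝ} {g : ℝ → ℝ} (h : W11_P T g) : ∃ M, ∀ t, |g t| ≤ M := by
  obtain ⟨hg, ⟨a, ha⟩, b, hb⟩ := h
  obtain ⟨M, hM⟩ := (isCompact_Icc (a := (0 : ℝ)) (b := T)).exists_bound_of_continuousOn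
    hg.continuous.continuousOn
  refine ⟨max M (max |a| |b|), fun t => ?_⟩
  by_cases h0 : t < 0
  · rw [ha t h0]
    exact (le_max_left _ _).trans (le_max_right _ _)
  · by_cases h1 : T < t
    · rw [hb t h1]
      exact (le_max_right _ _).trans (le_max_right _ _)
    · push Not at h0 h1
      exact (hM t ⟨h0, h1⟩).trans (le_max_left _ _)

private theorem W11_P_deriv {T : ℝ} {g : ℝ → ℝ} (h : W11_P T g) : W11_P T (deriv g) := by
  obtain ⟨hg, ⟨a, ha⟩, b, hb⟩ := h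
  refine ⟨((contDiff_infty_iff_deriv (𝕜 := ℝ)).1 hg).2, ⟨0, fun t ht => ?_⟩, 0, fun t ht => ?_⟩
  · have : g =ᶠ[𝓝 t] fun _ => a := by
      filter_upwards [Iio_mem_nhds ht] with s hs
      exact ha s hs
    rw [this.deriv_eq]
    simp
  · have : g =ᶠ[𝓝 t] fun _ => b := by
      filter_upwards [Ioi_mem_nhds ht] with s hs
      exact hb s hs
    rw [this.deriv_eq]
    simp

private theorem W11_P_sub {T c : ℝ} {g₁ g₂ : ℝ → ℝ} (h₁ : W11_P T g₁) (h₂ : W11_P T g₂) :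
    W11_P T (fun t => g₁ t - c * g₂ t) := by
  obtain ⟨hg₁, ⟨a₁, ha₁⟩, b₁, hb₁⟩ := h₁
  obtain ⟨hg₂, ⟨a₂, ha₂⟩, b₂, hb₂⟩ := h₂
  refine ⟨hg₁.sub (contDiff_const.mul hg₂), ⟨a₁ - c * a₂, fun t ht => ?_⟩,
    b₁ - c * b₂, fun t ht => ?_⟩
  · show g₁ t - c * g₂ t = _
    rw [ha₁ t ht, ha₂ t ht]
  · show g₁ t - c * g₂ t = _
    rw [hb₁ t ht, hb₂ t ht]

private theorem W11_P_iter {T : ℝ} {g : ℝ → ℝ} (h : W11_P T g) (n : ℕ) :
    W11_P T (iteratedDeriv n g) := by
  induction n with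
  | zero => rw [iteratedDeriv_zero]; exact h
  | succ n ih => rw [iteratedDeriv_succ]; exact W11_P_deriv ih

private theorem W11_bdd4 {Q : ℕ → ℝ → Prop} (h : ∀ n, ∃ M, Q n M)
    (hm : ∀ n M M', Q n M → M ≤ M' → Q n M') : ∃ M, 0 ≤ M ∧ ∀ n ≤ 3, Q n M := by
  choose M hM using h
  refine ⟨max 0 (max (max (M 0) (M 1)) (max (M 2) (M 3))), le_max_left _ _, fun n hn => ?_⟩
  refine hm n (M n) _ (hM n) ((?_ : M n ≤ _).trans (le_max_right _ _))
  interval_cases n
  · exact (le_max_left _ _).trans (le_max_left _ _)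
  · exact (le_max_right _ _).trans (le_max_left _ _)
  · exact (le_max_left _ _).trans (le_max_right _ _)
  · exact (le_max_right _ _).trans (le_max_right _ _)

/-- the functions `G n` with `(h ∘ log (·/R))^{(n)} (r) = G n (log (r/R)) / r^n` -/
private noncomputable def W11_G (h : ℝ → ℝ) : ℕ → ℝ → ℝ
  | 0 => h
  | n + 1 => fun t => deriv (W11_G h n) t - n * W11_G h n t

private theorem W11_P_G {T : ℝ} {h : ℝ → ℝ} (hP : W11_P T h) (n : ℕ) : W11_P T (W11_G h n) := by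
  induction n with
  | zero => exact hP
  | succ n ih => exact W11_P_sub (W11_P_deriv ih) ih

private theorem W11_iter_log {T : ℝ} {h : ℝ → ℝ} (hP : W11_P T h) {R : ℝ} (hR : 0 < R) (n : ℕ) :
    ∀ r, 0 < r → iteratedDeriv n (fun r => h (Real.log (r / R))) r =
      W11_G h n (Real.log (r / R)) * (r ^ n)⁻¹ := by
  induction n with
  | zero =>
    intro r hr
    rw [iteratedDeriv_zero]
    simp [W11_G]
  | succ n ih =>
    intro r hr
    rw [iteratedDeriv_succ]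
    have h1 : iteratedDeriv n (fun r => h (Real.log (r / R))) =ᶠ[𝓝 r]
        fun r => W11_G h n (Real.log (r / R)) * (r ^ n)⁻¹ := by
      filter_upwards [Ioi_mem_nhds hr] with s hs
      exact ih s hs
    rw [h1.deriv_eq]
    have h2 : HasDerivAt (fun r => Real.log (r / R)) (r⁻¹) r := by
      have h3 : HasDerivAt (fun r : ℝ => r / R) (1 / R) r := (hasDerivAt_id r).div_const R
      refine (h3.log (by positivity)).congr_deriv ?_
      field_simp
    have h4 : HasDerivAt (W11_G h n) (deriv (W11_G h n) (Real.log (r / R)))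
        (Real.log (r / R)) :=
      ((W11_P_G hP n).1.differentiable (by simp) _).hasDerivAt
    have h5 : HasDerivAt (fun r => W11_G h n (Real.log (r / R)))
        (deriv (W11_G h n) (Real.log (r / R)) * r⁻¹) r := h4.comp r h2
    have h6 : HasDerivAt (fun r : ℝ => (r ^ n)⁻¹) (-(n * r ^ (n - 1)) / (r ^ n) ^ 2) r :=
      (hasDerivAt_pow n r).inv (by positivity)
    have h7 : deriv (fun r => W11_G h n (Real.log (r / R)) * (r ^ n)⁻¹) r = _ := (h5.mul h6).deriv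
    rw [h7]
    show _ = (deriv (W11_G h n) (Real.log (r / R)) - n * W11_G h n (Real.log (r / R))) *
      (r ^ (n + 1))⁻¹
    cases n with
    | zero => simp
    | succ n =>
      rw [Nat.add_sub_cancel]
      field_simp
      ring

private theorem W11_BD_log {T : ℝ} {h : ℝ → ℝ} (hP : W11_P T h) :
    ∃ M, 0 ≤ M ∧ ∀ R : ℝ, 0 < R → ∀ r : ℝ, 1 ≤ r →
      W11_BD (fun r => h (Real.log (r / R))) M r := by
  obtain ⟨M, hM0, hM⟩ := W11_bdd4 (Q := fun n M => ∀ t, |W11_G h n t| ≤ M)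
    (fun n => W11_P_bdd (W11_P_G hP n)) (fun n M M' h1 h2 t => (h1 t).trans h2)
  refine ⟨M, hM0, fun R hR r hr => ⟨?_, fun n hn => ?_⟩⟩
  · have h1 : ContDiffAt ℝ ∞ (fun r => Real.log (r / R)) r := by
      refine ContDiffAt.log (by fun_prop) ?_
      have : 0 < r := by linarith
      positivity
    exact hP.1.contDiffAt.comp r h1
  · rw [W11_iter_log hP hR n r (by linarith), abs_mul]
    have h1 : |(r ^ n)⁻¹| ≤ 1 := by
      rw [abs_of_nonneg (by positivity)]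
      exact inv_le_one_of_one_le₀ (one_le_pow₀ hr)
    calc |W11_G h n (Real.log (r / R))| * |(r ^ n)⁻¹| ≤ M * 1 :=
          mul_le_mul (hM n hn _) h1 (abs_nonneg _) hM0
      _ = M := mul_one _

/-- the inner cut-off -/
private noncomputable def W11_eta (ρ r : ℝ) : ℝ :=
  Real.smoothTransition ((0.02 * ρ)⁻¹ * (r - 0.93 * ρ))

private theorem W11_P_sT : W11_P 1 Real.smoothTransition := by
  refine ⟨Real.smoothTransition.contDiff, ⟨0, fun t ht => ?_⟩, 1, fun t ht => ?_⟩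
  · exact Real.smoothTransition.zero_of_nonpos ht.le
  · exact Real.smoothTransition.one_of_one_le ht.le

private theorem W11_eta_contDiff (ρ : ℝ) : ContDiff ℝ ∞ (W11_eta ρ) := by
  have : ContDiff ℝ ∞ (fun r : ℝ => (0.02 * ρ)⁻¹ * (r - 0.93 * ρ)) := by fun_prop
  exact Real.smoothTransition.contDiff.comp this

private theorem W11_BD_eta : ∃ M, 0 ≤ M ∧ ∀ ρ : ℝ, 100 ≤ ρ → ∀ r : ℝ, W11_BD (W11_eta ρ) M r := by
  obtain ⟨M, hM0, hM⟩ := W11_bdd4 (Q := fun n M => ∀ t, |iteratedDeriv n smoothTransition t| ≤ M)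
    (fun n => W11_P_bdd (W11_P_iter W11_P_sT n)) (fun n M M' h1 h2 t => (h1 t).trans h2)
  refine ⟨M, hM0, fun ρ hρ r => ⟨(W11_eta_contDiff ρ).contDiffAt, fun n hn => ?_⟩⟩
  have e : iteratedDeriv n (W11_eta ρ) r = ((0.02 * ρ)⁻¹) ^ n *
      iteratedDeriv n smoothTransition ((0.02 * ρ)⁻¹ * (r - 0.93 * ρ)) := by
    have h1 := congrFun (iteratedDeriv_comp_sub_const n
      (fun x => smoothTransition ((0.02 * ρ)⁻¹ * x)) (0.93 * ρ)) r
    have h2 := iteratedDeriv_comp_const_mul (n := n) (f := smoothTransition)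
      (Real.smoothTransition.contDiff.of_le (by exact_mod_cast le_top)) ((0.02 * ρ)⁻¹)
    rw [h2] at h1
    exact h1
  rw [e, abs_mul]
  have h1 : |((0.02 * ρ)⁻¹) ^ n| ≤ 1 := by
    rw [abs_of_nonneg (by positivity)]
    refine pow_le_one₀ (by positivity) (inv_le_one_of_one_le₀ (by linarith))
  calc |((0.02 * ρ)⁻¹) ^ n| * |iteratedDeriv n smoothTransition ((0.02 * ρ)⁻¹ * (r - 0.93 * ρ))|
      ≤ 1 * M := mul_le_mul h1 (hM n hn _) (abs_nonneg _) zero_le_one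
    _ = M := one_mul _

private theorem W11_BD_q : ∃ M, 0 ≤ M ∧ ∀ ρ ε F, Wall ρ ε F → ∀ r : ℝ, 1 ≤ r →
    W11_BD (qq F) M r := by
  obtain ⟨C, hC⟩ := y_deriv_bounds
  refine ⟨max 1 C, zero_le_one.trans (le_max_left _ _), fun ρ ε F h r hr =>
    ⟨(W7_contDiff_q h).contDiffAt, fun n hn => ?_⟩⟩
  rcases Nat.eq_zero_or_pos n with h0 | h0
  · subst h0
    rw [iteratedDeriv_zero, abs_of_pos (W1_q_pos h (by linarith))]
    exact (W1_q_lt_one F r).le.trans (le_max_left _ _)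
  · have e : qq F = fun r => 1 - yy F r := rfl
    rw [e, iteratedDeriv_const_sub h0, iteratedDeriv_neg, abs_neg]
    exact (hC ρ ε F h n hn r hr).trans (le_max_right _ _)

/-- the cut-off function -/
private noncomputable def W11_chi (ρ R : ℝ) (h : ℝ → ℝ) (r : ℝ) : ℝ :=
  W11_eta ρ r * h (Real.log (r / R))

private theorem W11_eta_zero {ρ r : ℝ} (hρ : 100 ≤ ρ) (hr : r ≤ 0.93 * ρ) : W11_eta ρ r = 0 := by
  refine Real.smoothTransition.zero_of_nonpos ?_
  exact mul_nonpos_of_nonneg_of_nonpos (by positivity) (by linarith)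

private theorem W11_eta_one {ρ r : ℝ} (hρ : 100 ≤ ρ) (hr : 0.95 * ρ ≤ r) : W11_eta ρ r = 1 := by
  refine Real.smoothTransition.one_of_one_le ?_
  have h0 : 0 < ρ := by linarith
  rw [inv_mul_eq_div, le_div_iff₀ (by positivity)]
  linarith

private theorem W11_chi_ev {ρ R : ℝ} {h : ℝ → ℝ} (hρ : 100 ≤ ρ) {r : ℝ} (hr : r < 0.93 * ρ) :
    W11_chi ρ R h =ᶠ[𝓝 r] fun _ => 0 := by
  filter_upwards [Iio_mem_nhds hr] with s hs
  unfold W11_chi
  rw [W11_eta_zero hρ (le_of_lt hs), zero_mul]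

private theorem W11_chi_contDiff {ρ R : ℝ} {h : ℝ → ℝ} (hρ : 100 ≤ ρ) (hR : 0 < R)
    (hh : ContDiff ℝ ∞ h) : ContDiff ℝ ∞ (W11_chi ρ R h) := by
  rw [contDiff_iff_contDiffAt]
  intro r
  by_cases hr : r < 0.93 * ρ
  · exact contDiffAt_const.congr_of_eventuallyEq (W11_chi_ev hρ hr)
  · push Not at hr
    have hr0 : 0 < r := by linarith
    have h1 : ContDiffAt ℝ ∞ (fun r => Real.log (r / R)) r :=
      ContDiffAt.log (by fun_prop) (by positivity)
    exact (W11_eta_contDiff ρ).contDiffAt.mul (hh.contDiffAt.comp r h1)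

private theorem W11_chi_hasDeriv_right {ρ R : ℝ} {h : ℝ → ℝ} (hρ : 100 ≤ ρ) (hR : ρ ≤ R)
    (hh : ContDiff ℝ ∞ h) {r : ℝ} (hr : R < r) :
    deriv (W11_chi ρ R h) r = deriv h (Real.log (r / R)) * r⁻¹ := by
  have hR0 : 0 < R := by linarith
  have h1 : W11_chi ρ R h =ᶠ[𝓝 r] fun r => h (Real.log (r / R)) := by
    filter_upwards [Ioi_mem_nhds hr] with s hs
    unfold W11_chi
    rw [W11_eta_one hρ (by have : R < s := hs; linarith), one_mul]
  rw [h1.deriv_eq]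
  have hr0 : 0 < r := by linarith
  have h2 : HasDerivAt (fun r => Real.log (r / R)) (r⁻¹) r := by
    have h3 : HasDerivAt (fun r : ℝ => r / R) (1 / R) r := (hasDerivAt_id r).div_const R
    refine (h3.log (by positivity)).congr_deriv ?_
    field_simp
  have h4 : HasDerivAt h (deriv h (Real.log (r / R))) (Real.log (r / R)) :=
    (hh.differentiable (by simp) _).hasDerivAt
  exact (h4.comp r h2).deriv

private theorem W11_chi_left {ρ R : ℝ} {h : ℝ → ℝ} (hR0 : 0 < R) (h1 : ∀ t ≤ 0, h t = 1)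
    {r : ℝ} (hr0 : 0 < r) (hr : r ≤ R) : W11_chi ρ R h r = W11_eta ρ r := by
  unfold W11_chi
  rw [h1, mul_one]
  exact Real.log_nonpos (by positivity) (by rw [div_le_one hR0]; exact hr)

private theorem W11_chi_deriv_left {ρ R : ℝ} {h : ℝ → ℝ} (hR0 : 0 < R) (h1 : ∀ t ≤ 0, h t = 1)
    {r : ℝ} (hr0 : 0 < r) (hr : r < R) : deriv (W11_chi ρ R h) r = deriv (W11_eta ρ) r := by
  have : W11_chi ρ R h =ᶠ[𝓝 r] W11_eta ρ := by
    filter_upwards [Ioo_mem_nhds hr0 hr] with s hs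
    exact W11_chi_left hR0 h1 hs.1 hs.2.le
  exact this.deriv_eq

private theorem W11_eta_deriv_zero {ρ r : ℝ} (hρ : 100 ≤ ρ) (hr : 0.95 * ρ < r) :
    deriv (W11_eta ρ) r = 0 := by
  have : W11_eta ρ =ᶠ[𝓝 r] fun _ => 1 := by
    filter_upwards [Ioi_mem_nhds hr] with s hs
    exact W11_eta_one hρ (le_of_lt hs)
  rw [this.deriv_eq]
  simp

private theorem W11_eta_deriv_le {M : ℝ} (hM : ∀ t, |deriv smoothTransition t| ≤ M) {ρ : ℝ}
    (hρ : 100 ≤ ρ) (r : ℝ) : deriv (W11_eta ρ) r ^ 2 ≤ 2500 * M ^ 2 / ρ ^ 2 := by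
  have h1 : HasDerivAt (fun r : ℝ => (0.02 * ρ)⁻¹ * (r - 0.93 * ρ)) ((0.02 * ρ)⁻¹) r := by
    simpa using ((hasDerivAt_id r).sub_const (0.93 * ρ)).const_mul ((0.02 * ρ)⁻¹)
  have h2 : HasDerivAt smoothTransition (deriv smoothTransition ((0.02 * ρ)⁻¹ * (r - 0.93 * ρ)))
      ((0.02 * ρ)⁻¹ * (r - 0.93 * ρ)) :=
    ((Real.smoothTransition.contDiff (n := 1)).differentiable one_ne_zero _).hasDerivAt
  have h3 : deriv (W11_eta ρ) r = deriv smoothTransition ((0.02 * ρ)⁻¹ * (r - 0.93 * ρ)) *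
      (0.02 * ρ)⁻¹ := (h2.comp r h1).deriv
  have hρ0 : 0 < ρ := by linarith
  rw [h3, mul_pow, ← sq_abs (deriv smoothTransition _)]
  have h4 : |deriv smoothTransition ((0.02 * ρ)⁻¹ * (r - 0.93 * ρ))| ^ 2 ≤ M ^ 2 :=
    pow_le_pow_left₀ (abs_nonneg _) (hM _) 2
  calc |deriv smoothTransition ((0.02 * ρ)⁻¹ * (r - 0.93 * ρ))| ^ 2 * (0.02 * ρ)⁻¹ ^ 2 ≤
      M ^ 2 * (0.02 * ρ)⁻¹ ^ 2 := mul_le_mul_of_nonneg_right h4 (by positivity)
    _ = 2500 * M ^ 2 / ρ ^ 2 := by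
        field_simp
        ring

/-- reduction to an interval -/
private theorem W11_loc {a b : ℝ} (ha : 0 < a) (hab : a ≤ b) {g : ℝ → ℝ}
    (hg : ∀ r, r ≤ a → g r = 0) (hg' : ∀ r, b < r → g r = 0) :
    ∫ r in Ioi (0 : ℝ), g r = ∫ r in a..b, g r := by
  rw [intervalIntegral.integral_of_le hab]
  refine setIntegral_eq_of_subset_of_forall_sdiff_eq_zero measurableSet_Ioi ?_ ?_
  · intro r hr
    exact mem_Ioi.2 (ha.trans hr.1)
  · intro r hr
    by_cases h : r ≤ a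
    · exact hg r h
    · push Not at h
      apply hg'
      by_contra h2
      push Not at h2
      exact hr.2 ⟨h, h2⟩

/-- growth of `q ^ 2` -/
private theorem W11_int_sq {ρ ε : ℝ} {F : ℝ → ℝ} (h : Wall ρ ε F) {a b : ℝ} (ha : 16 ≤ a)
    (hab : a ≤ b) (hb : b ≤ ρ) : ∫ r in a..b, qq F r ^ 2 ≤ 1.25 * qq F b ^ 2 := by
  have hq := W1_continuous_q h
  have hy := W1_continuous_y h
  have hu := W1_continuous_u h
  have h1 : ∫ r in a..b, qq F r ^ 2 ≤ ∫ r in a..b, 1.25 * (2 * qq F r * (yy F r * uu F r)) := by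
    refine intervalIntegral.integral_mono_on hab
      (Continuous.intervalIntegrable (by fun_prop) _ _)
      (Continuous.intervalIntegrable (by fun_prop) _ _) ?_
    intro r hr
    have hr0 : 0 < r := by linarith [hr.1]
    have hr16 : 16 ≤ r := by linarith [hr.1]
    have e1 := u_ge_q h hr0 (hr.2.trans hb)
    have e2 := W1_q_pos h hr0.le
    have e3 := y_ge_half h hr0.le (hr.2.trans hb)
    have e4 := u_pos h hr0
    have e5 := u_lt_q h hr0.le
    have e10 : 0.8 * qq F r ≤ uu F r := by nlinarith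
    have e11 : 0.4 * qq F r ≤ yy F r * uu F r := by nlinarith
    have e12 : 0.8 * qq F r ^ 2 ≤ 2 * qq F r * (yy F r * uu F r) := by nlinarith
    linarith
  have h2 : ∫ r in a..b, 1.25 * (2 * qq F r * (yy F r * uu F r)) =
      1.25 * qq F b ^ 2 - 1.25 * qq F a ^ 2 := by
    refine intervalIntegral.integral_eq_sub_of_hasDerivAt (f := fun r => 1.25 * qq F r ^ 2) ?_
      (Continuous.intervalIntegrable (by fun_prop) _ _)
    intro r _
    have h3 : HasDerivAt (fun r => qq F r ^ 2) (2 * qq F r * (yy F r * uu F r)) r := by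
      refine ((hasDerivAt_q h r).pow 2).congr_deriv ?_
      push_cast
      ring
    exact h3.const_mul 1.25
  have h3 : 0 ≤ 1.25 * qq F a ^ 2 := by positivity
  linarith

private theorem W11_NP_abs {ρ ε : ℝ} {F : ℝ → ℝ} (h : Wall ρ ε F) {μ : ℕ} (hμ : 1 ≤ μ) {r : ℝ}
    (hr : 0 < r) (hr' : r ≤ ρ) : |NP μ F r| ≤ 8 * (μ : ℝ) ^ 2 * qq F r ^ 2 := by
  have hμ' : (1 : ℝ) ≤ μ := by exact_mod_cast hμ
  have hy0 := W1_y_pos F r
  have hy1 := W1_y_lt_one h hr.le
  have hq0 := W1_q_pos h hr.le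
  have hq1 := W1_q_lt_one F r
  have hX := X_le_in h hr hr'
  have hX0 := X_nonneg h hr.le
  unfold NP
  rw [abs_mul, abs_mul, abs_mul, abs_of_nonneg hX0, abs_of_nonneg (by positivity : 0 ≤ μ * yy F r),
    abs_of_nonneg (by positivity : 0 ≤ qq F r ^ (2 * μ - 2))]
  have h1 : |1 - μ * yy F r| ≤ μ := by
    rw [abs_le]
    constructor
    · nlinarith
    · have : 0 ≤ (μ : ℝ) * yy F r := by positivity
      linarith
  have h2 : qq F r ^ (2 * μ - 2) ≤ 1 := pow_le_one₀ hq0.le hq1.le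
  have h3 : μ * yy F r ≤ μ := by nlinarith
  calc μ * yy F r * |1 - μ * yy F r| * qq F r ^ (2 * μ - 2) * XX F r ≤
      μ * μ * 1 * (8 * qq F r ^ 2) := by
        refine mul_le_mul (mul_le_mul (mul_le_mul h3 h1 (abs_nonneg _) (by positivity)) h2
          (by positivity) (by positivity)) hX hX0 (by positivity)
    _ = 8 * (μ : ℝ) ^ 2 * qq F r ^ 2 := by ring

/-- the integrand of the reduced form -/
private noncomputable def W11_I (μ k : ℕ) (F χ : ℝ → ℝ) (r : ℝ) : ℝ :=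
  qq F r ^ (2 * μ) * deriv χ r ^ 2 * r - NP μ F r * χ r ^ 2 +
    k ^ 2 * (qq F r ^ (2 * μ) * χ r ^ 2 * r⁻¹)

private theorem W11_NP_cont {ρ ε : ℝ} {F : ℝ → ℝ} (h : Wall ρ ε F) (μ : ℕ) :
    Continuous (NP μ F) := by
  have h1 := W1_continuous_y h
  have h2 := W1_continuous_q h
  have h3 := W1_continuous_X h
  unfold NP
  fun_prop

private theorem W11_I_int {ρ ε : ℝ} {F : ℝ → ℝ} (h : Wall ρ ε F) (μ k : ℕ) {χ : ℝ → ℝ}
    (hχ : ContDiff ℝ ∞ χ) {a b : ℝ} (ha : 0 < a) (hab : a ≤ b) :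
    IntervalIntegrable (W11_I μ k F χ) volume a b := by
  have h1 := W11_NP_cont h μ
  have h2 := W1_continuous_q h
  have h3 := hχ.continuous
  have h4 : Continuous (deriv χ) := hχ.continuous_deriv (by simp)
  refine ContinuousOn.intervalIntegrable ?_
  rw [uIcc_of_le hab]
  have h5 : ContinuousOn (fun r : ℝ => r⁻¹) (Icc a b) :=
    continuousOn_inv₀.mono (fun r hr => (ha.trans_le hr.1).ne')
  unfold W11_I
  fun_prop

private theorem W11_partA {ρ ε : ℝ} {F : ℝ → ℝ} (h : Wall ρ ε F) {μ : ℕ} (hμ : 1 ≤ μ) {M : ℝ}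
    (hM : ∀ t, |deriv smoothTransition t| ≤ M) {g : ℝ → ℝ} (hg : ContDiff ℝ ∞ g)
    (hg1 : ∀ t ≤ 0, g t = 1) (k : ℕ) {R : ℝ} (hR : ρ ≤ R) :
    ∫ r in (0.92 * ρ)..R, W11_I μ k F (W11_chi ρ R g) r ≤
      -(∫ r in (0.92 * ρ)..R, NP μ F r) +
      (2500 * M ^ 2 / ρ + 8 * (μ : ℝ) ^ 2 + k ^ 2 / ρ * 2) * (1.25 * qq F (0.95 * ρ) ^ 2) +
      k ^ 2 / ρ + k ^ 2 / ρ * (R - ρ) := by
  have hρ := h.hρ
  have hρ0 : 0 < ρ := by linarith
  have hR0 : 0 < R := by linarith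
  have hqc := W1_continuous_q h
  have hNPc := W11_NP_cont h μ
  obtain ⟨χ, hχ⟩ : ∃ χ : ℝ → ℝ, χ = W11_chi ρ R g := ⟨_, rfl⟩
  rw [← hχ]
  have hχC : ContDiff ℝ ∞ χ := by rw [hχ]; exact W11_chi_contDiff hρ hR0 hg
  have hχc := hχC.continuous
  have hχd : Continuous (deriv χ) := hχC.continuous_deriv (by simp)
  obtain ⟨J, hJ⟩ : ∃ J : ℝ → ℝ, J = fun r => W11_I μ k F χ r + NP μ F r := ⟨_, rfl⟩
  have hJi : ∀ a b : ℝ, 0 < a → a ≤ b → IntervalIntegrable J volume a b := by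
    intro a b ha hab
    rw [hJ]
    exact (W11_I_int h μ k hχC ha hab).add (hNPc.intervalIntegrable _ _)
  have hsum : ∫ r in (0.92 * ρ)..R, W11_I μ k F χ r =
      -(∫ r in (0.92 * ρ)..R, NP μ F r) + ∫ r in (0.92 * ρ)..R, J r := by
    rw [hJ, intervalIntegral.integral_add (W11_I_int h μ k hχC (by positivity) (by linarith))
      (hNPc.intervalIntegrable _ _)]
    ring
  rw [hsum]
  have hsplit : ∫ r in (0.92 * ρ)..R, J r = (∫ r in (0.92 * ρ)..(0.95 * ρ), J r) +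
      (∫ r in (0.95 * ρ)..ρ, J r) + ∫ r in ρ..R, J r := by
    rw [intervalIntegral.integral_add_adjacent_intervals
      (hJi _ _ (by positivity) (by linarith)) (hJi _ _ (by positivity) (by linarith)),
      intervalIntegral.integral_add_adjacent_intervals
      (hJi _ _ (by positivity) (by linarith)) (hJi _ _ (by positivity) hR)]
  rw [hsplit]
  have hpow : ∀ r : ℝ, 0 ≤ r → qq F r ^ (2 * μ) ≤ qq F r ^ 2 := fun r hr =>
    pow_le_pow_of_le_one (W1_q_pos h hr).le (W1_q_lt_one F r).le (by omega)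
  have hk0 : (0 : ℝ) ≤ k ^ 2 := by positivity
  have hinv : ∀ r : ℝ, 0.92 * ρ ≤ r → r⁻¹ ≤ 2 / ρ := by
    intro r hr
    rw [inv_le_iff_one_le_mul₀ (by linarith : 0 < r), div_mul_eq_mul_div, le_div_iff₀ hρ0]
    linarith
  -- first piece
  have p1 : ∫ r in (0.92 * ρ)..(0.95 * ρ), J r ≤
      (2500 * M ^ 2 / ρ + 8 * (μ : ℝ) ^ 2 + k ^ 2 / ρ * 2) * (1.25 * qq F (0.95 * ρ) ^ 2) := by
    have e1 : ∫ r in (0.92 * ρ)..(0.95 * ρ), J r ≤ ∫ r in (0.92 * ρ)..(0.95 * ρ),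
        (2500 * M ^ 2 / ρ + 8 * (μ : ℝ) ^ 2 + k ^ 2 / ρ * 2) * qq F r ^ 2 := by
      refine intervalIntegral.integral_mono_on (by linarith)
        (hJi _ _ (by positivity) (by linarith))
        (Continuous.intervalIntegrable (by fun_prop) _ _) ?_
      intro r hr
      have hr0 : 0 < r := by linarith [hr.1]
      have hrρ : r ≤ ρ := by linarith [hr.2]
      have hq0 := W1_q_pos h hr0.le
      have hd : deriv χ r ^ 2 ≤ 2500 * M ^ 2 / ρ ^ 2 := by
        rw [hχ, W11_chi_deriv_left hR0 hg1 hr0 (by linarith [hr.2])]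
        exact W11_eta_deriv_le hM hρ r
      have hχr : χ r = W11_eta ρ r := by
        rw [hχ]
        exact W11_chi_left hR0 hg1 hr0 (by linarith)
      have hη0 : 0 ≤ W11_eta ρ r := Real.smoothTransition.nonneg _
      have hη1 : W11_eta ρ r ≤ 1 := Real.smoothTransition.le_one _
      have hχ1 : χ r ^ 2 ≤ 1 := by
        rw [hχr]
        exact pow_le_one₀ hη0 hη1
      have hχ0 : 0 ≤ χ r ^ 2 := sq_nonneg _
      have f1 : qq F r ^ (2 * μ) * deriv χ r ^ 2 * r ≤ 2500 * M ^ 2 / ρ * qq F r ^ 2 := by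
        calc qq F r ^ (2 * μ) * deriv χ r ^ 2 * r ≤ qq F r ^ 2 * (2500 * M ^ 2 / ρ ^ 2) * ρ := by
              refine mul_le_mul (mul_le_mul (hpow r hr0.le) hd (sq_nonneg _) (by positivity)) hrρ
                hr0.le (by positivity)
          _ = 2500 * M ^ 2 / ρ * qq F r ^ 2 := by
              field_simp
      have f2 : NP μ F r - NP μ F r * χ r ^ 2 ≤ 8 * (μ : ℝ) ^ 2 * qq F r ^ 2 := by
        have g1 := W11_NP_abs h hμ hr0 hrρ
        have g2 : NP μ F r - NP μ F r * χ r ^ 2 = NP μ F r * (1 - χ r ^ 2) := by ring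
        rw [g2]
        have g3 := le_abs_self (NP μ F r)
        have g4 : NP μ F r * (1 - χ r ^ 2) ≤ |NP μ F r| * (1 - χ r ^ 2) :=
          mul_le_mul_of_nonneg_right g3 (by linarith)
        have g5 : |NP μ F r| * (1 - χ r ^ 2) ≤ |NP μ F r| * 1 :=
          mul_le_mul_of_nonneg_left (by linarith) (abs_nonneg _)
        linarith
      have f3 : (k : ℝ) ^ 2 * (qq F r ^ (2 * μ) * χ r ^ 2 * r⁻¹) ≤ k ^ 2 / ρ * 2 * qq F r ^ 2 := by
        have g1 : qq F r ^ (2 * μ) * χ r ^ 2 * r⁻¹ ≤ qq F r ^ 2 * 1 * (2 / ρ) := by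
          refine mul_le_mul (mul_le_mul (hpow r hr0.le) hχ1 hχ0 (by positivity)) (hinv r hr.1)
            (by positivity) (by positivity)
        calc (k : ℝ) ^ 2 * (qq F r ^ (2 * μ) * χ r ^ 2 * r⁻¹) ≤
            k ^ 2 * (qq F r ^ 2 * 1 * (2 / ρ)) := mul_le_mul_of_nonneg_left g1 hk0
          _ = k ^ 2 / ρ * 2 * qq F r ^ 2 := by ring
      rw [hJ]
      show W11_I μ k F χ r + NP μ F r ≤ _
      unfold W11_I
      linarith
    rw [intervalIntegral.integral_const_mul] at e1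
    refine e1.trans (mul_le_mul_of_nonneg_left ?_ (by positivity))
    exact W11_int_sq h (by linarith) (by linarith) (by linarith)
  have hJ2 : ∀ r ∈ Ioo (0.95 * ρ) R, J r = k ^ 2 * (qq F r ^ (2 * μ) * r⁻¹) := by
    intro r hr
    have hr0 : 0 < r := by linarith [hr.1]
    have hd : deriv χ r = 0 := by
      rw [hχ, W11_chi_deriv_left hR0 hg1 hr0 hr.2]
      exact W11_eta_deriv_zero hρ hr.1
    have hχr : χ r = 1 := by
      rw [hχ, W11_chi_left hR0 hg1 hr0 hr.2.le]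
      exact W11_eta_one hρ hr.1.le
    rw [hJ]
    show W11_I μ k F χ r + NP μ F r = _
    unfold W11_I
    rw [hd, hχr]
    ring
  have p2 : ∫ r in (0.95 * ρ)..ρ, J r ≤ k ^ 2 / ρ := by
    have e1 : ∫ r in (0.95 * ρ)..ρ, J r ≤ ∫ r in (0.95 * ρ)..ρ, k ^ 2 / ρ * 2 * qq F r ^ 2 := by
      refine intervalIntegral.integral_mono_on_of_le_Ioo (by linarith)
        (hJi _ _ (by positivity) (by linarith))
        (Continuous.intervalIntegrable (by fun_prop) _ _) ?_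
      intro r hr
      have hr0 : 0 < r := by linarith [hr.1]
      have hq0 := W1_q_pos h hr0.le
      rw [hJ2 r ⟨hr.1, by linarith [hr.2]⟩]
      have g1 : qq F r ^ (2 * μ) * r⁻¹ ≤ qq F r ^ 2 * (2 / ρ) :=
        mul_le_mul (hpow r hr0.le) (hinv r (by linarith [hr.1])) (by positivity) (by positivity)
      calc (k : ℝ) ^ 2 * (qq F r ^ (2 * μ) * r⁻¹) ≤
          k ^ 2 * (qq F r ^ 2 * (2 / ρ)) := mul_le_mul_of_nonneg_left g1 hk0
        _ = k ^ 2 / ρ * 2 * qq F r ^ 2 := by ring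
    rw [intervalIntegral.integral_const_mul] at e1
    have e2 := W11_int_sq h (a := 0.95 * ρ) (b := ρ) (by linarith) (by linarith) le_rfl
    have hqρ : qq F ρ = 1 / 2 := by
      have := W1_y_add_q F ρ
      have := W1_y_rho h
      linarith
    rw [hqρ] at e2
    have e3 : (k : ℝ) ^ 2 / ρ * 2 * (∫ r in (0.95 * ρ)..ρ, qq F r ^ 2) ≤
        k ^ 2 / ρ * 2 * (1.25 * (1 / 2) ^ 2) := mul_le_mul_of_nonneg_left e2 (by positivity)
    have e4 : 0 ≤ (k : ℝ) ^ 2 / ρ := by positivity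
    linarith
  have p3 : ∫ r in ρ..R, J r ≤ k ^ 2 / ρ * (R - ρ) := by
    have e1 : ∫ r in ρ..R, J r ≤ ∫ _ in ρ..R, (k : ℝ) ^ 2 / ρ := by
      refine intervalIntegral.integral_mono_on_of_le_Ioo hR (hJi _ _ hρ0 hR)
        (continuous_const.intervalIntegrable _ _) ?_
      intro r hr
      have hr0 : 0 < r := by linarith [hr.1]
      have hq0 := W1_q_pos h hr0.le
      rw [hJ2 r ⟨by linarith [hr.1], hr.2⟩]
      have g1 : qq F r ^ (2 * μ) * r⁻¹ ≤ 1 * ρ⁻¹ := by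
        refine mul_le_mul (pow_le_one₀ hq0.le (W1_q_lt_one F r).le) ?_ (by positivity) zero_le_one
        exact inv_anti₀ hρ0 hr.1.le
      calc (k : ℝ) ^ 2 * (qq F r ^ (2 * μ) * r⁻¹) ≤ k ^ 2 * (1 * ρ⁻¹) :=
            mul_le_mul_of_nonneg_left g1 hk0
        _ = k ^ 2 / ρ := by rw [one_mul, div_eq_mul_inv]
    rw [intervalIntegral.integral_const, smul_eq_mul] at e1
    linarith
  linarith

private theorem W11_partB {ρ ε : ℝ} {F : ℝ → ℝ} (h : Wall ρ ε F) {μ : ℕ} {g : ℝ → ℝ}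
    (hg : ContDiff ℝ ∞ g) {T : ℝ} (hT : 0 < T) (hgT : ∀ t, T ≤ t → g t = 0) (k : ℕ) {R : ℝ}
    (hR : ρ ≤ R) (hNP : ∀ r, R ≤ r → 0 ≤ NP μ F r) :
    ∫ r in R..(R * exp T), W11_I μ k F (W11_chi ρ R g) r ≤
      ∫ t in Ioi (0 : ℝ), (deriv g t ^ 2 + k ^ 2 * g t ^ 2) := by
  have hρ := h.hρ
  have hρ0 : 0 < ρ := by linarith
  have hR0 : 0 < R := by linarith
  have hgc := hg.continuous
  have hgd : Continuous (deriv g) := hg.continuous_deriv (by simp)
  have hexp : 1 ≤ exp T := one_le_exp hT.le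
  have hRR : R ≤ R * exp T := le_mul_of_one_le_right hR0.le hexp
  have h1 : ∫ r in R..(R * exp T), W11_I μ k F (W11_chi ρ R g) r ≤
      ∫ r in R..(R * exp T), ((fun t => deriv g t ^ 2 + k ^ 2 * g t ^ 2) ∘
        (fun r => Real.log (r / R))) r * r⁻¹ := by
    refine intervalIntegral.integral_mono_on_of_le_Ioo hRR
      (W11_I_int h μ k (W11_chi_contDiff hρ hR0 hg) hR0 hRR) ?_ ?_
    · refine ContinuousOn.intervalIntegrable ?_
      rw [uIcc_of_le hRR]
      have e1 : ContinuousOn (fun r : ℝ => r⁻¹) (Icc R (R * exp T)) :=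
        continuousOn_inv₀.mono (fun r hr => (hR0.trans_le hr.1).ne')
      have e2 : ContinuousOn (fun r : ℝ => Real.log (r / R)) (Icc R (R * exp T)) := by
        refine ContinuousOn.log (by fun_prop) ?_
        intro r hr
        have : 0 < r := hR0.trans_le hr.1
        positivity
      have e3 : Continuous (fun t => deriv g t ^ 2 + k ^ 2 * g t ^ 2) := by fun_prop
      exact (e3.comp_continuousOn e2).mul e1
    · intro r hr
      have hr0 : 0 < r := hR0.trans hr.1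
      have hq0 := W1_q_pos h hr0.le
      have hq1 : qq F r ^ (2 * μ) ≤ 1 := pow_le_one₀ hq0.le (W1_q_lt_one F r).le
      have hχr : W11_chi ρ R g r = g (Real.log (r / R)) := by
        unfold W11_chi
        rw [W11_eta_one hρ (by linarith [hr.1]), one_mul]
      unfold W11_I
      rw [W11_chi_hasDeriv_right hρ hR hg hr.1, hχr]
      show _ ≤ (deriv g (Real.log (r / R)) ^ 2 + k ^ 2 * g (Real.log (r / R)) ^ 2) * r⁻¹
      have e1 : 0 ≤ NP μ F r * g (Real.log (r / R)) ^ 2 :=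
        mul_nonneg (hNP r hr.1.le) (sq_nonneg _)
      have e2 : qq F r ^ (2 * μ) * (deriv g (Real.log (r / R)) * r⁻¹) ^ 2 * r =
          qq F r ^ (2 * μ) * (deriv g (Real.log (r / R)) ^ 2 * r⁻¹) := by
        field_simp
      have e3 : qq F r ^ (2 * μ) * (deriv g (Real.log (r / R)) ^ 2 * r⁻¹) ≤
          1 * (deriv g (Real.log (r / R)) ^ 2 * r⁻¹) :=
        mul_le_mul_of_nonneg_right hq1 (by positivity)
      have e4 : (k : ℝ) ^ 2 * (qq F r ^ (2 * μ) * g (Real.log (r / R)) ^ 2 * r⁻¹) ≤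
          k ^ 2 * (1 * g (Real.log (r / R)) ^ 2 * r⁻¹) := by
        refine mul_le_mul_of_nonneg_left ?_ (by positivity)
        exact mul_le_mul_of_nonneg_right (mul_le_mul_of_nonneg_right hq1 (sq_nonneg _))
          (by positivity)
      rw [e2]
      linarith
  refine h1.trans (le_of_eq ?_)
  have e2 : Continuous (fun t => deriv g t ^ 2 + k ^ 2 * g t ^ 2) := by fun_prop
  rw [intervalIntegral.integral_comp_mul_deriv (f := fun r => Real.log (r / R))
    (f' := fun r => r⁻¹) (g := fun t => deriv g t ^ 2 + k ^ 2 * g t ^ 2) ?_ ?_ e2]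
  · have e3 : Real.log (R / R) = 0 := by rw [div_self hR0.ne', Real.log_one]
    have e4 : Real.log (R * exp T / R) = T := by
      rw [mul_div_cancel_left₀ _ hR0.ne', Real.log_exp]
    rw [e3, e4, intervalIntegral.integral_of_le hT.le]
    symm
    refine setIntegral_eq_of_subset_of_forall_sdiff_eq_zero measurableSet_Ioi
      Ioc_subset_Ioi_self ?_
    intro t ht
    have ht0 : 0 < t := ht.1
    have htT : T < t := by
      by_contra hle
      push Not at hle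
      exact ht.2 ⟨ht0, hle⟩
    have e5 : g =ᶠ[𝓝 t] fun _ => 0 := by
      filter_upwards [Ioi_mem_nhds htT] with s hs
      exact hgT s (le_of_lt hs)
    rw [e5.deriv_eq, hgT t htT.le]
    simp
  · intro r hr
    rw [uIcc_of_le hRR] at hr
    have hr0 : 0 < r := hR0.trans_le hr.1
    have h3 : HasDerivAt (fun r : ℝ => r / R) (1 / R) r := (hasDerivAt_id r).div_const R
    refine (h3.log (by positivity)).congr_deriv ?_
    field_simp
  · rw [uIcc_of_le hRR]
    exact continuousOn_inv₀.mono (fun r hr => (hR0.trans_le hr.1).ne')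

private theorem W11_energy {ρ ε : ℝ} {F : ℝ → ℝ} (h : Wall ρ ε F) {μ : ℕ} (hμ : 1 ≤ μ)
    {g : ℝ → ℝ} (hg : ContDiff ℝ ∞ g) {T : ℝ} (hT : 0 < T) (hgT : ∀ t, T ≤ t → g t = 0) (k : ℕ)
    {R : ℝ} (hR : ρ ≤ R) (f : ℝ → ℝ) (hf : f = fun r => qq F r ^ μ * W11_chi ρ R g r) :
    (∫ r in Ioi (0 : ℝ), (deriv f r ^ 2 + VV μ F r * f r ^ 2) * r)
        + k ^ 2 * (∫ r in Ioi (0 : ℝ), f r ^ 2 / r) =
      (∫ r in (0.92 * ρ)..R, W11_I μ k F (W11_chi ρ R g) r) +
        ∫ r in R..(R * exp T), W11_I μ k F (W11_chi ρ R g) r := by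
  have hρ := h.hρ
  have hρ0 : 0 < ρ := by linarith
  have hR0 : 0 < R := by linarith
  obtain ⟨χ, hχ⟩ : ∃ χ : ℝ → ℝ, χ = W11_chi ρ R g := ⟨_, rfl⟩
  rw [← hχ] at hf ⊢
  have hχC : ContDiff ℝ ∞ χ := by rw [hχ]; exact W11_chi_contDiff hρ hR0 hg
  have hχc := hχC.continuous
  have hχd : Continuous (deriv χ) := hχC.continuous_deriv (by simp)
  have hexp : 1 ≤ exp T := one_le_exp hT.le
  have hRR : R ≤ R * exp T := le_mul_of_one_le_right hR0.le hexp
  have hχ0 : ∀ r, r ≤ 0.92 * ρ → χ r = 0 := by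
    intro r hr
    rw [hχ]
    unfold W11_chi
    rw [W11_eta_zero hρ (by linarith), zero_mul]
  have hχ1 : ∀ r, R * exp T ≤ r → χ r = 0 := by
    intro r hr
    have hr0 : 0 < r := by
      have : 0 < R * exp T := by positivity
      linarith
    rw [hχ]
    unfold W11_chi
    rw [hgT, mul_zero]
    rw [Real.le_log_iff_exp_le (by positivity), le_div_iff₀ hR0]
    linarith
  have hχd0 : ∀ r, r ≤ 0.92 * ρ → deriv χ r = 0 := by
    intro r hr
    rw [hχ, (W11_chi_ev hρ (by linarith : r < 0.93 * ρ)).deriv_eq]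
    simp
  have hχd1 : ∀ r, R * exp T < r → deriv χ r = 0 := by
    intro r hr
    have : χ =ᶠ[𝓝 r] fun _ => 0 := by
      filter_upwards [Ioi_mem_nhds hr] with s hs
      exact hχ1 s (le_of_lt hs)
    rw [this.deriv_eq]
    simp
  have hfC : ContDiff ℝ ∞ f := by
    rw [hf]
    exact ((W7_contDiff_q h).pow μ).mul hχC
  have hfC1 : ContDiff ℝ 1 f := hfC.of_le (by exact_mod_cast le_top)
  have hfs : HasCompactSupport f := by
    refine HasCompactSupport.intro (isCompact_Icc (a := 0.92 * ρ) (b := R * exp T)) ?_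
    intro r hr
    rw [hf]
    show qq F r ^ μ * χ r = 0
    by_cases h1 : r ≤ 0.92 * ρ
    · rw [hχ0 r h1, mul_zero]
    · push Not at h1
      have h2 : R * exp T ≤ r := by
        by_contra h3
        push Not at h3
        exact hr ⟨h1.le, h3.le⟩
      rw [hχ1 r h2, mul_zero]
  obtain ⟨φ, -, -, -, hφ, hE⟩ := ground_state h μ hμ f hfC1 hfs (by
    intro r hr
    rw [hf]
    show qq F r ^ μ * χ r = 0
    rw [hχ0 r hr, mul_zero])
  have hφχ : ∀ r, 0 ≤ r → φ r = χ r := by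
    intro r hr
    have h1 := hφ r hr
    rw [hf] at h1
    have h2 : qq F r ^ μ * χ r = qq F r ^ μ * φ r := h1
    have h3 : qq F r ^ μ ≠ 0 := pow_ne_zero _ (W1_q_pos h hr).ne'
    exact (mul_left_cancel₀ h3 h2).symm
  have hφd : ∀ r, 0 < r → deriv φ r = deriv χ r := by
    intro r hr
    have : φ =ᶠ[𝓝 r] χ := by
      filter_upwards [Ioi_mem_nhds hr] with s hs
      exact hφχ s (le_of_lt hs)
    exact this.deriv_eq
  rw [hE]
  have hqc := W1_continuous_q h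
  have hNPc := W11_NP_cont h μ
  have a1 : ∫ r in Ioi (0 : ℝ), qq F r ^ (2 * μ) * deriv φ r ^ 2 * r =
      ∫ r in (0.92 * ρ)..(R * exp T), qq F r ^ (2 * μ) * deriv χ r ^ 2 * r := by
    rw [← W11_loc (a := 0.92 * ρ) (b := R * exp T) (by positivity) (by linarith)]
    · refine setIntegral_congr_fun measurableSet_Ioi ?_
      intro r hr
      show qq F r ^ (2 * μ) * deriv φ r ^ 2 * r = qq F r ^ (2 * μ) * deriv χ r ^ 2 * r
      rw [hφd r hr]
    · intro r hr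
      rw [hχd0 r hr]
      ring
    · intro r hr
      rw [hχd1 r hr]
      ring
  have a2 : ∫ r in Ioi (0 : ℝ), NP μ F r * φ r ^ 2 =
      ∫ r in (0.92 * ρ)..(R * exp T), NP μ F r * χ r ^ 2 := by
    rw [← W11_loc (a := 0.92 * ρ) (b := R * exp T) (by positivity) (by linarith)]
    · refine setIntegral_congr_fun measurableSet_Ioi ?_
      intro r hr
      show NP μ F r * φ r ^ 2 = NP μ F r * χ r ^ 2
      rw [hφχ r (le_of_lt hr)]
    · intro r hr
      rw [hχ0 r hr]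
      ring
    · intro r hr
      rw [hχ1 r hr.le]
      ring
  have a3 : ∫ r in Ioi (0 : ℝ), f r ^ 2 / r =
      ∫ r in (0.92 * ρ)..(R * exp T), qq F r ^ (2 * μ) * χ r ^ 2 * r⁻¹ := by
    rw [← W11_loc (a := 0.92 * ρ) (b := R * exp T) (by positivity) (by linarith)]
    · refine setIntegral_congr_fun measurableSet_Ioi ?_
      intro r hr
      show f r ^ 2 / r = qq F r ^ (2 * μ) * χ r ^ 2 * r⁻¹
      rw [hf]
      show (qq F r ^ μ * χ r) ^ 2 / r = _
      rw [div_eq_mul_inv, mul_pow, ← pow_mul, mul_comm μ 2]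
    · intro r hr
      rw [hχ0 r hr]
      ring
    · intro r hr
      rw [hχ1 r hr.le]
      ring
  rw [a1, a2, a3]
  have ha : 0 < 0.92 * ρ := by positivity
  have haR : 0.92 * ρ ≤ R := by linarith
  rw [intervalIntegral.integral_add_adjacent_intervals (W11_I_int h μ k hχC ha haR)
    (W11_I_int h μ k hχC hR0 hRR)]
  have i1 : IntervalIntegrable (fun r => qq F r ^ (2 * μ) * deriv χ r ^ 2 * r) volume
      (0.92 * ρ) (R * exp T) := Continuous.intervalIntegrable (by fun_prop) _ _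
  have i2 : IntervalIntegrable (fun r => NP μ F r * χ r ^ 2) volume
      (0.92 * ρ) (R * exp T) := Continuous.intervalIntegrable (by fun_prop) _ _
  have i3 : IntervalIntegrable (fun r => (k : ℝ) ^ 2 * (qq F r ^ (2 * μ) * χ r ^ 2 * r⁻¹)) volume
      (0.92 * ρ) (R * exp T) := by
    refine ContinuousOn.intervalIntegrable ?_
    rw [uIcc_of_le (by linarith)]
    have h5 : ContinuousOn (fun r : ℝ => r⁻¹) (Icc (0.92 * ρ) (R * exp T)) :=
      continuousOn_inv₀.mono (fun r hr => (ha.trans_le hr.1).ne')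
    fun_prop
  unfold W11_I
  rw [intervalIntegral.integral_add (i1.sub i2) i3, intervalIntegral.integral_sub i1 i2,
    intervalIntegral.integral_const_mul]

theorem form_low (μ : ℕ) (hμ : 1 ≤ μ) (k : ℕ) (hk : (k : ℝ) < kmu μ) :
    ∃ c > 0, ∃ C : ℝ, ∃ ρ₀ : ℝ, ∀ ρ ε F, Wall ρ ε F → ρ₀ ≤ ρ → ∃ f : ℝ → ℝ, ContDiff ℝ ∞ f ∧
      (∀ r, r ≤ 0.93 * ρ → f r = 0) ∧ (∀ r, C * ρ ≤ r → f r = 0) ∧
      (∀ n ≤ 3, ∀ r, |iteratedDeriv n f r| ≤ C) ∧
      (∫ r in Ioi (0 : ℝ), (deriv f r ^ 2 + VV μ F r * f r ^ 2) * r)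
        + k ^ 2 * (∫ r in Ioi (0 : ℝ), f r ^ 2 / r) ≤ -c := by
  obtain ⟨δ, hδ⟩ : ∃ δ : ℝ, δ = (kmu μ - k) / 6 := ⟨_, rfl⟩
  have hδ0 : 0 < δ := by rw [hδ]; linarith
  obtain ⟨T, hT, g, hg, hg1, hgT, hg01, hgE⟩ := exists_cut k δ hδ0
  obtain ⟨ρ1, hκ⟩ := kappa_tendsto μ hμ δ hδ0
  have hPg : W11_P T g := by
    refine ⟨hg, ⟨1, fun t ht => hg1 t ht.le⟩, 0, fun t ht => hgT t ht.le⟩
  obtain ⟨Mg, hMg0, hMg⟩ := W11_BD_log hPg
  obtain ⟨Me, hMe0, hMe⟩ := W11_BD_eta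
  obtain ⟨Mq, hMq0, hMq⟩ := W11_BD_q
  obtain ⟨M, hM⟩ := W11_P_bdd (W11_P_deriv W11_P_sT)
  obtain ⟨Cf, hCf⟩ : ∃ Cf : ℝ, Cf = 8 * ((8 * Mq) ^ μ * (8 * (Me * Mg))) := ⟨_, rfl⟩
  have hCf0 : 0 ≤ Cf := by rw [hCf]; positivity
  obtain ⟨C4, hC4⟩ : ∃ C4 : ℝ, C4 = (2500 * M ^ 2 + 8 * (μ : ℝ) ^ 2 + k ^ 2 * 2) * 32 +
    41 * (k : ℝ) ^ 2 := ⟨_, rfl⟩
  have hC40 : 0 ≤ C4 := by rw [hC4]; positivity
  refine ⟨3 * δ, by positivity, max (2 * exp T) Cf,
    max (max 1600 ρ1) (max (μ : ℝ) ((C4 / δ) ^ 2)), ?_⟩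
  intro ρ ε F h hρ'
  have hρ1 : 1600 ≤ ρ := (le_max_left _ _).trans ((le_max_left _ _).trans hρ')
  have hρ2 : ρ1 ≤ ρ := (le_max_right _ _).trans ((le_max_left _ _).trans hρ')
  have hρ3 : (μ : ℝ) ≤ ρ := (le_max_left _ _).trans ((le_max_right _ _).trans hρ')
  have hρ4 : (C4 / δ) ^ 2 ≤ ρ := (le_max_right _ _).trans ((le_max_right _ _).trans hρ')
  have hρ := h.hρ
  have hρ0 : 0 < ρ := by linarith
  have hlog0 : 0 ≤ Real.log ρ := Real.log_nonneg (by linarith)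
  have hsq0 : 0 < Real.sqrt ρ := Real.sqrt_pos.2 hρ0
  have hsq : Real.sqrt ρ * Real.sqrt ρ = ρ := Real.mul_self_sqrt hρ0.le
  have hsq40 : 40 ≤ Real.sqrt ρ := by
    apply Real.le_sqrt_of_sq_le
    linarith
  have hlogs : 20 * Real.log ρ ≤ 40 * Real.sqrt ρ := by
    have a1 : Real.log ρ = 2 * Real.log (Real.sqrt ρ) := by
      rw [Real.log_sqrt hρ0.le]
      ring
    have a3 := Real.log_le_sub_one_of_pos hsq0
    linarith
  have hlog : 20 * Real.log ρ ≤ ρ := by nlinarith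
  obtain ⟨R, hR⟩ : ∃ R : ℝ, R = ρ + 20 * Real.log ρ := ⟨_, rfl⟩
  have hR1 : ρ ≤ R := by rw [hR]; linarith
  have hR2 : R ≤ 2 * ρ := by rw [hR]; linarith
  have hR0 : 0 < R := by linarith
  obtain ⟨f, hf⟩ : ∃ f : ℝ → ℝ, f = fun r => qq F r ^ μ * W11_chi ρ R g r := ⟨_, rfl⟩
  have hχC : ContDiff ℝ ∞ (W11_chi ρ R g) := W11_chi_contDiff hρ hR0 hg
  have hzero : ∀ r, r ≤ 0.93 * ρ → f r = 0 := by
    intro r hr
    rw [hf]
    show qq F r ^ μ * W11_chi ρ R g r = 0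
    unfold W11_chi
    rw [W11_eta_zero hρ hr]
    ring
  refine ⟨f, ?_, hzero, ?_, ?_, ?_⟩
  · rw [hf]
    exact ((W7_contDiff_q h).pow μ).mul hχC
  · intro r hr
    have h1 : R * exp T ≤ r := by
      have h2 : 2 * exp T * ρ ≤ max (2 * exp T) Cf * ρ :=
        mul_le_mul_of_nonneg_right (le_max_left _ _) hρ0.le
      have h3 : R * exp T ≤ 2 * ρ * exp T := mul_le_mul_of_nonneg_right hR2 (exp_pos T).le
      linarith
    have hr0 : 0 < r := by
      have : 0 < R * exp T := by positivity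
      linarith
    rw [hf]
    show qq F r ^ μ * W11_chi ρ R g r = 0
    unfold W11_chi
    rw [hgT]
    · ring
    · rw [Real.le_log_iff_exp_le (by positivity), le_div_iff₀ hR0]
      linarith
  · intro n hn r
    by_cases hr : r < 0.93 * ρ
    · have e : f =ᶠ[𝓝 r] fun _ => 0 := by
        filter_upwards [Iio_mem_nhds hr] with s hs
        exact hzero s (le_of_lt hs)
      rw [e.iteratedDeriv_eq n, iteratedDeriv_fun_const_zero, abs_zero]
      exact hCf0.trans (le_max_right _ _)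
    · push Not at hr
      have hr1 : 1 ≤ r := by linarith
      have b1 := W11_BD_pow (hMq ρ ε F h r hr1) μ
      have b2 := W11_BD_mul (hMe ρ hρ r) (hMg R hR0 r hr1)
      have b3 := W11_BD_mul b1 b2
      rw [← hCf] at b3
      rw [hf]
      exact (b3.2 n hn).trans (le_max_right _ _)
  · rw [W11_energy h hμ hg hT hgT k hR1 f hf]
    have hA := W11_partA h hμ hM hg hg1 k hR1
    have hNP : ∀ r, R ≤ r → 0 ≤ NP μ F r := by
      intro r hr
      have hr0 : 0 ≤ r := by linarith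
      have hy0 := W1_y_pos F r
      have hq0 := W1_q_pos h hr0
      have hX := X_nonneg h hr0
      have hyR : yy F R ≤ 1 / ρ := by
        have b1 := y_out_exp h hR1 hR2
        have b2 : exp (-0.3 * (R - ρ)) ≤ 1 / ρ := by
          rw [hR]
          have b3 : -0.3 * (ρ + 20 * Real.log ρ - ρ) ≤ -Real.log ρ := by linarith
          calc exp (-0.3 * (ρ + 20 * Real.log ρ - ρ)) ≤ exp (-Real.log ρ) := exp_le_exp.2 b3
            _ = 1 / ρ := by rw [exp_neg, exp_log hρ0, one_div]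
        have b4 : 0 < 1 / ρ := by positivity
        linarith
      have hyr : yy F r ≤ yy F R := by
        have b1 := (W1_q_mono h).monotoneOn (mem_Ici.2 hR0.le) (mem_Ici.2 hr0) hr
        have b2 := W1_y_add_q F r
        have b3 := W1_y_add_q F R
        linarith
      have hμy : μ * yy F r ≤ 1 := by
        calc μ * yy F r ≤ ρ * (1 / ρ) := mul_le_mul hρ3 (hyr.trans hyR) hy0.le hρ0.le
          _ = 1 := by field_simp
      unfold NP
      have : 0 ≤ 1 - μ * yy F r := by linarith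
      positivity
    have hB := W11_partB h hg hT hgT k hR1 hNP
    have hκ' := hκ ρ ε F h hρ2
    rw [← hR] at hκ'
    have hint : ∫ r in Ioo (0.92 * ρ) R, NP μ F r = ∫ r in (0.92 * ρ)..R, NP μ F r := by
      rw [intervalIntegral.integral_of_le (by linarith), integral_Ioc_eq_integral_Ioo]
    rw [hint, abs_le] at hκ'
    -- error terms
    have hqb : qq F (0.95 * ρ) ^ 2 ≤ 25 / ρ := by
      have hqρ : qq F ρ = 1 / 2 := by
        have := W1_y_add_q F ρ
        have := W1_y_rho h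
        linarith
      have b1 := q_decay h (r := 0.95 * ρ) (r' := ρ) (by linarith) (by linarith) le_rfl
      rw [hqρ] at b1
      have b2 : exp (-0.4 * (ρ - 0.95 * ρ)) ≤ 50 / ρ := by
        have b3 : exp (-0.4 * (ρ - 0.95 * ρ)) = (exp (0.02 * ρ))⁻¹ := by
          rw [← exp_neg]
          congr 1
          ring
        have b4 := add_one_le_exp (0.02 * ρ)
        rw [b3, inv_le_iff_one_le_mul₀ (exp_pos _), div_mul_eq_mul_div, le_div_iff₀ hρ0]
        linarith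
      have b3 := W1_q_pos h (by linarith : (0 : ℝ) ≤ 0.95 * ρ)
      have b4 := W1_q_lt_one F (0.95 * ρ)
      have b5 : qq F (0.95 * ρ) ^ 2 ≤ qq F (0.95 * ρ) := by nlinarith
      have b6 : 1 / 2 * (50 / ρ) = 25 / ρ := by ring
      linarith
    have hinv : 1 / ρ ≤ 1 / Real.sqrt ρ := by
      refine one_div_le_one_div_of_le hsq0 ?_
      nlinarith
    have hE : (2500 * M ^ 2 / ρ + 8 * (μ : ℝ) ^ 2 + k ^ 2 / ρ * 2) *
        (1.25 * qq F (0.95 * ρ) ^ 2) + k ^ 2 / ρ + k ^ 2 / ρ * (R - ρ) ≤ δ := by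
      have c1 : (2500 * M ^ 2 / ρ + 8 * (μ : ℝ) ^ 2 + k ^ 2 / ρ * 2) ≤
          2500 * M ^ 2 + 8 * (μ : ℝ) ^ 2 + k ^ 2 * 2 := by
        have d1 : 2500 * M ^ 2 / ρ ≤ 2500 * M ^ 2 := div_le_self (by positivity) (by linarith)
        have d2 : (k : ℝ) ^ 2 / ρ ≤ k ^ 2 := div_le_self (by positivity) (by linarith)
        linarith
      have c2 : 1.25 * qq F (0.95 * ρ) ^ 2 ≤ 32 * (1 / Real.sqrt ρ) := by
        have d1 : 25 / ρ = 25 * (1 / ρ) := by ring
        rw [d1] at hqb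
        have d2 : 0 < 1 / ρ := by positivity
        linarith
      have c3 : (2500 * M ^ 2 / ρ + 8 * (μ : ℝ) ^ 2 + k ^ 2 / ρ * 2) *
          (1.25 * qq F (0.95 * ρ) ^ 2) ≤ (2500 * M ^ 2 + 8 * (μ : ℝ) ^ 2 + k ^ 2 * 2) *
          (32 * (1 / Real.sqrt ρ)) := mul_le_mul c1 c2 (by positivity) (by positivity)
      have c4 : (k : ℝ) ^ 2 / ρ ≤ k ^ 2 * (1 / Real.sqrt ρ) := by
        have : (k : ℝ) ^ 2 / ρ = k ^ 2 * (1 / ρ) := by ring
        rw [this]
        exact mul_le_mul_of_nonneg_left hinv (by positivity)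
      have c5 : (k : ℝ) ^ 2 / ρ * (R - ρ) ≤ 40 * k ^ 2 * (1 / Real.sqrt ρ) := by
        have d1 : R - ρ ≤ 40 * Real.sqrt ρ := by rw [hR]; linarith
        have d2 : (k : ℝ) ^ 2 / ρ * (R - ρ) ≤ k ^ 2 / ρ * (40 * Real.sqrt ρ) :=
          mul_le_mul_of_nonneg_left d1 (by positivity)
        have d3 : (k : ℝ) ^ 2 / ρ * (40 * Real.sqrt ρ) = 40 * k ^ 2 * (1 / Real.sqrt ρ) := by
          have : (1 : ℝ) / Real.sqrt ρ = Real.sqrt ρ / ρ := by
            rw [div_eq_div_iff hsq0.ne' hρ0.ne', one_mul, hsq]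
          rw [this]
          ring
        linarith
      have c6 : C4 * (1 / Real.sqrt ρ) ≤ δ := by
        have d1 : C4 / δ ≤ Real.sqrt ρ := Real.le_sqrt_of_sq_le hρ4
        rw [div_le_iff₀ hδ0] at d1
        rw [mul_one_div, div_le_iff₀ hsq0]
        linarith
      rw [hC4] at c6
      linarith
    have e1 : kmu μ - k = 6 * δ := by rw [hδ]; ring
    linarith [hκ'.1, hκ'.2]

end Pool.MP_ad5d82_an.Wl
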