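import Pool.Agent.Lib.MP_ad5d82_an.h24.WDefs
import Pool.Agent.Lib.MP_ad5d82_an.h24.W.W1

set_option autoImplicit false

namespace Pool.MP_ad5d82_an.Wl

open Real Set MeasureTheory
open scoped ContDiff

/-! ### W2 concavity inside -/

/-- `y q` is nondecreasing on `[0, ρ]` -/
private theorem W2_yq_mono {ρ ε : ℝ} {F : ℝ → ℝ} (h : Wall ρ ε F) {a b : ℝ} (ha : 0 ≤ a)
    (hab : a ≤ b) (hb : b ≤ ρ) : yy F a * qq F a ≤ yy F b * qq F b := by
  have h1 : yy F b ≤ yy F a :=
    (W1_y_anti h).antitoneOn (mem_Ici.2 ha) (mem_Ici.2 (ha.trans hab)) hab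
  have h2 := y_ge_half h (ha.trans hab) hb
  have h3 := W1_y_add_q F a
  have h4 := W1_y_add_q F b
  have h5 : qq F a = 1 - yy F a := by linarith
  have h6 : qq F b = 1 - yy F b := by linarith
  rw [h5, h6]
  nlinarith

private theorem W2_yq_zero {ρ ε : ℝ} {F : ℝ → ℝ} (h : Wall ρ ε F) :
    0.98 * ε ≤ yy F 0 * qq F 0 := by
  have hε := h.hε
  have hε' := h.hε'
  have h1 : yy F 0 = exp (-ε) := by
    unfold yy
    simp [h.F0]
  have h2 : qq F 0 = 1 - exp (-ε) := by
    unfold qq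
    simp [h.F0]
  rw [h1, h2]
  have h3 : 1 - ε ≤ exp (-ε) := by
    have := add_one_le_exp (-ε)
    linarith
  have h4 : exp (-ε) * (1 + ε) ≤ 1 := by
    have e1 := add_one_le_exp ε
    have e2 : exp (-ε) * exp ε = 1 := by rw [← exp_add, neg_add_cancel, exp_zero]
    have e3 := exp_pos (-ε)
    nlinarith
  have h5 : 0.99 * ε ≤ 1 - exp (-ε) := by nlinarith
  nlinarith

theorem W2_ru_ge {ρ ε : ℝ} {F : ℝ → ℝ} (h : Wall ρ ε F) {r c : ℝ} (hr : 0 ≤ r)
    (hc : ∀ t, 0 < t → t < r → c ≤ yy F t * qq F t) : c * r ^ 2 / 2 ≤ r * uu F r := by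
  have hcu := W1_continuous_u h
  have hd : ∀ x, 0 < x → HasDerivAt (fun t => t * uu F t - c * t ^ 2 / 2)
      (x * (yy F x * qq F x) - c * x) x := by
    intro x hx
    have h1 : HasDerivAt (fun t : ℝ => c * t ^ 2 / 2) (c * x) x := by
      have := ((hasDerivAt_pow 2 x).const_mul c).div_const 2
      refine this.congr_deriv ?_
      push_cast
      ring
    exact (W1_hasDerivAt_ru h hx).sub h1
  have hm : MonotoneOn (fun t => t * uu F t - c * t ^ 2 / 2) (Icc 0 r) := by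
    refine monotoneOn_of_deriv_nonneg (convex_Icc 0 r) (by fun_prop) ?_ ?_
    · intro x hx
      rw [interior_Icc] at hx
      exact (hd x hx.1).differentiableAt.differentiableWithinAt
    · intro x hx
      rw [interior_Icc] at hx
      rw [(hd x hx.1).deriv]
      have := hc x hx.1 hx.2
      nlinarith [hx.1]
  have h1 := hm (left_mem_Icc.2 hr) (right_mem_Icc.2 hr) hr
  simp only [zero_mul, ne_eq, OfNat.ofNat_ne_zero, not_false_eq_true, zero_pow, mul_zero,
    zero_div, sub_zero] at h1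
  linarith

theorem W2_ru_le {ρ ε : ℝ} {F : ℝ → ℝ} (h : Wall ρ ε F) {r c : ℝ} (hr : 0 ≤ r)
    (hc : ∀ t, 0 < t → t < r → yy F t * qq F t ≤ c) : r * uu F r ≤ c * r ^ 2 / 2 := by
  have hcu := W1_continuous_u h
  have hd : ∀ x, 0 < x → HasDerivAt (fun t => c * t ^ 2 / 2 - t * uu F t)
      (c * x - x * (yy F x * qq F x)) x := by
    intro x hx
    have h1 : HasDerivAt (fun t : ℝ => c * t ^ 2 / 2) (c * x) x := by
      have := ((hasDerivAt_pow 2 x).const_mul c).div_const 2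
      refine this.congr_deriv ?_
      push_cast
      ring
    exact h1.sub (W1_hasDerivAt_ru h hx)
  have hm : MonotoneOn (fun t => c * t ^ 2 / 2 - t * uu F t) (Icc 0 r) := by
    refine monotoneOn_of_deriv_nonneg (convex_Icc 0 r) (by fun_prop) ?_ ?_
    · intro x hx
      rw [interior_Icc] at hx
      exact (hd x hx.1).differentiableAt.differentiableWithinAt
    · intro x hx
      rw [interior_Icc] at hx
      rw [(hd x hx.1).deriv]
      have := hc x hx.1 hx.2
      nlinarith [hx.1]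
  have h1 := hm (left_mem_Icc.2 hr) (right_mem_Icc.2 hr) hr
  simp only [zero_mul, ne_eq, OfNat.ofNat_ne_zero, not_false_eq_true, zero_pow, mul_zero,
    zero_div, sub_zero] at h1
  linarith

theorem u_ge {ρ ε : ℝ} {F : ℝ → ℝ} (h : Wall ρ ε F) {r : ℝ} (hr : 0 ≤ r) (hr' : r ≤ ρ) :
    0.4 * ε * r ≤ uu F r := by
  rcases hr.eq_or_lt with h0 | h0
  · rw [← h0, W1_u_zero]
    norm_num
  have hε := h.hε
  have h1 := W2_ru_ge h (c := 0.98 * ε) hr (fun t ht htr =>
    (W2_yq_zero h).trans (W2_yq_mono h le_rfl ht.le (htr.le.trans hr')))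
  have h2 : r * (0.4 * ε * r) ≤ r * uu F r := by
    have : 0 ≤ ε * r ^ 2 := by positivity
    nlinarith
  exact le_of_mul_le_mul_left h2 h0

theorem u'_ge {ρ ε : ℝ} {F : ℝ → ℝ} (h : Wall ρ ε F) {r : ℝ} (hr : 0 < r) (hr' : r ≤ ρ) :
    0.4 * ε ≤ yy F r * qq F r - uu F r / r := by
  have hε := h.hε
  have h1 := W2_ru_le h (c := yy F r * qq F r) hr.le (fun t ht htr =>
    W2_yq_mono h ht.le htr.le hr')
  have h2 := (W2_yq_zero h).trans (W2_yq_mono h le_rfl hr.le hr')
  have h3 : uu F r / r ≤ yy F r * qq F r / 2 := by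
    rw [div_le_iff₀ hr]
    have e1 : r * uu F r ≤ r * (yy F r * qq F r / 2 * r) := by nlinarith
    exact le_of_mul_le_mul_left e1 hr
  linarith

end Pool.MP_ad5d82_an.Wl
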