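import Pool.Agent.Lib.MP_ad5d82_an.h24.WDefs
import Pool.Agent.Lib.MP_ad5d82_an.Ode
import Pool.Agent.Lib.MP_ad5d82_an.Trunc

set_option autoImplicit false

namespace Pool.MP_ad5d82_an.Wl

open Real Set MeasureTheory
open scoped ContDiff

/-! ### W0 existence -/

open Pool.Agent.ChernSimons in
/-- a smooth bounded Lipschitz function equal to `e^v (e^v - 1)` for `v ≤ 0` -/
private theorem W0_exists_G : ∃ G : ℝ → ℝ, ContDiff ℝ ∞ G ∧ (∀ v, |G v| ≤ 6) ∧
    (∃ L : ℝ, 0 ≤ L ∧ ∀ v w, |G v - G w| ≤ L * |v - w|) ∧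
    ∀ v ≤ 0, G v = exp v * (exp v - 1) := by
  obtain ⟨L, hL0, hL⟩ := chi_lipschitz (B := 1) one_pos
  have hb : ∀ y, |chi 1 y| ≤ 2 := fun y => by simpa using abs_chi_le (B := 1) one_pos y
  refine ⟨fun v => chi 1 (exp v) * (chi 1 (exp v) - 1), ?_, ?_, ⟨L * 5, by positivity, ?_⟩, ?_⟩
  · have h1 : ContDiff ℝ ∞ fun v : ℝ => chi 1 (exp v) :=
      (chi_contDiff 1).comp Real.contDiff_exp
    exact h1.mul (h1.sub contDiff_const)
  · intro v
    rw [abs_mul]
    have h1 := hb (exp v)
    have h2 := abs_sub (chi 1 (exp v)) 1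
    rw [abs_one] at h2
    have h3 : |chi 1 (exp v) - 1| ≤ 3 := by linarith
    calc |chi 1 (exp v)| * |chi 1 (exp v) - 1| ≤ 2 * 3 :=
          mul_le_mul h1 h3 (abs_nonneg _) (by norm_num)
      _ = 6 := by norm_num
  · intro v w
    have h1 := hL 1 v w
    rw [one_mul, one_mul] at h1
    have e : chi 1 (exp v) * (chi 1 (exp v) - 1) - chi 1 (exp w) * (chi 1 (exp w) - 1) =
        (chi 1 (exp v) - chi 1 (exp w)) * (chi 1 (exp v) + chi 1 (exp w) - 1) := by ring
    rw [e, abs_mul]
    have h2 : |chi 1 (exp v) + chi 1 (exp w) - 1| ≤ 5 := by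
      have e1 := abs_sub (chi 1 (exp v) + chi 1 (exp w)) 1
      have e2 := abs_add_le (chi 1 (exp v)) (chi 1 (exp w))
      have e3 := hb (exp v)
      have e4 := hb (exp w)
      rw [abs_one] at e1
      linarith
    calc |chi 1 (exp v) - chi 1 (exp w)| * |chi 1 (exp v) + chi 1 (exp w) - 1|
        ≤ (L * |v - w|) * 5 := mul_le_mul h1 h2 (abs_nonneg _) (by positivity)
      _ = L * 5 * |v - w| := by ring
  · intro v hv
    have h1 : chi 1 (exp v) = exp v := by
      refine chi_eq one_pos ?_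
      rw [abs_of_pos (exp_pos v)]
      exact exp_le_one_iff.2 hv
    simp only [h1]

theorem exists_wall (ρ₀ : ℝ) : ∃ ρ ε F, ρ₀ ≤ ρ ∧ Wall ρ ε F := by
  obtain ⟨G, hGs, hGb, ⟨L, hL0, hL⟩, hG⟩ := W0_exists_G
  obtain ⟨R, hR⟩ : ∃ R : ℝ, R = max ρ₀ 100 := ⟨_, rfl⟩
  have hR1 : ρ₀ ≤ R := by rw [hR]; exact le_max_left _ _
  have hR2 : 100 ≤ R := by rw [hR]; exact le_max_right _ _
  have hlog2 : 0 < Real.log 2 := Real.log_pos (by norm_num)
  obtain ⟨ε, hε⟩ : ∃ ε : ℝ, ε = min (1 / 100) (Real.log 2 * exp (-(R ^ 2 / 4))) := ⟨_, rfl⟩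
  have hε0 : 0 < ε := by rw [hε]; exact lt_min (by norm_num) (by positivity)
  have hε1 : ε ≤ 1 / 100 := by rw [hε]; exact min_le_left _ _
  have hε2 : ε ≤ Real.log 2 * exp (-(R ^ 2 / 4)) := by rw [hε]; exact min_le_right _ _
  have hFs : ContDiff ℝ ∞ (Function.uncurry (fun (_ v : ℝ) => G v)) := hGs.comp contDiff_snd
  obtain ⟨g, hgc, hg0, hgd⟩ := Pool.Agent.ChernSimons.exists_solution (E := ℝ)
    (fun _ v => G v) hFs.continuous 6 (fun _ v => hGb v) L hL0 (fun _ v w => hL v w) (-ε)
  have hsm : ContDiff ℝ ∞ g := Pool.Agent.ChernSimons.contDiff_solution _ hFs g hgc hgd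
  have hgd' : ∀ t, HasDerivAt g (deriv g t) t := fun t =>
    ((hsm.differentiable (by simp)) t).hasDerivAt
  have hg2s : ContDiff ℝ ∞ (deriv g) := (contDiff_infty_iff_deriv.1 hsm).2
  have hgd2 : ∀ t, HasDerivAt (deriv g) (deriv (deriv g) t) t := fun t =>
    ((hg2s.differentiable (by simp)) t).hasDerivAt
  have hg'c : Continuous (deriv g) := hg2s.continuous
  -- `4 t g' = ∫ G(g)`
  have hGg : Continuous fun σ => G (g σ) := hGs.continuous.comp hgc
  have hP0 : ∀ t, 4 * t * deriv g t = ∫ σ in (0 : ℝ)..t, G (g σ) := by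
    intro t
    rw [(hgd t).deriv]
    have := intervalIntegral.smul_integral_comp_mul_left (a := 0) (b := 1)
      (fun σ => G (g σ)) t
    simp only [smul_eq_mul, mul_zero, mul_one] at this ⊢
    rw [← this]
    ring
  have hP : ∀ t, HasDerivAt (fun t => 4 * t * deriv g t) (G (g t)) t := by
    intro t
    rw [funext hP0]
    exact intervalIntegral.integral_hasDerivAt_right (hGg.intervalIntegrable _ _)
      (hGg.stronglyMeasurableAtFilter _ _) hGg.continuousAt
  have hPc : Continuous fun t => 4 * t * deriv g t := by fun_prop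
  have hGneg : ∀ v < 0, G v < 0 := by
    intro v hv
    rw [hG v hv.le]
    have h1 : exp v < 1 := exp_lt_one_iff.2 hv
    have h2 := exp_pos v
    nlinarith
  -- monotonicity as long as `g < 0`
  have hanti : ∀ T, (∀ t, 0 ≤ t → t < T → g t < 0) → AntitoneOn g (Icc 0 T) := by
    intro T hn
    have hPa : AntitoneOn (fun t => 4 * t * deriv g t) (Icc 0 T) := by
      refine antitoneOn_of_deriv_nonpos (convex_Icc 0 T) hPc.continuousOn ?_ ?_
      · intro t _
        exact (hP t).differentiableAt.differentiableWithinAt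
      · intro t ht
        rw [interior_Icc] at ht
        rw [(hP t).deriv]
        exact (hGneg _ (hn t ht.1.le ht.2)).le
    refine antitoneOn_of_deriv_nonpos (convex_Icc 0 T) hgc.continuousOn ?_ ?_
    · intro t _
      exact (hgd' t).differentiableAt.differentiableWithinAt
    · intro t ht
      rw [interior_Icc] at ht
      have h1 := hPa (left_mem_Icc.2 (ht.1.le.trans ht.2.le)) ⟨ht.1.le, ht.2.le⟩ ht.1.le
      simp only [mul_zero, zero_mul] at h1
      by_contra hcon
      push Not at hcon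
      nlinarith [ht.1]
  have hneg : ∀ t, 0 ≤ t → g t < 0 := by
    intro t ht
    by_contra hcon
    push Not at hcon
    obtain ⟨Z, hZ⟩ : ∃ Z : Set ℝ, Z = {t | 0 ≤ t ∧ 0 ≤ g t} := ⟨_, rfl⟩
    have hZc : IsClosed Z := by
      rw [hZ]
      exact (isClosed_le continuous_const continuous_id).inter (isClosed_le continuous_const hgc)
    have hZne : Z.Nonempty := ⟨t, by rw [hZ]; exact ⟨ht, hcon⟩⟩
    have hZb : BddBelow Z := ⟨0, fun x hx => by rw [hZ] at hx; exact hx.1⟩
    have hmem := hZc.csInf_mem hZne hZb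
    obtain ⟨T, hT⟩ : ∃ T : ℝ, T = sInf Z := ⟨_, rfl⟩
    rw [← hT, hZ] at hmem
    have hn : ∀ t, 0 ≤ t → t < T → g t < 0 := by
      intro x hx hxT
      by_contra hc
      push Not at hc
      have : T ≤ x := by
        rw [hT]
        exact csInf_le hZb (by rw [hZ]; exact ⟨hx, hc⟩)
      linarith
    have ha := hanti T hn (left_mem_Icc.2 hmem.1) (right_mem_Icc.2 hmem.1) hmem.1
    rw [hg0] at ha
    have := hmem.2
    linarith
  have hPa : StrictAntiOn (fun t => 4 * t * deriv g t) (Ici 0) := by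
    refine strictAntiOn_of_deriv_neg (convex_Ici 0) hPc.continuousOn ?_
    intro t ht
    rw [interior_Ici] at ht
    rw [(hP t).deriv]
    exact hGneg _ (hneg t (le_of_lt ht))
  have hg'neg : ∀ t, 0 < t → deriv g t ≤ 0 := by
    intro t ht
    have h1 := hPa.antitoneOn (mem_Ici.2 (le_refl (0 : ℝ))) (mem_Ici.2 ht.le) ht.le
    simp only [mul_zero, zero_mul] at h1
    by_contra hcon
    push Not at hcon
    nlinarith
  -- `g' ≥ g / 4`
  have hD : ∀ t, 0 ≤ t → 0 ≤ 4 * t * deriv g t - t * g t := by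
    intro t ht
    have hd : ∀ x, HasDerivAt (fun t => 4 * t * deriv g t - t * g t)
        (G (g x) - (1 * g x + x * deriv g x)) x := fun x =>
      (hP x).sub ((hasDerivAt_id x).mul (hgd' x))
    have hm : MonotoneOn (fun t => 4 * t * deriv g t - t * g t) (Ici 0) := by
      refine monotoneOn_of_deriv_nonneg (convex_Ici 0) (by fun_prop) ?_ ?_
      · intro x _
        exact (hd x).differentiableAt.differentiableWithinAt
      · intro x hx
        rw [interior_Ici] at hx
        have hx0 : 0 < x := hx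
        rw [(hd x).deriv]
        have h1 := hneg x hx0.le
        have h2 := hg'neg x hx0
        rw [hG _ h1.le]
        have h3 := add_one_le_exp (g x)
        have h4 : exp (g x) < 1 := exp_lt_one_iff.2 h1
        have h5 := exp_pos (g x)
        have h6 : g x ≤ exp (g x) * (exp (g x) - 1) := by nlinarith
        nlinarith
    have h1 := hm (mem_Ici.2 (le_refl (0 : ℝ))) (mem_Ici.2 ht) ht
    simpa using h1
  have hgr : ∀ t, 0 ≤ t → -(ε * exp (t / 4)) ≤ g t := by
    intro t ht
    have hd : ∀ x, HasDerivAt (fun t => g t * exp (-(t / 4)))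
        (deriv g x * exp (-(x / 4)) + g x * (exp (-(x / 4)) * -(1 / 4))) x := by
      intro x
      have h1 : HasDerivAt (fun t : ℝ => -(t / 4)) (-(1 / 4)) x :=
        ((hasDerivAt_id x).div_const 4).neg
      exact (hgd' x).mul h1.exp
    have hm : MonotoneOn (fun t => g t * exp (-(t / 4))) (Ici 0) := by
      refine monotoneOn_of_deriv_nonneg (convex_Ici 0) (by fun_prop) ?_ ?_
      · intro x _
        exact (hd x).differentiableAt.differentiableWithinAt
      · intro x hx
        rw [interior_Ici] at hx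
        have hx0 : 0 < x := hx
        rw [(hd x).deriv]
        have h1 := hD x hx0.le
        have h2 : 0 ≤ 4 * deriv g x - g x := by
          have e : 4 * x * deriv g x - x * g x = x * (4 * deriv g x - g x) := by ring
          rw [e] at h1
          exact nonneg_of_mul_nonneg_right h1 hx0
        have h3 := exp_pos (-(x / 4))
        nlinarith
    have h1 := hm (mem_Ici.2 (le_refl (0 : ℝ))) (mem_Ici.2 ht) ht
    simp only [hg0, zero_div, neg_zero, exp_zero, mul_one] at h1
    have h2 : g t = g t * exp (-(t / 4)) * exp (t / 4) := by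
      rw [mul_assoc, ← exp_add, neg_add_cancel, exp_zero, mul_one]
    rw [h2]
    have h3 := mul_le_mul_of_nonneg_right h1 (exp_pos (t / 4)).le
    linarith
  -- `g → -∞`
  obtain ⟨c, hc⟩ : ∃ c : ℝ, c = -(4 * 1 * deriv g 1) := ⟨_, rfl⟩
  have hc0 : 0 < c := by
    have h1 := hPa (mem_Ici.2 (le_refl (0 : ℝ))) (mem_Ici.2 zero_le_one) one_pos
    simp only [mul_zero, zero_mul] at h1
    rw [hc]
    linarith
  have hlog : ∀ t, 1 ≤ t → g t ≤ g 1 - c / 4 * Real.log t := by
    intro t ht
    have hd : ∀ x, 0 < x → HasDerivAt (fun t => g t + c / 4 * Real.log t)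
        (deriv g x + c / 4 * x⁻¹) x := fun x hx =>
      (hgd' x).add ((Real.hasDerivAt_log hx.ne').const_mul _)
    have hm : AntitoneOn (fun t => g t + c / 4 * Real.log t) (Ici 1) := by
      refine antitoneOn_of_deriv_nonpos (convex_Ici 1) ?_ ?_ ?_
      · intro x hx
        exact (hd x (lt_of_lt_of_le one_pos hx)).continuousAt.continuousWithinAt
      · intro x hx
        rw [interior_Ici] at hx
        exact (hd x (one_pos.trans hx)).differentiableAt.differentiableWithinAt
      · intro x hx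
        rw [interior_Ici] at hx
        have hx1 : 1 < x := hx
        have hx0 : 0 < x := by linarith
        rw [(hd x hx0).deriv]
        have h1 := hPa (mem_Ici.2 zero_le_one) (mem_Ici.2 hx0.le) hx1
        simp only at h1
        have h2 : c / 4 * x⁻¹ ≤ -deriv g x := by
          rw [← div_eq_mul_inv, div_le_iff₀ hx0]
          rw [hc]
          linarith
        linarith
    have h1 := hm (mem_Ici.2 (le_refl (1 : ℝ))) (mem_Ici.2 ht) ht
    simp only [Real.log_one, mul_zero, add_zero] at h1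
    linarith
  obtain ⟨T, hT1, hTg⟩ : ∃ T : ℝ, 1 ≤ T ∧ g T ≤ -Real.log 2 := by
    refine ⟨exp (4 * Real.log 2 / c), ?_, ?_⟩
    · exact one_le_exp (by positivity)
    · have h1 := hlog (exp (4 * Real.log 2 / c)) (one_le_exp (by positivity))
      rw [Real.log_exp] at h1
      have h2 : c / 4 * (4 * Real.log 2 / c) = Real.log 2 := by field_simp
      rw [h2] at h1
      have h3 := hneg 1 zero_le_one
      linarith
  have hε3 : -Real.log 2 ≤ g 0 := by
    rw [hg0]
    have := Real.log_two_gt_d9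
    linarith
  obtain ⟨τ, hτ, hgτ⟩ := intermediate_value_Icc' (by linarith : (0 : ℝ) ≤ T) hgc.continuousOn
    (show -Real.log 2 ∈ Icc (g T) (g 0) from ⟨hTg, hε3⟩)
  -- `R ^ 2 ≤ τ`
  have hτR : R ^ 2 ≤ τ := by
    by_contra hcon
    push Not at hcon
    have h1 := hgr τ hτ.1
    rw [hgτ] at h1
    have h2 : Real.log 2 ≤ ε * exp (τ / 4) := by linarith
    have h3 : ε * exp (τ / 4) ≤ Real.log 2 * exp (-(R ^ 2 / 4)) * exp (τ / 4) :=
      mul_le_mul_of_nonneg_right hε2 (exp_pos _).le
    have h4 : Real.log 2 * exp (-(R ^ 2 / 4)) * exp (τ / 4) =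
        Real.log 2 * exp ((τ - R ^ 2) / 4) := by
      rw [mul_assoc, ← exp_add]
      congr 2
      ring
    have h5 : exp ((τ - R ^ 2) / 4) < 1 := exp_lt_one_iff.2 (by linarith)
    nlinarith
  have hτ0 : 0 ≤ τ := hτ.1
  refine ⟨Real.sqrt τ, ε, g, ?_, ?_⟩
  · exact hR1.trans (Real.le_sqrt_of_sq_le hτR)
  · refine ⟨hε0, hε1, hR2.trans (Real.le_sqrt_of_sq_le hτR), hsm, hg0, ?_, ?_⟩
    · intro t ht
      rw [← hG _ (hneg t ht).le]
      have h1 : HasDerivAt (fun t => 4 * t * deriv g t)
          (4 * deriv g t + 4 * t * deriv (deriv g) t) t := by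
        have h3 : HasDerivAt (fun t : ℝ => 4 * t) 4 t := by
          simpa using (hasDerivAt_id t).const_mul (4 : ℝ)
        exact h3.mul (hgd2 t)
      have h2 := h1.unique (hP t)
      linarith
    · rw [Real.sq_sqrt hτ0]
      exact hgτ

end Pool.MP_ad5d82_an.Wl
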